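import Pool.Agent.Lib.MP_529713_gt.LatBasic

/-!
# Two points can be moved to the axis
-/

namespace Pool.Agent.Lib.MP_529713_gt

open Filter Topology Set Matrix
open scoped ContDiff NNReal

/-- the reflection of Minkowski space in the vector `v` -/
noncomputable def axisRefl (v : V4) : Matrix (Fin 4) (Fin 4) ℝ :=
  1 - (2 / eta v v) • Matrix.vecMulVec v ![-(v 0), v 1, v 2, v 3]

lemma axisRefl_mulVec (v w : V4) : axisRefl v *ᵥ w = w - (2 / eta v v * eta v w) • v := by
  ext i
  rw [axisRefl, Matrix.sub_mulVec, Matrix.one_mulVec, Matrix.smul_mulVec]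
  simp [Matrix.mulVec, dotProduct, Fin.sum_univ_four, eta]
  ring

lemma axis_eta_symm (v w : V4) : eta v w = eta w v := by simp only [eta]; ring

lemma axis_eta_sub (v w a b : V4) (c d : ℝ) :
    eta (v - c • a) (w - d • b) = eta v w - d * eta v b - c * eta a w + c * d * eta a b := by
  simp [eta]; ring

lemma axisRefl_isLor {v : V4} (hv : 0 < eta v v) : IsLor (axisRefl v) := by
  refine ⟨fun u w => ?_, ?_⟩
  · rw [axisRefl_mulVec, axisRefl_mulVec, axis_eta_sub, axis_eta_symm u v]
    field_simp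
    ring
  · simp [axisRefl]
    have : 0 ≤ v 0 * v 0 := mul_self_nonneg _
    have h2 : 0 ≤ 2 / eta v v := by positivity
    nlinarith [mul_nonneg h2 this]

lemma axisRefl_sq {v : V4} (hv : 0 < eta v v) : axisRefl v * axisRefl v = 1 := by
  have h : ∀ w, (axisRefl v * axisRefl v) *ᵥ w = (1 : Matrix (Fin 4) (Fin 4) ℝ) *ᵥ w := by
    intro w
    rw [← Matrix.mulVec_mulVec, axisRefl_mulVec, axisRefl_mulVec, Matrix.one_mulVec]
    have h1 : eta v (w - (2 / eta v v * eta v w) • v) = - eta v w := by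
      have := axis_eta_sub v w v v 0 (2 / eta v v * eta v w)
      simp at this
      rw [this]
      field_simp
      ring
    rw [h1]
    ext i
    simp
  exact Matrix.ext_of_mulVec_single fun i => h _

/-- a Lorentz involution which moves `x` to `y` and fixes all points at the same distance from both -/
lemma axis_swap (x y : V3) : ∃ A : Matrix (Fin 4) (Fin 4) ℝ, IsLor A ∧ A * A = 1 ∧ act A x = y ∧
    ∀ z, PP x z = PP y z → act A z = z := by
  by_cases hxy : x = y
  · refine ⟨1, isLor_one, by simp, by rw [act_one, hxy], fun z _ => act_one z⟩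
  have hPP : 1 < PP x y := by
    refine lt_of_le_of_ne (one_le_PP x y) fun h => hxy ?_
    apply dh_eq_zero
    have h1 := cosh_dh x y
    rw [← h] at h1
    by_contra hne
    exact absurd h1 (Real.one_lt_cosh.mpr hne).ne'
  have e : eta (lift x - lift y) (lift x - lift y) = 2 * PP x y - 2 := by
    have := axis_eta_sub (lift x) (lift x) (lift y) (lift y) 1 1
    simp only [one_smul, one_mul] at this
    rw [this, eta_lift_self, eta_lift_self, eta_lift, eta_lift, PP_comm y x]
    ring
  have hv : 0 < eta (lift x - lift y) (lift x - lift y) := by rw [e]; linarith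
  have e2 : ∀ z, eta (lift x - lift y) (lift z) = PP y z - PP x z := by
    intro z
    have := axis_eta_sub (lift x) (lift z) (lift y) (lift z) 1 0
    simp only [one_smul, one_mul, zero_smul, zero_mul, sub_zero, mul_zero, add_zero] at this
    rw [this, eta_lift, eta_lift]
    ring
  refine ⟨axisRefl (lift x - lift y), axisRefl_isLor hv, axisRefl_sq hv, ?_, ?_⟩
  · apply lift_inj
    rw [lift_act (axisRefl_isLor hv), axisRefl_mulVec, e, e2, lor_pp_self, PP_comm y x]
    have h0 : 2 * PP x y - 2 ≠ 0 := by linarith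
    have : 2 / (2 * PP x y - 2) * (PP x y - 1) = 1 := by
      have h3 : PP x y - 1 ≠ 0 := by linarith
      have h4 : 2 * PP x y - 2 = 2 * (PP x y - 1) := by ring
      rw [h4]
      field_simp
    rw [this]
    simp
  · intro z hz
    apply lift_inj
    rw [lift_act (axisRefl_isLor hv), axisRefl_mulVec, e2, hz]
    simp

lemma axis_hh (t : ℝ) : hh (ax t) = Real.cosh t := by
  have h1 := hh_sq (ax t)
  have h2 : ‖ax t‖ ^ 2 = Real.sinh t ^ 2 := by
    simp [ax]
  rw [h2] at h1
  have h3 := Real.cosh_sq t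
  have h4 := lor_hh_pos (ax t)
  have h5 := Real.cosh_pos t
  nlinarith

theorem to_axis (x y : V3) : ∃ A B : Matrix (Fin 4) (Fin 4) ℝ, IsLor A ∧ IsLor B ∧ A * B = 1 ∧
    B * A = 1 ∧ ∃ s t : ℝ, s ≤ t ∧ act A x = ax s ∧ act A y = ax t := by
  obtain ⟨C, hC, hC2, hCx, -⟩ := axis_swap x 0
  obtain ⟨D, hD, hD2, hDy, hDz⟩ := axis_swap (act C y) (ax (Real.arsinh ‖act C y‖))
  have h0 : act D 0 = 0 := by
    apply hDz
    have e1 : PP (act C y) 0 = hh (act C y) := by simp [PP, hh]
    have e2 : PP (ax (Real.arsinh ‖act C y‖)) 0 = hh (ax (Real.arsinh ‖act C y‖)) := by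
      simp [PP, hh]
    rw [e1, e2, axis_hh, Real.cosh_arsinh, hh]
  refine ⟨D * C, C * D, isLor_mul hD hC, isLor_mul hC hD, ?_, ?_, 0, Real.arsinh ‖act C y‖, ?_, ?_, ?_⟩
  · rw [Matrix.mul_assoc, ← Matrix.mul_assoc C C D, hC2, Matrix.one_mul, hD2]
  · rw [Matrix.mul_assoc, ← Matrix.mul_assoc D D C, hD2, Matrix.one_mul, hC2]
  · rw [Real.arsinh_nonneg_iff]; positivity
  · rw [act_mul hD hC, hCx, h0]
    ext i
    simp [ax]
  · rw [act_mul hD hC, hDy]

end Pool.Agent.Lib.MP_529713_gt
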