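import Pool.Agent.Lib.MP_529713_gt.LatBasic
import Pool.Agent.Lib.MP_529713_gt.Axis

section

/-!
# Length of curves and the triangle inequality
-/

namespace Pool.Agent.Lib.MP_529713_gt

set_option maxSynthPendingDepth 3

open Filter Topology Set Matrix
open scoped ContDiff NNReal

variable (G G' : RMetric)

/-- speed of a curve -/
noncomputable def speed (γ : ℝ → V3) (t : ℝ) : ℝ :=
  Real.sqrt (G.g (γ t) (deriv γ t) (deriv γ t))

lemma len_eq (γ : ℝ → V3) : len G γ = ∫ t in (0 : ℝ)..1, speed G γ t := rfl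

lemma speed_nonneg (γ : ℝ → V3) (t : ℝ) : 0 ≤ speed G γ t := Real.sqrt_nonneg _

variable {G} in
lemma speed_cont {γ : ℝ → V3} (hγ : ContDiff ℝ 1 γ) : Continuous (speed G γ) := by
  have c1 : Continuous γ := hγ.continuous
  have c2 : Continuous (deriv γ) := hγ.continuous_deriv le_rfl
  have c3 : Continuous fun t => G.g (γ t) := G.smooth.continuous.comp c1
  exact ((c3.clm_apply c2).clm_apply c2).sqrt

lemma speed_comp {γ : ℝ → V3} (hγ : ContDiff ℝ 1 γ) {σ : ℝ → ℝ} {s' t : ℝ}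
    (hσ : HasDerivAt σ s' t) : speed G (γ ∘ σ) t = |s'| * speed G γ (σ t) := by
  have h1 : HasDerivAt γ (deriv γ (σ t)) (σ t) :=
    ((hγ.differentiable one_ne_zero) (σ t)).hasDerivAt
  have h2 := h1.scomp t hσ
  unfold speed
  rw [h2.deriv]
  simp only [Function.comp_apply, map_smul, smul_eq_mul, _root_.smul_apply]
  rw [← mul_assoc, ← sq, Real.sqrt_mul (sq_nonneg _), Real.sqrt_sq_eq_abs]

lemma reparam {γ : ℝ → V3} (hγ : ContDiff ℝ 1 γ) {σ : ℝ → ℝ} (hσ : ContDiff ℝ 1 σ)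
    (hpos : ∀ t, 0 ≤ deriv σ t) (a b : ℝ) :
    ∫ t in a..b, speed G (γ ∘ σ) t = ∫ t in σ a..σ b, speed G γ t := by
  have hd : ∀ t, HasDerivAt σ (deriv σ t) t := fun t =>
    ((hσ.differentiable one_ne_zero) t).hasDerivAt
  rw [← intervalIntegral.integral_comp_mul_deriv (fun t _ => hd t)
    (hσ.continuous_deriv le_rfl).continuousOn (speed_cont (G := G) hγ)]
  refine intervalIntegral.integral_congr fun t _ => ?_
  simp only [Function.comp_apply]
  rw [speed_comp G hγ (hd t), abs_of_nonneg (hpos t), mul_comm]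

lemma len_nonneg (γ : ℝ → V3) : 0 ≤ len G γ :=
  intervalIntegral.integral_nonneg zero_le_one fun t _ => Real.sqrt_nonneg _

lemma rset_bdd (x y : V3) : BddBelow {l | ∃ γ : ℝ → V3, ContDiff ℝ 1 γ ∧ γ 0 = x ∧ γ 1 = y ∧
    l = len G γ} := by
  refine ⟨0, ?_⟩
  rintro l ⟨γ, -, -, -, rfl⟩
  exact len_nonneg G γ

lemma rset_nonempty (x y : V3) : {l | ∃ γ : ℝ → V3, ContDiff ℝ 1 γ ∧ γ 0 = x ∧ γ 1 = y ∧
    l = len G γ}.Nonempty := by
  refine ⟨_, fun t => x + t • (y - x), ?_, by simp, by simp, rfl⟩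
  exact contDiff_const.add (contDiff_id.smul contDiff_const)

lemma rdist_nonneg (x y : V3) : 0 ≤ rdist G x y := by
  refine le_csInf (rset_nonempty G x y) ?_
  rintro l ⟨γ, -, -, -, rfl⟩
  exact len_nonneg G γ

lemma rdist_le_len {γ : ℝ → V3} (hγ : ContDiff ℝ 1 γ) : rdist G (γ 0) (γ 1) ≤ len G γ :=
  csInf_le (rset_bdd G _ _) ⟨γ, hγ, rfl, rfl, rfl⟩

lemma exists_len_lt (x y : V3) {r : ℝ} (hr : rdist G x y < r) :
    ∃ γ : ℝ → V3, ContDiff ℝ 1 γ ∧ γ 0 = x ∧ γ 1 = y ∧ len G γ < r := by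
  obtain ⟨l, ⟨γ, h1, h2, h3, rfl⟩, hl⟩ := exists_lt_of_csInf_lt (rset_nonempty G x y) hr
  exact ⟨γ, h1, h2, h3, hl⟩

lemma rdist_self (x : V3) : rdist G x x = 0 := by
  refine le_antisymm ?_ (rdist_nonneg G x x)
  have h := rdist_le_len G (γ := fun _ : ℝ => x) contDiff_const
  refine h.trans (le_of_eq ?_)
  unfold len
  simp

lemma rdist_comm_le (x y : V3) : rdist G x y ≤ rdist G y x := by
  refine le_of_forall_gt_imp_ge_of_dense fun r hr => ?_
  obtain ⟨γ, h1, h2, h3, hl⟩ := exists_len_lt G y x hr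
  have hσ : ContDiff ℝ 1 fun t : ℝ => 1 - t := contDiff_const.sub contDiff_id
  have h4 := rdist_le_len G (h1.comp hσ)
  simp only [Function.comp_apply, sub_zero, sub_self, h2, h3] at h4
  refine h4.trans (le_trans (le_of_eq ?_) hl.le)
  rw [len_eq, len_eq]
  have h5 : ∀ t : ℝ, speed G (γ ∘ fun t => 1 - t) t = speed G γ (1 - t) := by
    intro t
    have := speed_comp G h1 ((hasDerivAt_id t).const_sub 1)
    simp only [id_eq, abs_neg, abs_one, one_mul] at this
    exact this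
  simp only [h5]
  rw [intervalIntegral.integral_comp_sub_left (fun t => speed G γ t) 1]
  simp

lemma rdist_comm (x y : V3) : rdist G x y = rdist G y x :=
  le_antisymm (rdist_comm_le G x y) (rdist_comm_le G y x)

lemma deriv_st_left {x : ℝ} (hx : x ≤ 0) : deriv Real.smoothTransition x = 0 := by
  refine IsLocalMin.deriv_eq_zero (Eventually.of_forall fun y => ?_)
  rw [Real.smoothTransition.zero_of_nonpos hx]
  exact Real.smoothTransition.nonneg y

lemma deriv_st_right {x : ℝ} (hx : 1 ≤ x) : deriv Real.smoothTransition x = 0 := by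
  refine IsLocalMax.deriv_eq_zero (Eventually.of_forall fun y => ?_)
  rw [Real.smoothTransition.one_of_one_le hx]
  exact Real.smoothTransition.le_one y

lemma deriv_st_nonneg (x : ℝ) : 0 ≤ deriv Real.smoothTransition x := by
  have h := ((Real.smoothTransition.contDiff (n := 1)).differentiable (by simp) x).hasDerivAt
  rw [hasDerivAt_iff_tendsto_slope] at h
  refine ge_of_tendsto h ?_
  filter_upwards [self_mem_nhdsWithin] with y hy
  rw [slope_def_field]
  rcases lt_or_gt_of_ne (show y ≠ x from hy) with h1 | h1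
  · exact div_nonneg_of_nonpos (by linarith [Real.smoothTransition.monotone h1.le]) (by linarith)
  · exact div_nonneg (by linarith [Real.smoothTransition.monotone h1.le]) (by linarith)

/-- Concatenation of curves. -/
lemma exists_concat {γ₁ γ₂ : ℝ → V3} (h₁ : ContDiff ℝ 1 γ₁) (h₂ : ContDiff ℝ 1 γ₂)
    (h : γ₁ 1 = γ₂ 0) : ∃ γ : ℝ → V3, ContDiff ℝ 1 γ ∧ γ 0 = γ₁ 0 ∧ γ 1 = γ₂ 1 ∧
      len G γ = len G γ₁ + len G γ₂ := by
  set S := Real.smoothTransition with hS
  have hSc : ContDiff ℝ 1 S := Real.smoothTransition.contDiff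
  have hSd : ∀ x, HasDerivAt S (deriv S x) x := fun x => (hSc.differentiable one_ne_zero x).hasDerivAt
  set σ₁ : ℝ → ℝ := fun t => S (2 * t) with hσ₁
  set σ₂ : ℝ → ℝ := fun t => S (2 * t - 1) with hσ₂
  have c₁ : ContDiff ℝ 1 σ₁ := hSc.comp (contDiff_const.mul contDiff_id)
  have c₂ : ContDiff ℝ 1 σ₂ := hSc.comp ((contDiff_const.mul contDiff_id).sub contDiff_const)
  have d₁ : ∀ t, HasDerivAt σ₁ (deriv S (2 * t) * 2) t := fun t => by
    have h1 : HasDerivAt (fun t : ℝ => 2 * t) 2 t := by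
      simpa using (hasDerivAt_id t).const_mul (2 : ℝ)
    exact (hSd _).comp t h1
  have d₂ : ∀ t, HasDerivAt σ₂ (deriv S (2 * t - 1) * 2) t := fun t => by
    have h1 : HasDerivAt (fun t : ℝ => 2 * t - 1) 2 t := by
      simpa using ((hasDerivAt_id t).const_mul (2 : ℝ)).sub_const 1
    exact (hSd _).comp t h1
  set γ : ℝ → V3 := fun t => (γ₁ ∘ σ₁) t + (γ₂ ∘ σ₂) t - γ₁ 1 with hγ
  have e₁ : ContDiff ℝ 1 (γ₁ ∘ σ₁) := h₁.comp c₁
  have e₂ : ContDiff ℝ 1 (γ₂ ∘ σ₂) := h₂.comp c₂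
  have hγc : ContDiff ℝ 1 γ := (e₁.add e₂).sub contDiff_const
  have hd₁ : ∀ t, HasDerivAt (γ₁ ∘ σ₁) ((deriv S (2 * t) * 2) • deriv γ₁ (σ₁ t)) t := fun t =>
    (((h₁.differentiable one_ne_zero) (σ₁ t)).hasDerivAt).scomp t (d₁ t)
  have hd₂ : ∀ t, HasDerivAt (γ₂ ∘ σ₂) ((deriv S (2 * t - 1) * 2) • deriv γ₂ (σ₂ t)) t := fun t =>
    (((h₂.differentiable one_ne_zero) (σ₂ t)).hasDerivAt).scomp t (d₂ t)
  have hd : ∀ t, HasDerivAt γ ((deriv S (2 * t) * 2) • deriv γ₁ (σ₁ t) +
      (deriv S (2 * t - 1) * 2) • deriv γ₂ (σ₂ t)) t := fun t =>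
    ((hd₁ t).add (hd₂ t)).sub_const _
  -- first half
  have f1 : ∀ t, t ≤ 1 / 2 → speed G γ t = speed G (γ₁ ∘ σ₁) t := by
    intro t ht
    have a1 : σ₂ t = 0 := Real.smoothTransition.zero_of_nonpos (by linarith)
    have a2 : γ t = (γ₁ ∘ σ₁) t := by
      rw [hγ]
      simp only [Function.comp_apply, a1, ← h]
      abel
    have a3 : deriv γ t = deriv (γ₁ ∘ σ₁) t := by
      rw [(hd t).deriv, (hd₁ t).deriv, deriv_st_left (by linarith : 2 * t - 1 ≤ 0)]
      simp
    unfold speed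
    rw [a2, a3]
  have f2 : ∀ t, 1 / 2 ≤ t → speed G γ t = speed G (γ₂ ∘ σ₂) t := by
    intro t ht
    have a1 : σ₁ t = 1 := Real.smoothTransition.one_of_one_le (by linarith)
    have a2 : γ t = (γ₂ ∘ σ₂) t := by
      rw [hγ]
      simp only [Function.comp_apply, a1]
      abel
    have a3 : deriv γ t = deriv (γ₂ ∘ σ₂) t := by
      rw [(hd t).deriv, (hd₂ t).deriv, deriv_st_right (by linarith : 1 ≤ 2 * t)]
      simp
    unfold speed
    rw [a2, a3]
  refine ⟨γ, hγc, ?_, ?_, ?_⟩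
  · have a1 : σ₁ 0 = 0 := by simp [hσ₁, hS]
    have a2 : σ₂ 0 = 0 := Real.smoothTransition.zero_of_nonpos (by norm_num)
    rw [hγ]
    simp only [Function.comp_apply, a1, a2, ← h]
    abel
  · have a1 : σ₁ 1 = 1 := Real.smoothTransition.one_of_one_le (by norm_num)
    have a2 : σ₂ 1 = 1 := Real.smoothTransition.one_of_one_le (by norm_num)
    rw [hγ]
    simp only [Function.comp_apply, a1, a2]
    abel
  · rw [len_eq, len_eq, len_eq]
    rw [← intervalIntegral.integral_add_adjacent_intervals (b := 1 / 2)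
      ((speed_cont hγc).intervalIntegrable _ _) ((speed_cont hγc).intervalIntegrable _ _)]
    congr 1
    · rw [intervalIntegral.integral_congr (g := speed G (γ₁ ∘ σ₁)) (fun t ht => f1 t (by
        rw [uIcc_of_le (by norm_num)] at ht; exact ht.2))]
      rw [reparam G h₁ c₁ (fun t => by
        rw [(d₁ t).deriv]; exact mul_nonneg (deriv_st_nonneg _) (by norm_num))]
      have a1 : σ₁ 0 = 0 := by simp [hσ₁, hS]
      have a2 : σ₁ (1 / 2) = 1 := Real.smoothTransition.one_of_one_le (by norm_num)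
      rw [a1, a2]
    · rw [intervalIntegral.integral_congr (g := speed G (γ₂ ∘ σ₂)) (fun t ht => f2 t (by
        rw [uIcc_of_le (by norm_num)] at ht; exact ht.1))]
      rw [reparam G h₂ c₂ (fun t => by
        rw [(d₂ t).deriv]; exact mul_nonneg (deriv_st_nonneg _) (by norm_num))]
      have a1 : σ₂ (1 / 2) = 0 := Real.smoothTransition.zero_of_nonpos (by norm_num)
      have a2 : σ₂ 1 = 1 := Real.smoothTransition.one_of_one_le (by norm_num)
      rw [a1, a2]

lemma rdist_tri (x y z : V3) : rdist G x z ≤ rdist G x y + rdist G y z := by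
  refine le_of_forall_pos_le_add fun ε hε => ?_
  obtain ⟨γ₁, a1, a2, a3, a4⟩ := exists_len_lt G x y (r := rdist G x y + ε / 2) (by linarith)
  obtain ⟨γ₂, b1, b2, b3, b4⟩ := exists_len_lt G y z (r := rdist G y z + ε / 2) (by linarith)
  obtain ⟨γ, c1, c2, c3, c4⟩ := exists_concat G a1 b1 (by rw [a3, b2])
  have := rdist_le_len G c1
  rw [c2, c3, a2, b3] at this
  linarith

/-- the distance between two points of a curve -/
lemma rdist_le_arc {γ : ℝ → V3} (hγ : ContDiff ℝ 1 γ) {s t : ℝ} (hst : s ≤ t) :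
    rdist G (γ s) (γ t) ≤
      ∫ τ in s..t, Real.sqrt (G.g (γ τ) (deriv γ τ) (deriv γ τ)) := by
  set σ : ℝ → ℝ := fun τ => s + (t - s) * τ with hσ
  have c : ContDiff ℝ 1 σ := contDiff_const.add (contDiff_const.mul contDiff_id)
  have hd : ∀ τ, HasDerivAt σ (t - s) τ := fun τ => by
    have := ((hasDerivAt_id τ).const_mul (t - s)).const_add s
    rw [mul_one] at this
    exact this
  have h1 := rdist_le_len G (hγ.comp c)
  have e0 : σ 0 = s := by simp [hσ]
  have e1 : σ 1 = t := by simp [hσ]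
  simp only [Function.comp_apply, e0, e1] at h1
  refine h1.trans (le_of_eq ?_)
  rw [len_eq, reparam G hγ c (fun τ => by rw [(hd τ).deriv]; linarith), e0, e1]
  rfl

lemma rdist_mono {μ : ℝ} (hμ : 0 ≤ μ) (h : ∀ x u, G.g x u u ≤ μ ^ 2 * G'.g x u u) (x y : V3) :
    rdist G x y ≤ μ * rdist G' x y := by
  refine le_of_forall_pos_le_add fun ε hε => ?_
  obtain ⟨γ, a1, a2, a3, a4⟩ := exists_len_lt G' x y (r := rdist G' x y + ε / (μ + 1)) (by
    have : 0 < ε / (μ + 1) := by positivity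
    linarith)
  have h1 := rdist_le_len G a1
  rw [a2, a3] at h1
  have h2 : len G γ ≤ μ * len G' γ := by
    rw [len_eq, len_eq, ← intervalIntegral.integral_const_mul]
    refine intervalIntegral.integral_mono_on zero_le_one
      ((speed_cont a1).intervalIntegrable _ _)
      (((speed_cont a1).const_mul μ).intervalIntegrable _ _) fun t _ => ?_
    unfold speed
    refine (Real.sqrt_le_sqrt (h _ _)).trans ?_
    rw [Real.sqrt_mul (sq_nonneg μ), Real.sqrt_sq hμ]
  have h3 : μ * len G' γ ≤ μ * (rdist G' x y + ε / (μ + 1)) :=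
    mul_le_mul_of_nonneg_left a4.le hμ
  have h4 : μ * (ε / (μ + 1)) ≤ ε := by
    rw [← mul_div_assoc, div_le_iff₀ (by positivity)]
    nlinarith
  linarith [mul_add μ (rdist G' x y) (ε / (μ + 1))]

end Pool.Agent.Lib.MP_529713_gt
end

section

/-!
# The warping function
-/

namespace Pool.Agent.Lib.MP_529713_gt

open Filter Topology Set Matrix
open scoped ContDiff NNReal

variable {m : ℝ → ℝ} {δ a : ℝ}

lemma IsMu.one_le (hm : IsMu m) (x : ℝ) : 1 ≤ m x := by
  rcases le_total x (9 / 10) with h | h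
  · rw [hm.left x h]
  · have := hm.mono h
    rwa [hm.left _ le_rfl] at this

lemma IsMu.diff (hm : IsMu m) : Differentiable ℝ m := hm.smooth.differentiable (by simp)

lemma IsMu.deriv_smooth (hm : IsMu m) : ContDiff ℝ ∞ (deriv m) :=
  (contDiff_infty_iff_deriv.1 hm.smooth).2

lemma IsMu.hasDeriv (hm : IsMu m) (x : ℝ) : HasDerivAt m (deriv m x) x :=
  (hm.diff x).hasDerivAt

lemma IsMu.hasDeriv2 (hm : IsMu m) (x : ℝ) : HasDerivAt (deriv m) (deriv (deriv m) x) x :=
  ((hm.deriv_smooth.differentiable (by simp)) x).hasDerivAt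

lemma IsMu.ge_self (hm : IsMu m) (x : ℝ) : x ≤ m x := by
  rcases le_total (11 / 10) x with h | h
  · exact (hm.right x h).ge
  · have hd : ∀ y, HasDerivAt (fun y => m y - y) (deriv m y - 1) y := fun y =>
      (hm.hasDeriv y).sub (hasDerivAt_id y)
    have ha : Antitone fun y => m y - y := by
      refine antitone_of_deriv_nonpos (fun y => (hd y).differentiableAt) fun y => ?_
      rw [(hd y).deriv]
      linarith [hm.deriv_le y]
    have h1 := ha h
    simp only [hm.right (11 / 10) le_rfl, sub_self] at h1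
    linarith

lemma IsMu.deriv_nonneg (hm : IsMu m) (x : ℝ) : 0 ≤ deriv m x := by
  have h1 : deriv m (min x 0) ≤ deriv m x := hm.deriv_mono (min_le_left _ _)
  have h2 : deriv m (min x 0) = 0 := by
    have h3 : m =ᶠ[𝓝 (min x 0)] fun _ => 1 := by
      have : Iio (9 / 10 : ℝ) ∈ 𝓝 (min x 0) :=
        Iio_mem_nhds (lt_of_le_of_lt (min_le_right _ _) (by norm_num))
      filter_upwards [this] with y hy
      exact hm.left y (le_of_lt hy)
    rw [h3.deriv_eq]
    simp
  linarith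

lemma IsMu.deriv2_nonneg (hm : IsMu m) (x : ℝ) : 0 ≤ deriv (deriv m) x := by
  have h := hm.hasDeriv2 x
  rw [hasDerivAt_iff_tendsto_slope] at h
  refine ge_of_tendsto h ?_
  filter_upwards [self_mem_nhdsWithin] with y hy
  rw [slope_def_field]
  rcases lt_or_gt_of_ne (show y ≠ x from hy) with h1 | h1
  · exact div_nonneg_of_nonpos (by linarith [hm.deriv_mono h1.le]) (by linarith)
  · exact div_nonneg (by linarith [hm.deriv_mono h1.le]) (by linarith)

lemma IsMu.key (hm : IsMu m) {x : ℝ} (hx : 0 ≤ x) : 0 ≤ m x - x * deriv m x := by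
  have h1 := hm.ge_self x
  have h2 : x * deriv m x ≤ x * 1 := mul_le_mul_of_nonneg_left (hm.deriv_le x) hx
  linarith

theorem WW_smooth (hm : IsMu m) : ContDiff ℝ ∞ (WW m δ a) := by
  unfold WW
  refine Real.contDiff_cosh.mul (hm.smooth.comp ?_)
  refine ContDiff.div ?_ Real.contDiff_cosh fun r => (Real.cosh_pos r).ne'
  exact contDiff_const.mul (Real.contDiff_cosh.comp (contDiff_id.div_const a))

theorem WW_pos (hm : IsMu m) (r : ℝ) : 0 < WW m δ a r :=
  mul_pos (Real.cosh_pos r) (lt_of_lt_of_le one_pos (hm.one_le _))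

/-- the quotient -/
noncomputable def FF (δ a r : ℝ) : ℝ := δ * a * Real.cosh (r / a) / Real.cosh r

lemma FF_pos (ha : 0 < a) (hδ : 0 < δ) (r : ℝ) : 0 < FF δ a r := by
  unfold FF
  have := Real.cosh_pos (r / a)
  have := Real.cosh_pos r
  positivity

lemma hasDeriv_A (ha : 0 < a) (r : ℝ) :
    HasDerivAt (fun r => δ * a * Real.cosh (r / a)) (δ * Real.sinh (r / a)) r := by
  have h1 : HasDerivAt (fun r : ℝ => r / a) (1 / a) r := (hasDerivAt_id r).div_const a
  have h2 := (h1.cosh).const_mul (δ * a)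
  refine h2.congr_deriv ?_
  field_simp

lemma hasDeriv_A' (ha : 0 < a) (r : ℝ) :
    HasDerivAt (fun r => δ * Real.sinh (r / a)) (δ * a * Real.cosh (r / a) / a ^ 2) r := by
  have h1 : HasDerivAt (fun r : ℝ => r / a) (1 / a) r := (hasDerivAt_id r).div_const a
  have h2 := (h1.sinh).const_mul δ
  refine h2.congr_deriv ?_
  field_simp

/-- derivative of the quotient times `cosh` -/
noncomputable def NN (δ a r : ℝ) : ℝ := δ * Real.sinh (r / a) - FF δ a r * Real.sinh r

lemma hasDeriv_FF (ha : 0 < a) (r : ℝ) :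
    HasDerivAt (FF δ a) (NN δ a r / Real.cosh r) r := by
  have h := (hasDeriv_A (δ := δ) ha r).div (Real.hasDerivAt_cosh r) (Real.cosh_pos r).ne'
  refine h.congr_deriv ?_
  unfold NN FF
  have := (Real.cosh_pos r).ne'
  field_simp

lemma hasDeriv_WW (hm : IsMu m) (ha : 0 < a) (r : ℝ) : HasDerivAt (WW m δ a)
    (Real.sinh r * m (FF δ a r) + deriv m (FF δ a r) * NN δ a r) r := by
  have h1 : HasDerivAt (fun r => m (FF δ a r)) (deriv m (FF δ a r) * (NN δ a r / Real.cosh r)) r :=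
    (hm.hasDeriv _).comp r (hasDeriv_FF ha r)
  have h2 := (Real.hasDerivAt_cosh r).mul h1
  refine h2.congr_deriv ?_
  have := (Real.cosh_pos r).ne'
  field_simp

lemma deriv_WW (hm : IsMu m) (ha : 0 < a) : deriv (WW m δ a) = fun r =>
    Real.sinh r * m (FF δ a r) + deriv m (FF δ a r) * NN δ a r := by
  ext r
  exact (hasDeriv_WW hm ha r).deriv

lemma hasDeriv_NN (ha : 0 < a) (r : ℝ) : HasDerivAt (NN δ a)
    (δ * a * Real.cosh (r / a) / a ^ 2 - (NN δ a r / Real.cosh r * Real.sinh r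
      + FF δ a r * Real.cosh r)) r :=
  (hasDeriv_A' ha r).sub ((hasDeriv_FF ha r).mul (Real.hasDerivAt_sinh r))

lemma deriv2_WW (hm : IsMu m) (ha : 0 < a) (r : ℝ) : deriv (deriv (WW m δ a)) r =
    Real.cosh r * m (FF δ a r) + deriv (deriv m) (FF δ a r) * NN δ a r ^ 2 / Real.cosh r +
      deriv m (FF δ a r) * (δ * a * Real.cosh (r / a) / a ^ 2 - FF δ a r * Real.cosh r) := by
  rw [deriv_WW hm ha]
  have h1 : HasDerivAt (fun r => m (FF δ a r)) (deriv m (FF δ a r) * (NN δ a r / Real.cosh r)) r :=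
    (hm.hasDeriv _).comp r (hasDeriv_FF ha r)
  have h2 : HasDerivAt (fun r => deriv m (FF δ a r))
      (deriv (deriv m) (FF δ a r) * (NN δ a r / Real.cosh r)) r :=
    (hm.hasDeriv2 _).comp r (hasDeriv_FF ha r)
  have h3 := ((Real.hasDerivAt_sinh r).mul h1).add (h2.mul (hasDeriv_NN (δ := δ) ha r))
  refine (HasDerivAt.deriv (h3.congr_deriv ?_))
  have := (Real.cosh_pos r).ne'
  field_simp
  ring

theorem WW_convex (hm : IsMu m) (ha : 3 / 2 ≤ a) (hδ : 0 < δ) (r : ℝ) :
    WW m δ a r / a ^ 2 ≤ deriv (deriv (WW m δ a)) r := by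
  have ha0 : 0 < a := by linarith
  rw [deriv2_WW hm ha0]
  have hc := Real.cosh_pos r
  have e1 : FF δ a r * Real.cosh r = δ * a * Real.cosh (r / a) := by
    unfold FF; field_simp
  have e2 : WW m δ a r = Real.cosh r * m (FF δ a r) := rfl
  have k1 := hm.key (FF_pos ha0 hδ r).le
  have k2 : 0 ≤ deriv (deriv m) (FF δ a r) * NN δ a r ^ 2 / Real.cosh r :=
    div_nonneg (mul_nonneg (hm.deriv2_nonneg _) (sq_nonneg _)) hc.le
  have k3 : 1 / a ^ 2 ≤ 1 := by
    rw [div_le_one (by positivity)]; nlinarith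
  have k4 : 0 ≤ (1 - 1 / a ^ 2) * (Real.cosh r * (m (FF δ a r) - FF δ a r * deriv m (FF δ a r))) :=
    mul_nonneg (by linarith) (mul_nonneg hc.le k1)
  rw [e2, ← e1]
  have e3 : Real.cosh r * m (FF δ a r) + deriv (deriv m) (FF δ a r) * NN δ a r ^ 2 / Real.cosh r +
      deriv m (FF δ a r) * (FF δ a r * Real.cosh r / a ^ 2 - FF δ a r * Real.cosh r) -
      Real.cosh r * m (FF δ a r) / a ^ 2 =
      deriv (deriv m) (FF δ a r) * NN δ a r ^ 2 / Real.cosh r +
      (1 - 1 / a ^ 2) * (Real.cosh r * (m (FF δ a r) - FF δ a r * deriv m (FF δ a r))) := by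
    ring
  linarith

lemma deriv_WW_nonneg (hm : IsMu m) (ha : 0 < a) (hδ : 0 < δ) {r : ℝ} (hr : 0 ≤ r) :
    0 ≤ deriv (WW m δ a) r := by
  rw [deriv_WW hm ha]
  simp only
  have h1 : 0 ≤ Real.sinh r := Real.sinh_nonneg_iff.2 hr
  have h2 : 0 ≤ Real.sinh (r / a) := Real.sinh_nonneg_iff.2 (by positivity)
  have k1 := hm.key (FF_pos ha hδ r).le
  have k2 := hm.deriv_nonneg (FF δ a r)
  have e : Real.sinh r * m (FF δ a r) + deriv m (FF δ a r) * NN δ a r =
      Real.sinh r * (m (FF δ a r) - FF δ a r * deriv m (FF δ a r)) +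
        deriv m (FF δ a r) * (δ * Real.sinh (r / a)) := by
    unfold NN; ring
  rw [e]
  positivity

lemma WW_even (r : ℝ) : WW m δ a (-r) = WW m δ a r := by
  unfold WW
  rw [neg_div, Real.cosh_neg, Real.cosh_neg]

lemma FF_zero : FF δ a 0 = δ * a := by simp [FF]

theorem WW_tan (hm : IsMu m) (ha : 3 / 2 ≤ a) (hδ : 0 < δ) (hδ1 : δ ≤ 1)
    (hδa : 6 / 5 ≤ δ * a) (r : ℝ) :
    WW m δ a r ^ 2 / a ^ 2 ≤ 1 + deriv (WW m δ a) r ^ 2 := by
  have ha0 : 0 < a := by linarith
  set Φ : ℝ → ℝ := fun r => 1 + deriv (WW m δ a) r ^ 2 - WW m δ a r ^ 2 / a ^ 2 with hΦ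
  have hsm := WW_smooth (δ := δ) (a := a) hm
  have hd1 : ∀ r, HasDerivAt (WW m δ a) (deriv (WW m δ a) r) r := fun r =>
    ((hsm.differentiable (by simp)) r).hasDerivAt
  have hd2 : ∀ r, HasDerivAt (deriv (WW m δ a)) (deriv (deriv (WW m δ a)) r) r := fun r =>
    ((((contDiff_infty_iff_deriv.1 hsm).2).differentiable (by simp)) r).hasDerivAt
  have hdΦ : ∀ r, HasDerivAt Φ
      (2 * deriv (WW m δ a) r * (deriv (deriv (WW m δ a)) r - WW m δ a r / a ^ 2)) r := by
    intro r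
    have h1 := (((hd2 r).pow 2).const_add 1).sub (((hd1 r).pow 2).div_const (a ^ 2))
    refine h1.congr_deriv ?_
    ring
  have hmono : MonotoneOn Φ (Ici 0) := by
    refine monotoneOn_of_deriv_nonneg (convex_Ici 0)
      (fun r _ => (hdΦ r).continuousAt.continuousWithinAt)
      (fun r _ => (hdΦ r).differentiableAt.differentiableWithinAt) fun r hr => ?_
    rw [interior_Ici] at hr
    rw [(hdΦ r).deriv]
    have h1 := deriv_WW_nonneg hm ha0 hδ (le_of_lt hr)
    have h2 := WW_convex hm ha hδ r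
    have h3 : 0 ≤ deriv (deriv (WW m δ a)) r - WW m δ a r / a ^ 2 := by linarith
    positivity
  have h0 : 0 ≤ Φ 0 := by
    rw [hΦ]
    simp only
    rw [deriv_WW hm ha0]
    have e1 : NN δ a 0 = 0 := by simp [NN]
    have e2 : WW m δ a 0 = δ * a := by
      have : WW m δ a 0 = m (FF δ a 0) := by simp [WW, FF]
      rw [this, FF_zero, hm.right _ (by linarith)]
    rw [e2]
    simp only [Real.sinh_zero, e1]
    have e3 : (δ * a) ^ 2 / a ^ 2 = δ ^ 2 := by field_simp
    rw [e3]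
    nlinarith
  have hpos : ∀ r, 0 ≤ r → 0 ≤ Φ r := fun r hr => h0.trans (hmono self_mem_Ici hr hr)
  have heven : Φ (-r) = Φ r := by
    have h1 : deriv (WW m δ a) (-r) = - deriv (WW m δ a) r := by
      have h2 : HasDerivAt (fun x => WW m δ a (-x)) (-deriv (WW m δ a) (-r)) r := by
        have := (hd1 (-r)).comp r (hasDerivAt_neg r)
        rw [mul_neg_one] at this
        exact this
      have h3 : (fun x => WW m δ a (-x)) = WW m δ a := funext WW_even
      rw [h3] at h2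
      have := h2.deriv
      linarith
    rw [hΦ]
    simp only
    rw [h1, WW_even]
    ring
  have : 0 ≤ Φ r := by
    rcases le_total 0 r with h | h
    · exact hpos r h
    · rw [← heven]; exact hpos (-r) (by linarith)
  rw [hΦ] at this
  simp only at this
  linarith

theorem WW_zero (hm : IsMu m) (ha : 3 / 2 ≤ a) (hδ : 0 < δ) (hδa : 6 / 5 ≤ δ * a) :
    ∀ᶠ r in 𝓝 (0 : ℝ), WW m δ a r = δ * a * Real.cosh (r / a) := by
  have ha0 : 0 < a := by linarith
  have hc : ContinuousAt (FF δ a) 0 := (hasDeriv_FF ha0 0).continuousAt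
  have h1 : ∀ᶠ r in 𝓝 (0 : ℝ), 11 / 10 < FF δ a r := by
    refine hc.eventually (lt_mem_nhds ?_)
    rw [FF_zero]; linarith
  filter_upwards [h1] with r hr
  have : WW m δ a r = Real.cosh r * m (FF δ a r) := rfl
  rw [this, hm.right _ hr.le]
  unfold FF
  have := (Real.cosh_pos r).ne'
  field_simp

end Pool.Agent.Lib.MP_529713_gt
end

section

/-!
# Hyperbolic length
-/

namespace Pool.Agent.Lib.MP_529713_gt

open Filter Topology Set Matrix
open scoped ContDiff NNReal

lemma hl_lift_ax (t : ℝ) : lift (ax t) = ![Real.cosh t, Real.sinh t, 0, 0] := by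
  rw [lift, axis_hh]
  simp [ax]

lemma hl_PP_ax (s t : ℝ) : PP (ax s) (ax t) = Real.cosh (t - s) := by
  have h := eta_lift (ax s) (ax t)
  rw [hl_lift_ax, hl_lift_ax] at h
  simp [eta] at h
  rw [Real.cosh_sub]
  linarith

lemma hl_dh_ax {s t : ℝ} (h : s ≤ t) : dh (ax s) (ax t) = t - s := by
  rw [dh, hl_PP_ax, Real.arcosh_cosh (by linarith)]

/-- the signed distance of the projection to the axis, along a curve -/
noncomputable def hlS (q : ℝ → V3) (t : ℝ) : ℝ :=
  Real.arsinh (q t 0 / Real.sqrt (1 + q t 1 ^ 2 + q t 2 ^ 2))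

lemma hl_coord {q : ℝ → V3} (hq : ContDiff ℝ 1 q) (i : Fin 3) : ContDiff ℝ 1 fun t => q t i :=
  contDiff_euclidean.1 hq i

lemma hl_coord_deriv {q : ℝ → V3} (hq : ContDiff ℝ 1 q) (i : Fin 3) (t : ℝ) :
    HasDerivAt (fun t => q t i) (deriv q t i) t := by
  have h : HasDerivAt q (deriv q t) t := (hq.differentiable one_ne_zero t).hasDerivAt
  exact ((EuclideanSpace.proj i : V3 →L[ℝ] ℝ).hasFDerivAt.comp_hasDerivAt t h)

lemma hlS_contDiff {q : ℝ → V3} (hq : ContDiff ℝ 1 q) : ContDiff ℝ 1 (hlS q) := by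
  have h0 := hl_coord hq 0
  have h1 := hl_coord hq 1
  have h2 := hl_coord hq 2
  have hM : ContDiff ℝ 1 fun t => Real.sqrt (1 + q t 1 ^ 2 + q t 2 ^ 2) := by
    apply ContDiff.sqrt
    · exact (contDiff_const.add (h1.pow 2)).add (h2.pow 2)
    · intro t; positivity
  have := h0.div hM (fun t => (by positivity))
  exact Real.contDiff_arsinh.comp this

lemma hl_alg {p0 p1 p2 u0 u1 u2 M h : ℝ} (hM : 0 < M) (hM2 : M ^ 2 = 1 + p1 ^ 2 + p2 ^ 2)
    (hh0 : 0 < h) (hh2 : h ^ 2 = M ^ 2 + p0 ^ 2) :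
    ((u0 - p0 * (p1 * u1 + p2 * u2) / M ^ 2) / h) ^ 2 ≤
      u0 * u0 + u1 * u1 + u2 * u2 - (p0 * u0 + p1 * u1 + p2 * u2) * (p0 * u0 + p1 * u1 + p2 * u2) / h ^ 2 := by
  set m := p1 * u1 + p2 * u2 with hm
  set N := u1 ^ 2 + u2 ^ 2 with hN
  have hcs : m ^ 2 ≤ M ^ 2 * N := by
    rw [hM2, hm, hN]
    nlinarith [sq_nonneg (p1 * u2 - p2 * u1), sq_nonneg u1, sq_nonneg u2]
  have key : h ^ 2 * (u0 * u0 + u1 * u1 + u2 * u2 -
      (p0 * u0 + p1 * u1 + p2 * u2) * (p0 * u0 + p1 * u1 + p2 * u2) / h ^ 2) -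
      h ^ 2 * ((u0 - p0 * m / M ^ 2) / h) ^ 2 =
      (M ^ 2 - 1) * (u0 - p0 * m / M ^ 2) ^ 2 + (M ^ 2 * N - m ^ 2) * (1 + p0 ^ 2 / M ^ 2) := by
    have e1 : p0 * u0 + p1 * u1 + p2 * u2 = p0 * u0 + m := by rw [hm]; ring
    have e2 : u0 * u0 + u1 * u1 + u2 * u2 = u0 ^ 2 + N := by rw [hN]; ring
    rw [e1, e2]
    have e3 : h ^ 2 * (u0 ^ 2 + N - (p0 * u0 + m) * (p0 * u0 + m) / h ^ 2) =
        h ^ 2 * (u0 ^ 2 + N) - (p0 * u0 + m) ^ 2 := by
      field_simp
    have e4 : h ^ 2 * ((u0 - p0 * m / M ^ 2) / h) ^ 2 = (u0 - p0 * m / M ^ 2) ^ 2 := by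
      field_simp
    rw [e3, e4, hh2]
    field_simp
    ring
  have k1 : 0 ≤ (M ^ 2 - 1) * (u0 - p0 * m / M ^ 2) ^ 2 := by
    apply mul_nonneg
    · rw [hM2]; nlinarith [sq_nonneg p1, sq_nonneg p2]
    · positivity
  have k2 : 0 ≤ (M ^ 2 * N - m ^ 2) * (1 + p0 ^ 2 / M ^ 2) := by
    apply mul_nonneg
    · linarith
    · positivity
  have k3 : 0 < h ^ 2 := by positivity
  by_contra hc
  push Not at hc
  have := mul_lt_mul_of_pos_left hc k3
  linarith

lemma hl_sqrt_deriv {q : ℝ → V3} (hq : ContDiff ℝ 1 q) (t : ℝ) :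
    deriv (hlS q) t ≤ Real.sqrt (gh (q t) (deriv q t) (deriv q t)) := by
  have h0 := hl_coord_deriv hq 0 t
  have h1 := hl_coord_deriv hq 1 t
  have h2 := hl_coord_deriv hq 2 t
  set M := Real.sqrt (1 + q t 1 ^ 2 + q t 2 ^ 2) with hMdef
  have hM : 0 < M := Real.sqrt_pos.mpr (by positivity)
  have hM2 : M ^ 2 = 1 + q t 1 ^ 2 + q t 2 ^ 2 := Real.sq_sqrt (by positivity)
  have hd1 : HasDerivAt (fun t => 1 + q t 1 ^ 2 + q t 2 ^ 2)
      (2 * (q t 1 * deriv q t 1 + q t 2 * deriv q t 2)) t := by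
    have := ((h1.pow 2).const_add 1).add (h2.pow 2)
    refine this.congr_deriv ?_
    simp
    ring
  have hd2 : HasDerivAt (fun t => Real.sqrt (1 + q t 1 ^ 2 + q t 2 ^ 2))
      ((q t 1 * deriv q t 1 + q t 2 * deriv q t 2) / M) t := by
    have := hd1.sqrt (by positivity)
    refine this.congr_deriv ?_
    rw [← hMdef]
    field_simp
  have hd3 := h0.div hd2 (by rw [← hMdef]; exact hM.ne')
  have hd4 := hd3.arsinh
  have hhh := lor_hh_pos (q t)
  have hh2 : hh (q t) ^ 2 = M ^ 2 + q t 0 ^ 2 := by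
    rw [hh_sq, lor_norm_sq, hM2]; ring
  have hsq : Real.sqrt (1 + (q t 0 / M) ^ 2) = hh (q t) / M := by
    have e : 1 + (q t 0 / M) ^ 2 = (hh (q t) / M) ^ 2 := by
      rw [div_pow, div_pow, hh2]
      field_simp
    rw [e, Real.sqrt_sq (by positivity)]
  have hd5 : deriv (hlS q) t =
      (deriv q t 0 - q t 0 * (q t 1 * deriv q t 1 + q t 2 * deriv q t 2) / M ^ 2) / hh (q t) := by
    have : deriv (hlS q) t = _ := hd4.deriv
    rw [this]
    simp only [Pi.div_apply, ← hMdef, hsq, smul_eq_mul]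
    field_simp
  rw [hd5]
  apply Real.le_sqrt_of_sq_le
  have := hl_alg (p0 := q t 0) (p1 := q t 1) (p2 := q t 2) (u0 := deriv q t 0)
    (u1 := deriv q t 1) (u2 := deriv q t 2) hM hM2 hhh hh2
  rw [gh_apply, lor_inner, lor_inner, ← hh_sq]
  exact this

lemma hl_act_comp (A : Matrix (Fin 4) (Fin 4) ℝ) {γ : ℝ → V3} (hγ : ContDiff ℝ 1 γ) :
    ContDiff ℝ 1 fun t => act A (γ t) :=
  ((act_smooth A).of_le (by exact_mod_cast le_top)).comp hγ

lemma hl_deriv_act (A : Matrix (Fin 4) (Fin 4) ℝ) {γ : ℝ → V3} (hγ : ContDiff ℝ 1 γ) (t : ℝ) :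
    deriv (fun t => act A (γ t)) t = fderiv ℝ (act A) (γ t) (deriv γ t) :=
  fderiv_comp_deriv t (lor_diff_act (γ t)) (hγ.differentiable one_ne_zero _)

theorem dh_le_len {γ : ℝ → V3} (hγ : ContDiff ℝ 1 γ) :
    dh (γ 0) (γ 1) ≤ ∫ t in (0 : ℝ)..1, Real.sqrt (gh (γ t) (deriv γ t) (deriv γ t)) := by
  obtain ⟨A, B, hA, hB, hAB, hBA, s, t, hst, hs, ht⟩ := to_axis (γ 0) (γ 1)
  have hq := hl_act_comp A hγ
  set q : ℝ → V3 := fun t => act A (γ t) with hqdef
  have hint : ∀ t, gh (q t) (deriv q t) (deriv q t) = gh (γ t) (deriv γ t) (deriv γ t) := by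
    intro t
    rw [hl_deriv_act A hγ t, hqdef]
    exact gh_act hA _ _ _
  have hS : ContDiff ℝ 1 (hlS q) := hlS_contDiff hq
  have h1 : ∫ t in (0 : ℝ)..1, deriv (hlS q) t = hlS q 1 - hlS q 0 :=
    intervalIntegral.integral_deriv_eq_sub (fun x _ => hS.differentiable one_ne_zero x)
      ((hS.continuous_deriv le_rfl).intervalIntegrable _ _)
  have hSax : ∀ r τ, q τ = ax r → hlS q τ = r := by
    intro r τ h
    rw [hlS, h]
    simp [ax]
  rw [hSax t 1 ht, hSax s 0 hs] at h1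
  have h2 : dh (γ 0) (γ 1) = t - s := by
    rw [← dh_act hA, hs, ht, hl_dh_ax hst]
  rw [h2, ← h1]
  apply intervalIntegral.integral_mono_on zero_le_one
  · exact (hS.continuous_deriv le_rfl).intervalIntegrable _ _
  · apply Continuous.intervalIntegrable
    have c1 : Continuous γ := hγ.continuous
    have c2 : Continuous (deriv γ) := hγ.continuous_deriv le_rfl
    exact Real.continuous_sqrt.comp (((gh_smooth.continuous.comp c1).clm_apply c2).clm_apply c2)
  · intro τ _
    rw [← hint]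
    exact hl_sqrt_deriv hq τ

lemma hl_ax_eq (s : ℝ) : ax s = Real.sinh s • (EuclideanSpace.single 0 1 : V3) := by
  ext i
  simp only [ax]
  fin_cases i <;> simp

theorem exists_hyp_geod (x y : V3) : ∃ γ : ℝ → V3, ContDiff ℝ 1 γ ∧ γ 0 = x ∧ γ 1 = y ∧
    (∀ t, Real.sqrt (gh (γ t) (deriv γ t) (deriv γ t)) = dh x y) ∧
    ∀ t, ∃ α β : ℝ, lift (γ t) = α • lift x + β • lift y := by
  obtain ⟨A, B, hA, hB, hAB, hBA, s, t, hst, hs, ht⟩ := to_axis x y
  have hBs : act B (ax s) = x := by rw [← hs, ← act_mul hB hA, hBA, act_one]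
  have hBt : act B (ax t) = y := by rw [← ht, ← act_mul hB hA, hBA, act_one]
  have hdh : dh x y = t - s := by
    rw [← dh_act hA, hs, ht, hl_dh_ax hst]
  set p : ℝ → V3 := fun τ => ax (s + (t - s) * τ) with hp
  have hpd : ∀ τ, HasDerivAt p (((Real.cosh (s + (t - s) * τ)) * (t - s)) •
      (EuclideanSpace.single 0 1 : V3)) τ := by
    intro τ
    have h1 : HasDerivAt (fun τ : ℝ => s + (t - s) * τ) (t - s) τ := by
      simpa using ((hasDerivAt_id τ).const_mul (t - s)).const_add s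
    have h2 := h1.sinh.smul_const (EuclideanSpace.single 0 1 : V3)
    have h3 : p = fun τ => Real.sinh (s + (t - s) * τ) • (EuclideanSpace.single 0 1 : V3) := by
      funext τ; rw [hp]; exact hl_ax_eq _
    rw [h3]
    exact h2
  have hpc : ContDiff ℝ 1 p := by
    have h3 : p = fun τ => Real.sinh (s + (t - s) * τ) • (EuclideanSpace.single 0 1 : V3) := by
      funext τ; rw [hp]; exact hl_ax_eq _
    rw [h3]
    have h4 : ContDiff ℝ 1 fun τ => Real.sinh (s + (t - s) * τ) :=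
      Real.contDiff_sinh.comp (contDiff_const.add (contDiff_const.mul contDiff_id))
    exact h4.smul contDiff_const
  refine ⟨fun τ => act B (p τ), hl_act_comp B hpc, ?_, ?_, ?_, ?_⟩
  · simp [hp, hBs]
  · simp [hp, hBt]
  · intro τ
    rw [hl_deriv_act B hpc τ, gh_act hB, (hpd τ).deriv, hdh, gh_apply, ← hh_sq]
    have e1 : hh (p τ) = Real.cosh (s + (t - s) * τ) := by rw [hp]; exact axis_hh _
    have e2 : p τ = Real.sinh (s + (t - s) * τ) • (EuclideanSpace.single 0 1 : V3) := by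
      rw [hp]; exact hl_ax_eq _
    rw [e1, e2]
    set r := s + (t - s) * τ
    have hc := Real.cosh_pos r
    have : inner ℝ ((Real.cosh r * (t - s)) • (EuclideanSpace.single 0 1 : V3))
        ((Real.cosh r * (t - s)) • (EuclideanSpace.single 0 1 : V3)) -
        inner ℝ (Real.sinh r • (EuclideanSpace.single 0 1 : V3))
          ((Real.cosh r * (t - s)) • (EuclideanSpace.single 0 1 : V3)) *
        inner ℝ (Real.sinh r • (EuclideanSpace.single 0 1 : V3))
          ((Real.cosh r * (t - s)) • (EuclideanSpace.single 0 1 : V3)) / Real.cosh r ^ 2 =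
        (t - s) ^ 2 := by
      simp only [inner_smul_left, inner_smul_right, real_inner_self_eq_norm_sq,
        PiLp.norm_single, norm_one, conj_trivial]
      have := Real.cosh_sq r
      field_simp
      nlinarith
    rw [this, Real.sqrt_sq (by linarith)]
  · intro τ
    rcases hst.eq_or_lt with h | h
    · refine ⟨1, 0, ?_⟩
      have e : p τ = ax s := by
        rw [hp]
        simp [← h]
      simp only [e, hBs, one_smul, zero_smul, add_zero]
    · have hsh : 0 < Real.sinh (t - s) := Real.sinh_pos_iff.mpr (by linarith)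
      set r := s + (t - s) * τ with hr
      refine ⟨Real.sinh (t - r) / Real.sinh (t - s), Real.sinh (r - s) / Real.sinh (t - s), ?_⟩
      have e : lift (ax r) = (Real.sinh (t - r) / Real.sinh (t - s)) • lift (ax s) +
          (Real.sinh (r - s) / Real.sinh (t - s)) • lift (ax t) := by
        rw [hl_lift_ax, hl_lift_ax, hl_lift_ax]
        ext i
        fin_cases i
        · simp
          field_simp
          simp only [Real.sinh_sub]
          have h1 := Real.cosh_sq s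
          have h2 := Real.cosh_sq t
          ring
        · simp
          field_simp
          simp only [Real.sinh_sub]
          ring
        · simp
        · simp
      have e3 : p τ = ax r := rfl
      simp only [e3]
      rw [lift_act hB, e, Matrix.mulVec_add, Matrix.mulVec_smul, Matrix.mulVec_smul,
        ← lift_act hB, ← lift_act hB, hBs, hBt]

end Pool.Agent.Lib.MP_529713_gt
end

section

/-!
# The Riemannian distance is geodesic
-/

namespace Pool.Agent.Lib.MP_529713_gt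

open Filter Topology Set Matrix
open scoped ContDiff NNReal

/-- continuity of the speed -/
lemma rgeo_cont {g : V3 → V3 →L[ℝ] V3 →L[ℝ] ℝ} (hg : Continuous g) {γ : ℝ → V3}
    (hγ : ContDiff ℝ 1 γ) :
    Continuous fun t => Real.sqrt (g (γ t) (deriv γ t) (deriv γ t)) := by
  have h1 : Continuous γ := hγ.continuous
  have h2 : Continuous (deriv γ) := hγ.continuous_deriv le_rfl
  exact Real.continuous_sqrt.comp (((hg.comp h1).clm_apply h2).clm_apply h2)

theorem lower_of_contraction (G : RMetric) {F : V3 → V3} (hF : ContDiff ℝ 1 F)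
    (h : ∀ x u, gh (F x) (fderiv ℝ F x u) (fderiv ℝ F x u) ≤ G.g x u u) (x y : V3) :
    dh (F x) (F y) ≤ rdist G x y := by
  by_contra hcon
  rw [not_le] at hcon
  obtain ⟨γ, hγ, h0, h1, hlen⟩ := exists_len_lt G x y hcon
  have h2 := dh_le_len (hF.comp hγ)
  simp only [Function.comp_apply, h0, h1] at h2
  have h3 : (∫ t in (0 : ℝ)..1, Real.sqrt (gh ((F ∘ γ) t) (deriv (F ∘ γ) t) (deriv (F ∘ γ) t)))
      ≤ len G γ := by
    unfold len
    apply intervalIntegral.integral_mono_on zero_le_one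
    · exact (rgeo_cont gh_smooth.continuous (hF.comp hγ)).intervalIntegrable _ _
    · exact (rgeo_cont G.smooth.continuous hγ).intervalIntegrable _ _
    · intro t _
      apply Real.sqrt_le_sqrt
      have h4 : deriv (F ∘ γ) t = fderiv ℝ F (γ t) (deriv γ t) :=
        fderiv_comp_deriv t (hF.differentiable one_ne_zero _)
          (hγ.differentiable one_ne_zero _)
      rw [h4]
      exact h _ _
  simp only [Function.comp_apply] at h3
  linarith

lemma rgeo_lower (G : RMetric) {a : ℝ} (ha : 1 ≤ a) (h₁ : ∀ x u, gh x u u ≤ a ^ 2 * G.g x u u)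
    (x y : V3) : dh x y ≤ a * rdist G x y := by
  by_contra hcon
  rw [not_le] at hcon
  have ha0 : 0 < a := by linarith
  obtain ⟨γ, hγ, h0, h1, hlen⟩ := exists_len_lt G x y (r := dh x y / a) (by
    rw [lt_div_iff₀ ha0]; linarith)
  have h2 := dh_le_len hγ
  rw [h0, h1] at h2
  have h3 : (∫ t in (0 : ℝ)..1, Real.sqrt (gh (γ t) (deriv γ t) (deriv γ t)))
      ≤ ∫ t in (0 : ℝ)..1, a * Real.sqrt (G.g (γ t) (deriv γ t) (deriv γ t)) := by
    apply intervalIntegral.integral_mono_on zero_le_one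
    · exact (rgeo_cont gh_smooth.continuous hγ).intervalIntegrable _ _
    · exact ((rgeo_cont G.smooth.continuous hγ).const_smul a).intervalIntegrable _ _
    · intro t _
      have h5 : a * Real.sqrt (G.g (γ t) (deriv γ t) (deriv γ t)) =
          Real.sqrt (a ^ 2 * G.g (γ t) (deriv γ t) (deriv γ t)) := by
        rw [Real.sqrt_mul (sq_nonneg a), Real.sqrt_sq ha0.le]
      rw [h5]
      exact Real.sqrt_le_sqrt (h₁ _ _)
  rw [intervalIntegral.integral_const_mul] at h3
  have h4 : len G γ = ∫ t in (0 : ℝ)..1, Real.sqrt (G.g (γ t) (deriv γ t) (deriv γ t)) := rfl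
  rw [← h4] at h3
  rw [lt_div_iff₀ ha0] at hlen
  linarith

lemma rgeo_upper (G : RMetric) (h₂ : ∀ x u, G.g x u u ≤ gh x u u) (x y : V3) :
    rdist G x y ≤ dh x y := by
  obtain ⟨γ, hγ, h0, h1, hs, -⟩ := exists_hyp_geod x y
  have h2 := rdist_le_len G hγ
  rw [h0, h1] at h2
  have h3 : len G γ ≤ ∫ t in (0 : ℝ)..1, dh x y := by
    apply intervalIntegral.integral_mono_on zero_le_one
    · exact (rgeo_cont G.smooth.continuous hγ).intervalIntegrable _ _
    · exact continuous_const.intervalIntegrable _ _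
    · intro t _
      rw [← hs t]
      exact Real.sqrt_le_sqrt (h₂ _ _)
  rw [intervalIntegral.integral_const] at h3
  simp at h3
  linarith

lemma rgeo_cont_dist (G : RMetric) (h₂ : ∀ x u, G.g x u u ≤ gh x u u) :
    Continuous fun p : V3 × V3 => rdist G p.1 p.2 := by
  rw [continuous_iff_continuousAt]
  intro p
  rw [ContinuousAt, tendsto_iff_dist_tendsto_zero]
  have h1 : Tendsto (fun q : V3 × V3 => dh q.1 p.1 + dh q.2 p.2) (𝓝 p)
      (𝓝 (dh p.1 p.1 + dh p.2 p.2)) := by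
    have e1 : Continuous fun q : V3 × V3 => (q.1, p.1) := by fun_prop
    have e2 : Continuous fun q : V3 × V3 => (q.2, p.2) := by fun_prop
    have h3 : Continuous fun q : V3 × V3 => dh q.1 p.1 :=
      Continuous.comp (g := fun p : V3 × V3 => dh p.1 p.2) (f := fun q : V3 × V3 => (q.1, p.1))
        dh_cont e1
    have h4 : Continuous fun q : V3 × V3 => dh q.2 p.2 :=
      Continuous.comp (g := fun p : V3 × V3 => dh p.1 p.2) (f := fun q : V3 × V3 => (q.2, p.2))
        dh_cont e2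
    exact (h3.add h4).tendsto p
  rw [dh_self, dh_self, add_zero] at h1
  refine squeeze_zero (fun _ => dist_nonneg) (fun q => ?_) h1
  rw [Real.dist_eq, abs_le]
  have a1 := rdist_tri G q.1 p.1 q.2
  have a2 := rdist_tri G p.1 p.2 q.2
  have a3 := rdist_tri G p.1 q.1 p.2
  have a4 := rdist_tri G q.1 q.2 p.2
  have b1 := rgeo_upper G h₂ q.1 p.1
  have b2 := rgeo_upper G h₂ q.2 p.2
  have c1 := rdist_comm G p.1 q.1
  have c2 := rdist_comm G p.2 q.2
  constructor <;> linarith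

/-- almost geodesics -/
lemma rgeo_approx (G : RMetric) (h0 : ∀ x y, rdist G x y = 0 → x = y) (x y : V3) {ε : ℝ}
    (hε : 0 < ε) : ∃ c : ℝ → V3, c 0 = x ∧ rdist G (c (rdist G x y)) y ≤ ε ∧
      ∀ s ∈ Icc 0 (rdist G x y), ∀ t ∈ Icc 0 (rdist G x y), s ≤ t →
        rdist G (c s) (c t) ≤ t - s ∧ t - s - ε ≤ rdist G (c s) (c t) := by
  obtain ⟨γ, hγ, hγ0, hγ1, hlen⟩ := exists_len_lt G x y (r := rdist G x y + ε) (by linarith)
  set D := rdist G x y with hD
  set f : ℝ → ℝ := fun t => Real.sqrt (G.g (γ t) (deriv γ t) (deriv γ t)) with hf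
  have hfc : Continuous f := rgeo_cont G.smooth.continuous hγ
  have hii : ∀ a b, IntervalIntegrable f MeasureTheory.volume a b :=
    fun a b => hfc.intervalIntegrable a b
  set L : ℝ → ℝ := fun τ => ∫ t in (0 : ℝ)..τ, f t with hL
  have hLc : Continuous L := intervalIntegral.continuous_primitive hii 0
  have hL0 : L 0 = 0 := intervalIntegral.integral_same
  have hL1 : L 1 = len G γ := rfl
  have hsub : ∀ s t, L t - L s = ∫ τ in s..t, f τ := fun s t =>
    intervalIntegral.integral_interval_sub_left (hii _ _) (hii _ _)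
  have hmono : ∀ s t, s ≤ t → L s ≤ L t := by
    intro s t hst
    have h1 : 0 ≤ ∫ τ in s..t, f τ :=
      intervalIntegral.integral_nonneg hst fun _ _ => Real.sqrt_nonneg _
    rw [← hsub] at h1
    linarith
  have harc : ∀ s t, s ≤ t → rdist G (γ s) (γ t) ≤ L t - L s := by
    intro s t hst
    rw [hsub]
    exact rdist_le_arc G hγ hst
  have hD0 : 0 ≤ D := rdist_nonneg G x y
  have hDL : D ≤ L 1 := by
    rw [hL1, hD, ← hγ0, ← hγ1]
    exact rdist_le_len G hγ
  have hex : ∀ t : ℝ, ∃ τ : ℝ, t ∈ Icc 0 D → τ ∈ Icc (0 : ℝ) 1 ∧ L τ = t := by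
    intro t
    by_cases ht : t ∈ Icc 0 D
    · have h1 : t ∈ Icc (L 0) (L 1) := ⟨by rw [hL0]; exact ht.1, ht.2.trans hDL⟩
      obtain ⟨τ, hτ, hτ'⟩ := intermediate_value_Icc zero_le_one hLc.continuousOn h1
      exact ⟨τ, fun _ => ⟨hτ, hτ'⟩⟩
    · exact ⟨0, fun h => absurd h ht⟩
  choose τ hτ using hex
  refine ⟨fun t => γ (τ t), ?_, ?_, ?_⟩
  · have h1 := hτ 0 ⟨le_rfl, hD0⟩
    have h2 := harc 0 (τ 0) h1.1.1
    rw [h1.2, hL0, hγ0] at h2
    have h3 : rdist G x (γ (τ 0)) = 0 := le_antisymm (by linarith) (rdist_nonneg G _ _)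
    exact (h0 _ _ h3).symm
  · have h1 := hτ D ⟨hD0, le_rfl⟩
    have h2 := harc (τ D) 1 h1.1.2
    rw [h1.2, hγ1, hL1] at h2
    simp only
    linarith
  · intro s hs t ht hst
    have h1 := hτ s hs
    have h2 := hτ t ht
    have h3 : τ s ≤ τ t ∨ s = t := by
      by_contra hcon
      rw [not_or, not_le] at hcon
      have h4 := hmono _ _ hcon.1.le
      rw [h1.2, h2.2] at h4
      exact hcon.2 (le_antisymm hst h4)
    rcases h3 with h3 | h3
    · have h4 := harc _ _ h3
      rw [h1.2, h2.2] at h4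
      refine ⟨h4, ?_⟩
      have h5 := harc 0 (τ s) h1.1.1
      have h6 := harc (τ t) 1 h2.1.2
      rw [h1.2, hL0, hγ0] at h5
      rw [h2.2, hL1, hγ1] at h6
      have h7 := rdist_tri G x (γ (τ s)) y
      have h8 := rdist_tri G (γ (τ s)) (γ (τ t)) y
      simp only
      linarith
    · subst h3
      simp only [rdist_self]
      constructor <;> linarith

theorem geoD_rdist (G : RMetric) {a : ℝ} (ha : 1 ≤ a) (h₁ : ∀ x u, gh x u u ≤ a ^ 2 * G.g x u u)
    (h₂ : ∀ x u, G.g x u u ≤ gh x u u) : GeoD a (rdist G) := by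
  have hlow := rgeo_lower G ha h₁
  have hup := rgeo_upper G h₂
  have hcont := rgeo_cont_dist G h₂
  have h0 : ∀ x y, rdist G x y = 0 → x = y := by
    intro x y h
    have h1 := hlow x y
    rw [h, mul_zero] at h1
    exact dh_eq_zero (le_antisymm h1 (dh_nonneg _ _))
  refine ⟨ha, rdist_self G, rdist_comm G, rdist_tri G, hlow, hup, ?_⟩
  intro x y
  have happ := fun n : ℕ => rgeo_approx G h0 x y (ε := 1 / ((n : ℝ) + 1)) (by positivity)
  choose c hc0 hcD hc using happ
  set D := rdist G x y with hD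
  have hD0 : 0 ≤ D := rdist_nonneg G x y
  set U : Ultrafilter ℕ := hyperfilter ℕ with hU
  have hUle : (U : Filter ℕ) ≤ atTop := by
    rw [← Nat.cofinite_eq_atTop]; exact hyperfilter_le_cofinite
  have hlim : ∀ t : ℝ, ∃ z : V3, t ∈ Icc 0 D → Tendsto (fun n => c n t) U (𝓝 z) := by
    intro t
    by_cases ht : t ∈ Icc 0 D
    · have hK := isCompact_dh_ball x (a * D)
      have hmem : ∀ n, c n t ∈ {z | dh x z ≤ a * D} := by
        intro n
        have h1 := (hc n 0 ⟨le_rfl, hD0⟩ t ht ht.1).1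
        rw [hc0] at h1
        have h2 := hlow x (c n t)
        have h3 : a * rdist G x (c n t) ≤ a * D :=
          mul_le_mul_of_nonneg_left (by linarith [ht.2]) (by linarith)
        exact h2.trans h3
      have h4 : ((U.map fun n => c n t : Ultrafilter V3) : Filter V3) ≤
          𝓟 {z | dh x z ≤ a * D} := by
        rw [Ultrafilter.coe_map, le_principal_iff, Filter.mem_map]
        exact Filter.mem_of_superset (Filter.univ_mem) (fun n _ => hmem n)
      obtain ⟨z, -, hz⟩ := hK.ultrafilter_le_nhds (U.map fun n => c n t) h4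
      exact ⟨z, fun _ => hz⟩
    · exact ⟨x, fun h => absurd h ht⟩
  choose z hz using hlim
  have heps : Tendsto (fun n : ℕ => 1 / ((n : ℝ) + 1)) U (𝓝 0) :=
    tendsto_one_div_add_atTop_nhds_zero_nat.mono_left hUle
  have hdist : ∀ s ∈ Icc 0 D, ∀ t ∈ Icc 0 D, s ≤ t → rdist G (z s) (z t) = t - s := by
    intro s hs t ht hst
    have e1 : Tendsto (fun n => (c n s, c n t)) U (𝓝 (z s, z t)) :=
      (hz s hs).prodMk_nhds (hz t ht)
    have e2 : Tendsto (fun p : V3 × V3 => rdist G p.1 p.2) (𝓝 (z s, z t))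
      (𝓝 (rdist G (z s) (z t))) := hcont.tendsto (z s, z t)
    have h1 : Tendsto (fun n => rdist G (c n s) (c n t)) U (𝓝 (rdist G (z s) (z t))) :=
      Tendsto.comp (g := fun p : V3 × V3 => rdist G p.1 p.2) (f := fun n => (c n s, c n t)) e2 e1
    have h2 : Tendsto (fun n => rdist G (c n s) (c n t)) U (𝓝 (t - s)) := by
      refine tendsto_of_tendsto_of_tendsto_of_le_of_le (g := fun n : ℕ => t - s - 1 / ((n : ℝ) + 1))
        (h := fun _ => t - s) ?_ tendsto_const_nhds (fun n => (hc n s hs t ht hst).2)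
        (fun n => (hc n s hs t ht hst).1)
      simpa using (tendsto_const_nhds (x := t - s)).sub heps
    exact tendsto_nhds_unique h1 h2
  refine ⟨z, ?_, ?_, ?_⟩
  · have h1 := hz 0 ⟨le_rfl, hD0⟩
    simp only [hc0] at h1
    exact tendsto_nhds_unique h1 tendsto_const_nhds
  · apply h0
    have e1 : Tendsto (fun n => (c n D, y)) U (𝓝 (z D, y)) :=
      (hz D ⟨hD0, le_rfl⟩).prodMk_nhds tendsto_const_nhds
    have e2 : Tendsto (fun p : V3 × V3 => rdist G p.1 p.2) (𝓝 (z D, y))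
      (𝓝 (rdist G (z D) y)) := hcont.tendsto (z D, y)
    have h1 : Tendsto (fun n => rdist G (c n D) y) U (𝓝 (rdist G (z D) y)) :=
      Tendsto.comp (g := fun p : V3 × V3 => rdist G p.1 p.2) (f := fun n => (c n D, y)) e2 e1
    have h2 : Tendsto (fun n => rdist G (c n D) y) U (𝓝 0) :=
      squeeze_zero (fun n => rdist_nonneg G _ _) (fun n => hcD n) heps
    exact tendsto_nhds_unique h1 h2
  · intro s hs t ht
    rcases le_total s t with hst | hst
    · rw [hdist s hs t ht hst, abs_sub_comm, abs_of_nonneg (by linarith)]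
    · rw [rdist_comm, hdist t ht s hs hst, abs_of_nonneg (by linarith)]

end Pool.Agent.Lib.MP_529713_gt
end

section

/-!
# The tube function
-/

namespace Pool.Agent.Lib.MP_529713_gt

open Filter Topology Set Matrix
open scoped ContDiff NNReal

variable {m : ℝ → ℝ} {δ a : ℝ}

/-- the argument of `m` in `qq` -/
noncomputable def QF (δ a b : ℝ) : ℝ :=
  δ * a * Real.cosh (Real.arsinh b / a) / Real.sqrt (1 + b ^ 2)

lemma QF_sinh (r : ℝ) : QF δ a (Real.sinh r) = δ * a * Real.cosh (r / a) / Real.cosh r := by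
  unfold QF
  rw [Real.arsinh_sinh, ← Real.cosh_sq', Real.sqrt_sq (Real.cosh_pos r).le]

lemma QF_arsinh (b : ℝ) : QF δ a b =
    δ * a * Real.cosh (Real.arsinh b / a) / Real.cosh (Real.arsinh b) := by
  conv_lhs => rw [← Real.sinh_arsinh b]
  exact QF_sinh _

theorem qq_smooth (hm : IsMu m) : ContDiff ℝ ∞ (qq m δ a) := by
  unfold qq
  refine ContDiff.sub ((hm.smooth.comp ?_).pow 2) contDiff_const
  refine ContDiff.div ?_ ?_ fun b => ?_
  · exact contDiff_const.mul (Real.contDiff_cosh.comp (Real.contDiff_arsinh.div_const a))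
  · exact ContDiff.sqrt (contDiff_const.add (contDiff_id.pow 2)) fun b => by
      have : 0 < 1 + id b ^ 2 := by positivity
      exact this.ne'
  · have : 0 < 1 + b ^ 2 := by positivity
    exact (Real.sqrt_pos.2 this).ne'

theorem qq_nonneg (hm : IsMu m) (b : ℝ) : 0 ≤ qq m δ a b := by
  unfold qq
  have := hm.one_le (δ * a * Real.cosh (Real.arsinh b / a) / Real.sqrt (1 + b ^ 2))
  nlinarith

theorem qq_far (hm : IsMu m) (ha : 3 / 2 ≤ a) (ha' : a ≤ 6) (hδ : 0 < δ) (hδ1 : δ ≤ 1) {b : ℝ}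
    (hb : 2000 ≤ |b|) : qq m δ a b = 0 := by
  have ha0 : 0 < a := by linarith
  have e : qq m δ a b = m (QF δ a b) ^ 2 - 1 := rfl
  rw [e, hm.left (QF δ a b), one_pow, sub_self]
  rw [QF_arsinh, ← Real.cosh_abs (Real.arsinh b), ← Real.cosh_abs (Real.arsinh b / a), abs_div,
    abs_of_pos ha0]
  set r := |Real.arsinh b| with hr
  have hr0 : 0 ≤ r := abs_nonneg _
  have hsr : Real.sinh r = |b| := by
    rw [hr]
    rcases le_total 0 (Real.arsinh b) with h | h
    · rw [abs_of_nonneg h, Real.sinh_arsinh, abs_of_nonneg (Real.arsinh_nonneg_iff.1 h)]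
    · rw [abs_of_nonpos h, Real.sinh_neg, Real.sinh_arsinh,
        abs_of_nonpos (Real.arsinh_nonpos_iff.1 h)]
  have h1 : 4000 ≤ Real.exp r := by
    have := Real.sinh_eq r
    have := Real.exp_pos (-r)
    linarith
  -- cosh bounds
  have h2 : Real.cosh (r / a) ≤ Real.exp (2 * r / 3) := by
    have : r / a ≤ 2 * r / 3 := by
      rw [div_le_div_iff₀ ha0 (by norm_num)]; nlinarith
    have h3 : Real.cosh (r / a) ≤ Real.exp (r / a) := by
      rw [Real.cosh_eq]
      have : Real.exp (-(r / a)) ≤ Real.exp (r / a) :=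
        Real.exp_le_exp.2 (by have : 0 ≤ r / a := by positivity
                              linarith)
      linarith
    exact h3.trans (Real.exp_le_exp.2 this)
  have h3 : Real.exp r / 2 ≤ Real.cosh r := by
    rw [Real.cosh_eq]
    have := Real.exp_pos (-r)
    linarith
  set y := Real.exp (r / 3) with hy
  have hy0 : 0 < y := Real.exp_pos _
  have e2 : Real.exp (2 * r / 3) = y ^ 2 := by
    rw [hy, ← Real.exp_nat_mul]; congr 1; push_cast; ring
  have e3 : Real.exp r = y ^ 3 := by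
    rw [hy, ← Real.exp_nat_mul]; congr 1; push_cast; ring
  have hy1 : 15 ≤ y := by
    by_contra hlt
    push Not at hlt
    have : y ^ 3 ≤ 15 ^ 3 := pow_le_pow_left₀ hy0.le hlt.le 3
    rw [← e3] at this
    norm_num at this
    linarith
  rw [div_le_iff₀ (Real.cosh_pos r)]
  rw [e2] at h2
  rw [e3] at h3
  have h4 : δ * a ≤ 6 := by nlinarith
  calc δ * a * Real.cosh (r / a) ≤ 6 * y ^ 2 :=
        mul_le_mul h4 h2 (Real.cosh_pos _).le (by norm_num)
    _ ≤ 9 / 10 * (y ^ 3 / 2) := by nlinarith [sq_nonneg y, mul_pos hy0 hy0]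
    _ ≤ 9 / 10 * Real.cosh r := by linarith

lemma QF_le (ha : 1 ≤ a) (hδ : 0 < δ) (b : ℝ) : QF δ a b ≤ δ * a := by
  have ha0 : 0 < a := by linarith
  rw [QF_arsinh, div_le_iff₀ (Real.cosh_pos _)]
  refine mul_le_mul_of_nonneg_left ?_ (by positivity)
  rw [Real.cosh_le_cosh, abs_div, abs_of_pos ha0, div_le_iff₀ ha0]
  have := abs_nonneg (Real.arsinh b)
  nlinarith

theorem qq_le (hm : IsMu m) (ha : 3 / 2 ≤ a) (hδ : 0 < δ) (hδa : 6 / 5 ≤ δ * a) (b : ℝ) :
    1 + qq m δ a b ≤ (δ * a) ^ 2 := by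
  have e : 1 + qq m δ a b = m (QF δ a b) ^ 2 := by unfold qq QF; ring
  rw [e]
  have h1 := hm.mono (QF_le (δ := δ) (by linarith : 1 ≤ a) hδ b)
  rw [hm.right (δ * a) (by linarith)] at h1
  exact pow_le_pow_left₀ (by linarith [hm.one_le (QF δ a b)]) h1 2

theorem WW_sq (r : ℝ) : WW m δ a r ^ 2 = Real.cosh r ^ 2 * (1 + qq m δ a (Real.sinh r)) := by
  have e : 1 + qq m δ a (Real.sinh r) = m (QF δ a (Real.sinh r)) ^ 2 := by unfold qq QF; ring
  rw [e, QF_sinh]
  unfold WW
  ring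

theorem qq_ge (hm : IsMu m) (ha : 3 / 2 ≤ a) (b : ℝ) :
    a ^ 2 ≤ (1 + qq m 1 a b) * (1 + b ^ 2) := by
  have ha0 : 0 < a := by linarith
  have e : 1 + qq m 1 a b = m (QF 1 a b) ^ 2 := by unfold qq QF; ring
  rw [e]
  have hb : 0 < 1 + b ^ 2 := by positivity
  have h1 : a ≤ m (QF 1 a b) * Real.sqrt (1 + b ^ 2) := by
    have h2 := hm.ge_self (QF 1 a b)
    have h3 : QF 1 a b * Real.sqrt (1 + b ^ 2) = a * Real.cosh (Real.arsinh b / a) := by
      unfold QF
      have := (Real.sqrt_pos.2 hb).ne'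
      field_simp
    have h4 : QF 1 a b * Real.sqrt (1 + b ^ 2) ≤ m (QF 1 a b) * Real.sqrt (1 + b ^ 2) :=
      mul_le_mul_of_nonneg_right h2 (Real.sqrt_nonneg _)
    have h5 : a * 1 ≤ a * Real.cosh (Real.arsinh b / a) :=
      mul_le_mul_of_nonneg_left (Real.one_le_cosh _) ha0.le
    linarith
  calc a ^ 2 ≤ (m (QF 1 a b) * Real.sqrt (1 + b ^ 2)) ^ 2 := pow_le_pow_left₀ ha0.le h1 2
    _ = m (QF 1 a b) ^ 2 * (1 + b ^ 2) := by rw [mul_pow, Real.sq_sqrt hb.le]

theorem qq_cont (hm : IsMu m) (hδ : 0 < δ) (hδ1 : δ ≤ 1) {μ : ℝ} (hμ : 1 < μ) (ha : 3 / 2 ≤ a)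
    (ha' : a ≤ 6) : ∃ ε > 0, ∀ a', 3 / 2 ≤ a' → a' ≤ 6 → |a' - a| < ε → ∀ b,
      1 + qq m δ a' b ≤ μ * (1 + qq m δ a b) ∧ 1 + qq m δ a b ≤ μ * (1 + qq m δ a' b) := by
  set K : Set (ℝ × ℝ) := Icc (3 / 2) 6 ×ˢ Icc (-2000) 2000 with hK
  have hKc : IsCompact K := isCompact_Icc.prod isCompact_Icc
  have hcont : ContinuousOn (fun p : ℝ × ℝ => 1 + qq m δ p.1 p.2) K := by
    have h1 : ContinuousOn (fun p : ℝ × ℝ => δ * p.1 * Real.cosh (Real.arsinh p.2 / p.1) /
        Real.sqrt (1 + p.2 ^ 2)) K := by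
      refine ContinuousOn.div ?_ ?_ fun p _ => ?_
      · refine (continuousOn_const.mul continuousOn_fst).mul
          (Real.continuous_cosh.comp_continuousOn ?_)
        refine ContinuousOn.div (Real.continuous_arsinh.comp_continuousOn continuousOn_snd)
          continuousOn_fst fun p hp => ?_
        have := hp.1.1
        linarith
      · exact (Real.continuous_sqrt.comp (by fun_prop)).continuousOn
      · have : 0 < 1 + p.2 ^ 2 := by positivity
        exact (Real.sqrt_pos.2 this).ne'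
    unfold qq
    exact continuousOn_const.add
      (((hm.smooth.continuous.comp_continuousOn h1).pow 2).sub continuousOn_const)
  have huc := hKc.uniformContinuousOn_of_continuous hcont
  rw [Metric.uniformContinuousOn_iff] at huc
  obtain ⟨ε, hε, h⟩ := huc (μ - 1) (by linarith)
  refine ⟨ε, hε, fun a' h1 h2 h3 b => ?_⟩
  by_cases hb : 2000 ≤ |b|
  · rw [qq_far hm ha ha' hδ hδ1 hb, qq_far hm h1 h2 hδ hδ1 hb]
    constructor <;> linarith
  push Not at hb
  obtain ⟨b1, b2⟩ := abs_lt.1 hb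
  have k := h (a', b) ⟨⟨h1, h2⟩, b1.le, b2.le⟩ (a, b) ⟨⟨ha, ha'⟩, b1.le, b2.le⟩ (by
    rw [Prod.dist_eq, dist_self]
    simpa [Real.dist_eq] using h3)
  rw [Real.dist_eq] at k
  obtain ⟨k1, k2⟩ := abs_lt.1 k
  have q1 := qq_nonneg (δ := δ) (a := a) hm b
  have q2 := qq_nonneg (δ := δ) (a := a') hm b
  simp only at k1 k2
  constructor
  · nlinarith
  · nlinarith

end Pool.Agent.Lib.MP_529713_gt
end
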