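import Pool.Agent.Lib.MP_529713_gt.LatBasic
import Pool.Agent.Lib.MP_529713_gt.Tubefn
import Pool.Agent.Lib.MP_529713_gt.Defs

section

section

/-!
# Separated planes
-/

namespace Pool.Agent.Lib.MP_529713_gt

open Filter Topology Set Matrix
open scoped ContDiff NNReal

variable {V : Set V4} {q : ℝ → ℝ} {k : ℝ}

lemma tub_eta_comm (u v : V4) : eta u v = eta v u := by simp only [eta]; ring
lemma tub_eta_add (u v w : V4) : eta (u + v) w = eta u w + eta v w := by
  simp only [eta, Pi.add_apply]; ring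
lemma tub_eta_smul (c : ℝ) (u v : V4) : eta (c • u) v = c * eta u v := by
  simp only [eta, Pi.smul_apply, smul_eq_mul]; ring
lemma tub_eta_add' (u v w : V4) : eta u (v + w) = eta u v + eta u w := by
  simp only [eta, Pi.add_apply]; ring
lemma tub_eta_smul' (c : ℝ) (u v : V4) : eta u (c • v) = c * eta u v := by
  simp only [eta, Pi.smul_apply, smul_eq_mul]; ring

/-- The Minkowski form is positive semidefinite on the orthogonal complement of a timelike
vector. -/
lemma tub_psd {X u : V4} (hX : eta X X = -1) (h : eta X u = 0) : 0 ≤ eta u u := by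
  simp only [eta] at *
  have cs : (X 1 * u 1 + X 2 * u 2 + X 3 * u 3) ^ 2 ≤
      (X 1 ^ 2 + X 2 ^ 2 + X 3 ^ 2) * (u 1 ^ 2 + u 2 ^ 2 + u 3 ^ 2) := by
    nlinarith [sq_nonneg (X 1 * u 2 - X 2 * u 1), sq_nonneg (X 1 * u 3 - X 3 * u 1),
      sq_nonneg (X 2 * u 3 - X 3 * u 2)]
  have e1 : X 1 * u 1 + X 2 * u 2 + X 3 * u 3 = X 0 * u 0 := by linarith
  have e2 : X 1 ^ 2 + X 2 ^ 2 + X 3 ^ 2 = X 0 ^ 2 - 1 := by nlinarith
  rw [e1, e2] at cs
  have p1 : 1 ≤ X 0 ^ 2 := by nlinarith [sq_nonneg (X 1), sq_nonneg (X 2), sq_nonneg (X 3)]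
  have p2 : 0 ≤ u 1 ^ 2 + u 2 ^ 2 + u 3 ^ 2 := by positivity
  by_contra hneg
  push Not at hneg
  have h3 : u 1 ^ 2 + u 2 ^ 2 + u 3 ^ 2 < u 0 ^ 2 := by nlinarith
  have h4 : X 0 ^ 2 * (u 1 ^ 2 + u 2 ^ 2 + u 3 ^ 2) < X 0 ^ 2 * u 0 ^ 2 :=
    mul_lt_mul_of_pos_left h3 (by linarith)
  nlinarith

/-- Cauchy-Schwarz on the orthogonal complement of a timelike vector. -/
lemma tub_cs {X u w : V4} (hX : eta X X = -1) (hu : eta X u = 0) (hw : eta X w = 0) :
    eta u w ^ 2 ≤ eta u u * eta w w := by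
  have h : ∀ t : ℝ, 0 ≤ eta w w * (t * t) + (2 * eta u w) * t + eta u u := by
    intro t
    have h1 : eta X (u + t • w) = 0 := by rw [tub_eta_add', tub_eta_smul', hu, hw]; ring
    have h2 := tub_psd hX h1
    rw [tub_eta_add, tub_eta_add', tub_eta_smul, tub_eta_add', tub_eta_smul', tub_eta_smul',
      tub_eta_comm w u] at h2
    linarith
  have h3 := discrim_le_zero h
  rw [discrim] at h3
  nlinarith

/-- The inequality between the distance of two points and their signed distances to a plane. -/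
lemma tub_pp {w : V4} (hw : eta w w = 1) (x y : V3) :
    Real.sqrt (1 + bb w x ^ 2) * Real.sqrt (1 + bb w y ^ 2) - bb w x * bb w y ≤ PP x y := by
  have hX := eta_lift_self x
  have hY := eta_lift_self y
  have hXY := eta_lift x y
  set X := lift x with hXd
  set Y := lift y with hYd
  have hb : eta w X = bb w x := rfl
  have hb' : eta w Y = bb w y := rfl
  set b := bb w x
  set b' := bb w y
  set P := PP x y
  have hP : 1 ≤ P := one_le_PP x y
  have h1 : eta X (w + b • X) = 0 := by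
    rw [tub_eta_add', tub_eta_smul', hX, tub_eta_comm X w, hb]; ring
  have h2 : eta X (Y + (-P) • X) = 0 := by
    rw [tub_eta_add', tub_eta_smul', hX, hXY]; ring
  have h3 := tub_cs hX h1 h2
  simp only [tub_eta_add, tub_eta_add', tub_eta_smul, tub_eta_smul', hX, hY, hXY, hb, hb', hw,
    tub_eta_comm X w, tub_eta_comm Y X] at h3
  have h4 : (1 + b ^ 2) * (1 + b' ^ 2) ≤ (P + b * b') ^ 2 := by nlinarith
  have h5 : 0 ≤ P + b * b' := by
    by_contra hneg
    push Not at hneg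
    nlinarith [sq_nonneg b, sq_nonneg b']
  rw [← Real.sqrt_mul (by positivity)]
  have h6 : Real.sqrt ((1 + b ^ 2) * (1 + b' ^ 2)) ≤ P + b * b' := by
    rw [Real.sqrt_le_left h5]
    exact h4
  linarith

/-- `sinh` of the distance to a plane changes slowly -/
theorem bb_lip {w : V4} (hw : eta w w = 1) (x y : V3) :
    |Real.arsinh (bb w x) - Real.arsinh (bb w y)| ≤ dh x y := by
  have h : Real.cosh (Real.arsinh (bb w x) - Real.arsinh (bb w y)) ≤ Real.cosh (dh x y) := by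
    rw [Real.cosh_sub, Real.cosh_arsinh, Real.cosh_arsinh, Real.sinh_arsinh, Real.sinh_arsinh,
      cosh_dh]
    exact tub_pp hw x y
  have h2 := Real.cosh_le_cosh.1 h
  rwa [abs_of_nonneg (dh_nonneg x y)] at h2

/-- Cauchy-Schwarz inequality for the normals of two planes -/
theorem eta_le_bb {v w : V4} (hv : eta v v = 1) (hw : eta w w = 1) (x : V3) :
    (eta v w + bb v x * bb w x) ^ 2 ≤ (1 + bb v x ^ 2) * (1 + bb w x ^ 2) := by
  have hX := eta_lift_self x
  set X := lift x with hXd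
  have hb : eta v X = bb v x := rfl
  have hb' : eta w X = bb w x := rfl
  set b := bb v x
  set b' := bb w x
  have h1 : eta X (v + b • X) = 0 := by
    rw [tub_eta_add', tub_eta_smul', hX, tub_eta_comm X v, hb]; ring
  have h2 : eta X (w + b' • X) = 0 := by
    rw [tub_eta_add', tub_eta_smul', hX, tub_eta_comm X w, hb']; ring
  have h3 := tub_cs hX h1 h2
  simp only [tub_eta_add, tub_eta_add', tub_eta_smul, tub_eta_smul', hX, hb, hb', hw, hv,
    tub_eta_comm X w, tub_eta_comm X v] at h3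
  nlinarith

theorem tube_unique (hV : Sep V) {v w : V4} (hv : v ∈ V) (hw : w ∈ V) {x : V3}
    (h₁ : |bb v x| ≤ 2001) (h₂ : |bb w x| ≤ 2001) : v = w := by
  by_contra hne
  have h3 := hV.2 v hv w hw hne
  have h4 := eta_le_bb (hV.1 v hv) (hV.1 w hw) x
  have h5 : bb v x ^ 2 ≤ 2001 ^ 2 := sq_le_sq' (abs_le.1 h₁).1 (abs_le.1 h₁).2
  have h6 : bb w x ^ 2 ≤ 2001 ^ 2 := sq_le_sq' (abs_le.1 h₂).1 (abs_le.1 h₂).2
  have h7 : |bb v x * bb w x| ≤ 2001 * 2001 := by
    rw [abs_mul]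
    exact mul_le_mul h₁ h₂ (abs_nonneg _) (by norm_num)
  have h8 : (eta v w + bb v x * bb w x) ^ 2 ≤ (1 + 2001 ^ 2) ^ 2 := by
    refine h4.trans ?_
    rw [sq (1 + 2001 ^ 2 : ℝ)]
    exact mul_le_mul (by linarith) (by linarith) (by positivity) (by positivity)
  have h9 : |eta v w + bb v x * bb w x| ≤ 1 + 2001 ^ 2 := abs_le_of_sq_le_sq h8 (by positivity)
  have h10 : |eta v w| ≤ |eta v w + bb v x * bb w x| + |bb v x * bb w x| := by
    have := abs_sub (eta v w + bb v x * bb w x) (bb v x * bb w x)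
    simpa using this
  have e1 : (1 + 2001 ^ 2 : ℝ) = 4004002 := by norm_num
  have e2 : (2001 * 2001 : ℝ) = 4004001 := by norm_num
  have e3 : (10 ^ 7 : ℝ) = 10000000 := by norm_num
  rw [e1] at h9
  rw [e2] at h7
  rw [e3] at h3
  linarith

theorem db_le {v : V4} (hv : eta v v = 1) (x u : V3) :
    fderiv ℝ (bb v) x u ^ 2 ≤ (1 + bb v x ^ 2) * gh x u u := by
  rw [fderiv_bb, gh_eq_eta]
  have hX := eta_lift_self x
  have hU : eta (lift x) (fderiv ℝ lift x u) = 0 := by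
    rw [fderiv_lift_eq]
    have h0 := lor_hh_pos x
    simp only [eta, lift, lor_inner]
    simp
    field_simp
    ring
  set X := lift x with hXd
  set U := fderiv ℝ lift x u
  have hb : eta v X = bb v x := rfl
  set b := bb v x
  have h1 : eta X (v + b • X) = 0 := by
    rw [tub_eta_add', tub_eta_smul', hX, tub_eta_comm X v, hb]; ring
  have h3 := tub_cs hX h1 hU
  simp only [tub_eta_add, tub_eta_add', tub_eta_smul, tub_eta_smul', hX, hb, hv, hU,
    tub_eta_comm X v] at h3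
  nlinarith

lemma tub_bb_cont (v : V4) : Continuous (bb v) := by
  have : bb v = fun x => etaL v (lift x) := rfl
  rw [this]
  exact (etaL v).continuous.comp lift_smooth.continuous

lemma tub_tube_zero {v : V4} {x : V3} (h : q (bb v x) = 0) : tube q v x = 0 := by
  ext u v
  simp [tube, h]

lemma tub_dh_cont (x : V3) : Continuous fun y : V3 => dh x y := by
  have h1 : Continuous fun y : V3 => ((x, y) : V3 × V3) := by fun_prop
  have h2 : Continuous ((fun p : V3 × V3 => dh p.1 p.2) ∘ (fun y : V3 => ((x, y) : V3 × V3))) :=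
    Continuous.comp dh_cont h1
  exact h2

theorem gg_local (hV : Sep V) (hq : ∀ b, 2000 ≤ |b| → q b = 0) (x : V3) :
    (∃ v ∈ V, ∀ᶠ y in 𝓝 x, gg k q V y = k • (gh y + tube q v y)) ∨
      ∀ᶠ y in 𝓝 x, gg k q V y = k • gh y := by
  classical
  by_cases hex : ∃ v ∈ V, |bb v x| < 2001
  · left
    obtain ⟨v, hv, hvx⟩ := hex
    refine ⟨v, hv, ?_⟩
    have h1 : ∀ᶠ y in 𝓝 x, |bb v y| < 2001 :=
      (tub_bb_cont v).abs.continuousAt.eventually (gt_mem_nhds hvx)
    filter_upwards [h1] with y hy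
    have h2 : ∀ w, w ≠ v → (∑ᶠ (_ : w ∈ V), tube q w y) = 0 := by
      intro w hw
      by_cases hwV : w ∈ V
      · rw [finsum_eq_if, if_pos hwV]
        apply tub_tube_zero
        apply hq
        by_contra hlt
        push Not at hlt
        exact hw (tube_unique hV hwV hv (by linarith) hy.le)
      · rw [finsum_eq_if, if_neg hwV]
    have h3 : ∑ᶠ w ∈ V, tube q w y = ∑ᶠ (_ : v ∈ V), tube q v y := finsum_eq_single _ v h2
    rw [gg, h3, finsum_eq_if, if_pos hv]
  · right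
    push Not at hex
    have hlt : Real.arsinh 2000 < Real.arsinh 2001 := Real.arsinh_lt_arsinh.2 (by norm_num)
    have hcont : Continuous fun y : V3 => dh x y := tub_dh_cont x
    have h1 : ∀ᶠ y in 𝓝 x, dh x y < Real.arsinh 2001 - Real.arsinh 2000 := by
      refine hcont.continuousAt.eventually (gt_mem_nhds ?_)
      show dh x x < _
      rw [dh_self]; linarith
    filter_upwards [h1] with y hy
    have h2 : ∀ w, (∑ᶠ (_ : w ∈ V), tube q w y) = 0 := by
      intro w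
      by_cases hwV : w ∈ V
      · rw [finsum_eq_if, if_pos hwV]
        apply tub_tube_zero
        apply hq
        have h3 := bb_lip (hV.1 w hwV) x y
        have h4 := hex w hwV
        have habs : ∀ b : ℝ, Real.arsinh |b| = |Real.arsinh b| := by
          intro b
          rcases le_total 0 b with hb | hb
          · rw [abs_of_nonneg hb, abs_of_nonneg (Real.arsinh_nonneg_iff.2 hb)]
          · rw [abs_of_nonpos hb, abs_of_nonpos (Real.arsinh_nonpos_iff.2 hb), Real.arsinh_neg]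
        have h5 : Real.arsinh 2001 ≤ |Real.arsinh (bb w x)| := by
          rw [← habs]; exact Real.arsinh_le_arsinh.2 h4
        have h6 : Real.arsinh 2000 ≤ |Real.arsinh (bb w y)| := by
          have := abs_sub_abs_le_abs_sub (Real.arsinh (bb w x)) (Real.arsinh (bb w y))
          linarith
        rw [← habs] at h6
        exact Real.arsinh_le_arsinh.1 h6
      · rw [finsum_eq_if, if_neg hwV]
    have h3 : ∑ᶠ w ∈ V, tube q w y = 0 := by
      rw [finsum_congr h2, finsum_zero]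
    rw [gg, h3]
    exact congrArg (fun z => k • z) (add_zero (gh y))

end Pool.Agent.Lib.MP_529713_gt
end

section

/-!
# Bounds for the tube metrics
-/

namespace Pool.Agent.Lib.MP_529713_gt

open Filter Topology Set Matrix
open scoped ContDiff NNReal

variable {V : Set V4} {q : ℝ → ℝ} {k : ℝ}

/-- the factor of `q (bb v x)` in the tube term -/
noncomputable def tbX (v : V4) (x u : V3) : ℝ :=
  gh x u u - (1 + bb v x ^ 2)⁻¹ * (fderiv ℝ (bb v) x u) ^ 2

lemma tb_tube_apply (q : ℝ → ℝ) (v : V4) (x u : V3) :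
    tube q v x u u = q (bb v x) * tbX v x u := by
  simp [tube, tbX]
  ring_nf
  tauto

lemma tbX_nonneg {v : V4} (hv : eta v v = 1) (x u : V3) : 0 ≤ tbX v x u := by
  have h := db_le hv x u
  have h0 : 0 < 1 + bb v x ^ 2 := by positivity
  rw [tbX, inv_mul_eq_div, sub_nonneg, div_le_iff₀ h0]
  linarith

lemma tbX_le (v : V4) (x u : V3) : tbX v x u ≤ gh x u u := by
  rw [tbX]
  have : 0 ≤ (1 + bb v x ^ 2)⁻¹ * (fderiv ℝ (bb v) x u) ^ 2 := by positivity
  linarith

lemma tb_gh_nonneg (x u : V3) : 0 ≤ gh x u u := by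
  rcases eq_or_ne u 0 with h | h
  · simp [h]
  · exact (gh_pos x u h).le

lemma tb_tube_zero {v : V4} {x : V3} (h : q (bb v x) = 0) : tube q v x = 0 := by
  ext u w
  simp [tube, h]

theorem gg_far (hq : ∀ b, 2000 ≤ |b| → q b = 0) {x : V3} (hx : ∀ v ∈ V, 2000 ≤ |bb v x|) :
    gg k q V x = k • gh x := by
  rw [gg, finsum_mem_eq_zero_of_forall_eq_zero, add_zero]
  intro v hv
  exact tb_tube_zero (hq _ (hx v hv))

lemma tb_gg_eq (hV : Sep V) (hq : ∀ b, 2000 ≤ |b| → q b = 0) {v : V4} (hv : v ∈ V) {x : V3}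
    (hx : |bb v x| < 2000) : gg k q V x = k • (gh x + tube q v x) := by
  classical
  rw [gg, finsum_mem_def, finsum_eq_single _ v]
  · rw [indicator_of_mem hv]
  · intro w hw
    by_cases hwV : w ∈ V
    · rw [indicator_of_mem hwV]
      apply tb_tube_zero
      apply hq
      by_contra hc
      push Not at hc
      exact hw (tube_unique hV hwV hv (by linarith) (by linarith))
    · rw [indicator_of_notMem hwV]

lemma tb_cases (V : Set V4) (x : V3) : (∀ v ∈ V, 2000 ≤ |bb v x|) ∨ ∃ v ∈ V, |bb v x| < 2000 := by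
  by_cases h : ∃ v ∈ V, |bb v x| < 2000
  · exact Or.inr h
  · push Not at h
    exact Or.inl h

lemma tb_gg_apply (hV : Sep V) (hq : ∀ b, 2000 ≤ |b| → q b = 0) {v : V4} (hv : v ∈ V) {x : V3}
    (hx : |bb v x| < 2000) (u : V3) :
    gg k q V x u u = k * (gh x u u + q (bb v x) * tbX v x u) := by
  rw [tb_gg_eq hV hq hv hx]
  simp [tb_tube_apply]
  ring

lemma tb_gg_far_apply (hq : ∀ b, 2000 ≤ |b| → q b = 0) {x : V3} (hx : ∀ v ∈ V, 2000 ≤ |bb v x|)
    (u : V3) : gg k q V x u u = k * gh x u u := by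
  rw [gg_far hq hx]
  simp

theorem gg_lower (hV : Sep V) (hq : ∀ b, 2000 ≤ |b| → q b = 0) (hq0 : ∀ b, 0 ≤ q b) (hk : 0 ≤ k)
    (x u : V3) : k * gh x u u ≤ gg k q V x u u := by
  rcases tb_cases V x with h | ⟨v, hv, h⟩
  · rw [tb_gg_far_apply hq h]
  · rw [tb_gg_apply hV hq hv h]
    have := mul_nonneg (hq0 (bb v x)) (tbX_nonneg (hV.1 v hv) x u)
    gcongr
    linarith

theorem gg_ge (hV : Sep V) (hq : ∀ b, 2000 ≤ |b| → q b = 0) (hq0 : ∀ b, 0 ≤ q b) (hk : 0 ≤ k)
    {v : V4} (hv : v ∈ V) (x u : V3) : k * (gh x u u + tube q v x u u) ≤ gg k q V x u u := by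
  rcases lt_or_ge |bb v x| 2000 with h | h
  · rw [tb_gg_apply hV hq hv h, tb_tube_apply]
  · rw [tb_tube_apply, hq _ h, zero_mul, add_zero]
    exact gg_lower hV hq hq0 hk x u

theorem gg_upper (hV : Sep V) (hq : ∀ b, 2000 ≤ |b| → q b = 0) (hk : 0 ≤ k) {M : ℝ} (hM1 : 1 ≤ M)
    (hM : ∀ b, 1 + q b ≤ M) (x u : V3) : gg k q V x u u ≤ k * M * gh x u u := by
  have h0 := tb_gh_nonneg x u
  rcases tb_cases V x with h | ⟨v, hv, h⟩
  · rw [tb_gg_far_apply hq h]
    have : gh x u u ≤ M * gh x u u := by nlinarith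
    rw [mul_assoc]
    gcongr
  · rw [tb_gg_apply hV hq hv h, mul_assoc]
    have h1 := tbX_nonneg (hV.1 v hv) x u
    have h2 := tbX_le v x u
    have h3 := hM (bb v x)
    have : gh x u u + q (bb v x) * tbX v x u ≤ M * gh x u u := by
      have h4 : (1 + q (bb v x)) * tbX v x u ≤ M * tbX v x u := by gcongr
      nlinarith
    gcongr

theorem gg_compare (hV : Sep V) (hq : ∀ b, 2000 ≤ |b| → q b = 0) {q' : ℝ → ℝ}
    (hq' : ∀ b, 2000 ≤ |b| → q' b = 0) (hq0' : ∀ b, 0 ≤ q' b) (hk : 0 ≤ k) {μ : ℝ} (hμ : 1 ≤ μ)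
    (h : ∀ b, 1 + q b ≤ μ * (1 + q' b)) (x u : V3) :
    gg k q V x u u ≤ μ * gg k q' V x u u := by
  have h0 := tb_gh_nonneg x u
  rcases tb_cases V x with hx | ⟨v, hv, hx⟩
  · rw [tb_gg_far_apply hq hx, tb_gg_far_apply hq' hx]
    have : gh x u u ≤ μ * gh x u u := by nlinarith
    calc k * gh x u u ≤ k * (μ * gh x u u) := by gcongr
      _ = _ := by ring
  · rw [tb_gg_apply hV hq hv hx, tb_gg_apply hV hq' hv hx]
    have h1 := tbX_nonneg (hV.1 v hv) x u
    have h2 := tbX_le v x u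
    have h3 := h (bb v x)
    have : gh x u u + q (bb v x) * tbX v x u ≤ μ * (gh x u u + q' (bb v x) * tbX v x u) := by
      have h4 : (1 + q (bb v x)) * tbX v x u ≤ μ * (1 + q' (bb v x)) * tbX v x u := by gcongr
      nlinarith
    calc k * (gh x u u + q (bb v x) * tbX v x u)
        ≤ k * (μ * (gh x u u + q' (bb v x) * tbX v x u)) := by gcongr
      _ = _ := by ring

end Pool.Agent.Lib.MP_529713_gt
end
end

section

section

/-!
# A circle has dimension at least one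
-/

namespace Pool.Agent.Lib.MP_529713_gt

open Filter Topology Set Matrix MeasureTheory
open scoped ContDiff NNReal

theorem circle_not_null {c : ℝ} (hc : |c| < 1) {s : ℝ} (hs : 0 < s) (hs1 : s ≤ 1) :
    ¬ HNull (fun x y : {x : V3 // ‖x‖ = 1 ∧ x 0 = c} => ‖x.1 - y.1‖) s := by
  intro h
  have hc2 : c ^ 2 < 1 := (sq_lt_one_iff_abs_lt_one c).2 hc
  set ρ := Real.sqrt (1 - c ^ 2) with hρ
  have hρ0 : 0 < ρ := Real.sqrt_pos.2 (by linarith)
  have hρ2 : ρ ^ 2 = 1 - c ^ 2 := Real.sq_sqrt (by linarith)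
  obtain ⟨A, r, hcov, hr0, hdiam, hsum, hlt⟩ := h (min 1 (ρ / 2)) (by positivity)
  have hterm0 : ∀ n, 0 ≤ r n ^ s := fun n => Real.rpow_nonneg (hr0 n) s
  have hr1 : ∀ n, r n ≤ 1 := by
    intro n
    by_contra hn
    push Not at hn
    have h1 : 1 < r n ^ s := Real.one_lt_rpow hn hs
    have h2 : r n ^ s ≤ ∑' k, r k ^ s := hsum.le_tsum n (fun k _ => hterm0 k)
    have h3 := min_le_left 1 (ρ / 2)
    linarith
  have hle : ∀ n, r n ≤ r n ^ s := by
    intro n
    have := Real.rpow_le_rpow_of_exponent_ge' (hr0 n) (hr1 n) hs.le hs1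
    rwa [Real.rpow_one] at this
  have hsumr : Summable r := Summable.of_nonneg_of_le hr0 hle hsum
  have htr : ∑' n, r n ≤ ∑' n, r n ^ s := hsumr.tsum_le_tsum hle hsum
  -- the sets covering the interval
  have hB : ∀ n, ∃ z : ℝ, (fun x : {x : V3 // ‖x‖ = 1 ∧ x 0 = c} => x.1 1) '' A n ⊆
      Icc (z - r n) (z + r n) := by
    intro n
    rcases (A n).eq_empty_or_nonempty with he | ⟨z, hz⟩
    · exact ⟨0, by rw [he]; simp⟩
    · refine ⟨z.1 1, ?_⟩
      rintro _ ⟨x, hx, rfl⟩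
      have h1 := hdiam n x hx z hz
      have h2 : |x.1 1 - z.1 1| ≤ ‖x.1 - z.1‖ := by
        have := PiLp.norm_apply_le (x.1 - z.1) 1
        simpa using this
      have h3 := abs_le.1 (h2.trans h1)
      exact ⟨by linarith [h3.1], by linarith [h3.2]⟩
  choose z hz using hB
  have hsub : Icc (-ρ) ρ ⊆ ⋃ n, Icc (z n - r n) (z n + r n) := by
    intro v hv
    have hv2 : v ^ 2 ≤ ρ ^ 2 := by
      rw [sq_le_sq, abs_of_pos hρ0, abs_le]; exact hv
    have hn : ‖(!₂[c, v, Real.sqrt (ρ ^ 2 - v ^ 2)] : V3)‖ = 1 := by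
      rw [EuclideanSpace.norm_eq, Real.sqrt_eq_one]
      simp only [Fin.sum_univ_three, Real.norm_eq_abs, sq_abs]
      simp
      rw [Real.sq_sqrt (by linarith)]
      linarith
    obtain ⟨n, hn'⟩ := hcov ⟨!₂[c, v, Real.sqrt (ρ ^ 2 - v ^ 2)], hn, by simp⟩
    rw [mem_iUnion]
    refine ⟨n, hz n ⟨_, hn', ?_⟩⟩
    simp
  have hvol : volume (Icc (-ρ) ρ) ≤ ENNReal.ofReal (2 * ∑' n, r n) := by
    calc volume (Icc (-ρ) ρ) ≤ volume (⋃ n, Icc (z n - r n) (z n + r n)) := measure_mono hsub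
      _ ≤ ∑' n, volume (Icc (z n - r n) (z n + r n)) := measure_iUnion_le _
      _ = ∑' n, ENNReal.ofReal (2 * r n) := by
          congr 1
          funext n
          rw [Real.volume_Icc]
          congr 1
          ring
      _ = ENNReal.ofReal (∑' n, 2 * r n) := by
          rw [ENNReal.ofReal_tsum_of_nonneg (fun n => by have := hr0 n; positivity)
            (hsumr.mul_left 2)]
      _ = _ := by rw [tsum_mul_left]
  rw [Real.volume_Icc] at hvol
  have h0 : 0 ≤ ∑' n, r n := tsum_nonneg hr0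
  rw [ENNReal.ofReal_le_ofReal_iff (by positivity)] at hvol
  have h3 := min_le_right 1 (ρ / 2)
  linarith

end Pool.Agent.Lib.MP_529713_gt
end

section

/-!
# A smooth convex function
-/

namespace Pool.Agent.Lib.MP_529713_gt

open Filter Topology Set Matrix
open scoped ContDiff NNReal

/-- the derivative of the smooth convex function -/
noncomputable def muD (t : ℝ) : ℝ := Real.smoothTransition (5 * t - 9 / 2)

lemma muD_cont : Continuous muD := by
  unfold muD
  fun_prop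

lemma muD_contDiff : ContDiff ℝ ∞ muD := by
  unfold muD
  exact Real.smoothTransition.contDiff.comp (by fun_prop)

lemma muD_mono : Monotone muD := by
  intro a b h
  apply Real.smoothTransition.monotone
  linarith

lemma muD_zero {t : ℝ} (h : t ≤ 9 / 10) : muD t = 0 :=
  Real.smoothTransition.zero_of_nonpos (by linarith)

lemma muD_one {t : ℝ} (h : 11 / 10 ≤ t) : muD t = 1 :=
  Real.smoothTransition.one_of_one_le (by linarith)

lemma muD_symm (t : ℝ) : muD (2 - t) = 1 - muD t := by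
  have key : ∀ x : ℝ, Real.smoothTransition (1 - x) = 1 - Real.smoothTransition x := by
    intro x
    unfold Real.smoothTransition
    have h := (Real.smoothTransition.pos_denom x).ne'
    have h2 : expNegInvGlue (1 - x) + expNegInvGlue (1 - (1 - x)) ≠ 0 := by
      rw [sub_sub_cancel, add_comm]; exact h
    rw [sub_sub_cancel] at h2 ⊢
    field_simp
    ring
  unfold muD
  rw [← key]
  congr 1
  ring

/-- the smooth convex function -/
noncomputable def muF (x : ℝ) : ℝ := 1 + ∫ t in (0 : ℝ)..x, muD t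

lemma muF_hasDeriv (x : ℝ) : HasDerivAt muF (muD x) x := by
  unfold muF
  have h := intervalIntegral.integral_hasDerivAt_right (a := 0) (b := x)
    (muD_cont.intervalIntegrable _ _) (muD_cont.stronglyMeasurableAtFilter _ _)
    muD_cont.continuousAt
  simpa using h.const_add 1

lemma muF_deriv : deriv muF = muD := funext fun x => (muF_hasDeriv x).deriv

lemma mu_int_zero {a b : ℝ} (ha : a ≤ 9 / 10) (hb : b ≤ 9 / 10) : ∫ t in a..b, muD t = 0 := by
  rw [intervalIntegral.integral_congr (g := fun _ => (0 : ℝ))]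
  · simp
  · intro t ht
    rw [Set.mem_uIcc] at ht
    apply muD_zero
    rcases ht with ht | ht <;> linarith [ht.1, ht.2]

lemma mu_int_one {b : ℝ} (hb : 11 / 10 ≤ b) : ∫ t in (11 / 10 : ℝ)..b, muD t = b - 11 / 10 := by
  rw [intervalIntegral.integral_congr (g := fun _ => (1 : ℝ))]
  · simp
  · intro t ht
    rw [Set.uIcc_of_le hb] at ht
    exact muD_one ht.1

lemma mu_int_mid : ∫ t in (9 / 10 : ℝ)..(11 / 10), muD t = 1 / 10 := by
  have h1 : ∫ t in (9 / 10 : ℝ)..(11 / 10), muD (2 - t) = ∫ t in (9 / 10 : ℝ)..(11 / 10), muD t := by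
    rw [intervalIntegral.integral_comp_sub_left (fun t => muD t) 2]
    norm_num
  have h2 : ∫ t in (9 / 10 : ℝ)..(11 / 10), muD (2 - t) =
      ∫ t in (9 / 10 : ℝ)..(11 / 10), ((1 : ℝ) - muD t) := by
    congr 1
    funext t
    exact muD_symm t
  rw [intervalIntegral.integral_sub (by simp) (muD_cont.intervalIntegrable _ _), h1] at h2
  simp only [intervalIntegral.integral_const, smul_eq_mul, mul_one] at h2
  linarith

theorem exists_mu : ∃ m, IsMu m := by
  refine ⟨muF, ?_, ?_, ?_, ?_, ?_, ?_⟩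
  · rw [contDiff_infty_iff_deriv]
    refine ⟨fun x => (muF_hasDeriv x).differentiableAt, ?_⟩
    rw [muF_deriv]
    exact muD_contDiff
  · apply monotone_of_deriv_nonneg (fun x => (muF_hasDeriv x).differentiableAt)
    intro x
    rw [muF_deriv]
    exact Real.smoothTransition.nonneg _
  · rw [muF_deriv]
    exact muD_mono
  · intro x
    rw [muF_deriv]
    exact Real.smoothTransition.le_one _
  · intro x hx
    unfold muF
    rw [mu_int_zero (by norm_num) hx]
    simp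
  · intro x hx
    unfold muF
    rw [← intervalIntegral.integral_add_adjacent_intervals (b := 9 / 10)
      (muD_cont.intervalIntegrable _ _) (muD_cont.intervalIntegrable _ _),
      ← intervalIntegral.integral_add_adjacent_intervals (a := 9 / 10) (b := 11 / 10)
      (muD_cont.intervalIntegrable _ _) (muD_cont.intervalIntegrable _ _),
      mu_int_zero (by norm_num) le_rfl, mu_int_mid, mu_int_one hx]
    ring

end Pool.Agent.Lib.MP_529713_gt
end

section

/-!
# The sphere has dimension at most two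
-/

namespace Pool.Agent.Lib.MP_529713_gt

open Filter Topology Set Matrix
open scoped ContDiff NNReal

lemma sphere_norm_le (x : V3) : ‖x‖ ≤ |x 0| + |x 1| + |x 2| := by
  rw [EuclideanSpace.norm_eq, Fin.sum_univ_three]
  refine Real.sqrt_le_iff.2 ⟨by positivity, ?_⟩
  simp only [Real.norm_eq_abs]
  nlinarith [abs_nonneg (x 0), abs_nonneg (x 1), abs_nonneg (x 2),
    mul_nonneg (abs_nonneg (x 0)) (abs_nonneg (x 1)), mul_nonneg (abs_nonneg (x 0)) (abs_nonneg (x 2)),
    mul_nonneg (abs_nonneg (x 1)) (abs_nonneg (x 2))]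

/-- spherical coordinates -/
noncomputable def sphF (u v : ℝ) : V3 :=
  !₂[Real.cos u * Real.cos v, Real.cos u * Real.sin v, Real.sin u]

lemma sphere_cos_sub (a b : ℝ) : |Real.cos a - Real.cos b| ≤ |a - b| := by
  have h := Convex.norm_image_sub_le_of_norm_deriv_le (f := Real.cos) (C := 1) (s := univ) (x := b)
    (y := a) (fun x _ => Real.differentiable_cos x) (fun x _ => by
      rw [Real.deriv_cos, norm_neg, Real.norm_eq_abs]; exact Real.abs_sin_le_one x) convex_univ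
    (mem_univ _) (mem_univ _)
  simpa using h

lemma sphere_sin_sub (a b : ℝ) : |Real.sin a - Real.sin b| ≤ |a - b| := by
  have h := Convex.norm_image_sub_le_of_norm_deriv_le (f := Real.sin) (C := 1) (s := univ) (x := b)
    (y := a) (fun x _ => Real.differentiable_sin x) (fun x _ => by
      rw [Real.deriv_sin, Real.norm_eq_abs]; exact Real.abs_cos_le_one x) convex_univ
    (mem_univ _) (mem_univ _)
  simpa using h

lemma sphere_mul_sub {a b c d p q : ℝ} (hp : |a - c| ≤ p) (hq : |b - d| ≤ q) (hb : |b| ≤ 1)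
    (hc : |c| ≤ 1) : |a * b - c * d| ≤ p + q := by
  have h1 : a * b - c * d = (a - c) * b + c * (b - d) := by ring
  have hp0 : 0 ≤ p := (abs_nonneg _).trans hp
  have hq0 : 0 ≤ q := (abs_nonneg _).trans hq
  rw [h1]
  calc |(a - c) * b + c * (b - d)| ≤ |(a - c) * b| + |c * (b - d)| := abs_add_le _ _
    _ = |a - c| * |b| + |c| * |b - d| := by rw [abs_mul, abs_mul]
    _ ≤ p * 1 + 1 * q := by gcongr
    _ = p + q := by ring

lemma sphF_lip (u v u' v' : ℝ) : ‖sphF u v - sphF u' v'‖ ≤ 3 * (|u - u'| + |v - v'|) := by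
  refine (sphere_norm_le _).trans ?_
  have h0 : (sphF u v - sphF u' v') 0 = Real.cos u * Real.cos v - Real.cos u' * Real.cos v' := by
    simp [sphF]
  have h1 : (sphF u v - sphF u' v') 1 = Real.cos u * Real.sin v - Real.cos u' * Real.sin v' := by
    simp [sphF]
  have h2 : (sphF u v - sphF u' v') 2 = Real.sin u - Real.sin u' := by
    simp [sphF]
  rw [h0, h1, h2]
  have a0 := sphere_mul_sub (sphere_cos_sub u u') (sphere_cos_sub v v') (Real.abs_cos_le_one v)
    (Real.abs_cos_le_one u')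
  have a1 := sphere_mul_sub (sphere_cos_sub u u') (sphere_sin_sub v v') (Real.abs_sin_le_one v)
    (Real.abs_cos_le_one u')
  have a2 := sphere_sin_sub u u'
  have := abs_nonneg (u - u')
  have := abs_nonneg (v - v')
  linarith

lemma sphF_surj (x : V3) (hx : ‖x‖ = 1) : ∃ u v : ℝ, -4 ≤ u ∧ u < 4 ∧ -4 ≤ v ∧ v < 4 ∧ x = sphF u v := by
  have hsum : x 0 ^ 2 + x 1 ^ 2 + x 2 ^ 2 = 1 := by
    have h := EuclideanSpace.real_norm_sq_eq x
    rw [hx, Fin.sum_univ_three] at h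
    linarith
  have hpi := Real.pi_lt_four
  have hx2 : -1 ≤ x 2 ∧ x 2 ≤ 1 := by
    constructor <;> nlinarith [sq_nonneg (x 0), sq_nonneg (x 1)]
  set w : ℂ := ⟨x 0, x 1⟩ with hw
  have hcos : Real.cos (Real.arcsin (x 2)) = ‖w‖ := by
    rw [Real.cos_arcsin, Complex.norm_def, Complex.normSq_mk]
    congr 1
    linarith
  refine ⟨Real.arcsin (x 2), Complex.arg w, ?_, ?_, ?_, ?_, ?_⟩
  · linarith [Real.neg_pi_div_two_le_arcsin (x 2)]
  · linarith [Real.arcsin_le_pi_div_two (x 2)]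
  · linarith [Complex.neg_pi_lt_arg w]
  · linarith [Complex.arg_le_pi w]
  · have e0 : Real.cos (Real.arcsin (x 2)) * Real.cos (Complex.arg w) = x 0 := by
      rw [hcos, Complex.norm_mul_cos_arg]
    have e1 : Real.cos (Real.arcsin (x 2)) * Real.sin (Complex.arg w) = x 1 := by
      rw [hcos, Complex.norm_mul_sin_arg]
    have e2 : Real.sin (Real.arcsin (x 2)) = x 2 := Real.sin_arcsin hx2.1 hx2.2
    ext i
    fin_cases i
    · exact (e0.symm)
    · exact (e1.symm)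
    · exact (e2.symm)

lemma sphere_floor_close {K : ℕ} (hK : 0 < K) {a b : ℝ} (ha : -4 ≤ a) (hb : -4 ≤ b)
    (h : ⌊(a + 4) * K / 8⌋₊ = ⌊(b + 4) * K / 8⌋₊) : |a - b| ≤ 8 / K := by
  have hK' : (0:ℝ) < K := by exact_mod_cast hK
  have a1 : (⌊(a + 4) * K / 8⌋₊ : ℝ) ≤ (a + 4) * K / 8 :=
    Nat.floor_le (div_nonneg (mul_nonneg (by linarith) hK'.le) (by norm_num))
  have a2 := Nat.lt_floor_add_one ((a + 4) * K / 8)
  have b1 : (⌊(b + 4) * K / 8⌋₊ : ℝ) ≤ (b + 4) * K / 8 :=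
    Nat.floor_le (div_nonneg (mul_nonneg (by linarith) hK'.le) (by norm_num))
  have b2 := Nat.lt_floor_add_one ((b + 4) * K / 8)
  rw [h] at a1 a2
  rw [le_div_iff₀ hK', abs_sub_comm]
  have h1 : |b - a| * K = |(b - a) * K| := by rw [abs_mul, abs_of_pos hK']
  rw [h1, abs_le]
  constructor <;> linarith

theorem sphere_null {s : ℝ} (hs : 2 < s) :
    HNull (fun x y : {x : V3 // ‖x‖ = 1} => ‖x.1 - y.1‖) s := by
  intro ε hε
  -- choose the mesh
  have hlim : Tendsto (fun K : ℕ => (48:ℝ) ^ s * (K:ℝ) ^ (-(s - 2))) atTop (𝓝 ((48:ℝ) ^ s * 0)) :=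
    ((tendsto_rpow_neg_atTop (by linarith : 0 < s - 2)).comp
      tendsto_natCast_atTop_atTop).const_mul _
  rw [mul_zero] at hlim
  obtain ⟨K, hK1, hK0⟩ := (((tendsto_order.1 hlim).2 ε hε).and (eventually_gt_atTop 0)).exists
  have hKr : (0:ℝ) < K := by exact_mod_cast hK0
  let A : ℕ → Set {x : V3 // ‖x‖ = 1} := fun n =>
    {x | n < K ^ 2 ∧ ∃ u v : ℝ, -4 ≤ u ∧ -4 ≤ v ∧ x.1 = sphF u v ∧
      ⌊(u + 4) * K / 8⌋₊ = n / K ∧ ⌊(v + 4) * K / 8⌋₊ = n % K}
  let r : ℕ → ℝ := fun n => if n < K ^ 2 then 48 / K else 0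
  have hr0 : ∀ n ∉ Finset.range (K ^ 2), r n ^ s = 0 := by
    intro n hn
    rw [Finset.mem_range] at hn
    simp only [r, if_neg hn]
    exact Real.zero_rpow (by linarith)
  refine ⟨A, r, ?_, ?_, ?_, ?_, ?_⟩
  · rintro ⟨x, hx⟩
    obtain ⟨u, v, hu1, hu2, hv1, hv2, hxe⟩ := sphF_surj x hx
    have hu : ⌊(u + 4) * K / 8⌋₊ < K := by
      rw [Nat.floor_lt' hK0.ne']
      have : (u + 4) * K < 8 * K := by gcongr; linarith
      linarith
    have hv : ⌊(v + 4) * K / 8⌋₊ < K := by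
      rw [Nat.floor_lt' hK0.ne']
      have : (v + 4) * K < 8 * K := by gcongr; linarith
      linarith
    refine ⟨⌊(u + 4) * K / 8⌋₊ * K + ⌊(v + 4) * K / 8⌋₊, ?_, u, v, hu1, hv1, hxe, ?_, ?_⟩
    · calc ⌊(u + 4) * K / 8⌋₊ * K + ⌊(v + 4) * K / 8⌋₊
          < ⌊(u + 4) * K / 8⌋₊ * K + K := by omega
        _ = (⌊(u + 4) * K / 8⌋₊ + 1) * K := by ring
        _ ≤ K * K := Nat.mul_le_mul_right _ hu
        _ = K ^ 2 := by ring
    · rw [mul_comm ⌊(u + 4) * K / 8⌋₊ K, Nat.mul_add_div hK0, Nat.div_eq_of_lt hv, add_zero]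
    · rw [mul_comm ⌊(u + 4) * K / 8⌋₊ K, Nat.mul_add_mod, Nat.mod_eq_of_lt hv]
  · intro n
    simp only [r]
    split_ifs
    · positivity
    · exact le_rfl
  · rintro n ⟨x, hx⟩ ⟨hn, u, v, hu, hv, hxe, h1, h2⟩ ⟨y, hy⟩ ⟨_, u', v', hu', hv', hye, h1', h2'⟩
    simp only at hxe hye
    simp only [r, if_pos hn]
    rw [hxe, hye]
    refine (sphF_lip u v u' v').trans ?_
    have e1 := sphere_floor_close hK0 hu hu' (h1.trans h1'.symm)
    have e2 := sphere_floor_close hK0 hv hv' (h2.trans h2'.symm)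
    calc 3 * (|u - u'| + |v - v'|) ≤ 3 * (8 / K + 8 / K) := by gcongr
      _ = 48 / K := by ring
  · exact summable_of_ne_finset_zero hr0
  · rw [tsum_eq_sum hr0]
    have h3 : ∀ n ∈ Finset.range (K ^ 2), r n ^ s = (48 / K) ^ s := by
      intro n hn
      rw [Finset.mem_range] at hn
      simp only [r, if_pos hn]
    rw [Finset.sum_congr rfl h3, Finset.sum_const, Finset.card_range, nsmul_eq_mul]
    refine lt_of_eq_of_lt ?_ hK1
    rw [Real.div_rpow (by norm_num) hKr.le, Real.rpow_neg hKr.le, Real.rpow_sub hKr]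
    push_cast
    have h4 : (K:ℝ) ^ (2:ℝ) = (K:ℝ) ^ 2 := by exact_mod_cast Real.rpow_natCast (K:ℝ) 2
    rw [h4]
    have h5 : 0 < (K:ℝ) ^ s := Real.rpow_pos_of_pos hKr s
    field_simp

end Pool.Agent.Lib.MP_529713_gt
end

section

/-!
# The group of deck transformations
-/

namespace Pool.Agent.Lib.MP_529713_gt

open Filter Topology Set Matrix
open scoped ContDiff NNReal

/-- the group of deck transformations -/
def deckGroup {L : Set (Matrix (Fin 4) (Fin 4) ℝ)} {t : ℝ} (hL : IsLat L t) :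
    Subgroup (Equiv.Perm V3) where
  carrier := {γ | ∃ A ∈ L, ∀ x, γ x = act A x}
  mul_mem' := by
    rintro γ γ' ⟨A, hA, h⟩ ⟨B, hB, h'⟩
    refine ⟨A * B, hL.mul A hA B hB, fun x => ?_⟩
    rw [Equiv.Perm.mul_apply, h', h, act_mul (hL.lor A hA) (hL.lor B hB)]
  one_mem' := ⟨1, hL.one, fun x => by rw [act_one]; rfl⟩
  inv_mem' := by
    rintro γ ⟨A, hA, h⟩
    obtain ⟨B, hB, h1, h2⟩ := hL.inv A hA
    refine ⟨B, hB, fun x => ?_⟩
    rw [Equiv.Perm.inv_eq_iff_eq, h, ← act_mul (hL.lor A hA) (hL.lor B hB), h1, act_one]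

lemma mem_deckGroup {L : Set (Matrix (Fin 4) (Fin 4) ℝ)} {t : ℝ} (hL : IsLat L t)
    {γ : Equiv.Perm V3} : γ ∈ deckGroup hL ↔ ∃ A ∈ L, ∀ x, γ x = act A x := Iff.rfl

lemma hh_act_zero {A : Matrix (Fin 4) (Fin 4) ℝ} (hA : IsLor A) : hh (act A 0) = A 0 0 := by
  have h := congrFun (lift_act hA 0) 0
  have h1 : lift (act A 0) 0 = hh (act A 0) := rfl
  rw [h1] at h
  rw [h]
  have h2 : lift 0 = ![1, 0, 0, 0] := by
    unfold lift hh
    simp
  rw [h2]
  simp [Matrix.mulVec, dotProduct, Fin.sum_univ_four]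

lemma deck_dh_zero (x : V3) : dh 0 x = Real.arcosh (hh x) := by
  unfold dh PP
  have : hh (0 : V3) = 1 := by unfold hh; simp
  rw [this]
  simp

/-- the group of transformations of `ℝ³` defined by a lattice -/
theorem exists_deck {L : Set (Matrix (Fin 4) (Fin 4) ℝ)} {t : ℝ} (hL : IsLat L t) :
    ∃ Γ : Subgroup (Equiv.Perm V3), ∀ G : RMetric,
      (∀ A ∈ L, ∀ x u v, G.g (act A x) (fderiv ℝ (act A) x u) (fderiv ℝ (act A) x v) = G.g x u v) →
        IsDeck G Γ := by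
  refine ⟨deckGroup hL, fun G hG => ⟨?_, ?_, ?_, ?_, ?_⟩⟩
  · rintro γ ⟨A, hA, h⟩
    have : (γ : V3 → V3) = act A := funext h
    rw [this]
    exact act_smooth A
  · rintro γ ⟨A, hA, h⟩ x u v
    have : (γ : V3 → V3) = act A := funext h
    rw [this]
    exact hG A hA x u v
  · rintro γ ⟨A, hA, h⟩ x hx
    rw [h] at hx
    have h1 := hL.free A hA x hx
    ext1 y
    rw [h, h1, act_one]
    rfl
  · intro K hK
    -- bound of `hh` on `K`
    obtain ⟨C, hC⟩ := (hK.image hh_smooth.continuous).isBounded.exists_norm_le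
    set R := Real.cosh (2 * Real.arcosh (max 1 C)) with hR
    have hfin := hL.finite R
    have hchoose : ∀ γ : Equiv.Perm V3, γ ∈ deckGroup hL → ∃ A ∈ L, ∀ x, γ x = act A x :=
      fun γ h => h
    have hinj : {γ : Equiv.Perm V3 | γ ∈ deckGroup hL ∧ (γ '' K ∩ K).Nonempty} ⊆
        {γ : Equiv.Perm V3 | ∃ A ∈ {A | A ∈ L ∧ A 0 0 ≤ R}, ∀ x, γ x = act A x} := by
      rintro γ ⟨⟨A, hA, h⟩, y, ⟨x, hx, hxy⟩, hy⟩
      refine ⟨A, ⟨hA, ?_⟩, h⟩
      have hAl := hL.lor A hA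
      rw [h] at hxy
      rw [← hh_act_zero hAl]
      have hb : ∀ z ∈ K, dh 0 z ≤ Real.arcosh (max 1 C) := by
        intro z hz
        rw [deck_dh_zero]
        have h1 : hh z ≤ C := (Real.le_norm_self _).trans (hC _ ⟨z, hz, rfl⟩)
        exact (Real.arcosh_le_arcosh (by linarith [one_le_hh z])
          (lt_of_lt_of_le one_pos (le_max_left 1 C))).2 (h1.trans (le_max_right _ _))
      have h1 : dh 0 (act A 0) ≤ 2 * Real.arcosh (max 1 C) := by
        calc dh 0 (act A 0) ≤ dh 0 (act A x) + dh (act A x) (act A 0) := dh_tri _ _ _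
          _ = dh 0 (act A x) + dh x 0 := by rw [dh_act hAl]
          _ ≤ Real.arcosh (max 1 C) + Real.arcosh (max 1 C) := by
              rw [dh_comm x 0]
              exact add_le_add (by rw [hxy]; exact hb y hy) (hb x hx)
          _ = _ := by ring
      have h2 : hh (act A 0) = Real.cosh (dh 0 (act A 0)) := by
        rw [deck_dh_zero, Real.cosh_arcosh (one_le_hh _)]
      rw [h2, hR]
      exact Real.cosh_le_cosh.2 (by
        rw [abs_of_nonneg (dh_nonneg _ _), abs_of_nonneg]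
        · exact h1
        · exact (dh_nonneg _ _).trans h1)
    refine Set.Finite.subset ?_ hinj
    classical
    have : {γ : Equiv.Perm V3 | ∃ A ∈ {A | A ∈ L ∧ A 0 0 ≤ R}, ∀ x, γ x = act A x} =
        ⋃ A ∈ {A | A ∈ L ∧ A 0 0 ≤ R}, {γ : Equiv.Perm V3 | ∀ x, γ x = act A x} := by
      ext γ
      simp
    rw [this]
    refine hfin.biUnion fun A _ => ?_
    refine Set.Subsingleton.finite ?_
    intro γ hγ γ' hγ'
    ext1 x
    rw [hγ x, hγ' x]
  · obtain ⟨R, hR⟩ := hL.cocompact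
    refine ⟨Metric.closedBall 0 R, isCompact_closedBall 0 R, fun x => ?_⟩
    obtain ⟨A, hA, h⟩ := hR x
    obtain ⟨B, hB, h1, h2⟩ := hL.inv A hA
    let γ : Equiv.Perm V3 := {
      toFun := act A
      invFun := act B
      left_inv := fun y => by rw [← act_mul (hL.lor B hB) (hL.lor A hA), h2, act_one]
      right_inv := fun y => by rw [← act_mul (hL.lor A hA) (hL.lor B hB), h1, act_one] }
    refine ⟨γ, ⟨A, hA, fun _ => rfl⟩, ?_⟩
    rw [mem_closedBall_zero_iff]
    exact h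

end Pool.Agent.Lib.MP_529713_gt
end

section

/-!
# Fermi coordinates
-/

namespace Pool.Agent.Lib.MP_529713_gt

open Filter Topology Set Matrix
open scoped ContDiff NNReal

lemma fc_proj_smooth (i : Fin 3) : ContDiff ℝ ∞ fun y : V3 => y i :=
  (EuclideanSpace.proj (𝕜 := ℝ) i : V3 →L[ℝ] ℝ).contDiff

lemma fc_proj_hasFDerivAt (i : Fin 3) (y : V3) :
    HasFDerivAt (fun y : V3 => y i) (EuclideanSpace.proj (𝕜 := ℝ) i : V3 →L[ℝ] ℝ) y :=
  (EuclideanSpace.proj (𝕜 := ℝ) i : V3 →L[ℝ] ℝ).hasFDerivAt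

theorem fermi_smooth : ContDiff ℝ ∞ fermi := by
  rw [contDiff_euclidean]
  intro i
  unfold fermi
  fin_cases i
  · exact Real.contDiff_sinh.comp (fc_proj_smooth 0)
  · exact (Real.contDiff_cosh.comp (fc_proj_smooth 0)).mul (fc_proj_smooth 1)
  · exact (Real.contDiff_cosh.comp (fc_proj_smooth 0)).mul (fc_proj_smooth 2)

theorem fermi_surj (x : V3) : ∃ y, fermi y = x := by
  refine ⟨!₂[Real.arsinh (x 0), x 1 / Real.cosh (Real.arsinh (x 0)),
    x 2 / Real.cosh (Real.arsinh (x 0))], ?_⟩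
  have h := (Real.cosh_pos (Real.arsinh (x 0))).ne'
  ext i
  unfold fermi
  fin_cases i
  · simp
  · simp
    field_simp
  · simp
    field_simp

lemma fc_comp (f : V3 → V3) (y u : V3) (hd : DifferentiableAt ℝ f y) (i : Fin 3) :
    (fderiv ℝ f y u) i = fderiv ℝ (fun z => f z i) y u := by
  have h1 := (((EuclideanSpace.proj (𝕜 := ℝ) i : V3 →L[ℝ] ℝ).hasFDerivAt (x := f y)).comp y
    hd.hasFDerivAt).fderiv
  exact (DFunLike.congr_fun h1 u).symm

lemma fermi_fderiv (y u : V3) : fderiv ℝ fermi y u = !₂[Real.cosh (y 0) * u 0,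
    Real.sinh (y 0) * u 0 * y 1 + Real.cosh (y 0) * u 1,
    Real.sinh (y 0) * u 0 * y 2 + Real.cosh (y 0) * u 2] := by
  have hd : DifferentiableAt ℝ fermi y := fermi_smooth.differentiable (by simp) y
  have hs : HasFDerivAt (fun z : V3 => Real.sinh (z 0))
      (Real.cosh (y 0) • (EuclideanSpace.proj (𝕜 := ℝ) 0 : V3 →L[ℝ] ℝ)) y :=
    (fc_proj_hasFDerivAt 0 y).sinh
  have hc : HasFDerivAt (fun z : V3 => Real.cosh (z 0))
      (Real.sinh (y 0) • (EuclideanSpace.proj (𝕜 := ℝ) 0 : V3 →L[ℝ] ℝ)) y :=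
    (fc_proj_hasFDerivAt 0 y).cosh
  ext i
  rw [fc_comp fermi y u hd]
  fin_cases i
  · have h1 : (fun z => fermi z ((fun i => i) ⟨0, by decide⟩)) = fun z : V3 => Real.sinh (z 0) := by
      funext z; rfl
    rw [h1, hs.fderiv]
    simp
  · have h1 : (fun z => fermi z ((fun i => i) ⟨1, by decide⟩)) =
        fun z : V3 => Real.cosh (z 0) * z 1 := by
      funext z; rfl
    have h2 : HasFDerivAt (fun z : V3 => Real.cosh (z 0) * z 1) _ y :=
      hc.mul (fc_proj_hasFDerivAt 1 y)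
    rw [h1, h2.fderiv]
    simp
    ring
  · have h1 : (fun z => fermi z ((fun i => i) ⟨2, by decide⟩)) =
        fun z : V3 => Real.cosh (z 0) * z 2 := by
      funext z; rfl
    have h2 : HasFDerivAt (fun z : V3 => Real.cosh (z 0) * z 2) _ y :=
      hc.mul (fc_proj_hasFDerivAt 2 y)
    rw [h1, h2.fderiv]
    simp
    ring

theorem fermi_bij (y : V3) : Function.Bijective (fderiv ℝ fermi y) := by
  have hinj : Function.Injective (fderiv ℝ fermi y) := by
    rw [injective_iff_map_eq_zero]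
    intro u hu
    rw [fermi_fderiv] at hu
    have hc := (Real.cosh_pos (y 0)).ne'
    have h0 : Real.cosh (y 0) * u 0 = 0 := by simpa using congrArg (fun v : V3 => v 0) hu
    have h1 : Real.sinh (y 0) * u 0 * y 1 + Real.cosh (y 0) * u 1 = 0 := by
      simpa using congrArg (fun v : V3 => v 1) hu
    have h2 : Real.sinh (y 0) * u 0 * y 2 + Real.cosh (y 0) * u 2 = 0 := by
      simpa using congrArg (fun v : V3 => v 2) hu
    have e0 : u 0 = 0 := by
      rcases mul_eq_zero.1 h0 with h | h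
      · exact absurd h hc
      · exact h
    rw [e0] at h1 h2
    have e1 : u 1 = 0 := by
      rcases mul_eq_zero.1 (show Real.cosh (y 0) * u 1 = 0 by linarith) with h | h
      · exact absurd h hc
      · exact h
    have e2 : u 2 = 0 := by
      rcases mul_eq_zero.1 (show Real.cosh (y 0) * u 2 = 0 by linarith) with h | h
      · exact absurd h hc
      · exact h
    ext i
    fin_cases i
    · simpa using e0
    · simpa using e1
    · simpa using e2
  exact ⟨hinj, (LinearMap.injective_iff_surjective (f := (fderiv ℝ fermi y : V3 →ₗ[ℝ] V3))).1 hinj⟩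

lemma bb_e1 : bb e1 = fun x : V3 => x 0 := by
  funext x
  unfold bb eta e1 lift
  simp

lemma fderiv_bb_e1 (x u : V3) : fderiv ℝ (bb e1) x u = u 0 := by
  rw [bb_e1, (fc_proj_hasFDerivAt 0 x).fderiv]
  rfl

theorem bb_fermi (y : V3) : bb e1 (fermi y) = Real.sinh (y 0) := by
  rw [bb_e1]
  unfold fermi
  simp

lemma fc_inner (u v : V3) : inner ℝ u v = u 0 * v 0 + u 1 * v 1 + u 2 * v 2 := by
  simp [PiLp.inner_apply, Fin.sum_univ_three]
  ring

lemma fc_norm (u : V3) : ‖u‖ ^ 2 = u 0 ^ 2 + u 1 ^ 2 + u 2 ^ 2 := by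
  rw [← real_inner_self_eq_norm_sq, fc_inner]
  ring

theorem gh_fermi (y u w : V3) : gh (fermi y) (fderiv ℝ fermi y u) (fderiv ℝ fermi y w) =
    u 0 * w 0 + Real.cosh (y 0) ^ 2 * g2 y u w := by
  rw [gh_apply, fermi_fderiv, fermi_fderiv, fc_norm, fc_inner, fc_inner, fc_inner]
  unfold fermi g2
  simp
  have hc := (Real.cosh_pos (y 0)).ne'
  have hcs := Real.cosh_sq (y 0)
  have hN : 1 + y 1 ^ 2 + y 2 ^ 2 ≠ 0 := by positivity
  have hD : 1 + (Real.sinh (y 0) ^ 2 + (Real.cosh (y 0) * y 1) ^ 2 + (Real.cosh (y 0) * y 2) ^ 2) =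
      Real.cosh (y 0) ^ 2 * (1 + y 1 ^ 2 + y 2 ^ 2) := by
    rw [mul_pow, mul_pow]; linear_combination -hcs
  rw [hD]
  generalize Real.cosh (y 0) = c at *
  generalize Real.sinh (y 0) = s at *
  have h2 : (s * (c * u 0) + c * y 1 * (s * u 0 * y 1 + c * u 1) +
        c * y 2 * (s * u 0 * y 2 + c * u 2)) *
      (s * (c * w 0) + c * y 1 * (s * w 0 * y 1 + c * w 1) + c * y 2 * (s * w 0 * y 2 + c * w 2)) /
      (c ^ 2 * (1 + y 1 ^ 2 + y 2 ^ 2)) =
      s ^ 2 * u 0 * w 0 * (1 + y 1 ^ 2 + y 2 ^ 2) +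
      s * c * (u 0 * (y 1 * w 1 + y 2 * w 2) + w 0 * (y 1 * u 1 + y 2 * u 2)) +
      c ^ 2 * ((y 1 * u 1 + y 2 * u 2) * (y 1 * w 1 + y 2 * w 2) / (1 + y 1 ^ 2 + y 2 ^ 2)) := by
    field_simp
    ring
  rw [h2]
  linear_combination (u 0 * w 0) * hcs

theorem tube_fermi (q : ℝ → ℝ) (y u w : V3) :
    tube q e1 (fermi y) (fderiv ℝ fermi y u) (fderiv ℝ fermi y w) =
      q (Real.sinh (y 0)) * (Real.cosh (y 0) ^ 2 * g2 y u w) := by
  have h : tube q e1 (fermi y) (fderiv ℝ fermi y u) (fderiv ℝ fermi y w) =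
      q (bb e1 (fermi y)) * (gh (fermi y) (fderiv ℝ fermi y u) (fderiv ℝ fermi y w) -
        (1 + bb e1 (fermi y) ^ 2)⁻¹ * (fderiv ℝ (bb e1) (fermi y) (fderiv ℝ fermi y u) *
          fderiv ℝ (bb e1) (fermi y) (fderiv ℝ fermi y w))) := rfl
  rw [h, gh_fermi, fderiv_bb_e1, fderiv_bb_e1, bb_fermi, fermi_fderiv, fermi_fderiv]
  have hc := (Real.cosh_pos (y 0)).ne'
  have hcs := Real.cosh_sq (y 0)
  have h2 : 1 + Real.sinh (y 0) ^ 2 = Real.cosh (y 0) ^ 2 := by linarith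
  rw [h2]
  simp
  left
  field_simp
  ring

end Pool.Agent.Lib.MP_529713_gt
end

section

/-!
# Discreteness
-/

namespace Pool.Agent.Lib.MP_529713_gt

open Filter Topology Set Matrix
open scoped ContDiff NNReal

lemma lf_entry {A A' : Matrix (Fin 4) (Fin 4) ℝ} (h : IsO A A') {R : ℝ} (hR : A 0 0 ≤ R)
    (i j : Fin 4) : |A i j| ≤ 1 + 2 * R := by
  have h0 := h.pos
  have hg1 := lb_gc_gt
  have hg0 := lb_gc_neg
  have hgr : 0 < gr := Real.goldenRatio_pos
  have hgr2 : gr < 2 := Real.goldenRatio_lt_two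
  have hr := lb_row lb_gr_gc h.pres
  have hRR : A 0 0 ^ 2 ≤ R ^ 2 := by nlinarith
  have hrow : A 0 j ^ 2 ≤ R ^ 2 := by
    have h1 : A 0 1 ^ 2 + A 0 2 ^ 2 + A 0 3 ^ 2 ≤ A 0 0 ^ 2 := by nlinarith [sq_nonneg (A 0 0)]
    fin_cases j <;> simp only [Fin.zero_eta, Fin.mk_one, Fin.reduceFinMk] <;>
      nlinarith [sq_nonneg (A 0 1), sq_nonneg (A 0 2), sq_nonneg (A 0 3), sq_nonneg (A 0 0)]
  have hc := lb_col h.pres j
  have hJ : JJ gr j j ≤ 1 := by
    fin_cases j <;> simp [JJ]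
    linarith
  apply abs_le_of_sq_le_sq _ (by linarith)
  have hm : gr * A 0 j ^ 2 ≤ 2 * R ^ 2 := by nlinarith [sq_nonneg (A 0 j)]
  have hRp : 0 < R := by linarith
  fin_cases i <;> simp only [Fin.zero_eta, Fin.mk_one, Fin.reduceFinMk] <;>
    nlinarith [sq_nonneg (A 1 j), sq_nonneg (A 2 j), sq_nonneg (A 3 j), sq_nonneg (A 0 j)]

theorem isO_finite (R : ℝ) : {B | (∃ A A', IsO A A' ∧ B = std A) ∧ B 0 0 ≤ R}.Finite := by
  set S : Set ℝ := {x : ℝ | ∃ y, IsInt2 x y ∧ |x| ≤ 1 + 2 * R ∧ |y| ≤ 2} with hS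
  have hfin : S.Finite := IsInt2.finite _ _
  have h1 : (Set.pi Set.univ fun _ : Fin 4 => Set.pi Set.univ fun _ : Fin 4 => S).Finite :=
    Set.Finite.pi fun _ => Set.Finite.pi fun _ => hfin
  refine (h1.image fun f : Fin 4 → Fin 4 → ℝ => std (Matrix.of f)).subset ?_
  rintro B ⟨⟨A, A', hA, rfl⟩, hR⟩
  rw [std_zero_zero] at hR
  refine ⟨fun i j => A i j, ?_, rfl⟩
  intro i _ j _
  exact ⟨A' i j, hA.int i j, lf_entry hA hR i j, hA.entry_le i j⟩

end Pool.Agent.Lib.MP_529713_gt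
end

section

/-!
# Separation
-/

namespace Pool.Agent.Lib.MP_529713_gt

open Filter Topology Set Matrix
open scoped ContDiff NNReal

lemma sep_col (A : Matrix (Fin 4) (Fin 4) ℝ) (i : Fin 4) :
    (std A *ᵥ e1) i = (![Real.sqrt gr, 1, 1, 1] : Fin 4 → ℝ) i * A i 1 := by
  have h1 : (std A *ᵥ e1) i = std A i 1 := by
    simp [Matrix.mulVec, dotProduct, Fin.sum_univ_four, e1]
  rw [h1, std_apply]
  simp

theorem lev_sep {A A' : Matrix (Fin 4) (Fin 4) ℝ} (h : IsO A A') (hl : Lev 5000 A A') :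
    std A *ᵥ e1 = e1 ∨ 10 ^ 7 ≤ |eta e1 (std A *ᵥ e1)| := by
  obtain ⟨x, y, hxy, hx, hy⟩ := hl 1 1
  rw [Matrix.one_apply_eq] at hx hy
  have hd := h.diag_le 1
  have heta : eta e1 (std A *ᵥ e1) = A 1 1 := by
    simp only [eta, sep_col]
    simp [e1]
  rcases hxy.norm with ⟨hx0, hy0⟩ | hn
  · left
    have h1 : A' 1 1 = 1 := by rw [hy, hy0]; simp
    have h2 : A 1 1 = 1 := by rw [hx, hx0]; simp
    funext i
    rw [sep_col]
    fin_cases i
    · have := h.col h1 0 (by decide)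
      simp [this, e1]
    · simp [h2, e1]
    · have := h.col h1 2 (by decide)
      simp [this, e1]
    · have := h.col h1 3 (by decide)
      simp [this, e1]
  · right
    rw [heta, hx]
    rw [hy] at hd
    have hy1 : |y| ≤ 2 / 5000 := by
      rw [abs_le] at hd ⊢
      constructor <;> linarith [hd.1, hd.2]
    have hx1 : 2500 ≤ |x| := by
      have h0 : 0 ≤ |x| := abs_nonneg x
      nlinarith
    rcases abs_cases x with ⟨h3, h4⟩ | ⟨h3, h4⟩
    · rw [le_abs]; left; rw [h3] at hx1; norm_num; linarith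
    · rw [le_abs]; right; rw [h3] at hx1; norm_num; linarith

theorem lev_far : ∃ t : ℝ, ∀ A A' : Matrix (Fin 4) (Fin 4) ℝ, IsO A A' → Lev 5000 A A' →
    2002 ≤ |eta (ew t) (std A *ᵥ e1)| := by
  have hgr2 : gr ^ 2 = gr + 1 := Real.goldenRatio_sq
  have hgc2 : gc ^ 2 = gc + 1 := Real.goldenConj_sq
  have hgr0 : 0 < gr := Real.goldenRatio_pos
  have hgr1 : 1 < gr := Real.one_lt_goldenRatio
  have hgr3 : gr < 2 := Real.goldenRatio_lt_two
  have hgc0 : gc < 0 := Real.goldenConj_neg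
  have hgr1' : 1.6 < gr := by nlinarith
  have hgr3' : gr < 1.62 := by nlinarith
  set s : ℝ := 856 * gr + 528 with hs
  set c : ℝ := 1088 * gr + 673 with hc
  set s' : ℝ := 856 * gc + 528 with hs'
  set c' : ℝ := 1088 * gc + 673 with hc'
  have hcs : c ^ 2 - gr * s ^ 2 = 1 := by
    rw [hs, hc]
    linear_combination (-(856 ^ 2 : ℝ) * gr + 1088 ^ 2 - 2 * 856 * 528 - 856 ^ 2) * hgr2
  have hcs' : c' ^ 2 - gc * s' ^ 2 = 1 := by
    rw [hs', hc']
    linear_combination (-(856 ^ 2 : ℝ) * gc + 1088 ^ 2 - 2 * 856 * 528 - 856 ^ 2) * hgc2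
  have hc0 : 2002 ≤ c := by rw [hc]; linarith
  have hc1 : c ≤ 2500 := by rw [hc]; linarith
  have hsq : Real.sqrt gr ^ 2 = gr := Real.sq_sqrt hgr0.le
  refine ⟨Real.arsinh (Real.sqrt gr * s), fun A A' h hl => ?_⟩
  have hsinh : Real.sinh (Real.arsinh (Real.sqrt gr * s)) = Real.sqrt gr * s := Real.sinh_arsinh _
  have hcosh : Real.cosh (Real.arsinh (Real.sqrt gr * s)) = c := by
    rw [Real.cosh_arsinh]
    have : 1 + (Real.sqrt gr * s) ^ 2 = c ^ 2 := by rw [mul_pow, hsq]; linarith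
    rw [this, Real.sqrt_sq (by linarith)]
  obtain ⟨x, y, hxy, hx, hy⟩ := hl 1 1
  obtain ⟨z, w, hzw, hz, hw⟩ := hl 0 1
  rw [Matrix.one_apply_eq] at hx hy
  rw [Matrix.one_apply_ne (by decide)] at hz hw
  have heta : eta (ew (Real.arsinh (Real.sqrt gr * s))) (std A *ᵥ e1)
      = -(gr * s * A 0 1) + c * A 1 1 := by
    simp only [eta, sep_col]
    simp only [ew, hsinh, hcosh]
    clear_value s c s' c'
    clear hsinh hcosh
    generalize Real.sqrt gr = q at hsq ⊢
    simp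
    linear_combination (s * A 0 1) * hsq
  rw [heta]
  -- the conjugate
  have hQ : -gc * A' 0 1 ^ 2 + A' 1 1 ^ 2 + A' 2 1 ^ 2 + A' 3 1 ^ 2 = 1 := by
    have := congrFun (congrFun h.pres' 1) 1
    simp [Matrix.mul_apply, JJ, Fin.sum_univ_four, Matrix.diagonal_apply] at this
    linarith
  set b' : ℝ := -(gc * s' * A' 0 1) + c' * A' 1 1 with hb'
  have hb1 : b' ^ 2 ≤ 1 := by
    have h1 : b' ^ 2 = (c' ^ 2 - gc * s' ^ 2) * (-gc * A' 0 1 ^ 2 + A' 1 1 ^ 2)
        - (-gc) * (s' * A' 1 1 - c' * A' 0 1) ^ 2 := by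
      rw [hb']; ring
    rw [h1, hcs']
    have h2 : 0 ≤ (-gc) * (s' * A' 1 1 - c' * A' 0 1) ^ 2 :=
      mul_nonneg (by linarith) (sq_nonneg _)
    nlinarith [sq_nonneg (A' 2 1), sq_nonneg (A' 3 1)]
  have hc'1 : c' ^ 2 ≤ 1 := by nlinarith [sq_nonneg s']
  have hb2 : |b'| ≤ 1 := by rw [← sq_le_one_iff_abs_le_one]; exact hb1
  have hc'2 : |c'| ≤ 1 := by rw [← sq_le_one_iff_abs_le_one]; exact hc'1
  set X : ℝ := -(gr * s * z) + c * x with hX
  set Y : ℝ := -(gc * s' * w) + c' * y with hY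
  have hXY : IsInt2 X Y := by
    have hsI : IsInt2 s s' := by
      refine ⟨528, 856, ?_, ?_⟩
      · rw [hs]; push_cast; ring
      · rw [hs']; push_cast; ring
    have hcI : IsInt2 c c' := by
      refine ⟨673, 1088, ?_, ?_⟩
      · rw [hc]; push_cast; ring
      · rw [hc']; push_cast; ring
    exact ((isInt2_gr.mul hsI).mul hzw).neg.add (hcI.mul hxy)
  have hbX : -(gr * s * A 0 1) + c * A 1 1 = c + 5000 * X := by
    rw [hz, hx, hX]; ring
  have hbY : b' = c' + 5000 * Y := by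
    rw [hb', hw, hy, hY]; ring
  rw [hbX]
  rcases hXY.norm with ⟨hX0, hY0⟩ | hn
  · rw [hX0]
    rw [le_abs]; left; linarith
  · have hY1 : |Y| ≤ 2 / 5000 := by
      rw [abs_le] at hb2 hc'2 ⊢
      constructor <;> linarith [hb2.1, hb2.2, hc'2.1, hc'2.2]
    have hX1 : 2500 ≤ |X| := by
      have h0 : 0 ≤ |X| := abs_nonneg X
      nlinarith
    rcases abs_cases X with ⟨h3, h4⟩ | ⟨h3, h4⟩
    · rw [le_abs]; left; rw [h3] at hX1; linarith
    · rw [le_abs]; right; rw [h3] at hX1; linarith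

end Pool.Agent.Lib.MP_529713_gt
end

section

/-!
# Congruence subgroups have finite index
-/

namespace Pool.Agent.Lib.MP_529713_gt

open Filter Topology Set Matrix
open scoped ContDiff NNReal

/-- residues of a pair of matrices -/
def LlRes (n : ℕ) (A A' : Matrix (Fin 4) (Fin 4) ℝ) (r : Fin 4 → Fin 4 → ZMod n × ZMod n) : Prop :=
  ∀ i j, ∃ p q : ℤ, A i j = p + q * gr ∧ A' i j = p + q * gc ∧ ((p : ZMod n), (q : ZMod n)) = r i j

lemma ll_res_exists (n : ℕ) {A A' : Matrix (Fin 4) (Fin 4) ℝ} (h : IsO A A') :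
    ∃ r, LlRes n A A' r := by
  choose p q hp hq using h.int
  exact ⟨fun i j => ((p i j : ZMod n), (q i j : ZMod n)),
    fun i j => ⟨p i j, q i j, hp i j, hq i j, rfl⟩⟩

lemma ll_diff {n : ℕ} {A A' B B' : Matrix (Fin 4) (Fin 4) ℝ}
    {r : Fin 4 → Fin 4 → ZMod n × ZMod n} (hA : LlRes n A A' r) (hB : LlRes n B B' r) :
    ∃ X X', LbInt X X' ∧ A = B + (n : ℝ) • X ∧ A' = B' + (n : ℝ) • X' := by
  have key : ∀ i j, ∃ x y : ℝ, IsInt2 x y ∧ A i j = B i j + n * x ∧ A' i j = B' i j + n * y := by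
    intro i j
    obtain ⟨p, q, h1, h2, h3⟩ := hA i j
    obtain ⟨p', q', h1', h2', h3'⟩ := hB i j
    rw [← h3'] at h3
    have hp : (p' : ZMod n) = p := (congrArg Prod.fst h3).symm
    have hq : (q' : ZMod n) = q := (congrArg Prod.snd h3).symm
    rw [ZMod.intCast_eq_intCast_iff_dvd_sub] at hp hq
    obtain ⟨a, ha⟩ := hp
    obtain ⟨b, hb⟩ := hq
    have ha' : (p : ℝ) - p' = n * a := by exact_mod_cast ha
    have hb' : (q : ℝ) - q' = n * b := by exact_mod_cast hb
    refine ⟨a + b * gr, a + b * gc, ⟨a, b, rfl, rfl⟩, ?_, ?_⟩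
    · rw [h1, h1']; linear_combination ha' + gr * hb'
    · rw [h2, h2']; linear_combination ha' + gc * hb'
  choose X X' hX h1 h2 using key
  refine ⟨Matrix.of X, Matrix.of X', fun i j => hX i j, ?_, ?_⟩
  · ext i j; rw [h1 i j]; simp
  · ext i j; rw [h2 i j]; simp

theorem lev_cocompact {n : ℕ} (hn : 0 < n)
    (h : ∃ R : ℝ, ∀ x : V3, ∃ A A', IsO A A' ∧ ‖act (std A) x‖ ≤ R) :
    ∃ R : ℝ, ∀ x : V3, ∃ A A', IsO A A' ∧ Lev n A A' ∧ ‖act (std A) x‖ ≤ R := by
  obtain ⟨R, hR⟩ := h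
  haveI : NeZero n := ⟨hn.ne'⟩
  have key : ∀ r : Fin 4 → Fin 4 → ZMod n × ZMod n, ∃ M : ℝ, ∀ A A', IsO A A' → LlRes n A A' r →
      ∀ x : V3, ‖act (std A) x‖ ≤ R → ∃ C C', IsO C C' ∧ Lev n C C' ∧ ‖act (std C) x‖ ≤ M := by
    intro r
    by_cases hr : ∃ B B', IsO B B' ∧ LlRes n B B' r
    · obtain ⟨B, B', hB, hBr⟩ := hr
      obtain ⟨D, D', hD, h1, h2, h3, h4⟩ := hB.inv
      have hcpt : IsCompact (act (std D) '' Metric.closedBall (0 : V3) R) :=
        (isCompact_closedBall 0 R).image (act_smooth (std D)).continuous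
      obtain ⟨M, hM⟩ := hcpt.isBounded.exists_norm_le
      refine ⟨M, fun A A' hA hAr x hx => ⟨D * A, D' * A', hD.mul hA, ?_, ?_⟩⟩
      · obtain ⟨X, X', hX, hX1, hX2⟩ := ll_diff hAr hBr
        rw [lev_iff]
        refine ⟨D * X, D' * X', LbInt.mul hD.int hX, ?_, ?_⟩
        · rw [hX1, Matrix.mul_add, h2, Matrix.mul_smul]
        · rw [hX2, Matrix.mul_add, h4, Matrix.mul_smul]
      · rw [std_mul, act_mul (isLor_std hD) (isLor_std hA)]
        apply hM
        exact ⟨_, by simpa using hx, rfl⟩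
    · refine ⟨0, fun A A' hA hAr => ?_⟩
      exact absurd ⟨A, A', hA, hAr⟩ hr
  choose M hM using key
  refine ⟨∑ r, |M r|, fun x => ?_⟩
  obtain ⟨A, A', hA, hx⟩ := hR x
  obtain ⟨r, hr⟩ := ll_res_exists n hA
  obtain ⟨C, C', hC, hC', hCx⟩ := hM r A A' hA hr x hx
  refine ⟨C, C', hC, hC', hCx.trans ((le_abs_self _).trans ?_)⟩
  exact Finset.single_le_sum (f := fun r => |M r|) (fun i _ => abs_nonneg (M i))
    (Finset.mem_univ r)

end Pool.Agent.Lib.MP_529713_gt
end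

section

/-!
# The tube metrics are Riemannian metrics
-/

namespace Pool.Agent.Lib.MP_529713_gt

open Filter Topology Set Matrix
open scoped ContDiff NNReal

variable {V : Set V4} {q : ℝ → ℝ} {k : ℝ}

lemma tm_tube_apply (q : ℝ → ℝ) (v : V4) (x u w : V3) :
    tube q v x u w = q (bb v x) *
      (gh x u w - (1 + bb v x ^ 2)⁻¹ * (fderiv ℝ (bb v) x u * fderiv ℝ (bb v) x w)) := by
  simp [tube]

lemma tm_tube_zero (hq : ∀ b, 2000 ≤ |b| → q b = 0) {v : V4} {x : V3} (h : 2000 ≤ |bb v x|) :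
    tube q v x = 0 := by
  ext u w
  rw [tm_tube_apply, hq _ h, zero_mul]
  rfl

lemma tm_near (hV : Sep V) (hq : ∀ b, 2000 ≤ |b| → q b = 0) {v : V4} (hv : v ∈ V) {x : V3}
    (hx : |bb v x| < 2000) : gg k q V x = k • (gh x + tube q v x) := by
  have h1 : ∑ᶠ w ∈ V, tube q w x = tube q v x := by
    rw [finsum_eq_single _ v]
    · simp [hv]
    · intro w hw
      by_cases hwV : w ∈ V
      · have h2 : tube q w x = 0 := by
          refine tm_tube_zero hq ?_
          by_contra hcon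
          push Not at hcon
          exact hw (tube_unique hV hwV hv (x := x) (by linarith) (by linarith))
        simp [hwV, h2]
      · simp [hwV]
  unfold gg
  rw [h1]

theorem gg_act {A : Matrix (Fin 4) (Fin 4) ℝ} (hA : IsLor A) (hAV : ∀ v ∈ V, A *ᵥ v ∈ V)
    (hAV' : ∀ v ∈ V, ∃ w ∈ V, A *ᵥ w = v) (hV : Sep V) (hq : ∀ b, 2000 ≤ |b| → q b = 0)
    (x u v : V3) :
    gg k q V (act A x) (fderiv ℝ (act A) x u) (fderiv ℝ (act A) x v) = gg k q V x u v := by
  by_cases hx : ∃ w ∈ V, |bb w x| < 2000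
  · obtain ⟨w, hw, hwx⟩ := hx
    rw [tm_near hV hq hw hwx, tm_near hV hq (hAV w hw) (by rwa [bb_act hA])]
    simp only [_root_.smul_apply, _root_.add_apply, tm_tube_apply]
    rw [gh_act hA, bb_act hA, fderiv_bb_act hA, fderiv_bb_act hA]
  · push Not at hx
    rw [gg_far hq hx, gg_far hq]
    · simp only [_root_.smul_apply]
      rw [gh_act hA]
    · intro w hw
      obtain ⟨w', hw', rfl⟩ := hAV' w hw
      rw [bb_act hA]
      exact hx w' hw'

lemma tm_bb_smooth (v : V4) : ContDiff ℝ ∞ (bb v) := by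
  unfold bb eta
  have h := fun i => lor_lift_comp_smooth i
  exact (((((contDiff_const.mul (h 0)).neg).add (contDiff_const.mul (h 1))).add
    (contDiff_const.mul (h 2))).add (contDiff_const.mul (h 3)))

lemma tm_tube_smooth (hs : ContDiff ℝ ∞ q) (v : V4) : ContDiff ℝ ∞ (tube q v) := by
  have hb := tm_bb_smooth v
  have hd : ContDiff ℝ ∞ (fderiv ℝ (bb v)) := hb.fderiv_right (by simp)
  have h1 : ∀ u, ContDiff ℝ ∞ fun x => fderiv ℝ (bb v) x u := fun u =>
    hd.clm_apply contDiff_const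
  have h2 : ∀ u w, ContDiff ℝ ∞ fun x => gh x u w := fun u w =>
    (gh_smooth.clm_apply contDiff_const).clm_apply contDiff_const
  rw [contDiff_clm_apply_iff]
  intro u
  rw [contDiff_clm_apply_iff]
  intro w
  simp only [tm_tube_apply]
  refine (hs.comp hb).mul ((h2 u w).sub (ContDiff.mul ?_ ((h1 u).mul (h1 w))))
  refine ContDiff.inv (contDiff_const.add (hb.pow 2)) fun x => ?_
  positivity

theorem exists_rmetric (hV : Sep V) (hs : ContDiff ℝ ∞ q) (hq : ∀ b, 2000 ≤ |b| → q b = 0)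
    (hq0 : ∀ b, 0 ≤ q b) (hk : 0 < k) : ∃ G : RMetric, G.g = gg k q V := by
  refine ⟨⟨gg k q V, ?_, ?_, ?_⟩, rfl⟩
  · rw [contDiff_iff_contDiffAt]
    intro x
    rcases gg_local (k := k) hV hq x with ⟨v, hv, h⟩ | h
    · refine ContDiffAt.congr_of_eventuallyEq (f₁ := gg k q V)
        (f := fun y => k • (gh y + tube q v y)) ?_ h
      exact ((gh_smooth.add (tm_tube_smooth hs v)).const_smul k).contDiffAt
    · refine ContDiffAt.congr_of_eventuallyEq (f₁ := gg k q V) (f := fun y => k • gh y) ?_ h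
      exact (gh_smooth.const_smul k).contDiffAt
  · intro x u v
    by_cases hx : ∃ w ∈ V, |bb w x| < 2000
    · obtain ⟨w, hw, hwx⟩ := hx
      rw [tm_near hV hq hw hwx]
      simp only [_root_.smul_apply, _root_.add_apply, tm_tube_apply]
      rw [gh_symm x u v, mul_comm (fderiv ℝ (bb w) x u)]
    · push Not at hx
      rw [gg_far hq hx]
      simp only [_root_.smul_apply]
      rw [gh_symm]
  · intro x u hu
    have h1 := gg_lower hV hq hq0 hk.le x u
    have h2 := gh_pos x u hu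
    have h3 : 0 < k * gh x u u := mul_pos hk h2
    linarith

end Pool.Agent.Lib.MP_529713_gt
end

section

/-!
# Cocompactness
-/

namespace Pool.Agent.Lib.MP_529713_gt

open Filter Topology Set Matrix
open scoped ContDiff NNReal

/-- the reflection in the coordinates `0` and `i + 1` -/
noncomputable def cocR (c σ : ℝ) (i : Fin 3) : Matrix (Fin 4) (Fin 4) ℝ :=
  Matrix.of fun a b => if a = 0 ∧ b = 0 then c else if a = 0 ∧ b = i.succ then -σ else
    if a = i.succ ∧ b = 0 then σ * c else if a = i.succ ∧ b = i.succ then -c else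
    if a = b then 1 else 0

lemma cocR_pres {c σ : ℝ} (hc : c ^ 2 = c + 1) (hσ : σ ^ 2 = 1) (i : Fin 3) :
    (cocR c σ i)ᵀ * JJ c * cocR c σ i = JJ c := by
  ext a b
  rw [Matrix.mul_apply, Fin.sum_univ_four]
  simp only [Matrix.mul_apply, Fin.sum_univ_four, Matrix.transpose_apply, JJ,
    Matrix.diagonal_apply, cocR, Matrix.of_apply]
  fin_cases i <;> fin_cases a <;> fin_cases b <;> simp <;> ring_nf <;> first
    | linear_combination hc - c * hσ
    | linear_combination c ^ 2 * hσ - c * hc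

lemma cocR_isO {σ : ℝ} (hσ : σ = 1 ∨ σ = -1) (i : Fin 3) :
    IsO (cocR gr σ i) (cocR gc σ i) := by
  have h2 : σ ^ 2 = 1 := by rcases hσ with h | h <;> rw [h] <;> norm_num
  have h1 : IsInt2 (1 : ℝ) 1 := by simpa using isInt2_int 1
  have h0 : IsInt2 (0 : ℝ) 0 := by simpa using isInt2_int 0
  have hs : IsInt2 σ σ := by
    rcases hσ with h | h <;> rw [h]
    · exact h1
    · exact h1.neg
  refine ⟨?_, cocR_pres Real.goldenRatio_sq h2 i, cocR_pres Real.goldenConj_sq h2 i, ?_⟩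
  · intro a b
    simp only [cocR, Matrix.of_apply]
    split_ifs
    · exact isInt2_gr
    · exact hs.neg
    · exact hs.mul isInt2_gr
    · exact isInt2_gr.neg
    · exact h1
    · exact h0
  · simp only [cocR, Matrix.of_apply, and_self, if_true]
    exact Real.goldenRatio_pos

lemma coc_hh (A : Matrix (Fin 4) (Fin 4) ℝ) (hA : IsLor A) (x : V3) :
    hh (act A x) = (A *ᵥ lift x) 0 := by
  rw [← lift_act hA]
  simp [lift]

lemma coc_refl {σ : ℝ} (hσ : σ = 1 ∨ σ = -1) (i : Fin 3) (y : V3) :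
    hh (act (std (cocR gr σ i)) y) = gr * hh y - σ * Real.sqrt gr * y i := by
  rw [coc_hh _ (isLor_std (cocR_isO hσ i))]
  have hg : Real.sqrt gr ≠ 0 := (Real.sqrt_pos.mpr Real.goldenRatio_pos).ne'
  simp only [Matrix.mulVec, dotProduct, Fin.sum_univ_four, std_apply, cocR, Matrix.of_apply, lift]
  fin_cases i <;> simp <;> field_simp <;> ring

lemma coc_bound (B : Matrix (Fin 4) (Fin 4) ℝ) (hB : IsLor B) (x : V3)
    (h : hh (act B x) ≤ hh x) : B 0 0 ≤ Real.cosh (2 * dh 0 x) := by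
  have hh0 : hh (0 : V3) = 1 := by simp [hh]
  have hP : ∀ z : V3, Real.cosh (dh 0 z) = hh z := by
    intro z
    rw [cosh_dh, PP, hh0]
    simp
  have h1 : B 0 0 = hh (act B 0) := by
    rw [coc_hh _ hB]
    simp [Matrix.mulVec, dotProduct, Fin.sum_univ_four, lift, hh0]
  have h2 : dh 0 (act B x) ≤ dh 0 x := by
    have h3 : Real.cosh (dh 0 (act B x)) ≤ Real.cosh (dh 0 x) := by rw [hP, hP]; exact h
    rw [Real.cosh_le_cosh, abs_of_nonneg (dh_nonneg _ _), abs_of_nonneg (dh_nonneg _ _)] at h3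
    exact h3
  have h4 : dh 0 (act B 0) ≤ 2 * dh 0 x := by
    have h5 := dh_tri 0 (act B x) (act B 0)
    rw [dh_act hB, dh_comm x 0] at h5
    linarith
  rw [h1, ← hP, Real.cosh_le_cosh, abs_of_nonneg (dh_nonneg _ _),
    abs_of_nonneg (by have := dh_nonneg 0 x; linarith)]
  exact h4

theorem isO_cocompact : ∃ R : ℝ, ∀ x : V3, ∃ A A', IsO A A' ∧ ‖act (std A) x‖ ≤ R := by
  refine ⟨2, fun x => ?_⟩
  have hfin : {B | (∃ A A', IsO A A' ∧ B = std A) ∧ hh (act B x) ≤ hh x}.Finite := by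
    apply (isO_finite (Real.cosh (2 * dh 0 x))).subset
    rintro B ⟨⟨A, A', hA, rfl⟩, hB⟩
    exact ⟨⟨A, A', hA, rfl⟩, coc_bound _ (isLor_std hA) x hB⟩
  obtain ⟨B, ⟨⟨A, A', hA, rfl⟩, hB⟩, hmin⟩ := Set.exists_min_image _ (fun B => hh (act B x)) hfin
    ⟨1, ⟨1, 1, IsO.one, std_one.symm⟩, by rw [act_one]⟩
  refine ⟨A, A', hA, ?_⟩
  set y := act (std A) x with hy
  have hkey : ∀ (i : Fin 3) (σ : ℝ), (σ = 1 ∨ σ = -1) →
      σ * Real.sqrt gr * y i ≤ (gr - 1) * hh y := by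
    intro i σ hσ
    have h1 : hh y ≤ hh (act (std (cocR gr σ i)) y) := by
      rw [hy, ← act_mul (isLor_std (cocR_isO hσ i)) (isLor_std hA), ← std_mul]
      by_cases hc : hh (act (std (cocR gr σ i * A)) x) ≤ hh x
      · exact hmin _ ⟨⟨_, _, (cocR_isO hσ i).mul hA, rfl⟩, hc⟩
      · exact hB.trans (not_le.mp hc).le
    rw [coc_refl hσ] at h1
    linarith
  have hg1 : (1 : ℝ) < gr := Real.one_lt_goldenRatio
  have hgsq : gr ^ 2 = gr + 1 := Real.goldenRatio_sq
  have hgs : Real.sqrt gr ^ 2 = gr := Real.sq_sqrt Real.goldenRatio_pos.le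
  have hhy : hh y ^ 2 = 1 + ‖y‖ ^ 2 := hh_sq y
  have hh1 : 0 ≤ (gr - 1) * hh y := mul_nonneg (by linarith) (by linarith [one_le_hh y])
  have hsq : ∀ i : Fin 3, gr * (y i) ^ 2 ≤ (gr - 1) ^ 2 * (1 + ‖y‖ ^ 2) := by
    intro i
    have h1 := hkey i 1 (Or.inl rfl)
    have h2 := hkey i (-1) (Or.inr rfl)
    have h3 : |Real.sqrt gr * y i| ≤ (gr - 1) * hh y := by
      rw [abs_le]
      constructor <;> linarith
    have h4 : (Real.sqrt gr * y i) ^ 2 ≤ ((gr - 1) * hh y) ^ 2 := by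
      rw [← sq_abs]
      exact pow_le_pow_left₀ (abs_nonneg _) h3 2
    rw [mul_pow, mul_pow, hgs, hhy] at h4
    exact h4
  have hn : ‖y‖ ^ 2 = y 0 ^ 2 + y 1 ^ 2 + y 2 ^ 2 := by
    rw [EuclideanSpace.norm_sq_eq, Fin.sum_univ_three]
    simp
  have h0 := hsq 0
  have h1 := hsq 1
  have h2 := hsq 2
  have hgl : (1.618 : ℝ) < gr := by
    by_contra hcon
    rw [not_lt] at hcon
    nlinarith
  have hgu : gr < (1.6181 : ℝ) := by
    by_contra hcon
    rw [not_lt] at hcon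
    nlinarith
  have h5 : gr * ‖y‖ ^ 2 ≤ 3 * (gr - 1) ^ 2 * (1 + ‖y‖ ^ 2) := by
    rw [hn]; rw [hn] at h0 h1 h2; linarith
  have h6 : (gr - 1) ^ 2 = 2 - gr := by linear_combination hgsq
  rw [h6] at h5
  have h7 : 0 ≤ ‖y‖ ^ 2 := sq_nonneg _
  have h8 : ‖y‖ ^ 2 ≤ 2 ^ 2 := by nlinarith
  exact le_of_sq_le_sq h8 (by norm_num)

end Pool.Agent.Lib.MP_529713_gt
end

section

/-!
# The projection to the standard plane
-/

namespace Pool.Agent.Lib.MP_529713_gt

open Filter Topology Set Matrix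
open scoped ContDiff NNReal

lemma proj_zero_coord (x : V3) : proj x 0 = 0 := rfl

lemma proj_one_coord (x : V3) : proj x 1 = x 1 / Real.sqrt (1 + x 0 ^ 2) := rfl

lemma proj_two_coord (x : V3) : proj x 2 = x 2 / Real.sqrt (1 + x 0 ^ 2) := rfl

lemma proj_sqrt_pos (x : V3) : 0 < Real.sqrt (1 + x 0 ^ 2) := Real.sqrt_pos.2 (by positivity)

lemma proj_coord_smooth (i : Fin 3) : ContDiff ℝ ∞ fun y : V3 => y i :=
  (EuclideanSpace.proj i : V3 →L[ℝ] ℝ).contDiff

lemma proj_quot_smooth (i : Fin 3) :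
    ContDiff ℝ ∞ fun y : V3 => y i / Real.sqrt (1 + y 0 ^ 2) := by
  refine ContDiff.div (proj_coord_smooth i) (ContDiff.sqrt ?_ fun y => ?_) fun y => ?_
  · exact contDiff_const.add ((proj_coord_smooth 0).pow 2)
  · positivity
  · exact (proj_sqrt_pos y).ne'

theorem proj_smooth : ContDiff ℝ ∞ proj := by
  rw [contDiff_euclidean]
  intro i
  fin_cases i
  · exact contDiff_const
  · exact proj_quot_smooth 1
  · exact proj_quot_smooth 2

theorem proj_of_mem {x : V3} (hx : x 0 = 0) : proj x = x := by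
  ext i
  fin_cases i
  · exact hx.symm
  · change x 1 / Real.sqrt (1 + x 0 ^ 2) = x 1
    rw [hx]; simp
  · change x 2 / Real.sqrt (1 + x 0 ^ 2) = x 2
    rw [hx]; simp

lemma proj_fderiv_quot (x u : V3) (i : Fin 3) :
    fderiv ℝ (fun y : V3 => y i / Real.sqrt (1 + y 0 ^ 2)) x u =
      (u i - x i * (x 0 * u 0) / (1 + x 0 ^ 2)) / Real.sqrt (1 + x 0 ^ 2) := by
  have hd : DifferentiableAt ℝ (fun y : V3 => y i / Real.sqrt (1 + y 0 ^ 2)) x :=
    (proj_quot_smooth i).differentiable (by simp) x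
  have line : HasDerivAt (fun t : ℝ => x + t • u) u 0 := by
    have h := ((hasDerivAt_id (0 : ℝ)).smul_const u).const_add x
    simpa using h
  have hx0 : x + (0 : ℝ) • u = x := by simp
  have h1 := (hx0.symm ▸ hd.hasFDerivAt : HasFDerivAt _ _ (x + (0 : ℝ) • u)).comp_hasDerivAt
    (0 : ℝ) line
  have hs := proj_sqrt_pos x
  have hss : Real.sqrt (1 + x 0 ^ 2) ^ 2 = 1 + x 0 ^ 2 := Real.sq_sqrt (by positivity)
  have hp : (0 : ℝ) < 1 + x 0 ^ 2 := by positivity
  have a1 : ∀ j : Fin 3, HasDerivAt (fun t : ℝ => x j + t * u j) (u j) 0 := fun j => by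
    have h := ((hasDerivAt_id (0 : ℝ)).mul_const (u j)).const_add (x j)
    simpa using h
  have a2 : HasDerivAt (fun t : ℝ => 1 + (x 0 + t * u 0) ^ 2) (2 * x 0 * u 0) 0 := by
    have h := ((a1 0).pow 2).const_add 1
    simpa using h
  have a3 := a2.sqrt (by simpa using hp.ne')
  have a4 := (a1 i).div a3 (by simpa using hs.ne')
  have e : (fun t : ℝ => (fun y : V3 => y i / Real.sqrt (1 + y 0 ^ 2)) (x + t • u)) =
      fun t : ℝ => (x i + t * u i) / Real.sqrt (1 + (x 0 + t * u 0) ^ 2) := by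
    funext t
    simp
  have h2 : HasDerivAt (fun t : ℝ => (x i + t * u i) / Real.sqrt (1 + (x 0 + t * u 0) ^ 2))
      (fderiv ℝ (fun y : V3 => y i / Real.sqrt (1 + y 0 ^ 2)) x u) 0 := by
    rw [← e]
    rw [hx0] at h1
    exact h1
  have h3 := h2.unique a4
  rw [h3]
  simp only [zero_mul, add_zero]
  set s := Real.sqrt (1 + x 0 ^ 2) with hsdef
  rw [← hss]
  field_simp

lemma proj_fderiv_coord (x u : V3) (i : Fin 3) :
    fderiv ℝ proj x u i = fderiv ℝ (fun y => proj y i) x u := by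
  have hd : DifferentiableAt ℝ proj x := proj_smooth.differentiable (by simp) x
  have h : HasFDerivAt (fun y => proj y i)
      ((EuclideanSpace.proj i : V3 →L[ℝ] ℝ).comp (fderiv ℝ proj x)) x :=
    (EuclideanSpace.proj i : V3 →L[ℝ] ℝ).hasFDerivAt.comp x hd.hasFDerivAt
  rw [h.fderiv]
  rfl

lemma proj_bb_e1 (x : V3) : bb e1 x = x 0 := by
  simp [bb, e1, eta, lift]

lemma proj_fderiv_bb (x u : V3) : fderiv ℝ (bb e1) x u = u 0 := by
  have : bb e1 = fun y : V3 => y 0 := funext proj_bb_e1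
  rw [this]
  exact lor_fderiv_coord x u 0

theorem gh_proj (x u : V3) : gh (proj x) (fderiv ℝ proj x u) (fderiv ℝ proj x u) =
    (gh x u u - fderiv ℝ (bb e1) x u ^ 2 / (1 + bb e1 x ^ 2)) / (1 + bb e1 x ^ 2) := by
  rw [proj_fderiv_bb, proj_bb_e1, gh_apply, gh_apply, lor_inner, lor_inner, lor_inner, lor_inner,
    lor_norm_sq, lor_norm_sq]
  have d0 : fderiv ℝ proj x u 0 = 0 := by
    rw [proj_fderiv_coord]
    have : (fun y : V3 => proj y 0) = fun _ => (0 : ℝ) := funext proj_zero_coord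
    rw [this, fderiv_fun_const]
    rfl
  have d1 : fderiv ℝ proj x u 1 =
      (u 1 - x 1 * (x 0 * u 0) / (1 + x 0 ^ 2)) / Real.sqrt (1 + x 0 ^ 2) := by
    rw [proj_fderiv_coord]
    exact proj_fderiv_quot x u 1
  have d2 : fderiv ℝ proj x u 2 =
      (u 2 - x 2 * (x 0 * u 0) / (1 + x 0 ^ 2)) / Real.sqrt (1 + x 0 ^ 2) := by
    rw [proj_fderiv_coord]
    exact proj_fderiv_quot x u 2
  rw [d0, d1, d2, proj_zero_coord, proj_one_coord, proj_two_coord]
  have hs := proj_sqrt_pos x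
  have hss : Real.sqrt (1 + x 0 ^ 2) ^ 2 = 1 + x 0 ^ 2 := Real.sq_sqrt (by positivity)
  have hp : (0 : ℝ) < 1 + x 0 ^ 2 := by positivity
  set s := Real.sqrt (1 + x 0 ^ 2) with hsdef
  set w1 := u 1 - x 1 * (x 0 * u 0) / (1 + x 0 ^ 2) with hw1
  set w2 := u 2 - x 2 * (x 0 * u 0) / (1 + x 0 ^ 2) with hw2
  have k1 : (0 : ℝ) * 0 + w1 / s * (w1 / s) + w2 / s * (w2 / s) =
      (w1 ^ 2 + w2 ^ 2) / (1 + x 0 ^ 2) := by
    rw [← hss]; field_simp; ring
  have k2 : (0 : ℝ) * 0 + x 1 / s * (w1 / s) + x 2 / s * (w2 / s) =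
      (x 1 * w1 + x 2 * w2) / (1 + x 0 ^ 2) := by
    rw [← hss]; field_simp; ring
  have k3 : (1 : ℝ) + ((0 : ℝ) ^ 2 + (x 1 / s) ^ 2 + (x 2 / s) ^ 2) =
      (1 + (x 0 ^ 2 + x 1 ^ 2 + x 2 ^ 2)) / (1 + x 0 ^ 2) := by
    have : (1 + (x 0 ^ 2 + x 1 ^ 2 + x 2 ^ 2)) = s ^ 2 + x 1 ^ 2 + x 2 ^ 2 := by rw [hss]; ring
    rw [this, ← hss]; field_simp; ring
  rw [k1, k2, k3, hw1, hw2]
  have hH : (0 : ℝ) < 1 + (x 0 ^ 2 + x 1 ^ 2 + x 2 ^ 2) := by positivity
  field_simp
  ring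

lemma proj_X_nonneg (x u : V3) :
    0 ≤ gh x u u - fderiv ℝ (bb e1) x u ^ 2 / (1 + bb e1 x ^ 2) := by
  have h := gh_proj x u
  have hp : (0 : ℝ) < 1 + bb e1 x ^ 2 := by positivity
  have h0 : 0 ≤ gh (proj x) (fderiv ℝ proj x u) (fderiv ℝ proj x u) := by
    by_cases hu : fderiv ℝ proj x u = 0
    · rw [hu]; simp
    · exact (gh_pos _ _ hu).le
  rw [h] at h0
  rcases le_or_gt 0 (gh x u u - fderiv ℝ (bb e1) x u ^ 2 / (1 + bb e1 x ^ 2)) with h1 | h1
  · exact h1
  · exact absurd h0 (not_le.2 (div_neg_of_neg_of_pos h1 hp))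

theorem dist_plane {G : RMetric} {V : Set V4} {m : ℝ → ℝ} {a : ℝ} (hm : IsMu m) (ha : 3 / 2 ≤ a)
    (ha' : a ≤ 6) (hV : Sep V) (he : e1 ∈ V) (hG : G.g = gg (1 / a ^ 2) (qq m 1 a) V) (x y : V3) :
    dh (proj x) (proj y) ≤ rdist G x y := by
  have ha0 : 0 < a := by linarith
  refine lower_of_contraction G (proj_smooth.of_le (by exact_mod_cast le_top)) (fun z u => ?_) x y
  have h1 := gg_ge (k := 1 / a ^ 2) hV
    (fun b hb => qq_far hm ha ha' one_pos le_rfl hb) (fun b => qq_nonneg hm b) (by positivity)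
    he z u
  rw [hG]
  refine le_trans ?_ h1
  rw [gh_proj]
  set X := gh z u u - fderiv ℝ (bb e1) z u ^ 2 / (1 + bb e1 z ^ 2) with hX
  have hX0 : 0 ≤ X := proj_X_nonneg z u
  have hp : (0 : ℝ) < 1 + bb e1 z ^ 2 := by positivity
  have e : tube (qq m 1 a) e1 z u u = qq m 1 a (bb e1 z) * X := by
    have : tube (qq m 1 a) e1 z u u = qq m 1 a (bb e1 z) *
        (gh z u u - (1 + bb e1 z ^ 2)⁻¹ * (fderiv ℝ (bb e1) z u * fderiv ℝ (bb e1) z u)) := rfl
    rw [this, hX]
    field_simp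
  have h2 : X ≤ gh z u u := by
    rw [hX]
    have : 0 ≤ fderiv ℝ (bb e1) z u ^ 2 / (1 + bb e1 z ^ 2) := by positivity
    linarith
  have h3 := qq_ge hm ha (bb e1 z)
  rw [e, div_le_iff₀ hp]
  have h4 : X ≤ 1 / a ^ 2 * ((1 + qq m 1 a (bb e1 z)) * (1 + bb e1 z ^ 2)) * X := by
    have : 1 ≤ 1 / a ^ 2 * ((1 + qq m 1 a (bb e1 z)) * (1 + bb e1 z ^ 2)) := by
      rw [one_div, inv_mul_eq_div, le_div_iff₀ (by positivity)]
      linarith
    nlinarith
  have h5 : 0 ≤ 1 / a ^ 2 * (1 + bb e1 z ^ 2) := by positivity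
  nlinarith [mul_le_mul_of_nonneg_left h2 h5]

end Pool.Agent.Lib.MP_529713_gt
end

section

/-!
# Hausdorff dimension and Hölder maps
-/

namespace Pool.Agent.Lib.MP_529713_gt

open Filter Topology Set Matrix
open scoped ContDiff NNReal

theorem HNull_holder {Z Z' : Type*} {δ : Z → Z → ℝ} {δ' : Z' → Z' → ℝ} (Ψ : Z' → Z)
    {C α s : ℝ} (hC : 0 ≤ C) (hα : 0 < α) (hs : 0 < s) (h0 : ∀ x y, 0 ≤ δ x y)
    (h : ∀ x y, δ' x y ≤ C * δ (Ψ x) (Ψ y) ^ α) (hn : HNull δ s) : HNull δ' (s / α) := by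
  intro ε hε
  have hsα : 0 < s / α := div_pos hs hα
  have hCp : 0 ≤ C ^ (s / α) := Real.rpow_nonneg hC _
  have hpos : 0 < C ^ (s / α) + 1 := by linarith
  obtain ⟨A, r, hcov, hr, hdiam, hsum, hlt⟩ := hn (ε / (C ^ (s / α) + 1)) (div_pos hε hpos)
  have key : ∀ n, (C * r n ^ α) ^ (s / α) = C ^ (s / α) * r n ^ s := by
    intro n
    rw [Real.mul_rpow hC (Real.rpow_nonneg (hr n) _), ← Real.rpow_mul (hr n)]
    congr 2
    field_simp
  refine ⟨fun n => Ψ ⁻¹' A n, fun n => C * r n ^ α, fun z => ?_, fun n => ?_, fun n x hx y hy => ?_,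
    ?_, ?_⟩
  · exact hcov (Ψ z)
  · exact mul_nonneg hC (Real.rpow_nonneg (hr n) _)
  · refine (h x y).trans ?_
    exact mul_le_mul_of_nonneg_left
      (Real.rpow_le_rpow (h0 _ _) (hdiam n _ hx _ hy) hα.le) hC
  · simp only [key]
    exact hsum.mul_left _
  · simp only [key]
    rw [tsum_mul_left]
    have hT : 0 ≤ ∑' n, r n ^ s := tsum_nonneg fun n => Real.rpow_nonneg (hr n) _
    calc C ^ (s / α) * ∑' n, r n ^ s ≤ (C ^ (s / α) + 1) * ∑' n, r n ^ s := by
          nlinarith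
      _ < (C ^ (s / α) + 1) * (ε / (C ^ (s / α) + 1)) := by
          exact mul_lt_mul_of_pos_left hlt hpos
      _ = ε := by field_simp

end Pool.Agent.Lib.MP_529713_gt
end
end
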