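import Pool.Agent.Lib.MP_529713_gt.LatBasic
import Pool.Agent.Lib.MP_529713_gt.Axis

section

/-!
# Stability of geodesics, end points on the axis
-/

namespace Pool.Agent.Lib.MP_529713_gt

open Filter Topology Set Matrix
open scoped ContDiff NNReal

/-- `cosh` of the distance to the axis. -/
noncomputable def mxM (p : V3) : ℝ := Real.sqrt (1 + (p 1) ^ 2 + (p 2) ^ 2)

/-- The coordinate of the projection to the axis. -/
noncomputable def mxS (p : V3) : ℝ := Real.arsinh (p 0 / mxM p)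

/-- The distance to the axis. -/
noncomputable def mxR (p : V3) : ℝ := Real.arcosh (mxM p)

lemma mxM_sq (p : V3) : mxM p ^ 2 = 1 + (p 1) ^ 2 + (p 2) ^ 2 :=
  Real.sq_sqrt (by positivity)

lemma mxM_one_le (p : V3) : 1 ≤ mxM p := by
  rw [mxM, Real.one_le_sqrt]
  nlinarith [sq_nonneg (p 1), sq_nonneg (p 2)]

lemma mxM_pos (p : V3) : 0 < mxM p := lt_of_lt_of_le one_pos (mxM_one_le p)

lemma mx_cosh_R (p : V3) : Real.cosh (mxR p) = mxM p := Real.cosh_arcosh (mxM_one_le p)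

lemma mx_R_nonneg (p : V3) : 0 ≤ mxR p := Real.arcosh_nonneg (mxM_one_le p)

lemma mx_sinh_R_sq (p : V3) : Real.sinh (mxR p) ^ 2 = (p 1) ^ 2 + (p 2) ^ 2 := by
  rw [Real.sinh_sq, mx_cosh_R, mxM_sq]; ring

lemma mx_sinh_R_nonneg (p : V3) : 0 ≤ Real.sinh (mxR p) := Real.sinh_nonneg_iff.2 (mx_R_nonneg p)

lemma mx_p0 (p : V3) : p 0 = mxM p * Real.sinh (mxS p) := by
  rw [mxS, Real.sinh_arsinh]
  field_simp [(mxM_pos p).ne']

lemma mx_hh (p : V3) : hh p = mxM p * Real.cosh (mxS p) := by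
  have h1 : 0 ≤ hh p := by rw [hh]; positivity
  have h2 : 0 ≤ mxM p * Real.cosh (mxS p) := mul_nonneg (mxM_pos p).le (Real.cosh_pos _).le
  rw [← abs_of_nonneg h1, ← abs_of_nonneg h2, ← sq_eq_sq_iff_abs_eq_abs, mul_pow, Real.cosh_sq,
    mul_add, ← mul_pow, ← mx_p0, hh_sq, mul_one, mxM_sq, EuclideanSpace.norm_sq_eq,
    Fin.sum_univ_three]
  simp only [Real.norm_eq_abs, sq_abs]
  ring

lemma mx_inner (p p' : V3) : inner ℝ p p' = p 0 * p' 0 + p 1 * p' 1 + p 2 * p' 2 := by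
  rw [PiLp.inner_apply, Fin.sum_univ_three]
  simp only [RCLike.inner_apply, conj_trivial]
  ring

lemma mx_PP (p p' : V3) : PP p p' =
    mxM p * mxM p' * Real.cosh (mxS p - mxS p') - (p 1 * p' 1 + p 2 * p' 2) := by
  rw [PP, mx_inner, mx_hh, mx_hh, Real.cosh_sub]
  have h1 := mx_p0 p
  have h2 := mx_p0 p'
  have h3 : p 0 * p' 0 = (mxM p * Real.sinh (mxS p)) * (mxM p' * Real.sinh (mxS p')) := by
    rw [← h1, ← h2]
  rw [h3]
  ring

lemma mx_lower (p p' : V3) :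
    mxM p * mxM p' * (Real.cosh (mxS p - mxS p') - 1) + Real.cosh (mxR p - mxR p') ≤ PP p p' := by
  rw [mx_PP, Real.cosh_sub (mxR p), mx_cosh_R, mx_cosh_R]
  have h : p 1 * p' 1 + p 2 * p' 2 ≤ Real.sinh (mxR p) * Real.sinh (mxR p') := by
    refine le_of_abs_le (abs_le_of_sq_le_sq ?_ (mul_nonneg (mx_sinh_R_nonneg p)
      (mx_sinh_R_nonneg p')))
    rw [mul_pow, mx_sinh_R_sq, mx_sinh_R_sq]
    nlinarith [sq_nonneg (p 1 * p' 2 - p 2 * p' 1)]
  linarith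

lemma mx_absR (p p' : V3) : |mxR p - mxR p'| ≤ dh p p' := by
  have h1 : Real.cosh (mxR p - mxR p') ≤ Real.cosh (dh p p') := by
    rw [cosh_dh]
    have h2 := mx_lower p p'
    have h3 : 0 ≤ mxM p * mxM p' * (Real.cosh (mxS p - mxS p') - 1) :=
      mul_nonneg (mul_nonneg (mxM_pos p).le (mxM_pos p').le)
        (by linarith [Real.one_le_cosh (mxS p - mxS p')])
    linarith
  have h2 := Real.cosh_le_cosh.1 h1
  rwa [abs_of_nonneg (dh_nonneg p p')] at h2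

lemma mx_key (p p' : V3) : mxM p * mxM p' * (Real.cosh (mxS p - mxS p') - 1) ≤
    Real.cosh (dh p p') - 1 := by
  rw [cosh_dh]
  have h2 := mx_lower p p'
  have h3 := Real.one_le_cosh (mxR p - mxR p')
  linarith

lemma mx_cosh_sub_one (x : ℝ) : Real.cosh x - 1 = 2 * Real.sinh (x / 2) ^ 2 := by
  have h := Real.cosh_two_mul (x / 2)
  rw [show 2 * (x / 2) = x by ring, Real.cosh_sq] at h
  linarith

lemma mx_sinh_key (p p' : V3) {M0 : ℝ} (h0 : 0 ≤ M0) (h1 : M0 ≤ mxM p) (h2 : M0 ≤ mxM p') :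
    M0 * Real.sinh (|mxS p - mxS p'| / 2) ≤ Real.sinh (dh p p' / 2) := by
  have h3 := mx_key p p'
  rw [← Real.cosh_abs (mxS p - mxS p'), mx_cosh_sub_one, mx_cosh_sub_one] at h3
  have h4 : 0 ≤ Real.sinh (|mxS p - mxS p'| / 2) := Real.sinh_nonneg_iff.2 (by positivity)
  have h5 : 0 ≤ Real.sinh (dh p p' / 2) :=
    Real.sinh_nonneg_iff.2 (by linarith [dh_nonneg p p'])
  have h6 : M0 * M0 ≤ mxM p * mxM p' := mul_le_mul h1 h2 h0 (mxM_pos p).le
  have h7 := mul_le_mul_of_nonneg_right h6 (sq_nonneg (Real.sinh (|mxS p - mxS p'| / 2)))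
  refine le_of_abs_le (abs_le_of_sq_le_sq ?_ h5)
  nlinarith

lemma mx_absS (p p' : V3) : |mxS p - mxS p'| ≤ dh p p' := by
  have h := mx_sinh_key p p' zero_le_one (mxM_one_le p) (mxM_one_le p')
  rw [one_mul, Real.sinh_le_sinh] at h
  linarith

lemma mx_sinh_half_le {x : ℝ} (h0 : 0 ≤ x) (h1 : x ≤ 1) : Real.sinh (x / 2) ≤ x := by
  have h2 := Real.abs_exp_sub_one_le (x := x / 2) (by rw [abs_of_nonneg] <;> linarith)
  have h3 := Real.abs_exp_sub_one_le (x := -(x / 2)) (by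
    rw [abs_neg, abs_of_nonneg] <;> linarith)
  rw [abs_neg, abs_of_nonneg (by linarith : 0 ≤ x / 2)] at h3
  rw [abs_of_nonneg (by linarith : 0 ≤ x / 2)] at h2
  rw [Real.sinh_eq]
  have h4 := (abs_le.1 h2).2
  have h5 := (abs_le.1 h3).1
  linarith

lemma mx_step (p p' : V3) {M0 : ℝ} (h0 : 0 < M0) (h1 : M0 ≤ mxM p) (h2 : M0 ≤ mxM p')
    (hd : dh p p' ≤ 1) : |mxS p - mxS p'| ≤ 2 / M0 * dh p p' := by
  have h3 := mx_sinh_key p p' h0.le h1 h2
  have h4 := mx_sinh_half_le (dh_nonneg p p') hd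
  have h5 : |mxS p - mxS p'| / 2 ≤ Real.sinh (|mxS p - mxS p'| / 2) :=
    Real.self_le_sinh_iff.2 (by positivity)
  have h6 := mul_le_mul_of_nonneg_left h5 h0.le
  rw [div_mul_eq_mul_div, le_div_iff₀ h0]
  linarith

/-! ### The axis -/

lemma ax_zero_coord (s : ℝ) : ax s 0 = Real.sinh s := by simp [ax]
lemma ax_one_coord (s : ℝ) : ax s 1 = 0 := by simp [ax]
lemma ax_two_coord (s : ℝ) : ax s 2 = 0 := by simp [ax]

lemma mxM_ax (s : ℝ) : mxM (ax s) = 1 := by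
  rw [mxM, ax_one_coord, ax_two_coord]; simp

lemma mxS_ax (s : ℝ) : mxS (ax s) = s := by
  rw [mxS, mxM_ax, ax_zero_coord, div_one, Real.arsinh_sinh]

lemma mxR_ax (s : ℝ) : mxR (ax s) = 0 := by rw [mxR, mxM_ax, Real.arcosh_zero]

lemma mx_PP_ax (p : V3) (s : ℝ) : PP p (ax s) = mxM p * Real.cosh (mxS p - s) := by
  rw [mx_PP, mxM_ax, mxS_ax, ax_one_coord, ax_two_coord]; ring

lemma mx_dh_proj (p : V3) : dh p (ax (mxS p)) = mxR p := by
  rw [dh, mx_PP_ax, sub_self, Real.cosh_zero, mul_one, mxR]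

lemma mx_dh_ax_ax (s t : ℝ) : dh (ax s) (ax t) = |s - t| := by
  rw [dh, mx_PP_ax, mxM_ax, mxS_ax, one_mul, ← Real.cosh_abs, Real.arcosh_cosh (abs_nonneg _)]

lemma mx_exp_le_cosh (x : ℝ) : Real.exp |x| / 2 ≤ Real.cosh x := by
  rw [← Real.cosh_abs, Real.cosh_eq]
  have := Real.exp_pos (-|x|)
  linarith

lemma mx_cosh_le_exp {x : ℝ} (hx : 0 ≤ x) : Real.cosh x ≤ Real.exp x := by
  rw [Real.cosh_eq]
  have : Real.exp (-x) ≤ Real.exp x := Real.exp_le_exp.2 (by linarith)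
  linarith

lemma mx_dh_ax_ge (p : V3) (s : ℝ) : mxR p + |mxS p - s| - Real.log 4 ≤ dh p (ax s) := by
  rw [← Real.exp_le_exp]
  have h1 : Real.cosh (dh p (ax s)) = mxM p * Real.cosh (mxS p - s) := by
    rw [cosh_dh, mx_PP_ax]
  have h2 := mx_cosh_le_exp (dh_nonneg p (ax s))
  have h3 := mx_exp_le_cosh (mxR p)
  rw [mx_cosh_R, abs_of_nonneg (mx_R_nonneg p)] at h3
  have h4 := mx_exp_le_cosh (mxS p - s)
  have h5 := mul_le_mul h3 h4 (by positivity) (mxM_pos p).le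
  rw [Real.exp_sub, Real.exp_add, Real.exp_log (by norm_num)]
  calc Real.exp (mxR p) * Real.exp |mxS p - s| / 4
      = Real.exp (mxR p) / 2 * (Real.exp |mxS p - s| / 2) := by ring
    _ ≤ _ := h5
    _ = _ := h1.symm
    _ ≤ _ := h2

/-! ### Geodesics -/

lemma mx_cont {f : ℝ → ℝ} {a D : ℝ} (ha : 0 ≤ a)
    (h : ∀ u ∈ Icc 0 D, ∀ v ∈ Icc 0 D, |f u - f v| ≤ a * |u - v|) : ContinuousOn f (Icc 0 D) := by
  have : LipschitzOnWith a.toNNReal f (Icc 0 D) := by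
    refine LipschitzOnWith.of_dist_le_mul fun u hu v hv => ?_
    rw [Real.coe_toNNReal a ha, Real.dist_eq, Real.dist_eq]
    exact h u hu v hv
  exact this.continuousOn

/-- Far from the axis the projection to the axis moves slowly. -/
lemma mx_slow {c : ℝ → V3} {a D M0 : ℝ} (ha : 0 < a) (hM0 : 0 < M0)
    (hc : ∀ u ∈ Icc 0 D, ∀ v ∈ Icc 0 D, dh (c u) (c v) ≤ a * |u - v|) (n : ℕ) :
    ∀ u₀ u₁ : ℝ, 0 ≤ u₀ → u₀ ≤ u₁ → u₁ ≤ D → a * (u₁ - u₀) ≤ n →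
      (∀ u ∈ Icc u₀ u₁, M0 ≤ mxM (c u)) →
      |mxS (c u₁) - mxS (c u₀)| ≤ 2 * a / M0 * (u₁ - u₀) := by
  have hshort : ∀ u₀ u₁ : ℝ, 0 ≤ u₀ → u₀ ≤ u₁ → u₁ ≤ D → a * (u₁ - u₀) ≤ 1 →
      (∀ u ∈ Icc u₀ u₁, M0 ≤ mxM (c u)) →
      |mxS (c u₁) - mxS (c u₀)| ≤ 2 * a / M0 * (u₁ - u₀) := by
    intro u₀ u₁ h0 h1 h2 h3 h4
    have h5 := hc u₁ ⟨h0.trans h1, h2⟩ u₀ ⟨h0, h1.trans h2⟩
    rw [abs_of_nonneg (by linarith)] at h5
    have h6 := mx_step (c u₁) (c u₀) hM0 (h4 u₁ ⟨h1, le_rfl⟩) (h4 u₀ ⟨le_rfl, h1⟩)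
      (h5.trans h3)
    refine h6.trans ?_
    calc 2 / M0 * dh (c u₁) (c u₀) ≤ 2 / M0 * (a * (u₁ - u₀)) :=
          mul_le_mul_of_nonneg_left h5 (by positivity)
      _ = _ := by ring
  induction n with
  | zero =>
    intro u₀ u₁ h0 h1 h2 h3 h4
    push_cast at h3
    exact hshort u₀ u₁ h0 h1 h2 (by linarith) h4
  | succ n ih =>
    intro u₀ u₁ h0 h1 h2 h3 h4
    by_cases h5 : a * (u₁ - u₀) ≤ 1
    · exact hshort u₀ u₁ h0 h1 h2 h5 h4
    push Not at h5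
    have h6 : 1 / a ≤ u₁ - u₀ := by
      rw [div_le_iff₀ ha]; linarith
    have h7 : 0 < 1 / a := by positivity
    have h8 : a * (1 / a) = 1 := by field_simp
    have h9 := hshort u₀ (u₀ + 1 / a) h0 (by linarith) (by linarith) (by
      rw [add_sub_cancel_left]; exact h8.le) (fun u hu => h4 u ⟨hu.1, by linarith [hu.2]⟩)
    have h10 := ih (u₀ + 1 / a) u₁ (by linarith) (by linarith) h2 (by
      push_cast at h3
      have : a * (u₁ - (u₀ + 1 / a)) = a * (u₁ - u₀) - a * (1 / a) := by ring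
      rw [this, h8]; linarith) (fun u hu => h4 u ⟨by linarith [hu.1], hu.2⟩)
    calc |mxS (c u₁) - mxS (c u₀)| ≤ |mxS (c u₁) - mxS (c (u₀ + 1 / a))| +
          |mxS (c (u₀ + 1 / a)) - mxS (c u₀)| := abs_sub_le _ _ _
      _ ≤ 2 * a / M0 * (u₁ - (u₀ + 1 / a)) + 2 * a / M0 * (u₀ + 1 / a - u₀) := add_le_add h10 h9
      _ = _ := by ring

/-- Last time before `u` and first time after `u` with value `D`. -/
lemma mx_last {f : ℝ → ℝ} {x y D : ℝ} (hxy : x ≤ y) (hf : ContinuousOn f (Icc x y))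
    (h0 : f x ≤ D) (h1 : D ≤ f y) : ∃ u ∈ Icc x y, f u = D ∧ ∀ v ∈ Icc u y, D ≤ f v := by
  have hne : (Icc x y ∩ f ⁻¹' {D}).Nonempty := by
    obtain ⟨v, hv, hvD⟩ := intermediate_value_Icc hxy hf ⟨h0, h1⟩
    exact ⟨v, hv, hvD⟩
  have hcl : IsClosed (Icc x y ∩ f ⁻¹' {D}) :=
    hf.preimage_isClosed_of_isClosed isClosed_Icc isClosed_singleton
  have hcomp : IsCompact (Icc x y ∩ f ⁻¹' {D}) :=
    isCompact_Icc.of_isClosed_subset hcl inter_subset_left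
  have hmem := hcomp.sSup_mem hne
  refine ⟨sSup (Icc x y ∩ f ⁻¹' {D}), hmem.1, hmem.2, fun v hv => ?_⟩
  by_contra hlt
  push Not at hlt
  have hv' : v ∈ Icc x y := ⟨hmem.1.1.trans hv.1, hv.2⟩
  obtain ⟨w, hw, hwD⟩ := intermediate_value_Icc hv'.2 (hf.mono (Icc_subset_Icc_left hv'.1))
    ⟨hlt.le, h1⟩
  have h2 : w ≤ sSup (Icc x y ∩ f ⁻¹' {D}) :=
    le_csSup hcomp.bddAbove ⟨⟨hv'.1.trans hw.1, hw.2⟩, hwD⟩
  have h3 : v = w := le_antisymm hw.1 (h2.trans hv.1)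
  rw [h3, hwD] at hlt
  exact lt_irrefl _ hlt

lemma mx_first {f : ℝ → ℝ} {x y D : ℝ} (hxy : x ≤ y) (hf : ContinuousOn f (Icc x y))
    (h0 : D ≤ f x) (h1 : f y ≤ D) : ∃ u ∈ Icc x y, f u = D ∧ ∀ v ∈ Icc x u, D ≤ f v := by
  have hf' : ContinuousOn (fun z => f (-z)) (Icc (-y) (-x)) :=
    hf.comp continuous_neg.continuousOn fun z hz => ⟨by linarith [hz.2], by linarith [hz.1]⟩
  obtain ⟨u, hu, huD, h⟩ := mx_last (neg_le_neg hxy) hf' (by simpa using h1) (by simpa using h0)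
  refine ⟨-u, ⟨by linarith [hu.2], by linarith [hu.1]⟩, huD, fun v hv => ?_⟩
  have := h (-v) ⟨by linarith [hv.2], by linarith [hv.1]⟩
  simpa using this

theorem morse_axis (a : ℝ) : ∃ C : ℝ, ∀ d : V3 → V3 → ℝ, GeoD a d → ∀ s t : ℝ, s ≤ t →
    ∀ (z : V3) (c : ℝ → V3), IsSeg d (ax s) (ax t) c → ∃ τ ∈ Icc 0 (d (ax s) (ax t)),
      dh z (c τ) ≤ C + (dh (ax s) z + dh z (ax t) - dh (ax s) (ax t)) := by
  refine ⟨Real.arcosh (4 * a ^ 2) + 4 * a * Real.arcosh (4 * a ^ 2) + Real.log 4, ?_⟩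
  intro d hd s t hst z c hc
  have ha1 := hd.one_le
  have ha0 : 0 < a := by linarith
  obtain ⟨hc0, hc1, hcg⟩ := hc
  set L := d (ax s) (ax t) with hL
  set M0 := 4 * a ^ 2 with hM0
  set D := Real.arcosh M0 with hD
  have hM01 : 1 ≤ M0 := by nlinarith
  have hD0 : 0 ≤ D := Real.arcosh_nonneg hM01
  have hLnn : 0 ≤ L := by
    have h1 := hd.lower (ax s) (ax t)
    have h2 := dh_nonneg (ax s) (ax t)
    by_contra hneg
    push Not at hneg
    have : a * d (ax s) (ax t) < 0 := mul_neg_of_pos_of_neg ha0 hneg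
    linarith
  have hup : ∀ u ∈ Icc 0 L, ∀ v ∈ Icc 0 L, dh (c u) (c v) ≤ a * |u - v| := fun u hu v hv => by
    rw [← hcg u hu v hv]; exact hd.lower _ _
  have hlow : ∀ u ∈ Icc 0 L, ∀ v ∈ Icc 0 L, |u - v| ≤ dh (c u) (c v) := fun u hu v hv => by
    rw [← hcg u hu v hv]; exact hd.upper _ _
  have hRcont : ContinuousOn (fun u => mxR (c u)) (Icc 0 L) :=
    mx_cont ha0.le fun u hu v hv => (mx_absR _ _).trans (hup u hu v hv)
  have hScont : ContinuousOn (fun u => mxS (c u)) (Icc 0 L) :=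
    mx_cont ha0.le fun u hu v hv => (mx_absS _ _).trans (hup u hu v hv)
  have hR0 : mxR (c 0) = 0 := by rw [hc0, mxR_ax]
  have hRL : mxR (c L) = 0 := by rw [hc1, mxR_ax]
  -- the geodesic stays near the axis
  have hnear : ∀ u ∈ Icc 0 L, mxR (c u) ≤ D + 4 * a * D := by
    intro u hu
    by_contra hcon
    push Not at hcon
    have h1 : D ≤ mxR (c u) := by nlinarith [mul_nonneg (mul_nonneg (by norm_num : (0:ℝ) ≤ 4) ha0.le) hD0]
    obtain ⟨u₀, hu₀, hu₀D, hu₀h⟩ := mx_last (f := fun u => mxR (c u)) hu.1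
      (hRcont.mono (Icc_subset_Icc_right hu.2)) (by simpa [hR0] using hD0) h1
    obtain ⟨u₁, hu₁, hu₁D, hu₁h⟩ := mx_first (f := fun u => mxR (c u)) hu.2
      (hRcont.mono (Icc_subset_Icc_left hu.1)) h1 (by simpa [hRL] using hD0)
    have h01 : u₀ ≤ u₁ := hu₀.2.trans hu₁.1
    have hu₀L : u₀ ∈ Icc 0 L := ⟨hu₀.1, hu₀.2.trans hu.2⟩
    have hu₁L : u₁ ∈ Icc 0 L := ⟨hu.1.trans hu₁.1, hu₁.2⟩
    have hM : ∀ v ∈ Icc u₀ u₁, M0 ≤ mxM (c v) := by
      intro v hv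
      have h2 : D ≤ mxR (c v) := by
        rcases le_total v u with h | h
        · exact hu₀h v ⟨hv.1, h⟩
        · exact hu₁h v ⟨h, hv.2⟩
      rw [hD, mxR, Real.arcosh_le_arcosh (by linarith) (mxM_pos _)] at h2
      exact h2
    obtain ⟨n, hn⟩ := exists_nat_ge (a * (u₁ - u₀))
    have hslow := mx_slow ha0 (by linarith : 0 < M0) hup n u₀ u₁ hu₀.1 h01 hu₁.2 hn hM
    have h2 : 2 * a / M0 * (u₁ - u₀) ≤ (u₁ - u₀) / 2 := by
      rw [hM0, show 2 * a / (4 * a ^ 2) * (u₁ - u₀) = (u₁ - u₀) / (2 * a) by field_simp; ring]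
      exact div_le_div_of_nonneg_left (by linarith) (by norm_num) (by linarith)
    have h3 : u₁ - u₀ ≤ dh (c u₀) (c u₁) := by
      have := hlow u₀ hu₀L u₁ hu₁L
      rwa [abs_sub_comm, abs_of_nonneg (by linarith)] at this
    have h4 : dh (c u₀) (c u₁) ≤ D + |mxS (c u₀) - mxS (c u₁)| + D := by
      calc dh (c u₀) (c u₁) ≤ dh (c u₀) (ax (mxS (c u₁))) + dh (ax (mxS (c u₁))) (c u₁) :=
            dh_tri _ _ _
        _ ≤ (dh (c u₀) (ax (mxS (c u₀))) + dh (ax (mxS (c u₀))) (ax (mxS (c u₁)))) +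
            dh (ax (mxS (c u₁))) (c u₁) := by gcongr; exact dh_tri _ _ _
        _ = D + |mxS (c u₀) - mxS (c u₁)| + D := by
            rw [mx_dh_proj, mx_dh_ax_ax, dh_comm (ax _) (c u₁), mx_dh_proj, hu₀D, hu₁D]
    rw [abs_sub_comm] at hslow
    have h5 : u₁ - u₀ ≤ 4 * D := by linarith
    have h6 := mx_absR (c u) (c u₀)
    have h7 := hup u hu u₀ hu₀L
    rw [abs_of_nonneg (by linarith [hu₀.2])] at h7
    have h8 := (abs_le.1 h6).2
    have h9 : a * (u - u₀) ≤ a * (4 * D) :=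
      mul_le_mul_of_nonneg_left (by linarith [hu₁.1]) ha0.le
    rw [hu₀D] at h8
    linarith
  -- choice of the point
  set s' := max s (min t (mxS z)) with hs'
  have hs's : s ≤ s' := le_max_left _ _
  have hs't : s' ≤ t := max_le hst (min_le_left _ _)
  obtain ⟨τ, hτ, hτs⟩ := intermediate_value_Icc hLnn hScont
    (show s' ∈ Icc (mxS (c 0)) (mxS (c L)) by rw [hc0, hc1, mxS_ax, mxS_ax]; exact ⟨hs's, hs't⟩)
  beta_reduce at hτs
  refine ⟨τ, hτ, ?_⟩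
  have h1 : dh z (c τ) ≤ mxR z + |mxS z - s'| + mxR (c τ) := by
    calc dh z (c τ) ≤ dh z (ax s') + dh (ax s') (c τ) := dh_tri _ _ _
      _ ≤ (dh z (ax (mxS z)) + dh (ax (mxS z)) (ax s')) + dh (ax s') (c τ) := by
          gcongr; exact dh_tri _ _ _
      _ = _ := by rw [mx_dh_proj, mx_dh_ax_ax, dh_comm (ax s'), ← hτs, mx_dh_proj]
  have h2 := hnear τ hτ
  have h3 := mx_dh_ax_ge z s
  have h4 := mx_dh_ax_ge z t
  rw [dh_comm z (ax s)] at h3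
  have h5 : dh (ax s) (ax t) = t - s := by
    rw [mx_dh_ax_ax, abs_sub_comm, abs_of_nonneg (by linarith)]
  have h6 : |mxS z - s| + |mxS z - t| = (t - s) + 2 * |mxS z - s'| := by
    rw [hs']
    rcases le_total t (mxS z) with h | h
    · rw [min_eq_left h, max_eq_right hst, abs_of_nonneg (by linarith),
        abs_of_nonneg (by linarith)]
      ring
    · rw [min_eq_right h]
      rcases le_total s (mxS z) with h' | h'
      · rw [max_eq_right h', abs_of_nonneg (by linarith), abs_of_nonpos (by linarith)]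
        simp
      · rw [max_eq_left h', abs_of_nonpos (by linarith), abs_of_nonpos (by linarith)]
        ring
  have h7 := dh_tri (ax s) z (ax t)
  rw [h5] at h7 ⊢
  linarith

end Pool.Agent.Lib.MP_529713_gt
end

section

/-!
# Stability of geodesics
-/

namespace Pool.Agent.Lib.MP_529713_gt

open Filter Topology Set Matrix
open scoped ContDiff NNReal

lemma morse_geoD {a : ℝ} {d : V3 → V3 → ℝ} (hd : GeoD a d) {A B : Matrix (Fin 4) (Fin 4) ℝ}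
    (hA : IsLor A) (hB : IsLor B) (hAB : A * B = 1) (hBA : B * A = 1) :
    GeoD a (fun p q => d (act B p) (act B q)) where
  one_le := hd.one_le
  self x := hd.self _
  symm x y := hd.symm _ _
  tri x y z := hd.tri _ _ _
  lower x y := by
    have h := hd.lower (act B x) (act B y)
    rwa [dh_act hB] at h
  upper x y := by
    have h := hd.upper (act B x) (act B y)
    rwa [dh_act hB] at h
  geod x y := by
    obtain ⟨c, h0, h1, h2⟩ := hd.geod (act B x) (act B y)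
    have hb : ∀ p, act B (act A p) = p := fun p => by rw [← act_mul hB hA, hBA, act_one]
    have ha : ∀ p, act A (act B p) = p := fun p => by rw [← act_mul hA hB, hAB, act_one]
    refine ⟨fun u => act A (c u), ?_, ?_, ?_⟩
    · simp only [h0, ha]
    · simp only [h1, ha]
    · intro s hs t ht
      simp only [hb]
      exact h2 s hs t ht

theorem morse (a : ℝ) : ∃ C : ℝ, ∀ d : V3 → V3 → ℝ, GeoD a d → ∀ x y z : V3, ∀ c : ℝ → V3,
    IsSeg d x y c → ∃ t ∈ Icc 0 (d x y), dh z (c t) ≤ C + (dh x z + dh z y - dh x y) := by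
  obtain ⟨C, hC⟩ := morse_axis a
  refine ⟨C, fun d hd x y z c hc => ?_⟩
  obtain ⟨A, B, hA, hB, hAB, hBA, s, t, hst, hx, hy⟩ := to_axis x y
  have hb : ∀ p, act B (act A p) = p := fun p => by rw [← act_mul hB hA, hBA, act_one]
  obtain ⟨h0, h1, h2⟩ := hc
  have hseg : IsSeg (fun p q => d (act B p) (act B q)) (ax s) (ax t) (fun u => act A (c u)) := by
    rw [← hx, ← hy]
    refine ⟨?_, ?_, ?_⟩
    · simp only [h0]
    · simp only [hb, h1]
    · intro u hu v hv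
      simp only [hb] at hu hv ⊢
      exact h2 u hu v hv
  obtain ⟨τ, hτ, hle⟩ := hC _ (morse_geoD hd hA hB hAB hBA) s t hst (act A z) _ hseg
  rw [← hx, ← hy] at hτ hle
  simp only [hb] at hτ
  refine ⟨τ, hτ, ?_⟩
  rwa [dh_act hA, dh_act hA, dh_act hA, dh_act hA] at hle

end Pool.Agent.Lib.MP_529713_gt
end

section

/-!
# Hyperbolic estimates for the branching points
-/

namespace Pool.Agent.Lib.MP_529713_gt

open Filter Topology Set Matrix
open scoped ContDiff NNReal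

lemma ctr_hh_pos (x : V3) : 0 < hh x := lt_of_lt_of_le one_pos (one_le_hh x)

lemma ctr_PP_pos (x y : V3) : 0 < PP x y := lt_of_lt_of_le one_pos (one_le_PP x y)

lemma ctr_norm_pt {θ : V3} (hθ : ‖θ‖ = 1) {T : ℝ} (hT : 0 ≤ T) : ‖pt T θ‖ = Real.sinh T := by
  rw [pt, norm_smul, hθ, mul_one, Real.norm_eq_abs, abs_of_nonneg (Real.sinh_nonneg_iff.mpr hT)]

lemma ctr_hh_pt {θ : V3} (hθ : ‖θ‖ = 1) {T : ℝ} (hT : 0 ≤ T) : hh (pt T θ) = Real.cosh T := by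
  have h1 := hh_sq (pt T θ)
  rw [ctr_norm_pt hθ hT] at h1
  have h3 := Real.cosh_sq T
  have h4 := ctr_hh_pos (pt T θ)
  have h5 := Real.cosh_pos T
  nlinarith

lemma dh_zero_pt {θ : V3} (hθ : ‖θ‖ = 1) {T : ℝ} (hT : 0 ≤ T) : dh 0 (pt T θ) = T := by
  rw [dh_zero, ctr_norm_pt hθ hT, Real.arsinh_sinh]

lemma ctr_cosh_three : (2 : ℝ) ≤ Real.cosh 3 := by
  rw [Real.cosh_eq]
  have h1 := Real.add_one_le_exp (3 : ℝ)
  have h2 := Real.exp_pos (-3 : ℝ)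
  linarith

lemma ctr_sq_norm_sub {θ₁ θ₂ : V3} (h₁ : ‖θ₁‖ = 1) (h₂ : ‖θ₂‖ = 1) :
    ‖θ₁ - θ₂‖ ^ 2 = 2 - 2 * inner ℝ θ₁ θ₂ := by
  rw [norm_sub_sq_real, h₁, h₂]; ring

/-- `sinh T * D ≤ 1/2` for `T = max 0 (-log D)` -/
lemma ctr_sinh_mul {D : ℝ} (hD : 0 < D) :
    Real.sinh (max 0 (-Real.log D)) * D ≤ 1 / 2 := by
  rcases le_total (-Real.log D) 0 with h | h
  · rw [max_eq_left h]; simp
  · rw [max_eq_right h, Real.sinh_eq, neg_neg, Real.exp_neg, Real.exp_log hD]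
    field_simp
    nlinarith [sq_nonneg D]

lemma ctr_near {θ₁ θ₂ : V3} (h₁ : ‖θ₁‖ = 1) (h₂ : ‖θ₂‖ = 1) (hne : θ₁ ≠ θ₂) :
    dh (ctr θ₁ θ₂) (ctr θ₂ θ₁) ≤ 3 := by
  have hD : 0 < ‖θ₁ - θ₂‖ := norm_pos_iff.mpr (sub_ne_zero.mpr hne)
  have hs := ctr_sinh_mul hD
  have hT : 0 ≤ max 0 (-Real.log ‖θ₁ - θ₂‖) := le_max_left _ _
  have e2 : ctr θ₂ θ₁ = pt (max 0 (-Real.log ‖θ₁ - θ₂‖)) θ₂ := by
    rw [ctr, norm_sub_rev]
  rw [e2, ctr]
  set T := max 0 (-Real.log ‖θ₁ - θ₂‖)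
  have hPP : PP (pt T θ₁) (pt T θ₂) = 1 + Real.sinh T ^ 2 * (‖θ₁ - θ₂‖ ^ 2 / 2) := by
    rw [PP, ctr_hh_pt h₁ hT, ctr_hh_pt h₂ hT, pt, pt, inner_smul_left, inner_smul_right,
      ctr_sq_norm_sub h₁ h₂]
    have := Real.cosh_sq T
    simp
    nlinarith
  have h4 := cosh_dh (pt T θ₁) (pt T θ₂)
  rw [hPP] at h4
  have h5 : 0 ≤ Real.sinh T * ‖θ₁ - θ₂‖ := mul_nonneg (Real.sinh_nonneg_iff.mpr hT) hD.le
  have h6 : Real.cosh (dh (pt T θ₁) (pt T θ₂)) ≤ Real.cosh 3 := by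
    refine le_trans ?_ ctr_cosh_three
    rw [h4]
    nlinarith
  rw [Real.cosh_le_cosh, abs_of_nonneg (dh_nonneg _ _)] at h6
  simpa using h6

lemma ctr_arcosh_le {y : ℝ} (hy : 1 ≤ y) : Real.arcosh y ≤ Real.log (2 * y) := by
  rw [Real.arcosh]
  apply Real.log_le_log
  · positivity
  · have : Real.sqrt (y ^ 2 - 1) ≤ y := by
      rw [Real.sqrt_le_left (by linarith)]
      linarith
    linarith

lemma ctr_le_arcosh {y : ℝ} (hy : 2 ≤ y) : Real.log (2 * y) - 1 / 9 ≤ Real.arcosh y := by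
  rw [Real.arcosh]
  have h1 : 4 / 5 * y ≤ Real.sqrt (y ^ 2 - 1) := by
    apply Real.le_sqrt_of_sq_le
    nlinarith
  have h2 : Real.log (9 / 5 * y) ≤ Real.log (y + Real.sqrt (y ^ 2 - 1)) := by
    apply Real.log_le_log
    · positivity
    · linarith
  have h3 : Real.log (2 * y) = Real.log (9 / 5 * y) + Real.log (10 / 9) := by
    rw [← Real.log_mul (by positivity) (by norm_num)]
    congr 1
    ring
  have h4 : Real.log (10 / 9) ≤ 1 / 9 := by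
    have := Real.log_le_sub_one_of_pos (x := 10 / 9) (by norm_num)
    linarith
  linarith

/-- the horospherical coordinate -/
noncomputable def ctrB (p θ : V3) : ℝ := hh p - inner ℝ p θ

lemma ctr_norm_lt_hh (p : V3) : ‖p‖ < hh p := by
  have h1 := hh_sq p
  have h2 := ctr_hh_pos p
  have h3 := norm_nonneg p
  nlinarith

lemma ctr_inner_le (p : V3) {θ : V3} (hθ : ‖θ‖ = 1) : inner ℝ p θ ≤ ‖p‖ := by
  have := real_inner_le_norm p θ
  rwa [hθ, mul_one] at this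

lemma ctrB_pos (p : V3) {θ : V3} (hθ : ‖θ‖ = 1) : 0 < ctrB p θ := by
  have := ctr_norm_lt_hh p
  have := ctr_inner_le p hθ
  rw [ctrB]; linarith

lemma ctr_hh_div {c : ℝ≥0 → V3} (hc : Tendsto (fun t => ‖c t‖) atTop atTop) :
    Tendsto (fun t => hh (c t) / ‖c t‖) atTop (𝓝 1) := by
  have h1 : Tendsto (fun t => Real.sqrt ((‖c t‖⁻¹) ^ 2 + 1)) atTop (𝓝 1) := by
    have h2 : Tendsto (fun t => ‖c t‖⁻¹) atTop (𝓝 0) := tendsto_inv_atTop_zero.comp hc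
    have h3 : Tendsto (fun t => Real.sqrt ((‖c t‖⁻¹) ^ 2 + 1)) atTop
        (𝓝 (Real.sqrt ((0 : ℝ) ^ 2 + 1))) := ((h2.pow 2).add_const 1).sqrt
    simpa using h3
  refine h1.congr' ?_
  filter_upwards [hc.eventually_gt_atTop 0] with t ht
  rw [hh]
  have e : (‖c t‖⁻¹) ^ 2 + 1 = (1 + ‖c t‖ ^ 2) / ‖c t‖ ^ 2 := by
    field_simp
  rw [e, Real.sqrt_div (by positivity), Real.sqrt_sq ht.le]

lemma ctr_PP_div (p : V3) {θ : V3} {c : ℝ≥0 → V3} (hc : EndsAt c θ) :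
    Tendsto (fun t => PP p (c t) / ‖c t‖) atTop (𝓝 (ctrB p θ)) := by
  have h1 := (ctr_hh_div hc.1).const_mul (hh p)
  have h2 : Tendsto (fun t => inner ℝ p (‖c t‖⁻¹ • c t)) atTop (𝓝 (inner ℝ p θ)) :=
    tendsto_const_nhds.inner hc.2
  have h3 := h1.sub h2
  rw [mul_one] at h3
  refine h3.congr fun t => ?_
  rw [PP, inner_smul_right]
  ring

lemma ctr_PP_div_div {θ₁ θ₂ : V3} {c₁ c₂ : ℝ≥0 → V3} (hc₁ : EndsAt c₁ θ₁) (hc₂ : EndsAt c₂ θ₂) :
    Tendsto (fun t => PP (c₁ t) (c₂ t) / (‖c₁ t‖ * ‖c₂ t‖)) atTop (𝓝 (1 - inner ℝ θ₁ θ₂)) := by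
  have h1 := (ctr_hh_div hc₁.1).mul (ctr_hh_div hc₂.1)
  have h2 : Tendsto (fun t => inner ℝ (‖c₁ t‖⁻¹ • c₁ t) (‖c₂ t‖⁻¹ • c₂ t)) atTop
      (𝓝 (inner ℝ θ₁ θ₂)) := hc₁.2.inner hc₂.2
  have h3 := h1.sub h2
  rw [mul_one] at h3
  refine h3.congr fun t => ?_
  rw [PP, inner_smul_right, inner_smul_left]
  simp only [conj_trivial]
  rw [div_eq_mul_inv _ (‖c₁ t‖ * ‖c₂ t‖), _root_.mul_inv_rev]
  ring

lemma ctr_PP_top (p : V3) {θ : V3} (hθ : ‖θ‖ = 1) {c : ℝ≥0 → V3} (hc : EndsAt c θ) :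
    Tendsto (fun t => PP p (c t)) atTop atTop := by
  have h1 := (ctr_PP_div p hc).pos_mul_atTop (ctrB_pos p hθ) hc.1
  refine h1.congr' ?_
  filter_upwards [hc.1.eventually_gt_atTop 0] with t ht
  field_simp

lemma ctr_PP_top_top {θ₁ θ₂ : V3} (hpos : 0 < 1 - inner ℝ θ₁ θ₂) {c₁ c₂ : ℝ≥0 → V3}
    (hc₁ : EndsAt c₁ θ₁) (hc₂ : EndsAt c₂ θ₂) :
    Tendsto (fun t => PP (c₁ t) (c₂ t)) atTop atTop := by
  have h1 := (ctr_PP_div_div hc₁ hc₂).pos_mul_atTop hpos (hc₁.1.atTop_mul_atTop₀ hc₂.1)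
  refine h1.congr' ?_
  filter_upwards [hc₁.1.eventually_gt_atTop 0, hc₂.1.eventually_gt_atTop 0] with t ht ht'
  field_simp

theorem excess_ray (o : V3) {θ : V3} (hθ : ‖θ‖ = 1) {T : ℝ} (hT : 0 ≤ T) {c : ℝ≥0 → V3}
    (hc : EndsAt c θ) :
    ∀ᶠ t in atTop, dh o (pt T θ) + dh (pt T θ) (c t) - dh o (c t) ≤ 2 * dh 0 o + 1 := by
  have hz : ctrB (pt T θ) θ = Real.exp (-T) := by
    rw [ctrB, ctr_hh_pt hθ hT, pt, inner_smul_left, real_inner_self_eq_norm_sq, hθ]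
    simp
  have ho : Real.exp (-dh 0 o) ≤ ctrB o θ := by
    have h1 : hh o = Real.cosh (dh 0 o) := by
      rw [dh_zero, Real.cosh_arsinh, hh]
    have h2 : ‖o‖ = Real.sinh (dh 0 o) := by
      rw [dh_zero, Real.sinh_arsinh]
    have h3 := ctr_inner_le o hθ
    rw [ctrB, ← Real.cosh_sub_sinh, h1]
    linarith
  have hBo := ctrB_pos o hθ
  have hBz := ctrB_pos (pt T θ) hθ
  -- the ratio
  have hr : Tendsto (fun t => PP (pt T θ) (c t) / PP o (c t)) atTop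
      (𝓝 (ctrB (pt T θ) θ / ctrB o θ)) := by
    have h1 := (ctr_PP_div (pt T θ) hc).div (ctr_PP_div o hc) hBo.ne'
    refine h1.congr' ?_
    filter_upwards [hc.1.eventually_gt_atTop 0] with t ht
    have := ctr_PP_pos o (c t)
    simp only [Pi.div_apply]
    field_simp
  have hlt : ctrB (pt T θ) θ / ctrB o θ < Real.exp (dh 0 o - T + 1 / 2) := by
    rw [div_lt_iff₀ hBo, hz]
    calc Real.exp (-T) < Real.exp (-T + 1 / 2) := Real.exp_lt_exp.mpr (by linarith)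
      _ = Real.exp (dh 0 o - T + 1 / 2) * Real.exp (-dh 0 o) := by
        rw [← Real.exp_add]; congr 1; ring
      _ ≤ _ := by gcongr
  filter_upwards [hr.eventually_lt_const hlt, (ctr_PP_top o hθ hc).eventually_ge_atTop 2]
    with t h1 h2
  have h3 : dh (pt T θ) (c t) ≤ Real.log (2 * PP (pt T θ) (c t)) :=
    ctr_arcosh_le (one_le_PP _ _)
  have h4 : Real.log (2 * PP o (c t)) - 1 / 9 ≤ dh o (c t) := ctr_le_arcosh h2
  have p1 := ctr_PP_pos (pt T θ) (c t)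
  have p2 := ctr_PP_pos o (c t)
  have h5 : Real.log (2 * PP (pt T θ) (c t)) - Real.log (2 * PP o (c t)) ≤
      dh 0 o - T + 1 / 2 := by
    rw [← Real.log_div (by positivity) (by positivity)]
    have e : 2 * PP (pt T θ) (c t) / (2 * PP o (c t)) = PP (pt T θ) (c t) / PP o (c t) := by
      field_simp
    rw [e, Real.log_le_iff_le_exp (by positivity)]
    exact h1.le
  have h6 : dh o (pt T θ) ≤ dh 0 o + T := by
    have := dh_tri o 0 (pt T θ)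
    rw [dh_zero_pt hθ hT, dh_comm o 0] at this
    exact this
  linarith

theorem excess_ctr {θ₁ θ₂ : V3} (h₁ : ‖θ₁‖ = 1) (h₂ : ‖θ₂‖ = 1) (hne : θ₁ ≠ θ₂)
    {c₁ c₂ : ℝ≥0 → V3} (hc₁ : EndsAt c₁ θ₁) (hc₂ : EndsAt c₂ θ₂) :
    ∀ᶠ t in atTop, dh (c₁ t) (ctr θ₁ θ₂) + dh (ctr θ₁ θ₂) (c₂ t) - dh (c₁ t) (c₂ t) ≤ 3 := by
  have hD : 0 < ‖θ₁ - θ₂‖ := norm_pos_iff.mpr (sub_ne_zero.mpr hne)
  have hD2 := ctr_sq_norm_sub h₁ h₂
  have hs := ctr_sinh_mul hD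
  have hT : 0 ≤ max 0 (-Real.log ‖θ₁ - θ₂‖) := le_max_left _ _
  have hexp : Real.exp (- max 0 (-Real.log ‖θ₁ - θ₂‖)) = min 1 ‖θ₁ - θ₂‖ := by
    rcases le_total (-Real.log ‖θ₁ - θ₂‖) 0 with h | h
    · rw [max_eq_left h]
      have : 1 ≤ ‖θ₁ - θ₂‖ := by
        rw [← Real.log_nonneg_iff hD]; linarith
      rw [min_eq_left this]; simp
    · rw [max_eq_right h, neg_neg, Real.exp_log hD]
      have : ‖θ₁ - θ₂‖ ≤ 1 := by
        rw [← Real.log_nonpos_iff hD.le]; linarith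
      rw [min_eq_right this]
  rw [ctr]
  set T := max 0 (-Real.log ‖θ₁ - θ₂‖)
  set D := ‖θ₁ - θ₂‖ with hDdef
  set z := pt T θ₁ with hzdef
  have hin : inner ℝ θ₁ θ₂ = 1 - D ^ 2 / 2 := by linarith
  have hB1 : ctrB z θ₁ = min 1 D := by
    rw [ctrB, hzdef, ctr_hh_pt h₁ hT, pt, inner_smul_left, real_inner_self_eq_norm_sq, h₁, ← hexp]
    simp
  have hB2 : ctrB z θ₂ = min 1 D + Real.sinh T * D ^ 2 / 2 := by
    rw [ctrB, hzdef, ctr_hh_pt h₁ hT, pt, inner_smul_left, hin, ← hexp, ← Real.cosh_sub_sinh]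
    simp only [conj_trivial]
    ring
  have hsn : 0 ≤ Real.sinh T := Real.sinh_nonneg_iff.mpr hT
  have hBle : ctrB z θ₁ * ctrB z θ₂ / (D ^ 2 / 2) < 3 := by
    rw [div_lt_iff₀ (by positivity), hB1, hB2]
    have m0 : 0 ≤ min 1 D := le_min zero_le_one hD.le
    have m1 : min 1 D ≤ D := min_le_right _ _
    have m3 : min 1 D + Real.sinh T * D ^ 2 / 2 ≤ D + D / 4 := by
      nlinarith
    have m2 : min 1 D * (min 1 D + Real.sinh T * D ^ 2 / 2) ≤ D * (D + D / 4) := by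
      gcongr
    nlinarith
  have hBp1 := ctrB_pos z h₁
  have hBp2 := ctrB_pos z h₂
  have hr : Tendsto (fun t => PP z (c₁ t) * PP z (c₂ t) / PP (c₁ t) (c₂ t)) atTop
      (𝓝 (ctrB z θ₁ * ctrB z θ₂ / (D ^ 2 / 2))) := by
    have h1 := ((ctr_PP_div z hc₁).mul (ctr_PP_div z hc₂)).div (ctr_PP_div_div hc₁ hc₂)
      (by rw [hin]; simp; positivity)
    rw [hin] at h1
    have e : (1 - (1 - D ^ 2 / 2)) = D ^ 2 / 2 := by ring
    rw [e] at h1
    refine h1.congr' ?_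
    filter_upwards [hc₁.1.eventually_gt_atTop 0, hc₂.1.eventually_gt_atTop 0] with t ht ht'
    have := ctr_PP_pos (c₁ t) (c₂ t)
    simp only [Pi.div_apply]
    field_simp
  have hpos : 0 < 1 - inner ℝ θ₁ θ₂ := by rw [hin]; simp; positivity
  filter_upwards [hr.eventually_lt_const hBle, (ctr_PP_top_top hpos hc₁ hc₂).eventually_ge_atTop 2]
    with t h1 h2
  have h3 : dh z (c₁ t) ≤ Real.log (2 * PP z (c₁ t)) := ctr_arcosh_le (one_le_PP _ _)
  have h3' : dh z (c₂ t) ≤ Real.log (2 * PP z (c₂ t)) := ctr_arcosh_le (one_le_PP _ _)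
  have h4 : Real.log (2 * PP (c₁ t) (c₂ t)) - 1 / 9 ≤ dh (c₁ t) (c₂ t) := ctr_le_arcosh h2
  have p1 := ctr_PP_pos z (c₁ t)
  have p2 := ctr_PP_pos z (c₂ t)
  have p3 := ctr_PP_pos (c₁ t) (c₂ t)
  have h5 : Real.log (2 * PP z (c₁ t)) + Real.log (2 * PP z (c₂ t)) -
      Real.log (2 * PP (c₁ t) (c₂ t)) ≤ 2 := by
    rw [← Real.log_mul (by positivity) (by positivity),
      ← Real.log_div (by positivity) (by positivity), Real.log_le_iff_le_exp (by positivity)]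
    have e : 2 * PP z (c₁ t) * (2 * PP z (c₂ t)) / (2 * PP (c₁ t) (c₂ t)) =
        2 * (PP z (c₁ t) * PP z (c₂ t) / PP (c₁ t) (c₂ t)) := by
      field_simp
    rw [e]
    have he : (6 : ℝ) ≤ Real.exp 2 := by
      have e1 : (5 / 2 : ℝ) ≤ Real.exp 1 := by
        have := Real.exp_one_gt_d9
        linarith
      have e2 : Real.exp 2 = Real.exp 1 * Real.exp 1 := by
        rw [← Real.exp_add]; norm_num
      nlinarith
    linarith
  rw [dh_comm (c₁ t) z]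
  linarith

end Pool.Agent.Lib.MP_529713_gt
end
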