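import Pool.Agent.Lib.MP_529713_gt.LatBasic
import Pool.Agent.Lib.MP_529713_gt.Centers
import Pool.Agent.Lib.MP_529713_gt.Axis

section

/-!
# Christoffel symbols
-/

namespace Pool.Agent.Lib.MP_529713_gt

set_option maxSynthPendingDepth 3

open Filter Topology Set Matrix
open scoped ContDiff NNReal

lemma finrank_dual_V3 : Module.finrank ℝ V3 = Module.finrank ℝ (V3 →L[ℝ] ℝ) := by
  rw [← (LinearMap.toContinuousLinearMap (𝕜 := ℝ) (E := V3) (F' := ℝ)).finrank_eq]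
  exact (Subspace.dual_finrank_eq (K := ℝ) (V := V3)).symm

/-- The metric as an isomorphism onto the dual space. -/
noncomputable def gEquiv (G : RMetric) (x : V3) : V3 ≃L[ℝ] (V3 →L[ℝ] ℝ) :=
  (LinearMap.linearEquivOfInjective (G.g x : V3 →ₗ[ℝ] (V3 →L[ℝ] ℝ)) (by
    intro u v huv
    have h1 : G.g x u = G.g x v := huv
    by_contra hne
    have h2 := G.pos x (u - v) (sub_ne_zero.2 hne)
    have h3 : G.g x (u - v) = 0 := by rw [map_sub, h1, sub_self]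
    rw [h3] at h2
    simp at h2) finrank_dual_V3).toContinuousLinearEquiv

lemma gEquiv_coe (G : RMetric) (x : V3) : (gEquiv G x : V3 →L[ℝ] (V3 →L[ℝ] ℝ)) = G.g x := by
  ext u v
  rfl

/-- The right hand side of the Koszul formula. -/
noncomputable def kos (G : RMetric) (x u v : V3) : V3 →L[ℝ] ℝ :=
  (1 / 2 : ℝ) • (fderiv ℝ G.g x u v + fderiv ℝ G.g x v u - ((fderiv ℝ G.g x).flip u).flip v)

lemma kos_apply (G : RMetric) (x u v w : V3) : kos G x u v w =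
    (1 / 2 : ℝ) * (fderiv ℝ G.g x u v w + fderiv ℝ G.g x v u w - fderiv ℝ G.g x w u v) := by
  simp [kos]

lemma g_chr (G : RMetric) (x u v : V3) : G.g x (chr G x u v) = kos G x u v := by
  unfold chr
  rw [← gEquiv_coe, ContinuousLinearMap.inverse_equiv]
  have := (gEquiv G x).apply_symm_apply (kos G x u v)
  exact this

/-- The Christoffel symbols are characterised by the Koszul identity. -/
theorem chr_eq_of_koszul (G : RMetric) {x u v c : V3}
    (h : ∀ w, 2 * G.g x c w = fderiv ℝ G.g x u v w + fderiv ℝ G.g x v u w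
      - fderiv ℝ G.g x w u v) : chr G x u v = c := by
  have h1 : G.g x c = kos G x u v := by
    ext w
    rw [kos_apply]
    have := h w
    linarith
  have h2 : gEquiv G x (chr G x u v) = gEquiv G x c := by
    change G.g x (chr G x u v) = G.g x c
    rw [g_chr, h1]
  exact (gEquiv G x).injective h2

theorem koszul (G : RMetric) (x u v w : V3) :
    2 * G.g x (chr G x u v) w = fderiv ℝ G.g x u v w + fderiv ℝ G.g x v u w
      - fderiv ℝ G.g x w u v := by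
  rw [g_chr, kos_apply]
  ring

lemma inverse_smooth (G : RMetric) : ContDiff ℝ ∞ fun x => ContinuousLinearMap.inverse (G.g x) := by
  rw [contDiff_iff_contDiffAt]
  intro x
  have h1 := contDiffAt_map_inverse (𝕜 := ℝ) (n := ∞) (gEquiv G x)
  rw [gEquiv_coe] at h1
  exact h1.comp x G.smooth.contDiffAt

lemma fderiv_g_smooth (G : RMetric) : ContDiff ℝ ∞ (fderiv ℝ G.g) :=
  G.smooth.fderiv_right (m := ∞) (by simp)

/-- The Koszul form as a smooth function of all variables. -/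
lemma kos_smooth (G : RMetric) {p u v : V3 → V3} {x : V3} {n : ℕ∞}
    (hp : ContDiffAt ℝ n p x) (hu : ContDiffAt ℝ n u x) (hv : ContDiffAt ℝ n v x) :
    ContDiffAt ℝ n (fun y => kos G (p y) (u y) (v y)) x := by
  have h0 : ContDiffAt ℝ n (fun y => fderiv ℝ G.g (p y)) x :=
    ((fderiv_g_smooth G).contDiffAt.of_le (by exact_mod_cast le_top)).comp x hp
  have h1 : ContDiffAt ℝ n (fun y => fderiv ℝ G.g (p y) (u y) (v y)) x :=
    (h0.clm_apply hu).clm_apply hv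
  have h2 : ContDiffAt ℝ n (fun y => fderiv ℝ G.g (p y) (v y) (u y)) x :=
    (h0.clm_apply hv).clm_apply hu
  have h3 : ContDiffAt ℝ n (fun y => ((fderiv ℝ G.g (p y)).flip (u y)).flip (v y)) x := by
    have h4 : ContDiffAt ℝ n (fun y => (fderiv ℝ G.g (p y)).flip) x :=
      (ContinuousLinearMap.flipₗᵢ ℝ V3 V3 (V3 →L[ℝ] ℝ)).contDiff.contDiffAt.comp x h0
    have h5 : ContDiffAt ℝ n (fun y => ((fderiv ℝ G.g (p y)).flip (u y))) x := h4.clm_apply hu
    have h6 : ContDiffAt ℝ n (fun y => ((fderiv ℝ G.g (p y)).flip (u y)).flip) x :=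
      (ContinuousLinearMap.flipₗᵢ ℝ V3 V3 ℝ).contDiff.contDiffAt.comp x h5
    exact h6.clm_apply hv
  exact ((h1.add h2).sub h3).const_smul _

/-- The Christoffel symbols are smooth functions of all variables. -/
lemma chr_smooth' (G : RMetric) {p u v : V3 → V3} {x : V3} {n : ℕ∞}
    (hp : ContDiffAt ℝ n p x) (hu : ContDiffAt ℝ n u x) (hv : ContDiffAt ℝ n v x) :
    ContDiffAt ℝ n (fun y => chr G (p y) (u y) (v y)) x := by
  have h1 : ContDiffAt ℝ n (fun y => ContinuousLinearMap.inverse (G.g (p y))) x :=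
    ((inverse_smooth G).contDiffAt.of_le (by exact_mod_cast le_top)).comp x hp
  exact h1.clm_apply (kos_smooth G hp hu hv)

theorem chr_smooth (G : RMetric) (u v : V3) : ContDiff ℝ ∞ fun x => chr G x u v := by
  rw [contDiff_iff_contDiffAt]
  intro x
  exact chr_smooth' G (n := ⊤) contDiffAt_id contDiffAt_const contDiffAt_const

lemma chr_congr {G G' : RMetric} {x : V3} (h : G.g =ᶠ[𝓝 x] G'.g) (u v : V3) :
    (fun y => chr G y u v) =ᶠ[𝓝 x] fun y => chr G' y u v := by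
  filter_upwards [h, h.fderiv (𝕜 := ℝ)] with y h1 h2
  unfold chr
  rw [h1, h2]

theorem sec_congr {G G' : RMetric} {x : V3} (h : G.g =ᶠ[𝓝 x] G'.g) (u v : V3) :
    sec G x u v = sec G' x u v := by
  have h0 : G.g x = G'.g x := h.eq_of_nhds
  have h1 : ∀ a b, chr G x a b = chr G' x a b := fun a b => (chr_congr h a b).eq_of_nhds
  have h2 : ∀ a b, fderiv ℝ (fun y => chr G y a b) x = fderiv ℝ (fun y => chr G' y a b) x :=
    fun a b => (chr_congr h a b).fderiv_eq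
  unfold sec riem
  rw [h0, h2, h2, h1, h1, h1, h1]

end Pool.Agent.Lib.MP_529713_gt
end

section

/-!
# End points of rays
-/

namespace Pool.Agent.Lib.MP_529713_gt

open Filter Topology Set Matrix
open scoped ContDiff NNReal

/-- the direction of a point -/
noncomputable def edir (p : V3) : V3 := ‖p‖⁻¹ • p

lemma norm_edir_le (p : V3) : ‖edir p‖ ≤ 1 := by
  unfold edir
  rw [norm_smul, norm_inv, norm_norm]
  by_cases hp : ‖p‖ = 0
  · simp [hp]
  · rw [inv_mul_cancel₀ hp]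

lemma norm_edir {p : V3} (hp : p ≠ 0) : ‖edir p‖ = 1 := by
  unfold edir
  rw [norm_smul, norm_inv, norm_norm, inv_mul_cancel₀ (norm_ne_zero_iff.2 hp)]

lemma norm_le_hh (p : V3) : ‖p‖ ≤ hh p := by
  have h1 := hh_sq p
  have h2 := one_le_hh p
  have h3 := norm_nonneg p
  nlinarith

lemma edir_sub_sq {p q : V3} (hp : p ≠ 0) (hq : q ≠ 0) :
    ‖edir p - edir q‖ ^ 2 ≤ 2 * Real.cosh (dh p q) / (‖p‖ * ‖q‖) := by
  have hp' : 0 < ‖p‖ := norm_pos_iff.2 hp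
  have hq' : 0 < ‖q‖ := norm_pos_iff.2 hq
  have h1 : ‖edir p - edir q‖ ^ 2 = 2 - 2 * (inner ℝ p q / (‖p‖ * ‖q‖)) := by
    rw [norm_sub_sq_real, norm_edir hp, norm_edir hq]
    unfold edir
    rw [real_inner_smul_left, real_inner_smul_right]
    field_simp
    ring
  rw [h1, cosh_dh]
  have h2 : ‖p‖ * ‖q‖ ≤ hh p * hh q :=
    mul_le_mul (norm_le_hh p) (norm_le_hh q) hq'.le (hp'.le.trans (norm_le_hh p))
  have h3 : 2 - 2 * (inner ℝ p q / (‖p‖ * ‖q‖))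
      = 2 * (‖p‖ * ‖q‖ - inner ℝ p q) / (‖p‖ * ‖q‖) := by
    field_simp
  rw [h3]
  apply div_le_div_of_nonneg_right _ (by positivity)
  unfold PP
  linarith

lemma norm_eq_sinh_dh (x : V3) : ‖x‖ = Real.sinh (dh 0 x) := by
  rw [dh_zero, Real.sinh_arsinh]

lemma le_sinh_aux {x : ℝ} (hx : 1 ≤ x) : Real.exp x / 4 ≤ Real.sinh x := by
  rw [Real.sinh_eq]
  have h1 : Real.exp (-x) ≤ Real.exp (-1) := Real.exp_le_exp.2 (by linarith)
  have h2 : Real.exp 1 ≤ Real.exp x := Real.exp_le_exp.2 hx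
  have h3 : (2 : ℝ) ≤ Real.exp 1 := by
    have := Real.add_one_le_exp (1 : ℝ); linarith
  have h4 : Real.exp (-1) ≤ 1 / 2 := by
    rw [Real.exp_neg, ← one_div]
    exact one_div_le_one_div_of_le (by norm_num) h3
  linarith

lemma ends_sinh_tendsto : Tendsto Real.sinh atTop atTop := by
  have h1 : Tendsto (fun x : ℝ => Real.exp x / 4) atTop atTop :=
    Real.tendsto_exp_atTop.atTop_div_const (by norm_num)
  refine tendsto_atTop_mono' _ ?_ h1
  filter_upwards [eventually_ge_atTop (1 : ℝ)] with x hx using le_sinh_aux hx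

section ray

variable {a : ℝ} {d : V3 → V3 → ℝ} (h : GeoD a d) (o : V3) (ξ : Ray d o)

include h

lemma ray_dh_le (s t : ℝ≥0) : dh (ξ.1 s) (ξ.1 t) ≤ a * |(s : ℝ) - t| := by
  have := h.lower (ξ.1 s) (ξ.1 t)
  rwa [ξ.2.2 s t] at this

lemma ray_le_dh (t : ℝ≥0) : (t : ℝ) - dh 0 o ≤ dh 0 (ξ.1 t) := by
  have h1 := h.upper (ξ.1 0) (ξ.1 t)
  rw [ξ.2.2 0 t, ξ.2.1] at h1
  have h2 := dh_tri o 0 (ξ.1 t)
  rw [dh_comm o 0] at h2
  have h3 : |((0 : ℝ≥0) : ℝ) - t| = t := by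
    simp
  rw [h3] at h1
  linarith

lemma ray_dh_le' (t : ℝ≥0) : dh 0 (ξ.1 t) ≤ dh 0 o + a * t := by
  have h1 := ray_dh_le h o ξ 0 t
  rw [ξ.2.1] at h1
  have h2 := dh_tri 0 o (ξ.1 t)
  have h3 : |((0 : ℝ≥0) : ℝ) - t| = t := by
    simp
  rw [h3] at h1
  linarith

lemma ray_sinh_le (t : ℝ≥0) : Real.sinh ((t : ℝ) - dh 0 o) ≤ ‖ξ.1 t‖ := by
  rw [norm_eq_sinh_dh]
  exact Real.sinh_le_sinh.2 (ray_le_dh h o ξ t)

lemma ray_near : ∃ C : ℝ, 0 ≤ C ∧ ∀ s t : ℝ≥0, |(s : ℝ) - t| ≤ 1 →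
    ‖edir (ξ.1 s) - edir (ξ.1 t)‖ ≤ C * Real.exp (-s) := by
  set R := dh 0 o with hR
  have hR0 : 0 ≤ R := dh_nonneg _ _
  refine ⟨8 * Real.cosh a * Real.exp (R + 2), by positivity, fun s t hst => ?_⟩
  have hcosh : 1 ≤ Real.cosh a := Real.one_le_cosh a
  rw [abs_le] at hst
  by_cases hs : R + 2 ≤ (s : ℝ)
  · have ht : R + 1 ≤ (t : ℝ) := by linarith [hst.2]
    have h1 : Real.exp ((s : ℝ) - R) / 4 ≤ ‖ξ.1 s‖ :=
      (le_sinh_aux (by linarith)).trans (ray_sinh_le h o ξ s)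
    have h2 : Real.exp ((t : ℝ) - R) / 4 ≤ ‖ξ.1 t‖ :=
      (le_sinh_aux (by linarith)).trans (ray_sinh_le h o ξ t)
    have h3 : Real.exp ((s : ℝ) - R - 1) / 4 ≤ ‖ξ.1 t‖ :=
      le_trans (div_le_div_of_nonneg_right (Real.exp_le_exp.2 (by linarith [hst.2]))
        (by norm_num)) h2
    have hsn : ξ.1 s ≠ 0 := norm_pos_iff.1 (lt_of_lt_of_le (by positivity) h1)
    have htn : ξ.1 t ≠ 0 := norm_pos_iff.1 (lt_of_lt_of_le (by positivity) h2)
    have h4 := edir_sub_sq hsn htn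
    have h5 : Real.cosh (dh (ξ.1 s) (ξ.1 t)) ≤ Real.cosh a := by
      rw [Real.cosh_le_cosh, abs_of_nonneg (dh_nonneg _ _),
        abs_of_nonneg (by linarith [h.one_le] : 0 ≤ a)]
      refine (ray_dh_le h o ξ s t).trans ?_
      have : |(s : ℝ) - t| ≤ 1 := abs_le.2 hst
      nlinarith [h.one_le, abs_nonneg ((s : ℝ) - t)]
    have h6 : Real.exp ((s : ℝ) - R) / 4 * (Real.exp ((s : ℝ) - R - 1) / 4)
        ≤ ‖ξ.1 s‖ * ‖ξ.1 t‖ :=
      mul_le_mul h1 h3 (by positivity) (norm_nonneg _)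
    have h7 : ‖edir (ξ.1 s) - edir (ξ.1 t)‖ ^ 2
        ≤ 2 * Real.cosh a / (Real.exp ((s : ℝ) - R) / 4 * (Real.exp ((s : ℝ) - R - 1) / 4)) := by
      refine h4.trans ?_
      apply div_le_div₀ (by positivity) (by linarith) (by positivity) h6
    have h8 : 2 * Real.cosh a / (Real.exp ((s : ℝ) - R) / 4 * (Real.exp ((s : ℝ) - R - 1) / 4))
        ≤ (8 * Real.cosh a * Real.exp (R + 2) * Real.exp (-s)) ^ 2 := by
      rw [div_le_iff₀ (by positivity)]
      have e1 : (8 * Real.cosh a * Real.exp (R + 2) * Real.exp (-s)) ^ 2 *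
          (Real.exp ((s : ℝ) - R) / 4 * (Real.exp ((s : ℝ) - R - 1) / 4))
          = 4 * Real.cosh a ^ 2 * Real.exp 3 := by
        have e2 : Real.exp 3 = Real.exp (R + 2) * Real.exp (R + 2) * Real.exp (-s) *
            Real.exp (-s) * Real.exp ((s : ℝ) - R) * Real.exp ((s : ℝ) - R - 1) := by
          rw [← Real.exp_add, ← Real.exp_add, ← Real.exp_add, ← Real.exp_add, ← Real.exp_add]
          congr 1
          ring
        rw [e2]
        ring
      rw [e1]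
      have e3 : (1 : ℝ) ≤ Real.exp 3 := Real.one_le_exp (by norm_num)
      nlinarith [mul_pos (lt_of_lt_of_le one_pos hcosh) (lt_of_lt_of_le one_pos hcosh)]
    exact (sq_le_sq₀ (norm_nonneg _) (by positivity)).1 (h7.trans h8)
  · push Not at hs
    have h1 : ‖edir (ξ.1 s) - edir (ξ.1 t)‖ ≤ 2 := by
      refine (norm_sub_le _ _).trans ?_
      linarith [norm_edir_le (ξ.1 s), norm_edir_le (ξ.1 t)]
    refine h1.trans ?_
    have h2 : (1 : ℝ) ≤ Real.exp (R + 2) * Real.exp (-s) := by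
      rw [← Real.exp_add]
      exact Real.one_le_exp (by linarith)
    nlinarith

lemma ray_norm_tendsto : Tendsto (fun t => ‖ξ.1 t‖) atTop atTop := by
  have h1 : Tendsto (fun t : ℝ≥0 => Real.sinh ((t : ℝ) - dh 0 o)) atTop atTop := by
    have h2 : Tendsto (fun t : ℝ≥0 => (t : ℝ) - dh 0 o) atTop atTop :=
      tendsto_atTop_add_const_right _ (-dh 0 o) (NNReal.tendsto_coe_atTop.2 tendsto_id)
    exact ends_sinh_tendsto.comp h2
  exact tendsto_atTop_mono (fun t => ray_sinh_le h o ξ t) h1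

lemma ray_cauchy : CauchySeq fun n : ℕ => edir (ξ.1 (n : ℝ≥0)) := by
  obtain ⟨C, hC0, hC⟩ := ray_near h o ξ
  refine cauchySeq_of_le_geometric (Real.exp (-1)) C ?_ fun n => ?_
  · rw [Real.exp_lt_one_iff]; norm_num
  · rw [dist_eq_norm]
    refine (hC _ _ ?_).trans (le_of_eq ?_)
    · push_cast
      rw [abs_sub_comm]
      simp
    · rw [← Real.exp_nat_mul]
      congr 2
      push_cast
      ring

end ray

theorem ray_ends {a : ℝ} {d : V3 → V3 → ℝ} (h : GeoD a d) (o : V3) (ξ : Ray d o) :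
    ∃ θ : V3, ‖θ‖ = 1 ∧ EndsAt ξ.1 θ := by
  obtain ⟨θ, hθ⟩ := cauchySeq_tendsto_of_complete (ray_cauchy h o ξ)
  obtain ⟨C, hC0, hC⟩ := ray_near h o ξ
  have hnorm := ray_norm_tendsto h o ξ
  have hfl : Tendsto (fun t : ℝ≥0 => ⌊t⌋₊) atTop atTop := tendsto_nat_floor_atTop
  have h1 : Tendsto (fun t : ℝ≥0 => edir (ξ.1 ((⌊t⌋₊ : ℕ) : ℝ≥0))) atTop (𝓝 θ) := hθ.comp hfl
  have h2 : Tendsto (fun t : ℝ≥0 => edir (ξ.1 t) - edir (ξ.1 ((⌊t⌋₊ : ℕ) : ℝ≥0))) atTop (𝓝 0) := by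
    have h3 : Tendsto (fun t : ℝ≥0 => C * Real.exp (-(t : ℝ))) atTop (𝓝 0) := by
      have h4 : Tendsto (fun t : ℝ≥0 => Real.exp (-(t : ℝ))) atTop (𝓝 0) :=
        Real.tendsto_exp_neg_atTop_nhds_zero.comp (NNReal.tendsto_coe_atTop.2 tendsto_id)
      simpa using h4.const_mul C
    refine squeeze_zero_norm (fun t => hC _ _ ?_) h3
    have h5 : ((⌊t⌋₊ : ℕ) : ℝ≥0) ≤ t := Nat.floor_le zero_le
    have h6 : t < ((⌊t⌋₊ : ℕ) : ℝ≥0) + 1 := Nat.lt_floor_add_one t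
    have h5' : (((⌊t⌋₊ : ℕ) : ℝ≥0) : ℝ) ≤ t := by exact_mod_cast h5
    have h6' : (t : ℝ) < (((⌊t⌋₊ : ℕ) : ℝ≥0) : ℝ) + 1 := by exact_mod_cast h6
    rw [abs_le]
    constructor <;> linarith
  have h3 : Tendsto (fun t : ℝ≥0 => edir (ξ.1 t)) atTop (𝓝 θ) := by
    have := h2.add h1
    simpa using this
  refine ⟨θ, ?_, hnorm, h3⟩
  have h4 : Tendsto (fun t : ℝ≥0 => ‖edir (ξ.1 t)‖) atTop (𝓝 ‖θ‖) := h3.norm
  have h5 : Tendsto (fun t : ℝ≥0 => ‖edir (ξ.1 t)‖) atTop (𝓝 1) := by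
    refine tendsto_const_nhds.congr' ?_
    filter_upwards [hnorm.eventually_gt_atTop 0] with t ht
    exact (norm_edir (norm_pos_iff.1 ht)).symm
  exact tendsto_nhds_unique h4 h5

/-- a sequence which stays at bounded distance from the ray in direction `θ` -/
theorem ends_of_near {a : ℝ} {d : V3 → V3 → ℝ} (h : GeoD a d) (o : V3) (ξ : Ray d o) {θ : V3}
    (hθ : ‖θ‖ = 1) {C : ℝ} (hC : ∀ T : ℝ, 0 ≤ T → ∃ t : ℝ≥0, dh (pt T θ) (ξ.1 t) ≤ C) :
    EndsAt ξ.1 θ := by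
  obtain ⟨θ', hθ', hend⟩ := ray_ends h o ξ
  have ha : 0 < a := lt_of_lt_of_le one_pos h.one_le
  choose t ht using fun n : ℕ => hC (n : ℝ) (Nat.cast_nonneg n)
  have hnp : ∀ n : ℕ, ‖pt (n : ℝ) θ‖ = Real.sinh n := by
    intro n
    unfold pt
    rw [norm_smul, hθ, mul_one, Real.norm_eq_abs, abs_of_nonneg]
    exact Real.sinh_nonneg_iff.2 (Nat.cast_nonneg n)
  have hdn : ∀ n : ℕ, dh 0 (pt (n : ℝ) θ) = n := by
    intro n
    rw [dh_zero, hnp, Real.arsinh_sinh]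
  have hlow : ∀ n : ℕ, (n : ℝ) - C ≤ dh 0 (ξ.1 (t n)) := by
    intro n
    have h1 := dh_tri 0 (ξ.1 (t n)) (pt (n : ℝ) θ)
    rw [hdn, dh_comm (ξ.1 (t n))] at h1
    linarith [ht n]
  have hcast : Tendsto (fun n : ℕ => (n : ℝ) - C) atTop atTop :=
    tendsto_atTop_add_const_right _ (-C) tendsto_natCast_atTop_atTop
  have hnorm : Tendsto (fun n : ℕ => ‖ξ.1 (t n)‖) atTop atTop := by
    refine tendsto_atTop_mono (fun n => ?_) (ends_sinh_tendsto.comp hcast)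
    rw [norm_eq_sinh_dh]
    exact Real.sinh_le_sinh.2 (hlow n)
  have htt : Tendsto t atTop atTop := by
    have h1 : Tendsto (fun n => ((t n : ℝ≥0) : ℝ)) atTop atTop := by
      have h2 : Tendsto (fun n : ℕ => ((n : ℝ) - C - dh 0 o) / a) atTop atTop :=
        (tendsto_atTop_add_const_right _ (-dh 0 o) hcast).atTop_div_const ha
      refine tendsto_atTop_mono (fun n => ?_) h2
      rw [div_le_iff₀ ha]
      linarith [hlow n, ray_dh_le' h o ξ (t n)]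
    exact NNReal.tendsto_coe_atTop.1 h1
  have h1 : Tendsto (fun n => edir (ξ.1 (t n))) atTop (𝓝 θ') := hend.2.comp htt
  have hsinh : Tendsto (fun n : ℕ => Real.sinh n) atTop atTop :=
    ends_sinh_tendsto.comp tendsto_natCast_atTop_atTop
  have h2 : Tendsto (fun n : ℕ => 2 * Real.cosh C / (Real.sinh n * ‖ξ.1 (t n)‖)) atTop (𝓝 0) :=
    tendsto_const_nhds.div_atTop (hsinh.atTop_mul_atTop₀ hnorm)
  have h3 : Tendsto (fun n : ℕ => ‖θ - edir (ξ.1 (t n))‖ ^ 2) atTop (𝓝 0) := by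
    refine squeeze_zero' (Eventually.of_forall fun n => by positivity) ?_ h2
    filter_upwards [hnorm.eventually_gt_atTop 0, hsinh.eventually_gt_atTop 0] with n hn1 hn2
    have hp : pt (n : ℝ) θ ≠ 0 := norm_pos_iff.1 (by rw [hnp]; exact hn2)
    have hq : ξ.1 (t n) ≠ 0 := norm_pos_iff.1 hn1
    have h4 := edir_sub_sq hp hq
    have h5 : edir (pt (n : ℝ) θ) = θ := by
      unfold edir
      rw [hnp]
      unfold pt
      rw [smul_smul, inv_mul_cancel₀ hn2.ne', one_smul]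
    rw [h5, hnp] at h4
    refine h4.trans ?_
    apply div_le_div_of_nonneg_right _ (by positivity)
    have h6 : Real.cosh (dh (pt (n : ℝ) θ) (ξ.1 (t n))) ≤ Real.cosh C := by
      rw [Real.cosh_le_cosh, abs_of_nonneg (dh_nonneg _ _)]
      exact (ht n).trans (le_abs_self C)
    linarith
  have h4 : Tendsto (fun n : ℕ => ‖θ - edir (ξ.1 (t n))‖ ^ 2) atTop (𝓝 (‖θ - θ'‖ ^ 2)) :=
    ((tendsto_const_nhds.sub h1).norm).pow 2
  have h5 := tendsto_nhds_unique h4 h3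
  have h6 : θ = θ' := by
    have : ‖θ - θ'‖ = 0 := by simpa using h5
    exact sub_eq_zero.1 (norm_eq_zero.1 this)
  rw [h6]
  exact hend

end Pool.Agent.Lib.MP_529713_gt
end

section

/-!
# Invariance of the sectional curvature
-/

namespace Pool.Agent.Lib.MP_529713_gt

set_option maxSynthPendingDepth 3

open Filter Topology Set Matrix
open scoped ContDiff NNReal

/-- The Koszul form as a continuous bilinear map. -/
noncomputable def kosL (G : RMetric) (p : V3) : V3 →L[ℝ] V3 →L[ℝ] (V3 →L[ℝ] ℝ) :=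
  (1 / 2 : ℝ) • (fderiv ℝ G.g p + (fderiv ℝ G.g p).flip -
    ((ContinuousLinearMap.flipₗᵢ ℝ V3 V3 ℝ).toContinuousLinearEquiv :
      (V3 →L[ℝ] V3 →L[ℝ] ℝ) →L[ℝ] (V3 →L[ℝ] V3 →L[ℝ] ℝ)) ∘L (fderiv ℝ G.g p).flip)

lemma kosL_apply (G : RMetric) (p a b : V3) : kosL G p a b = kos G p a b := rfl

/-- The Christoffel symbols as a continuous bilinear map. -/
noncomputable def chrL (G : RMetric) (p : V3) : V3 →L[ℝ] V3 →L[ℝ] V3 :=
  (ContinuousLinearMap.compL ℝ V3 (V3 →L[ℝ] ℝ) V3 (ContinuousLinearMap.inverse (G.g p))) ∘L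
    kosL G p

lemma chrL_apply (G : RMetric) (p a b : V3) : chrL G p a b = chr G p a b := rfl

lemma kosL_smooth (G : RMetric) : ContDiff ℝ ∞ (kosL G) := by
  have h0 := fderiv_g_smooth G
  have h1 : ContDiff ℝ ∞ fun p => (fderiv ℝ G.g p).flip :=
    (ContinuousLinearMap.flipₗᵢ ℝ V3 V3 (V3 →L[ℝ] ℝ)).contDiff.comp h0
  exact ((h0.add h1).sub (contDiff_const.clm_comp h1)).const_smul _

lemma chrL_smooth (G : RMetric) : ContDiff ℝ ∞ (chrL G) := by
  have h0 : ContDiff ℝ ∞ fun p => ContinuousLinearMap.compL ℝ V3 (V3 →L[ℝ] ℝ) V3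
      (ContinuousLinearMap.inverse (G.g p)) :=
    (ContinuousLinearMap.compL ℝ V3 (V3 →L[ℝ] ℝ) V3).contDiff.comp (inverse_smooth G)
  exact h0.clm_comp (kosL_smooth G)

lemma min_smooth : minSmoothness ℝ 2 ≤ ∞ := by
  simp only [minSmoothness_of_isRCLikeNormedField]
  have h : ((2 : ℕ∞) : WithTop ℕ∞) ≤ ((⊤ : ℕ∞) : WithTop ℕ∞) := WithTop.coe_le_coe.2 le_top
  exact h

section pull

variable {G G' : RMetric} {Φ : V3 → V3}

/-- the derivative of the metric -/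
lemma deriv_metric (hΦ : ContDiff ℝ ∞ Φ) {y : V3}
    (h : ∀ᶠ z in 𝓝 y, ∀ u v, G.g z u v = G'.g (Φ z) (fderiv ℝ Φ z u) (fderiv ℝ Φ z v))
    (u v w : V3) : fderiv ℝ G.g y u v w =
      fderiv ℝ G'.g (Φ y) (fderiv ℝ Φ y u) (fderiv ℝ Φ y v) (fderiv ℝ Φ y w) +
      G'.g (Φ y) (fderiv ℝ (fderiv ℝ Φ) y u v) (fderiv ℝ Φ y w) +
      G'.g (Φ y) (fderiv ℝ Φ y v) (fderiv ℝ (fderiv ℝ Φ) y u w) := by
  have hG : HasFDerivAt G.g (fderiv ℝ G.g y) y :=
    (G.smooth.contDiffAt.differentiableAt (by simp)).hasFDerivAt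
  have hG' : HasFDerivAt G'.g (fderiv ℝ G'.g (Φ y)) (Φ y) :=
    (G'.smooth.contDiffAt.differentiableAt (by simp)).hasFDerivAt
  have hP : HasFDerivAt Φ (fderiv ℝ Φ y) y :=
    (hΦ.contDiffAt.differentiableAt (by simp)).hasFDerivAt
  have hD : HasFDerivAt (fderiv ℝ Φ) (fderiv ℝ (fderiv ℝ Φ) y) y :=
    ((hΦ.fderiv_right (m := ∞) (by simp)).contDiffAt.differentiableAt (by simp)).hasFDerivAt
  have hDa : ∀ a : V3, HasFDerivAt (fun z => fderiv ℝ Φ z a)
      ((fderiv ℝ (fderiv ℝ Φ) y).flip a) y := fun a => by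
    have := hD.clm_apply (hasFDerivAt_const a y)
    refine this.congr_fderiv ?_
    ext e
    simp
  have e1 : HasFDerivAt (fun z => G.g z v w) (((fderiv ℝ G.g y).flip v).flip w) y := by
    have := (hG.clm_apply (hasFDerivAt_const v y)).clm_apply (hasFDerivAt_const w y)
    refine this.congr_fderiv ?_
    ext e
    simp
  have e2 := ((hG'.comp y hP).clm_apply (hDa v)).clm_apply (hDa w)
  have e3 : (fun z => G.g z v w) =ᶠ[𝓝 y]
      fun z => ((G'.g ∘ Φ) z (fderiv ℝ Φ z v)) (fderiv ℝ Φ z w) := by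
    filter_upwards [h] with z hz
    exact hz v w
  have e4 := (e2.congr_of_eventuallyEq e3).unique e1
  have e5 := congrArg (fun L : V3 →L[ℝ] ℝ => L u) e4
  simp at e5
  rw [← e5]
  ring

lemma chr_pull (hΦ : ContDiff ℝ ∞ Φ) {y : V3} (hb : Function.Bijective (fderiv ℝ Φ y))
    (h : ∀ᶠ z in 𝓝 y, ∀ u v, G.g z u v = G'.g (Φ z) (fderiv ℝ Φ z u) (fderiv ℝ Φ z v))
    (u v : V3) : fderiv ℝ Φ y (chr G y u v) =
      fderiv ℝ (fderiv ℝ Φ) y u v + chr G' (Φ y) (fderiv ℝ Φ y u) (fderiv ℝ Φ y v) := by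
  obtain ⟨c, hc⟩ := hb.2 (fderiv ℝ (fderiv ℝ Φ) y u v +
    chr G' (Φ y) (fderiv ℝ Φ y u) (fderiv ℝ Φ y v))
  have hsymm : ∀ a b, fderiv ℝ (fderiv ℝ Φ) y a b = fderiv ℝ (fderiv ℝ Φ) y b a := fun a b =>
    (hΦ.contDiffAt.isSymmSndFDerivAt min_smooth).eq a b
  have key : chr G y u v = c := by
    refine chr_eq_of_koszul G fun w => ?_
    rw [h.self_of_nhds c w, hc, deriv_metric hΦ h, deriv_metric hΦ h, deriv_metric hΦ h,
      map_add, _root_.add_apply]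
    have k := koszul G' (Φ y) (fderiv ℝ Φ y u) (fderiv ℝ Φ y v) (fderiv ℝ Φ y w)
    rw [hsymm v u, hsymm w u, hsymm w v,
      G'.symm (Φ y) (fderiv ℝ Φ y u) (fderiv ℝ (fderiv ℝ Φ) y v w),
      G'.symm (Φ y) (fderiv ℝ Φ y v) (fderiv ℝ (fderiv ℝ Φ) y u w)]
    linarith
  rw [key, hc]

lemma fderiv_chr (G : RMetric) (p a b e : V3) :
    fderiv ℝ (fun z => chr G z a b) p e = fderiv ℝ (chrL G) p e a b := by
  have h0 : HasFDerivAt (chrL G) (fderiv ℝ (chrL G) p) p :=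
    ((chrL_smooth G).contDiffAt.differentiableAt (by simp)).hasFDerivAt
  have h1 := (h0.clm_apply (hasFDerivAt_const a p)).clm_apply (hasFDerivAt_const b p)
  have h2 : (fun z => chr G z a b) = fun z => chrL G z a b := rfl
  rw [h2, h1.fderiv]
  simp

lemma riem_pull (hΦ : ContDiff ℝ ∞ Φ) {x : V3}
    (hb : ∀ᶠ y in 𝓝 x, Function.Bijective (fderiv ℝ Φ y))
    (h : ∀ᶠ y in 𝓝 x, ∀ u v, G.g y u v = G'.g (Φ y) (fderiv ℝ Φ y u) (fderiv ℝ Φ y v))
    (u v w : V3) : fderiv ℝ Φ x (riem G x u v w) =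
      riem G' (Φ x) (fderiv ℝ Φ x u) (fderiv ℝ Φ x v) (fderiv ℝ Φ x w) := by
  have hP : HasFDerivAt Φ (fderiv ℝ Φ x) x :=
    (hΦ.contDiffAt.differentiableAt (by simp)).hasFDerivAt
  have hΦ1 : ContDiff ℝ ∞ (fderiv ℝ Φ) := hΦ.fderiv_right (m := ∞) (by simp)
  have hΦ2 : ContDiff ℝ ∞ (fderiv ℝ (fderiv ℝ Φ)) := hΦ1.fderiv_right (m := ∞) (by simp)
  have hD : HasFDerivAt (fderiv ℝ Φ) (fderiv ℝ (fderiv ℝ Φ) x) x :=
    (hΦ1.contDiffAt.differentiableAt (by simp)).hasFDerivAt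
  have hD2 : HasFDerivAt (fderiv ℝ (fderiv ℝ Φ)) (fderiv ℝ (fderiv ℝ (fderiv ℝ Φ)) x) x :=
    (hΦ2.contDiffAt.differentiableAt (by simp)).hasFDerivAt
  have hC : HasFDerivAt (chrL G) (fderiv ℝ (chrL G) x) x :=
    ((chrL_smooth G).contDiffAt.differentiableAt (by simp)).hasFDerivAt
  have hC' : HasFDerivAt (chrL G') (fderiv ℝ (chrL G') (Φ x)) (Φ x) :=
    ((chrL_smooth G').contDiffAt.differentiableAt (by simp)).hasFDerivAt
  have hsymm : ∀ a b, fderiv ℝ (fderiv ℝ Φ) x a b = fderiv ℝ (fderiv ℝ Φ) x b a := fun a b =>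
    (hΦ.contDiffAt.isSymmSndFDerivAt min_smooth).eq a b
  have hDa : ∀ a : V3, HasFDerivAt (fun z => fderiv ℝ Φ z a)
      ((fderiv ℝ (fderiv ℝ Φ) x).flip a) x := fun a => by
    have := hD.clm_apply (hasFDerivAt_const a x)
    refine this.congr_fderiv ?_
    ext e
    simp
  -- symmetry of the third derivative
  have hsymm3 : ∀ a b c, fderiv ℝ (fderiv ℝ (fderiv ℝ Φ)) x a b c =
      fderiv ℝ (fderiv ℝ (fderiv ℝ Φ)) x b a c := by
    intro a b c
    have := (hΦ1.contDiffAt (x := x)).isSymmSndFDerivAt min_smooth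
    rw [this.eq a b]
  -- derivative of the transformation law
  have key : ∀ a b c, fderiv ℝ (fderiv ℝ Φ) x a (chr G x b c) +
      fderiv ℝ Φ x (fderiv ℝ (fun z => chr G z b c) x a) =
      fderiv ℝ (fderiv ℝ (fderiv ℝ Φ)) x a b c +
      (fderiv ℝ (fun z => chr G' z (fderiv ℝ Φ x b) (fderiv ℝ Φ x c)) (Φ x) (fderiv ℝ Φ x a) +
      chr G' (Φ x) (fderiv ℝ (fderiv ℝ Φ) x a b) (fderiv ℝ Φ x c) +
      chr G' (Φ x) (fderiv ℝ Φ x b) (fderiv ℝ (fderiv ℝ Φ) x a c)) := by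
    intro a b c
    have l1 : HasFDerivAt (fun z => chrL G z b c) (((fderiv ℝ (chrL G) x).flip b).flip c) x := by
      have := (hC.clm_apply (hasFDerivAt_const b x)).clm_apply (hasFDerivAt_const c x)
      refine this.congr_fderiv ?_
      ext e
      simp
    have l2 := hD.clm_apply l1
    have r1 := ((hC'.comp x hP).clm_apply (hDa b)).clm_apply (hDa c)
    have r2 : HasFDerivAt (fun z => fderiv ℝ (fderiv ℝ Φ) z b c)
        (((fderiv ℝ (fderiv ℝ (fderiv ℝ Φ)) x).flip b).flip c) x := by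
      have := (hD2.clm_apply (hasFDerivAt_const b x)).clm_apply (hasFDerivAt_const c x)
      refine this.congr_fderiv ?_
      ext e
      simp
    have r3 := r2.add r1
    have ee : (fun z => fderiv ℝ Φ z (chrL G z b c)) =ᶠ[𝓝 x]
        (fun z => fderiv ℝ (fderiv ℝ Φ) z b c) +
          fun z => ((chrL G' ∘ Φ) z (fderiv ℝ Φ z b)) (fderiv ℝ Φ z c) := by
      filter_upwards [hb, h.eventually_nhds] with z hz1 hz2
      exact chr_pull hΦ hz1 hz2 b c
    have e4 := (r3.congr_of_eventuallyEq ee).unique l2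
    have e5 := congrArg (fun L : V3 →L[ℝ] V3 => L a) e4
    rw [fderiv_chr, fderiv_chr]
    simp only [_root_.add_apply, ContinuousLinearMap.comp_apply, ContinuousLinearMap.flip_apply,
      Function.comp_apply, chrL_apply] at e5 ⊢
    rw [add_comm (fderiv ℝ (fderiv ℝ Φ) x a (chr G x b c))]
    rw [← e5]
    abel
  have c1 := chr_pull hΦ hb.self_of_nhds h
  have k1 := key u v w
  have k2 := key v u w
  rw [hsymm3 v u w, hsymm v u] at k2
  have m1 : fderiv ℝ Φ x (fderiv ℝ (fun z => chr G z v w) x u) =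
      fderiv ℝ (fderiv ℝ (fderiv ℝ Φ)) x u v w +
      (fderiv ℝ (fun z => chr G' z (fderiv ℝ Φ x v) (fderiv ℝ Φ x w)) (Φ x) (fderiv ℝ Φ x u) +
      chr G' (Φ x) (fderiv ℝ (fderiv ℝ Φ) x u v) (fderiv ℝ Φ x w) +
      chr G' (Φ x) (fderiv ℝ Φ x v) (fderiv ℝ (fderiv ℝ Φ) x u w)) -
        fderiv ℝ (fderiv ℝ Φ) x u (chr G x v w) := by
    rw [← k1]; abel
  have m2 : fderiv ℝ Φ x (fderiv ℝ (fun z => chr G z u w) x v) =
      fderiv ℝ (fderiv ℝ (fderiv ℝ Φ)) x u v w +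
      (fderiv ℝ (fun z => chr G' z (fderiv ℝ Φ x u) (fderiv ℝ Φ x w)) (Φ x) (fderiv ℝ Φ x v) +
      chr G' (Φ x) (fderiv ℝ (fderiv ℝ Φ) x u v) (fderiv ℝ Φ x w) +
      chr G' (Φ x) (fderiv ℝ Φ x u) (fderiv ℝ (fderiv ℝ Φ) x v w)) -
        fderiv ℝ (fderiv ℝ Φ) x v (chr G x u w) := by
    rw [← k2]; abel
  have a1 : ∀ p q r : V3, chr G' (Φ x) p (q + r) = chr G' (Φ x) p q + chr G' (Φ x) p r := by
    intro p q r
    rw [← chrL_apply, ← chrL_apply, ← chrL_apply, map_add]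
  unfold riem
  rw [map_sub, map_add, map_sub, m1, m2, c1 u (chr G x v w), c1 v (chr G x u w), c1 v w, c1 u w,
    a1, a1]
  abel

end pull

/-- Sectional curvature is invariant under local isometries. -/
theorem sec_pull {G G' : RMetric} {Φ : V3 → V3} (hΦ : ContDiff ℝ ∞ Φ) {x : V3}
    (hb : ∀ᶠ y in 𝓝 x, Function.Bijective (fderiv ℝ Φ y))
    (h : ∀ᶠ y in 𝓝 x, ∀ u v, G.g y u v = G'.g (Φ y) (fderiv ℝ Φ y u) (fderiv ℝ Φ y v))
    (u v : V3) : sec G x u v = sec G' (Φ x) (fderiv ℝ Φ x u) (fderiv ℝ Φ x v) := by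
  have h0 := h.self_of_nhds
  unfold sec
  rw [← riem_pull hΦ hb h, ← h0, ← h0, ← h0, ← h0]

end Pool.Agent.Lib.MP_529713_gt
end

section

/-!
# The visual distance as a limit
-/

namespace Pool.Agent.Lib.MP_529713_gt

open Filter Topology Set Matrix
open scoped ContDiff NNReal

variable {a : ℝ} {d : V3 → V3 → ℝ}

lemma vis_ray_dist (o : V3) (ξ : Ray d o) (t : ℝ≥0) : d o (ξ.1 t) = t := by
  have h1 := ξ.2.2 0 t
  rw [ξ.2.1] at h1
  rw [h1]
  simp

lemma vis_gromov_mono (h : GeoD a d) (o : V3) (ξ η : Ray d o) {s s' t t' : ℝ≥0} (hs : s ≤ s')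
    (ht : t ≤ t') : gromov d o (ξ.1 s) (η.1 t) ≤ gromov d o (ξ.1 s') (η.1 t') := by
  unfold gromov
  rw [vis_ray_dist o ξ s, vis_ray_dist o ξ s', vis_ray_dist o η t, vis_ray_dist o η t']
  have hs' : (s : ℝ) ≤ s' := by exact_mod_cast hs
  have ht' : (t : ℝ) ≤ t' := by exact_mod_cast ht
  have h1 := h.tri (ξ.1 s') (ξ.1 s) (η.1 t')
  have h2 := h.tri (ξ.1 s) (η.1 t) (η.1 t')
  rw [ξ.2.2 s' s, abs_of_nonneg (by linarith)] at h1
  rw [η.2.2 t t', abs_of_nonpos (by linarith)] at h2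
  linarith

lemma vis_gromov_nonneg (h : GeoD a d) (o : V3) (ξ η : Ray d o) (s t : ℝ≥0) :
    0 ≤ gromov d o (ξ.1 s) (η.1 t) := by
  unfold gromov
  have h1 := h.tri (ξ.1 s) o (η.1 t)
  rw [h.symm (ξ.1 s) o] at h1
  linarith

lemma vis_antitone (h : GeoD a d) (o : V3) (ξ η : Ray d o) :
    Antitone fun t : ℝ≥0 => Real.exp (-gromov d o (ξ.1 t) (η.1 t)) := by
  intro s t hst
  exact Real.exp_le_exp.2 (neg_le_neg (vis_gromov_mono h o ξ η hst hst))

lemma vis_bdd (o : V3) (ξ η : Ray d o) :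
    BddBelow (range fun t : ℝ≥0 => Real.exp (-gromov d o (ξ.1 t) (η.1 t))) :=
  ⟨0, by rintro _ ⟨t, rfl⟩; exact (Real.exp_pos _).le⟩

lemma vis_eq_iInf (h : GeoD a d) (o : V3) (ξ η : Ray d o) :
    vis d o ξ η = ⨅ t : ℝ≥0, Real.exp (-gromov d o (ξ.1 t) (η.1 t)) :=
  (tendsto_atTop_ciInf (vis_antitone h o ξ η) (vis_bdd o ξ η)).limUnder_eq

lemma vis_tendsto (h : GeoD a d) (o : V3) (ξ η : Ray d o) :
    Tendsto (fun t : ℝ≥0 => Real.exp (-gromov d o (ξ.1 t) (η.1 t))) atTop (𝓝 (vis d o ξ η)) := by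
  rw [vis_eq_iInf h]
  exact tendsto_atTop_ciInf (vis_antitone h o ξ η) (vis_bdd o ξ η)

/-- `s` and `t` may be different -/
lemma vis_le (h : GeoD a d) (o : V3) (ξ η : Ray d o) (s t : ℝ≥0) :
    vis d o ξ η ≤ Real.exp (-gromov d o (ξ.1 s) (η.1 t)) := by
  rw [vis_eq_iInf h]
  refine (ciInf_le (vis_bdd o ξ η) (max s t)).trans ?_
  exact Real.exp_le_exp.2 (neg_le_neg
    (vis_gromov_mono h o ξ η (le_max_left s t) (le_max_right s t)))

lemma vis_nonneg (h : GeoD a d) (o : V3) (ξ η : Ray d o) : 0 ≤ vis d o ξ η := by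
  rw [vis_eq_iInf h]
  exact le_ciInf fun t => (Real.exp_pos _).le

lemma vis_le_one (h : GeoD a d) (o : V3) (ξ η : Ray d o) : vis d o ξ η ≤ 1 := by
  refine (vis_le h o ξ η 0 0).trans ?_
  rw [Real.exp_le_one_iff]
  have := vis_gromov_nonneg h o ξ η 0 0
  linarith

end Pool.Agent.Lib.MP_529713_gt
end

section

/-!
# Curvature of warped products
-/

namespace Pool.Agent.Lib.MP_529713_gt

set_option maxSynthPendingDepth 3

open Filter Topology Set Matrix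
open scoped ContDiff NNReal

namespace WarpCurv

/-- directional derivative of `g2` -/
noncomputable def Dg2 (y a u w : V3) : ℝ :=
  -((a 1 * u 1 + a 2 * u 2) * (y 1 * w 1 + y 2 * w 2) +
      (y 1 * u 1 + y 2 * u 2) * (a 1 * w 1 + a 2 * w 2)) / (1 + y 1 ^ 2 + y 2 ^ 2) +
    2 * (y 1 * u 1 + y 2 * u 2) * (y 1 * w 1 + y 2 * w 2) * (y 1 * a 1 + y 2 * a 2) /
      (1 + y 1 ^ 2 + y 2 ^ 2) ^ 2

lemma N_pos (y : V3) : 0 < 1 + y 1 ^ 2 + y 2 ^ 2 := by positivity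

lemma hasDerivAt_coord (x a : V3) (i : Fin 3) :
    HasDerivAt (fun t : ℝ => (x + t • a) i) (a i) 0 := by
  have h1 : HasDerivAt (fun t : ℝ => x i + t * a i) (a i) 0 := by
    simpa using ((hasDerivAt_id (0 : ℝ)).mul_const (a i)).const_add (x i)
  refine h1.congr_of_eventuallyEq (Eventually.of_forall fun t => ?_)
  simp

lemma hasDerivAt_g2 (x a u w : V3) :
    HasDerivAt (fun t : ℝ => g2 (x + t • a) u w) (Dg2 x a u w) 0 := by
  have h1 := hasDerivAt_coord x a 1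
  have h2 := hasDerivAt_coord x a 2
  have hN := N_pos x
  have hN' : (1 + (x + (0 : ℝ) • a) 1 ^ 2 + (x + (0 : ℝ) • a) 2 ^ 2) ≠ 0 := (N_pos _).ne'
  have h3 := (((h1.mul_const (u 1)).add (h2.mul_const (u 2))).mul
    ((h1.mul_const (w 1)).add (h2.mul_const (w 2)))).div
      (((h1.pow 2).const_add 1).add (h2.pow 2)) hN'
  have h4 := h3.const_sub (u 1 * w 1 + u 2 * w 2)
  refine (h4.congr_deriv ?_).congr_of_eventuallyEq (Eventually.of_forall fun t => ?_)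
  · simp only [Dg2, zero_smul, add_zero, Pi.add_apply, Pi.mul_apply, Pi.pow_apply]
    have := hN.ne'
    field_simp
    ring
  · simp only [g2, Pi.add_apply, Pi.mul_apply, Pi.pow_apply, Pi.div_apply]

lemma fderiv_line {F : V3 → V3} {x a : V3} (hF : DifferentiableAt ℝ F x) (i : Fin 3) {D : ℝ}
    (h : HasDerivAt (fun t : ℝ => F (x + t • a) i) D 0) : (fderiv ℝ F x a) i = D := by
  have h1 : HasDerivAt (fun t : ℝ => F (x + t • a)) (fderiv ℝ F x a) 0 :=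
    hF.hasFDerivAt.hasLineDerivAt a
  have h2 : HasDerivAt (fun t : ℝ => F (x + t • a) i) ((fderiv ℝ F x a) i) 0 :=
    (EuclideanSpace.proj (𝕜 := ℝ) i).hasFDerivAt.comp_hasDerivAt (0 : ℝ) h1
  exact h2.unique h

lemma fderiv_g (G : RMetric) {x a u w : V3} {D : ℝ}
    (h : HasDerivAt (fun t : ℝ => G.g (x + t • a) u w) D 0) : fderiv ℝ G.g x a u w = D := by
  have h0 : DifferentiableAt ℝ G.g x := (G.smooth.differentiable (by simp)) x
  have h1 : HasDerivAt (fun t : ℝ => G.g (x + t • a)) (fderiv ℝ G.g x a) 0 :=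
    h0.hasFDerivAt.hasLineDerivAt a
  have h2 : HasDerivAt (fun t : ℝ => G.g (x + t • a) u) (fderiv ℝ G.g x a u) 0 := by
    simpa using h1.clm_apply (hasDerivAt_const (0 : ℝ) u)
  have h3 : HasDerivAt (fun t : ℝ => G.g (x + t • a) u w) (fderiv ℝ G.g x a u w) 0 := by
    simpa using h2.clm_apply (hasDerivAt_const (0 : ℝ) w)
  exact h3.unique h

lemma hasDerivAt_comp_coord {f : ℝ → ℝ} (hf : Differentiable ℝ f) (x a : V3) :
    HasDerivAt (fun t : ℝ => f ((x + t • a) 0)) (deriv f (x 0) * a 0) 0 := by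
  have h1 := hasDerivAt_coord x a 0
  have h2 : HasDerivAt f (deriv f ((x + (0 : ℝ) • a) 0)) ((x + (0 : ℝ) • a) 0) :=
    (hf _).hasDerivAt
  have h3 : HasDerivAt (fun t : ℝ => f ((x + t • a) 0))
      (deriv f ((x + (0 : ℝ) • a) 0) * a 0) 0 := h2.comp (0 : ℝ) h1
  have h4 : (x + (0 : ℝ) • a) 0 = x 0 := by simp
  rwa [h4] at h3

section
variable {G : RMetric} {k : ℝ} {W : ℝ → ℝ}

lemma fderiv_warp (hW : ContDiff ℝ ∞ W)
    (h : ∀ y u w : V3, G.g y u w = k * (u 0 * w 0 + W (y 0) ^ 2 * g2 y u w)) (x a u w : V3) :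
    fderiv ℝ G.g x a u w = k * (2 * W (x 0) * deriv W (x 0) * a 0 * g2 x u w +
      W (x 0) ^ 2 * Dg2 x a u w) := by
  apply fderiv_g
  have h1 := hasDerivAt_comp_coord (hW.differentiable (by simp)) x a
  have h2 := hasDerivAt_g2 x a u w
  have h3 := (((h1.pow 2).mul h2).const_add (u 0 * w 0)).const_mul k
  refine (h3.congr_deriv ?_).congr_of_eventuallyEq (Eventually.of_forall fun t => ?_)
  · simp only [zero_smul, add_zero, Pi.pow_apply]
    ring
  · simp only [h, Pi.mul_apply, Pi.pow_apply]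

/-- the Christoffel symbols of the warped product -/
noncomputable def CC (W : ℝ → ℝ) (y u w : V3) : V3 :=
  !₂[-(W (y 0) * deriv W (y 0) * g2 y u w),
    deriv W (y 0) / W (y 0) * (u 0 * w 1 + w 0 * u 1) - g2 y u w * y 1,
    deriv W (y 0) / W (y 0) * (u 0 * w 2 + w 0 * u 2) - g2 y u w * y 2]

lemma CC_0 (W : ℝ → ℝ) (y u w : V3) : CC W y u w 0 = -(W (y 0) * deriv W (y 0) * g2 y u w) := rfl
lemma CC_1 (W : ℝ → ℝ) (y u w : V3) : CC W y u w 1 =
    deriv W (y 0) / W (y 0) * (u 0 * w 1 + w 0 * u 1) - g2 y u w * y 1 := rfl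
lemma CC_2 (W : ℝ → ℝ) (y u w : V3) : CC W y u w 2 =
    deriv W (y 0) / W (y 0) * (u 0 * w 2 + w 0 * u 2) - g2 y u w * y 2 := rfl

lemma chr_warp (hk : 0 < k) (hW : ContDiff ℝ ∞ W) (hW0 : ∀ r, 0 < W r)
    (h : ∀ y u w : V3, G.g y u w = k * (u 0 * w 0 + W (y 0) ^ 2 * g2 y u w)) (y u v : V3) :
    chr G y u v = CC W y u v := by
  apply chr_eq_of_koszul
  intro w
  rw [fderiv_warp hW h, fderiv_warp hW h, fderiv_warp hW h, h]
  have hw := (hW0 (y 0)).ne'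
  have hN := (N_pos y).ne'
  rw [CC_0]
  unfold g2 Dg2
  rw [CC_1, CC_2]
  unfold g2
  field_simp
  ring

/-- the derivative of the Christoffel symbols -/
lemma fderiv_chr (hk : 0 < k) (hW : ContDiff ℝ ∞ W) (hW0 : ∀ r, 0 < W r)
    (h : ∀ y u w : V3, G.g y u w = k * (u 0 * w 0 + W (y 0) ^ 2 * g2 y u w)) (x a u v : V3) :
    (fderiv ℝ (fun y => chr G y u v) x a) 0 =
      -((deriv W (x 0) ^ 2 + W (x 0) * deriv (deriv W) (x 0)) * a 0 * g2 x u v +
        W (x 0) * deriv W (x 0) * Dg2 x a u v) ∧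
    (fderiv ℝ (fun y => chr G y u v) x a) 1 =
      (deriv (deriv W) (x 0) * W (x 0) - deriv W (x 0) ^ 2) / W (x 0) ^ 2 * a 0 *
        (u 0 * v 1 + v 0 * u 1) - Dg2 x a u v * x 1 - g2 x u v * a 1 ∧
    (fderiv ℝ (fun y => chr G y u v) x a) 2 =
      (deriv (deriv W) (x 0) * W (x 0) - deriv W (x 0) ^ 2) / W (x 0) ^ 2 * a 0 *
        (u 0 * v 2 + v 0 * u 2) - Dg2 x a u v * x 2 - g2 x u v * a 2 := by
  have hF : DifferentiableAt ℝ (fun y => chr G y u v) x :=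
    ((chr_smooth G u v).differentiable (by simp)) x
  have hWd : Differentiable ℝ W := hW.differentiable (by simp)
  have hW2 : ContDiff ℝ ∞ (deriv W) := (contDiff_infty_iff_deriv.1 hW).2
  have hWd2 : Differentiable ℝ (deriv W) := hW2.differentiable (by simp)
  have h1 := hasDerivAt_comp_coord hWd x a
  have h1' := hasDerivAt_comp_coord hWd2 x a
  have h2 := hasDerivAt_g2 x a u v
  have hx1 := hasDerivAt_coord x a 1
  have hx2 := hasDerivAt_coord x a 2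
  have hw0 : W ((x + (0 : ℝ) • a) 0) ≠ 0 := (hW0 _).ne'
  refine ⟨?_, ?_, ?_⟩
  · apply fderiv_line hF
    have h3 := ((h1.mul h1').mul h2).neg
    refine (h3.congr_deriv ?_).congr_of_eventuallyEq (Eventually.of_forall fun t => ?_)
    · simp only [zero_smul, add_zero, Pi.mul_apply]
      ring
    · simp only [chr_warp hk hW hW0 h, CC_0, Pi.mul_apply, Pi.neg_apply]
  · apply fderiv_line hF
    have h3 := ((h1'.div h1 hw0).mul_const (u 0 * v 1 + v 0 * u 1)).sub (h2.mul hx1)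
    refine (h3.congr_deriv ?_).congr_of_eventuallyEq (Eventually.of_forall fun t => ?_)
    · simp only [zero_smul, add_zero]
      ring
    · simp only [chr_warp hk hW hW0 h, CC_1, Pi.mul_apply, Pi.sub_apply, Pi.div_apply]
  · apply fderiv_line hF
    have h3 := ((h1'.div h1 hw0).mul_const (u 0 * v 2 + v 0 * u 2)).sub (h2.mul hx2)
    refine (h3.congr_deriv ?_).congr_of_eventuallyEq (Eventually.of_forall fun t => ?_)
    · simp only [zero_smul, add_zero]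
      ring
    · simp only [chr_warp hk hW hW0 h, CC_2, Pi.mul_apply, Pi.sub_apply, Pi.div_apply]

end

end WarpCurv

theorem g2_facts (y u v : V3) {w : ℝ} (hw : 0 < w) (h : LinearIndependent ℝ ![u, v]) :
    0 ≤ w ^ 4 * (g2 y u u * g2 y v v - g2 y u v ^ 2) ∧
    w ^ 4 * (g2 y u u * g2 y v v - g2 y u v ^ 2) ≤
      (u 0 * u 0 + w ^ 2 * g2 y u u) * (v 0 * v 0 + w ^ 2 * g2 y v v)
        - (u 0 * v 0 + w ^ 2 * g2 y u v) ^ 2 ∧
    0 < (u 0 * u 0 + w ^ 2 * g2 y u u) * (v 0 * v 0 + w ^ 2 * g2 y v v)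
        - (u 0 * v 0 + w ^ 2 * g2 y u v) ^ 2 := by
  have hN := WarpCurv.N_pos y
  have e1 : g2 y u u * g2 y v v - g2 y u v ^ 2 =
      (u 1 * v 2 - u 2 * v 1) ^ 2 / (1 + y 1 ^ 2 + y 2 ^ 2) := by
    unfold g2
    field_simp
    ring
  have e2 : (u 0 * u 0 + w ^ 2 * g2 y u u) * (v 0 * v 0 + w ^ 2 * g2 y v v)
        - (u 0 * v 0 + w ^ 2 * g2 y u v) ^ 2 = w ^ 4 * (g2 y u u * g2 y v v - g2 y u v ^ 2) +
      w ^ 2 * (((u 0 * v 1 - v 0 * u 1) ^ 2 + (u 0 * v 2 - v 0 * u 2) ^ 2 +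
        (y 1 * (u 0 * v 2 - v 0 * u 2) - y 2 * (u 0 * v 1 - v 0 * u 1)) ^ 2) /
          (1 + y 1 ^ 2 + y 2 ^ 2)) := by
    unfold g2
    field_simp
    ring
  have h1 : 0 ≤ w ^ 4 * (g2 y u u * g2 y v v - g2 y u v ^ 2) := by
    rw [e1]; positivity
  have h2 : 0 ≤ w ^ 2 * (((u 0 * v 1 - v 0 * u 1) ^ 2 + (u 0 * v 2 - v 0 * u 2) ^ 2 +
        (y 1 * (u 0 * v 2 - v 0 * u 2) - y 2 * (u 0 * v 1 - v 0 * u 1)) ^ 2) /
          (1 + y 1 ^ 2 + y 2 ^ 2)) := by positivity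
  refine ⟨h1, by rw [e2]; linarith, ?_⟩
  rw [e2]
  rcases h1.lt_or_eq with h3 | h3
  · linarith
  rcases h2.lt_or_eq with h4 | h4
  · linarith
  exfalso
  have hw2 : w ^ 2 ≠ 0 := by positivity
  have hw4 : w ^ 4 ≠ 0 := by positivity
  have a1 : u 1 * v 2 - u 2 * v 1 = 0 := by
    have h5 : g2 y u u * g2 y v v - g2 y u v ^ 2 = 0 := by
      rcases mul_eq_zero.1 h3.symm with h6 | h6
      · exact absurd h6 hw4
      · exact h6
    rw [e1, div_eq_zero_iff] at h5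
    rcases h5 with h5 | h5
    · exact pow_eq_zero_iff (two_ne_zero) |>.1 h5
    · exact absurd h5 hN.ne'
  have a2 : (u 0 * v 1 - v 0 * u 1) ^ 2 + (u 0 * v 2 - v 0 * u 2) ^ 2 +
        (y 1 * (u 0 * v 2 - v 0 * u 2) - y 2 * (u 0 * v 1 - v 0 * u 1)) ^ 2 = 0 := by
    rcases mul_eq_zero.1 h4.symm with h6 | h6
    · exact absurd h6 hw2
    · rw [div_eq_zero_iff] at h6
      rcases h6 with h6 | h6
      · exact h6
      · exact absurd h6 hN.ne'
  have a3 : u 0 * v 1 - v 0 * u 1 = 0 := by nlinarith [sq_nonneg (u 0 * v 1 - v 0 * u 1), sq_nonneg (u 0 * v 2 - v 0 * u 2), sq_nonneg (y 1 * (u 0 * v 2 - v 0 * u 2) - y 2 * (u 0 * v 1 - v 0 * u 1))]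
  have a4 : u 0 * v 2 - v 0 * u 2 = 0 := by nlinarith [sq_nonneg (u 0 * v 1 - v 0 * u 1), sq_nonneg (u 0 * v 2 - v 0 * u 2), sq_nonneg (y 1 * (u 0 * v 2 - v 0 * u 2) - y 2 * (u 0 * v 1 - v 0 * u 1))]
  rw [LinearIndependent.pair_iff] at h
  -- find a dependence
  by_cases hu : u = 0
  · have := h 1 0 (by simp [hu])
    simp at this
  have hex : ∃ i, u i ≠ 0 := by
    by_contra hcon
    push Not at hcon
    exact hu (by ext i; simpa using hcon i)
  obtain ⟨i, hi⟩ := hex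
  have h5 : v i • u + (-(u i)) • v = 0 := by
    ext j
    fin_cases i <;> fin_cases j <;> simp <;> linarith
  have := (h _ _ h5).2
  exact hi (by linarith)

/-- Curvature of the warped product `k (dr² + W(r)² g2)`. -/
theorem sec_warp {G : RMetric} {k : ℝ} (hk : 0 < k) {W : ℝ → ℝ} (hW : ContDiff ℝ ∞ W)
    (hW0 : ∀ r, 0 < W r)
    (h : ∀ y u w : V3, G.g y u w = k * (u 0 * w 0 + W (y 0) ^ 2 * g2 y u w)) (y u v : V3)
    (X Y : ℝ)
    (hX : X = (u 0 * u 0 + W (y 0) ^ 2 * g2 y u u) * (v 0 * v 0 + W (y 0) ^ 2 * g2 y v v)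
      - (u 0 * v 0 + W (y 0) ^ 2 * g2 y u v) ^ 2)
    (hY : Y = W (y 0) ^ 4 * (g2 y u u * g2 y v v - g2 y u v ^ 2)) :
    sec G y u v = -(deriv (deriv W) (y 0) / W (y 0) * (X - Y)
      + (1 + deriv W (y 0) ^ 2) / W (y 0) ^ 2 * Y) / (k * X) := by
  have hw := (hW0 (y 0)).ne'
  have hN := (WarpCurv.N_pos y).ne'
  have hd : G.g y u u * G.g y v v - (G.g y u v) ^ 2 = k * (k * X) := by
    rw [h, h, h, hX]; ring
  obtain ⟨f0, f1, f2⟩ := WarpCurv.fderiv_chr hk hW hW0 h y u v v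
  obtain ⟨g0, g1, g2'⟩ := WarpCurv.fderiv_chr hk hW hW0 h y v u v
  have r0 : (riem G y u v v) 0 = -(W (y 0) * deriv (deriv W) (y 0) *
      (u 0 * g2 y v v - v 0 * g2 y u v)) := by
    unfold riem
    simp only [PiLp.add_apply, PiLp.sub_apply, f0, g0]
    rw [WarpCurv.chr_warp hk hW hW0 h, WarpCurv.chr_warp hk hW hW0 h,
      WarpCurv.chr_warp hk hW hW0 h, WarpCurv.chr_warp hk hW hW0 h]
    simp only [WarpCurv.CC_0, WarpCurv.CC_1, WarpCurv.CC_2, g2, WarpCurv.Dg2]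
    field_simp
    ring
  have r1 : (riem G y u v v) 1 = 
      deriv (deriv W) (y 0) / W (y 0) * v 0 * (u 0 * v 1 - v 0 * u 1)
      - (1 + deriv W (y 0) ^ 2) * (g2 y v v * u 1 - g2 y u v * v 1) := by
    unfold riem
    simp only [PiLp.add_apply, PiLp.sub_apply, f1, g1]
    rw [WarpCurv.chr_warp hk hW hW0 h, WarpCurv.chr_warp hk hW hW0 h,
      WarpCurv.chr_warp hk hW hW0 h, WarpCurv.chr_warp hk hW hW0 h]
    simp only [WarpCurv.CC_0, WarpCurv.CC_1, WarpCurv.CC_2, g2, WarpCurv.Dg2]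
    field_simp
    ring
  have r2 : (riem G y u v v) 2 = 
      deriv (deriv W) (y 0) / W (y 0) * v 0 * (u 0 * v 2 - v 0 * u 2)
      - (1 + deriv W (y 0) ^ 2) * (g2 y v v * u 2 - g2 y u v * v 2) := by
    unfold riem
    simp only [PiLp.add_apply, PiLp.sub_apply, f2, g2']
    rw [WarpCurv.chr_warp hk hW hW0 h, WarpCurv.chr_warp hk hW hW0 h,
      WarpCurv.chr_warp hk hW hW0 h, WarpCurv.chr_warp hk hW hW0 h]
    simp only [WarpCurv.CC_0, WarpCurv.CC_1, WarpCurv.CC_2, g2, WarpCurv.Dg2]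
    field_simp
    ring
  have hn : G.g y (riem G y u v v) u = k * (-(deriv (deriv W) (y 0) / W (y 0) * (X - Y)
      + (1 + deriv W (y 0) ^ 2) / W (y 0) ^ 2 * Y)) := by
    rw [h]
    have e : g2 y (riem G y u v v) u = (riem G y u v v) 1 * u 1 + (riem G y u v v) 2 * u 2 -
      (y 1 * (riem G y u v v) 1 + y 2 * (riem G y u v v) 2) * (y 1 * u 1 + y 2 * u 2) /
        (1 + y 1 ^ 2 + y 2 ^ 2) := rfl
    rw [e, r0, r1, r2, hX, hY]
    unfold g2
    field_simp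
    ring
  unfold sec
  rw [hd, hn]
  by_cases hX0 : X = 0
  · simp [hX0]
  · field_simp

/-- existence of the warped product as a metric -/
theorem exists_warp {k : ℝ} (hk : 0 < k) {W : ℝ → ℝ} (hW : ContDiff ℝ ∞ W)
    (hW0 : ∀ r, 0 < W r) : ∃ G : RMetric, ∀ y u w : V3,
      G.g y u w = k * (u 0 * w 0 + W (y 0) ^ 2 * g2 y u w) := by
  let P : Fin 3 → V3 →L[ℝ] ℝ := fun i => EuclideanSpace.proj (𝕜 := ℝ) i
  have hP : ∀ i (u : V3), P i u = u i := fun i u => rfl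
  let ψ : V3 → V3 →L[ℝ] ℝ := fun y => y 1 • P 1 + y 2 • P 2
  have hψ : ContDiff ℝ ∞ ψ := by
    apply ContDiff.add
    · exact ((P 1).contDiff).smul contDiff_const
    · exact ((P 2).contDiff).smul contDiff_const
  let g : V3 → V3 →L[ℝ] V3 →L[ℝ] ℝ := fun y =>
    k • ((P 0).smulRight (P 0) + (W (y 0)) ^ 2 • ((P 1).smulRight (P 1) + (P 2).smulRight (P 2) -
      (1 + y 1 ^ 2 + y 2 ^ 2)⁻¹ • (ψ y).smulRight (ψ y)))
  have hg : ∀ y u w : V3, g y u w = k * (u 0 * w 0 + W (y 0) ^ 2 * g2 y u w) := by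
    intro y u w
    simp only [g, ψ, g2, _root_.smul_apply, _root_.add_apply, _root_.sub_apply,
      ContinuousLinearMap.smulRight_apply, hP, smul_eq_mul]
    have hN := (WarpCurv.N_pos y).ne'
    field_simp
  have hsm : ContDiff ℝ ∞ g := by
    have a1 : ContDiff ℝ ∞ fun y : V3 => W (y 0) ^ 2 := (hW.comp ((P 0).contDiff)).pow 2
    have a2 : ContDiff ℝ ∞ fun y : V3 => (1 + y 1 ^ 2 + y 2 ^ 2)⁻¹ := by
      apply ContDiff.inv
      · exact (contDiff_const.add (((P 1).contDiff).pow 2)).add (((P 2).contDiff).pow 2)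
      · intro y
        exact (WarpCurv.N_pos y).ne'
    have a3 : ContDiff ℝ ∞ fun y : V3 => (ψ y).smulRight (ψ y) := hψ.smulRight hψ
    have a4 : ContDiff ℝ ∞ fun y : V3 =>
        ((P 1).smulRight (P 1) + (P 2).smulRight (P 2) -
          (1 + y 1 ^ 2 + y 2 ^ 2)⁻¹ • (ψ y).smulRight (ψ y)) := contDiff_const.sub (a2.smul a3)
    exact ((contDiff_const.add (a1.smul a4)).const_smul k)
  refine ⟨⟨g, hsm, ?_, ?_⟩, hg⟩
  · intro x u v
    rw [hg, hg]
    unfold g2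
    ring
  · intro x u hu
    rw [hg]
    apply mul_pos hk
    have hN := WarpCurv.N_pos x
    have e1 : g2 x u u = (u 1 ^ 2 + u 2 ^ 2 + (x 1 * u 2 - x 2 * u 1) ^ 2) /
        (1 + x 1 ^ 2 + x 2 ^ 2) := by
      unfold g2
      field_simp
      ring
    have hw := hW0 (x 0)
    by_contra hcon
    have h1 : 0 ≤ g2 x u u := by rw [e1]; positivity
    have h2 : 0 ≤ W (x 0) ^ 2 * g2 x u u := by positivity
    have h3 : 0 ≤ u 0 * u 0 := mul_self_nonneg _
    have h4 : u 0 * u 0 = 0 := by linarith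
    have h5 : W (x 0) ^ 2 * g2 x u u = 0 := by linarith
    have h6 : g2 x u u = 0 := by
      rcases mul_eq_zero.1 h5 with h6 | h6
      · exact absurd h6 (by positivity)
      · exact h6
    rw [e1, div_eq_zero_iff] at h6
    have h7 : u 1 ^ 2 + u 2 ^ 2 + (x 1 * u 2 - x 2 * u 1) ^ 2 = 0 := by
      rcases h6 with h6 | h6
      · exact h6
      · exact absurd h6 hN.ne'
    have h8 : u 1 = 0 := by
      have : u 1 ^ 2 = 0 := by nlinarith [sq_nonneg (u 1), sq_nonneg (u 2), sq_nonneg (x 1 * u 2 - x 2 * u 1)]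
      exact pow_eq_zero_iff (two_ne_zero) |>.1 this
    have h9 : u 2 = 0 := by
      have : u 2 ^ 2 = 0 := by nlinarith [sq_nonneg (u 1), sq_nonneg (u 2), sq_nonneg (x 1 * u 2 - x 2 * u 1)]
      exact pow_eq_zero_iff (two_ne_zero) |>.1 this
    have h10 : u 0 = 0 := mul_self_eq_zero.1 h4
    apply hu
    ext i
    fin_cases i
    · exact h10
    · exact h8
    · exact h9

end Pool.Agent.Lib.MP_529713_gt
end

section

/-!
# The visual distance and the branching point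
-/

namespace Pool.Agent.Lib.MP_529713_gt

open Filter Topology Set Matrix
open scoped ContDiff NNReal

lemma vc_isSeg {d : V3 → V3 → ℝ} (o : V3) (ξ : Ray d o) (t : ℝ≥0) :
    IsSeg d o (ξ.1 t) fun u => ξ.1 u.toNNReal := by
  have hd := vis_ray_dist o ξ t
  refine ⟨?_, ?_, ?_⟩
  · change ξ.1 (Real.toNNReal 0) = o
    rw [Real.toNNReal_zero]
    exact ξ.2.1
  · change ξ.1 (Real.toNNReal (d o (ξ.1 t))) = ξ.1 t
    rw [hd, Real.toNNReal_coe]
  · intro s hs u hu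
    change d (ξ.1 s.toNNReal) (ξ.1 u.toNNReal) = |s - u|
    rw [ξ.2.2, Real.coe_toNNReal s hs.1, Real.coe_toNNReal u hu.1]

lemma vc_near {a CM : ℝ} (hCM : ∀ d : V3 → V3 → ℝ, GeoD a d → ∀ x y z : V3, ∀ c : ℝ → V3,
    IsSeg d x y c → ∃ t ∈ Icc 0 (d x y), dh z (c t) ≤ CM + (dh x z + dh z y - dh x y))
    {d : V3 → V3 → ℝ} (h : GeoD a d) (o : V3) (ξ : Ray d o) {θ : V3} (hθ : ‖θ‖ = 1)
    (hend : EndsAt ξ.1 θ) {T : ℝ} (hT : 0 ≤ T) :
    ∃ s : ℝ≥0, dh (pt T θ) (ξ.1 s) ≤ CM + (2 * dh 0 o + 1) := by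
  obtain ⟨t, ht⟩ := (excess_ray o hθ hT hend).exists
  obtain ⟨τ, _, hτ⟩ := hCM d h o (ξ.1 t) (pt T θ) _ (vc_isSeg o ξ t)
  exact ⟨τ.toNNReal, hτ.trans (by linarith)⟩

theorem vis_ctr (a : ℝ) (o : V3) : ∃ C : ℝ, ∀ d : V3 → V3 → ℝ, GeoD a d → ∀ ξ η : Ray d o,
    ∀ θ₁ θ₂ : V3, ‖θ₁‖ = 1 → ‖θ₂‖ = 1 → θ₁ ≠ θ₂ → EndsAt ξ.1 θ₁ → EndsAt η.1 θ₂ →
      Real.exp (-d o (ctr θ₁ θ₂) - C) ≤ vis d o ξ η ∧
        vis d o ξ η ≤ Real.exp (-d o (ctr θ₁ θ₂) + C) := by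
  obtain ⟨CM, hCM⟩ := morse a
  set K := CM + (2 * dh 0 o + 1) with hK
  refine ⟨2 * |K| + |CM + 3| + 3, fun d h ξ η θ₁ θ₂ h₁ h₂ hne he₁ he₂ => ⟨?_, ?_⟩⟩
  · refine ge_of_tendsto (vis_tendsto h o ξ η) ?_
    filter_upwards [excess_ctr h₁ h₂ hne he₁ he₂] with t ht
    obtain ⟨c, hc⟩ := h.geod (ξ.1 t) (η.1 t)
    obtain ⟨τ, hτ, hdτ⟩ := hCM d h (ξ.1 t) (η.1 t) (ctr θ₁ θ₂) c hc
    obtain ⟨hc0, hc1, hcd⟩ := hc
    have hD : 0 ≤ d (ξ.1 t) (η.1 t) := hτ.1.trans hτ.2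
    have e1 : d (ξ.1 t) (c τ) = τ := by
      have := hcd 0 ⟨le_refl 0, hD⟩ τ hτ
      rw [hc0] at this
      rw [this, zero_sub, abs_neg, abs_of_nonneg hτ.1]
    have e2 : d (c τ) (η.1 t) = d (ξ.1 t) (η.1 t) - τ := by
      have := hcd τ hτ _ ⟨hD, le_refl _⟩
      rw [hc1] at this
      rw [this, abs_of_nonpos (by linarith [hτ.2])]
      ring
    have hz : d (ctr θ₁ θ₂) (c τ) ≤ CM + 3 := (h.upper _ _).trans (hdτ.trans (by linarith))
    have f1 := h.tri o (ctr θ₁ θ₂) (ξ.1 t)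
    have f2 := h.tri (ξ.1 t) (c τ) (ctr θ₁ θ₂)
    have f3 := h.tri o (ctr θ₁ θ₂) (η.1 t)
    have f4 := h.tri (ctr θ₁ θ₂) (c τ) (η.1 t)
    rw [vis_ray_dist o ξ t, h.symm (ctr θ₁ θ₂) (ξ.1 t)] at f1
    rw [vis_ray_dist o η t] at f3
    rw [h.symm (c τ) (ctr θ₁ θ₂)] at f2
    apply Real.exp_le_exp.2
    unfold gromov
    rw [vis_ray_dist o ξ t, vis_ray_dist o η t]
    have g1 := le_abs_self (CM + 3)
    have g2 := abs_nonneg K
    linarith
  · have hT : 0 ≤ max 0 (-Real.log ‖θ₁ - θ₂‖) := le_max_left _ _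
    obtain ⟨s, hs⟩ := vc_near hCM h o ξ h₁ he₁ hT
    obtain ⟨u, hu⟩ := vc_near hCM h o η h₂ he₂ hT
    have hz' : pt (max 0 (-Real.log ‖θ₁ - θ₂‖)) θ₂ = ctr θ₂ θ₁ := by
      unfold ctr
      rw [norm_sub_rev]
    have hz : pt (max 0 (-Real.log ‖θ₁ - θ₂‖)) θ₁ = ctr θ₁ θ₂ := rfl
    rw [hz] at hs
    rw [hz'] at hu
    rw [← hK] at hs hu
    have hcc := ctr_near h₁ h₂ hne
    have t1 := dh_tri (ξ.1 s) (ctr θ₁ θ₂) (η.1 u)
    have t2 := dh_tri (ctr θ₁ θ₂) (ctr θ₂ θ₁) (η.1 u)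
    rw [dh_comm (ξ.1 s) (ctr θ₁ θ₂)] at t1
    have t3 := h.upper (ξ.1 s) (η.1 u)
    have t4 := h.tri o (ξ.1 s) (ctr θ₁ θ₂)
    have t5 := h.tri o (η.1 u) (ctr θ₁ θ₂)
    have t6 := h.upper (ξ.1 s) (ctr θ₁ θ₂)
    have t7 := h.upper (η.1 u) (ctr θ₁ θ₂)
    rw [dh_comm] at t6 t7
    refine (vis_le h o ξ η s u).trans (Real.exp_le_exp.2 ?_)
    unfold gromov
    have g1 := le_abs_self K
    have g2 := abs_nonneg (CM + 3)
    linarith

theorem vis_same {a : ℝ} {d : V3 → V3 → ℝ} (h : GeoD a d) (o : V3) (ξ η : Ray d o) {θ : V3}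
    (hθ : ‖θ‖ = 1) (h₁ : EndsAt ξ.1 θ) (h₂ : EndsAt η.1 θ) : vis d o ξ η = 0 := by
  obtain ⟨CM, hCM⟩ := morse a
  set K := CM + (2 * dh 0 o + 1) with hK
  have ha : 0 < a := lt_of_lt_of_le one_pos h.one_le
  refine le_antisymm ?_ (vis_nonneg h o ξ η)
  have key : ∀ T : ℝ, 0 ≤ T → vis d o ξ η ≤ Real.exp (-((T - dh 0 o) / a - 2 * K)) := by
    intro T hT
    obtain ⟨s, hs⟩ := vc_near hCM h o ξ hθ h₁ hT
    obtain ⟨u, hu⟩ := vc_near hCM h o η hθ h₂ hT
    rw [← hK] at hs hu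
    have t1 := dh_tri (ξ.1 s) (pt T θ) (η.1 u)
    rw [dh_comm (ξ.1 s) (pt T θ)] at t1
    have t3 := h.upper (ξ.1 s) (η.1 u)
    have t4 := h.tri o (ξ.1 s) (pt T θ)
    have t5 := h.tri o (η.1 u) (pt T θ)
    have t6 := h.upper (ξ.1 s) (pt T θ)
    have t7 := h.upper (η.1 u) (pt T θ)
    rw [dh_comm] at t6 t7
    have t8 := h.lower o (pt T θ)
    have t9 := dh_tri 0 o (pt T θ)
    rw [dh_zero_pt hθ hT] at t9
    have t10 : (T - dh 0 o) / a ≤ d o (pt T θ) := by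
      rw [div_le_iff₀ ha]
      linarith
    refine (vis_le h o ξ η s u).trans (Real.exp_le_exp.2 ?_)
    unfold gromov
    linarith
  have hlim : Tendsto (fun T : ℝ => Real.exp (-((T - dh 0 o) / a - 2 * K))) atTop (𝓝 0) := by
    refine Real.tendsto_exp_neg_atTop_nhds_zero.comp ?_
    refine tendsto_atTop_add_const_right _ (-(2 * K)) ?_
    exact (tendsto_atTop_add_const_right _ (-dh 0 o) tendsto_id).atTop_div_const ha
  refine ge_of_tendsto hlim ?_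
  filter_upwards [eventually_ge_atTop (0 : ℝ)] with T hT using key T hT

end Pool.Agent.Lib.MP_529713_gt
end

section

/-!
# Freeness
-/

namespace Pool.Agent.Lib.MP_529713_gt

open Filter Topology Set Matrix
open scoped ContDiff NNReal

/-- the boost along the first axis -/
noncomputable def freeBoost (s : ℝ) : Matrix (Fin 4) (Fin 4) ℝ :=
  !![Real.cosh s, -Real.sinh s, 0, 0; -Real.sinh s, Real.cosh s, 0, 0; 0, 0, 1, 0; 0, 0, 0, 1]

lemma freeBoost_lor (s : ℝ) : IsLor (freeBoost s) := by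
  refine ⟨fun u v => ?_, ?_⟩
  · simp only [freeBoost, eta, Matrix.mulVec, dotProduct, Fin.sum_univ_four]
    simp
    linear_combination (-(u 0 * v 0) + u 1 * v 1) * (Real.cosh_sq_sub_sinh_sq s)
  · simp [freeBoost, Real.cosh_pos]

lemma freeBoost_mul (s : ℝ) : freeBoost s * freeBoost (-s) = 1 := by
  have h := Real.cosh_sq_sub_sinh_sq s
  ext i j
  fin_cases i <;> fin_cases j <;>
    simp [freeBoost, Matrix.mul_apply, Fin.sum_univ_four] <;> nlinarith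

lemma free_lift_zero : lift (0 : V3) = ![1, 0, 0, 0] := by
  simp [lift, hh]

lemma free_lift_ax (s : ℝ) : lift (ax s) = ![Real.cosh s, Real.sinh s, 0, 0] := by
  have h1 : hh (ax s) = Real.cosh s := by
    unfold hh ax
    rw [EuclideanSpace.norm_single, Real.norm_eq_abs, sq_abs, ← Real.cosh_sq',
      Real.sqrt_sq (Real.cosh_pos s).le]
  unfold lift
  rw [h1]
  simp [ax]

lemma freeBoost_ax (s : ℝ) : freeBoost s *ᵥ lift (ax s) = ![1, 0, 0, 0] := by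
  have h := Real.cosh_sq_sub_sinh_sq s
  rw [free_lift_ax]
  funext i
  fin_cases i <;> simp [freeBoost, Matrix.mulVec, dotProduct, Fin.sum_univ_four] <;> nlinarith

/-- a Lorentz matrix fixing the base point -/
lemma free_fix {M : Matrix (Fin 4) (Fin 4) ℝ} (hM : IsLor M)
    (h0 : M *ᵥ ![1, 0, 0, 0] = ![1, 0, 0, 0]) :
    M 0 0 = 1 ∧ |M 1 1| ≤ 1 ∧ |M 2 2| ≤ 1 ∧ |M 3 3| ≤ 1 ∧
      (M 1 1 = 1 → M 2 2 = 1 → M 3 3 = 1 → M = 1) := by
  have hr : ∀ v : V4, (M *ᵥ v) 0 = v 0 := by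
    intro v
    have h1 := hM.1 ![1, 0, 0, 0] v
    rw [h0] at h1
    simp [eta] at h1
    exact h1
  have hcol : ∀ j, (fun i => M i j) = M *ᵥ Pi.single j 1 := by
    intro j
    funext i
    simp
  have hc0 : ∀ i, M i 0 = (![1, 0, 0, 0] : V4) i := by
    intro i
    have := congrFun h0 i
    simpa [Matrix.mulVec, dotProduct, Fin.sum_univ_four] using this
  have hr0 : ∀ j, M 0 j = (Pi.single j 1 : V4) 0 := by
    intro j
    have := hr (Pi.single j 1)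
    rw [← hcol] at this
    exact this
  have hn : ∀ j, eta (fun i => M i j) (fun i => M i j) =
      eta (Pi.single j 1) (Pi.single j 1) := by
    intro j
    rw [hcol]
    exact hM.1 _ _
  have h1 : M 1 1 * M 1 1 + M 2 1 * M 2 1 + M 3 1 * M 3 1 = 1 := by
    have := hn 1
    simp [eta, hr0] at this
    linarith
  have h2 : M 1 2 * M 1 2 + M 2 2 * M 2 2 + M 3 2 * M 3 2 = 1 := by
    have := hn 2
    simp [eta, hr0] at this
    linarith
  have h3 : M 1 3 * M 1 3 + M 2 3 * M 2 3 + M 3 3 * M 3 3 = 1 := by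
    have := hn 3
    simp [eta, hr0] at this
    linarith
  refine ⟨by simpa using hc0 0, ?_, ?_, ?_, ?_⟩
  · rw [← sq_le_one_iff_abs_le_one]; nlinarith [sq_nonneg (M 2 1), sq_nonneg (M 3 1)]
  · rw [← sq_le_one_iff_abs_le_one]; nlinarith [sq_nonneg (M 1 2), sq_nonneg (M 3 2)]
  · rw [← sq_le_one_iff_abs_le_one]; nlinarith [sq_nonneg (M 1 3), sq_nonneg (M 2 3)]
  · intro e1 e2 e3
    have a1 : M 2 1 = 0 := by rw [e1] at h1; nlinarith [sq_nonneg (M 2 1), sq_nonneg (M 3 1)]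
    have a2 : M 3 1 = 0 := by rw [e1] at h1; nlinarith [sq_nonneg (M 2 1), sq_nonneg (M 3 1)]
    have b1 : M 1 2 = 0 := by rw [e2] at h2; nlinarith [sq_nonneg (M 1 2), sq_nonneg (M 3 2)]
    have b2 : M 3 2 = 0 := by rw [e2] at h2; nlinarith [sq_nonneg (M 1 2), sq_nonneg (M 3 2)]
    have d1 : M 1 3 = 0 := by rw [e3] at h3; nlinarith [sq_nonneg (M 1 3), sq_nonneg (M 2 3)]
    have d2 : M 2 3 = 0 := by rw [e3] at h3; nlinarith [sq_nonneg (M 1 3), sq_nonneg (M 2 3)]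
    have z0 := hc0 0
    have z1 := hc0 1
    have z2 := hc0 2
    have z3 := hc0 3
    have r1 := hr0 1
    have r2 := hr0 2
    have r3 := hr0 3
    simp at z0 z1 z2 z3 r1 r2 r3
    ext i j
    fin_cases i <;> fin_cases j <;> simp [*]

theorem lev_free {n : ℕ} (hn : 9 ≤ n) {A A' : Matrix (Fin 4) (Fin 4) ℝ} (h : IsO A A')
    (hl : Lev n A A') {x : V3} (hx : act (std A) x = x) : A = 1 := by
  have hB : IsLor (std A) := isLor_std h
  have hBx : std A *ᵥ lift x = lift x := by rw [← lift_act hB, hx]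
  obtain ⟨P, Q, hP, hQ, hPQ, hQP, s, t, hst, hPs, hPt⟩ := to_axis x x
  have hPx : P *ᵥ lift x = lift (ax s) := by rw [← lift_act hP, hPs]
  set C := freeBoost s * P with hC
  set D := Q * freeBoost (-s) with hD
  have hCD : C * D = 1 := by
    rw [hC, hD, Matrix.mul_assoc, ← Matrix.mul_assoc P Q, hPQ, Matrix.one_mul, freeBoost_mul]
  have hDC : D * C = 1 := by
    rw [hC, hD, Matrix.mul_assoc, ← Matrix.mul_assoc (freeBoost (-s))]
    have := freeBoost_mul (-s)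
    rw [neg_neg] at this
    rw [this, Matrix.one_mul, hQP]
  have hCL : IsLor C := isLor_mul (freeBoost_lor s) hP
  have hDL : IsLor D := isLor_mul hQ (freeBoost_lor (-s))
  have hCx : C *ᵥ lift x = ![1, 0, 0, 0] := by
    rw [hC, ← Matrix.mulVec_mulVec, hPx, freeBoost_ax]
  have hD0 : D *ᵥ ![1, 0, 0, 0] = lift x := by
    rw [← hCx, Matrix.mulVec_mulVec, hDC, Matrix.one_mulVec]
  set M := C * std A * D with hM
  have hML : IsLor M := isLor_mul (isLor_mul hCL hB) hDL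
  have hM0 : M *ᵥ ![1, 0, 0, 0] = ![1, 0, 0, 0] := by
    rw [hM, ← Matrix.mulVec_mulVec, hD0, ← Matrix.mulVec_mulVec, hBx, hCx]
  obtain ⟨m0, m1, m2, m3, hM1⟩ := free_fix hML hM0
  have htr : Matrix.trace M = Matrix.trace A := by
    have e1 : Matrix.trace M = Matrix.trace (std A) := by
      rw [hM, Matrix.trace_mul_comm, ← Matrix.mul_assoc, hDC, Matrix.one_mul]
    rw [e1]
    have hq : Real.sqrt gr * (Real.sqrt gr)⁻¹ = 1 :=
      mul_inv_cancel₀ (Real.sqrt_ne_zero'.mpr Real.goldenRatio_pos)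
    simp only [Matrix.trace, Matrix.diag, Fin.sum_univ_four, std_apply]
    generalize hqq : Real.sqrt gr = q at hq
    simp
    have : q * A 0 0 * q⁻¹ = A 0 0 := by linear_combination A 0 0 * hq
    rw [this]
  have hex : ∀ i, ∃ x y : ℝ, IsInt2 x y ∧ A i i = 1 + n * x ∧ A' i i = 1 + n * y := by
    intro i
    obtain ⟨x, y, hxy, h1, h2⟩ := hl i i
    rw [Matrix.one_apply_eq] at h1 h2
    exact ⟨x, y, hxy, h1, h2⟩
  choose X Y hXY hX hY using hex
  have hS : IsInt2 (∑ i, X i) (∑ i, Y i) := IsInt2.sum _ fun i _ => hXY i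
  have htA : Matrix.trace A = 4 + n * ∑ i, X i := by
    simp only [Matrix.trace, Matrix.diag, Fin.sum_univ_four, hX]
    ring
  have htM : Matrix.trace M = 1 + M 1 1 + M 2 2 + M 3 3 := by
    simp only [Matrix.trace, Matrix.diag, Fin.sum_univ_four, m0]
  rw [abs_le] at m1 m2 m3
  have hX8 : |∑ i, X i| * n ≤ 8 := by
    have h1 : (n : ℝ) * ∑ i, X i = M 1 1 + M 2 2 + M 3 3 - 3 := by linarith
    have h2 : |∑ i, X i| * n = |(n : ℝ) * ∑ i, X i| := by
      rw [abs_mul, Nat.abs_cast, mul_comm]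
    rw [h2, h1, abs_le]
    constructor <;> linarith [m1.1, m1.2, m2.1, m2.2, m3.1, m3.2]
  have hY8 : |∑ i, Y i| * n ≤ 8 := by
    have h1 : (n : ℝ) * ∑ i, Y i = A' 0 0 + A' 1 1 + A' 2 2 + A' 3 3 - 4 := by
      simp only [hY, Fin.sum_univ_four]; ring
    have h2 : |∑ i, Y i| * n = |(n : ℝ) * ∑ i, Y i| := by
      rw [abs_mul, Nat.abs_cast, mul_comm]
    have d0 := h.diag_le 0
    have d1 := h.diag_le 1
    have d2 := h.diag_le 2
    have d3 := h.diag_le 3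
    rw [abs_le] at d0 d1 d2 d3
    rw [h2, h1, abs_le]
    constructor <;> linarith [d0.1, d0.2, d1.1, d1.2, d2.1, d2.2, d3.1, d3.2]
  have hX0 : ∑ i, X i = 0 := by
    rcases hS.norm with hz | hz
    · exact hz.1
    · exfalso
      have hn' : (9 : ℝ) ≤ n := by exact_mod_cast hn
      have a1 : 0 ≤ |∑ i, X i| := abs_nonneg _
      have a2 : 0 ≤ |∑ i, Y i| := abs_nonneg _
      have a3 : (|∑ i, X i| * n) * (|∑ i, Y i| * n) ≤ 8 * 8 :=
        mul_le_mul hX8 hY8 (by positivity) (by norm_num)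
      have a4 : (81 : ℝ) ≤ n * n := by nlinarith
      have a5 : (n : ℝ) * n ≤ (|∑ i, X i| * |∑ i, Y i|) * (n * n) := by
        have : (0 : ℝ) ≤ n * n := by positivity
        nlinarith
      nlinarith
  rw [hX0, mul_zero, add_zero] at htA
  have hsum : M 1 1 + M 2 2 + M 3 3 = 3 := by linarith
  have hM1' : M = 1 := hM1 (by linarith [m1.2, m2.2, m3.2]) (by linarith [m1.2, m2.2, m3.2])
    (by linarith [m1.2, m2.2, m3.2])
  have hA1 : std A = 1 := by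
    have e1 : D * M * C = std A := by
      rw [hM]
      calc D * (C * std A * D) * C = (D * C) * std A * (D * C) := by
            simp only [Matrix.mul_assoc]
        _ = std A := by rw [hDC, Matrix.one_mul, Matrix.mul_one]
    rw [← e1, hM1', Matrix.mul_one, hDC]
  exact std_inj (by rw [hA1, std_one])

end Pool.Agent.Lib.MP_529713_gt
end
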