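import Mathlib

/-!
# Closed Riemannian 3-manifolds of curvature at most -1 and their visual boundaries

By the Cartan-Hadamard theorem the universal cover of a closed connected Riemannian 3-manifold `M`
of sectional curvature `≤ -1` is diffeomorphic to `ℝ³`.  So `M` is given by a smooth Riemannian
metric `G` on `ℝ³` and a group `Γ` of isometries of `G` which acts freely, properly discontinuously
and cocompactly on `ℝ³`; then `M = ℝ³ / Γ` and `(ℝ³, G)` is its universal cover.
-/

namespace Pool.Agent.Lib.MP_529713_gt.Stmt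

open Filter Topology Set
open scoped ContDiff NNReal

/-- Euclidean three space; it is the universal cover of all manifolds considered here. -/
abbrev V3 : Type := EuclideanSpace ℝ (Fin 3)

/-- A smooth Riemannian metric on `ℝ³`; `g x` is the inner product on the tangent space at `x`. -/
structure Metric where
  g : V3 → V3 → V3 → ℝ
  smooth : ∀ u v, ContDiff ℝ ∞ fun x => g x u v
  add : ∀ x u v w, g x (u + v) w = g x u w + g x v w
  smul : ∀ (c : ℝ) (x u w : V3), g x (c • u) w = c * g x u w
  symm : ∀ x u v, g x u v = g x v u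
  pos : ∀ x u, u ≠ 0 → 0 < g x u u

/-- The derivative of `f` at `x` in the direction `u`. -/
noncomputable def dd {E : Type} [NormedAddCommGroup E] [NormedSpace ℝ E] (f : V3 → E) (x u : V3) :
    E := fderiv ℝ f x u

/-- The length of the curve `γ` restricted to `[0, 1]`. -/
noncomputable def len (G : Metric) (γ : ℝ → V3) : ℝ :=
  ∫ t in (0 : ℝ)..1, Real.sqrt (G.g (γ t) (deriv γ t) (deriv γ t))

/-- The Riemannian distance: the infimum of the lengths of the `C¹` curves from `x` to `y`. -/
noncomputable def rdist (G : Metric) (x y : V3) : ℝ :=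
  sInf {l | ∃ γ : ℝ → V3, ContDiff ℝ 1 γ ∧ γ 0 = x ∧ γ 1 = y ∧ l = len G γ}

/-- The Christoffel symbols of the Levi-Civita connection: `chr G x u v` is the unique vector `c`
with `2 g(c, w) = D_u g(v, w) + D_v g(u, w) - D_w g(u, v)` for all `w`, where `u`, `v`, `w` are
regarded as constant vector fields. -/
noncomputable def chr (G : Metric) (x u v : V3) : V3 :=
  Classical.epsilon fun c : V3 => ∀ w, 2 * G.g x c w =
    dd (fun y => G.g y v w) x u + dd (fun y => G.g y u w) x v - dd (fun y => G.g y u v) x w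

/-- The Riemann curvature tensor
`R(u, v) w = D_u Γ(v, w) - D_v Γ(u, w) + Γ(u, Γ(v, w)) - Γ(v, Γ(u, w))`. -/
noncomputable def riem (G : Metric) (x u v w : V3) : V3 :=
  dd (fun y => chr G y v w) x u - dd (fun y => chr G y u w) x v
    + chr G x u (chr G x v w) - chr G x v (chr G x u w)

/-- The sectional curvature of the plane spanned by `u` and `v`. -/
noncomputable def sec (G : Metric) (x u v : V3) : ℝ :=
  G.g x (riem G x u v v) u / (G.g x u u * G.g x v v - (G.g x u v) ^ 2)

/-- The sectional curvature is at most `-1` everywhere and equal to `-1` for at least one tangent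
plane. -/
def CurvNegOne (G : Metric) : Prop :=
  (∀ x u v : V3, LinearIndependent ℝ ![u, v] → sec G x u v ≤ -1) ∧
    ∃ x u v : V3, LinearIndependent ℝ ![u, v] ∧ sec G x u v = -1

/-- `Γ` acts smoothly on `ℝ³` by isometries of `G`, freely, properly discontinuously and
cocompactly; so `ℝ³ / Γ` with the metric induced by `G` is a closed connected Riemannian manifold
with universal cover `(ℝ³, G)`. -/
structure IsDeck (G : Metric) (Γ : Subgroup (Equiv.Perm V3)) : Prop where
  smooth : ∀ γ ∈ Γ, ContDiff ℝ ∞ (γ : V3 → V3)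
  isom : ∀ γ ∈ Γ, ∀ x u v : V3, G.g (γ x) (dd γ x u) (dd γ x v) = G.g x u v
  free : ∀ γ ∈ Γ, ∀ x : V3, γ x = x → γ = 1
  proper : ∀ K : Set V3, IsCompact K → {γ : Equiv.Perm V3 | γ ∈ Γ ∧ (γ '' K ∩ K).Nonempty}.Finite
  cocompact : ∃ K : Set V3, IsCompact K ∧ ∀ x : V3, ∃ γ ∈ Γ, γ x ∈ K

/-- The visual boundary of a Hadamard manifold, realised by the unit speed geodesic rays from the
base point `o` (for the distance function `d`). -/
def Ray (d : V3 → V3 → ℝ) (o : V3) : Type :=
  {c : ℝ≥0 → V3 // c 0 = o ∧ ∀ s t : ℝ≥0, d (c s) (c t) = |(s : ℝ) - t|}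

/-- The Gromov product. -/
noncomputable def gromov (d : V3 → V3 → ℝ) (o x y : V3) : ℝ := (d o x + d o y - d x y) / 2

/-- The visual metric `exp (-(ξ | η)_o)`, where `(ξ | η)_o` is the limit of the Gromov products
along the geodesic rays from `o` to `ξ` and `η`. -/
noncomputable def vis (d : V3 → V3 → ℝ) (o : V3) (ξ η : Ray d o) : ℝ :=
  limUnder atTop fun t : ℝ≥0 => Real.exp (-gromov d o (ξ.1 t) (η.1 t))

/-- The `s`-dimensional Hausdorff measure of the space `Z` with the distance function `δ`
vanishes: for every `ε > 0` there is a countable cover by sets `A n` of diameter at most `r n` with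
`∑ (r n) ^ s < ε`. -/
def HNull {Z : Type} (δ : Z → Z → ℝ) (s : ℝ) : Prop :=
  ∀ ε : ℝ, 0 < ε → ∃ (A : ℕ → Set Z) (r : ℕ → ℝ), (∀ z, ∃ n, z ∈ A n) ∧ (∀ n, 0 ≤ r n) ∧
    (∀ n, ∀ x ∈ A n, ∀ y ∈ A n, δ x y ≤ r n) ∧ (Summable fun n => r n ^ s) ∧
      ∑' n, r n ^ s < ε

/-- The Hausdorff dimension of the space `Z` with the distance function `δ`. -/
noncomputable def hdim {Z : Type} (δ : Z → Z → ℝ) : ℝ := sInf {s : ℝ | 0 < s ∧ HNull δ s}

/-- Bilipschitz equivalence of two spaces with distance functions. -/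
def Bilip {Z Z' : Type} (δ : Z → Z → ℝ) (δ' : Z' → Z' → ℝ) : Prop :=
  ∃ (F : Z ≃ Z') (C : ℝ), 0 < C ∧ ∀ x y, δ x y / C ≤ δ' (F x) (F y) ∧ δ' (F x) (F y) ≤ C * δ x y

end Pool.Agent.Lib.MP_529713_gt.Stmt
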