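import Pool.Agent.Lib.MP_529713_gt.Centers
import Pool.Agent.Lib.MP_529713_gt.LatFree
import Pool.Agent.Lib.MP_529713_gt.Holder
import Pool.Agent.Lib.MP_529713_gt.Tubefn
import Pool.Agent.Lib.MP_529713_gt.Stmt

section

/-!
# Existence of rays
-/

namespace Pool.Agent.Lib.MP_529713_gt

open Filter Topology Set Matrix
open scoped ContDiff NNReal

lemma rayex_lip {a : ℝ} {d : V3 → V3 → ℝ} (h : GeoD a d) (x y x' y' : V3) :
    |d x y - d x' y'| ≤ dh x x' + dh y y' := by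
  rw [abs_le]
  have h1 := h.tri x x' y
  have h2 := h.tri x' y' y
  have h3 := h.tri x' x y'
  have h4 := h.tri x y y'
  have h5 := h.upper x x'
  have h6 := h.upper y y'
  have h7 := h.symm x x'
  have h8 := h.symm y y'
  constructor <;> linarith

lemma rayex_dh {U : Filter ℕ} {u v : ℕ → V3}
    {x y : V3} (hu : Tendsto u U (𝓝 x)) (hv : Tendsto v U (𝓝 y)) :
    Tendsto (fun n => dh (u n) (v n)) U (𝓝 (dh x y)) := by
  have h1 : Tendsto (fun n => (u n, v n)) U (𝓝 (x, y)) := hu.prodMk_nhds hv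
  have h2 : Tendsto (fun p : V3 × V3 => dh p.1 p.2) (𝓝 (x, y)) (𝓝 (dh x y)) :=
    dh_cont.tendsto (x, y)
  have h3 := Tendsto.comp (g := fun p : V3 × V3 => dh p.1 p.2) h2 h1
  exact h3

lemma rayex_tendsto {a : ℝ} {d : V3 → V3 → ℝ} (h : GeoD a d) {U : Filter ℕ} {u v : ℕ → V3}
    {x y : V3} (hu : Tendsto u U (𝓝 x)) (hv : Tendsto v U (𝓝 y)) :
    Tendsto (fun n => d (u n) (v n)) U (𝓝 (d x y)) := by
  rw [tendsto_iff_dist_tendsto_zero]
  have h1 : Tendsto (fun n => dh (u n) x + dh (v n) y) U (𝓝 0) := by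
    have e1 : Tendsto (fun n => dh (u n) x) U (𝓝 (dh x x)) := rayex_dh hu tendsto_const_nhds
    have e2 : Tendsto (fun n => dh (v n) y) U (𝓝 (dh y y)) := rayex_dh hv tendsto_const_nhds
    have := e1.add e2
    rwa [dh_self, dh_self, add_zero] at this
  refine squeeze_zero (fun n => dist_nonneg) (fun n => ?_) h1
  rw [Real.dist_eq]
  exact rayex_lip h _ _ _ _

lemma rayex_endsAt {θ : V3} (hθ : ‖θ‖ = 1) : EndsAt (fun t : ℝ≥0 => pt t θ) θ := by
  have hn : ∀ t : ℝ≥0, ‖pt t θ‖ = Real.sinh t := by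
    intro t
    have ht : 0 ≤ Real.sinh (t : ℝ) := Real.sinh_nonneg_iff.2 t.2
    rw [pt, norm_smul, hθ, mul_one, Real.norm_of_nonneg ht]
  constructor
  · simp only [hn]
    have h1 : Tendsto (fun t : ℝ≥0 => (t : ℝ)) atTop atTop := NNReal.tendsto_coe_atTop.2 tendsto_id
    refine tendsto_atTop_mono (fun t : ℝ≥0 => ?_) h1
    exact Real.self_le_sinh_iff.2 t.2
  · refine tendsto_const_nhds.congr' ?_
    filter_upwards [eventually_gt_atTop (0 : ℝ≥0)] with t ht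
    rw [hn, pt, smul_smul, inv_mul_cancel₀, one_smul]
    have : (0 : ℝ) < t := by exact_mod_cast ht
    exact (Real.sinh_pos_iff.2 this).ne'

theorem ray_exists {a : ℝ} {d : V3 → V3 → ℝ} (h : GeoD a d) (o : V3) {θ : V3} (hθ : ‖θ‖ = 1) :
    ∃ ξ : Ray d o, EndsAt ξ.1 θ := by
  have ha : 1 ≤ a := h.one_le
  have ha0 : 0 < a := by linarith
  choose c hc using fun n : ℕ => h.geod o (pt n θ)
  set l : ℕ → ℝ := fun n => d o (pt n θ) with hl
  set U : Ultrafilter ℕ := hyperfilter ℕ with hU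
  have hUat : (U : Filter ℕ) ≤ atTop := Nat.hyperfilter_le_atTop
  have hlt : Tendsto l atTop atTop := by
    have h1 : ∀ n : ℕ, ((n : ℝ) - dh 0 o) / a ≤ l n := by
      intro n
      rw [div_le_iff₀ ha0]
      have h2 := h.lower o (pt n θ)
      have h3 := dh_tri 0 o (pt n θ)
      rw [dh_zero_pt hθ (Nat.cast_nonneg n)] at h3
      simp only [hl]
      linarith
    refine tendsto_atTop_mono h1 ?_
    refine Tendsto.atTop_div_const ha0 ?_
    exact tendsto_atTop_add_const_right _ _ tendsto_natCast_atTop_atTop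
  have hle : ∀ t : ℝ, ∀ᶠ n in (U : Filter ℕ), t ≤ l n := fun t =>
    hUat (hlt.eventually_ge_atTop t)
  -- the limit points
  have hlim : ∀ t : ℝ≥0, ∃ x : V3, Tendsto (fun n => c n t) U (𝓝 x) := by
    intro t
    have hK := isCompact_dh_ball o (a * t)
    have hmem : ((U.map fun n => c n t : Ultrafilter V3) : Filter V3) ≤
        𝓟 {x | dh o x ≤ a * t} := by
      rw [le_principal_iff]
      change ∀ᶠ n in (U : Filter ℕ), dh o (c n t) ≤ a * t
      filter_upwards [hle t] with n hn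
      have h1 := h.lower o (c n t)
      have h2 : d o (c n t) = t := by
        have h3 := (hc n).2.2 0 ⟨le_rfl, t.2.trans hn⟩ t ⟨t.2, hn⟩
        rw [(hc n).1] at h3
        have h4 : (0 : ℝ) ≤ t := t.2
        rw [h3, zero_sub, abs_neg, abs_of_nonneg h4]
      rwa [h2] at h1
    obtain ⟨x, _, hx⟩ := hK.ultrafilter_le_nhds _ hmem
    exact ⟨x, hx⟩
  choose γ hγ using hlim
  have hγd : ∀ s t : ℝ≥0, d (γ s) (γ t) = |(s : ℝ) - t| := by
    intro s t
    have h1 := rayex_tendsto h (hγ s) (hγ t)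
    have h2 : Tendsto (fun n => d (c n s) (c n t)) U (𝓝 |(s : ℝ) - t|) := by
      refine tendsto_const_nhds.congr' ?_
      filter_upwards [hle s, hle t] with n hs ht
      exact ((hc n).2.2 s ⟨s.2, hs⟩ t ⟨t.2, ht⟩).symm
    exact tendsto_nhds_unique h1 h2
  have hγ0 : γ 0 = o := by
    have h1 := hγ 0
    have h2 : (fun n => c n ((0 : ℝ≥0) : ℝ)) = fun _ => o := by
      funext n
      rw [NNReal.coe_zero]
      exact (hc n).1
    rw [h2] at h1
    exact tendsto_nhds_unique h1 tendsto_const_nhds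
  refine ⟨⟨γ, hγ0, hγd⟩, ?_⟩
  obtain ⟨CM, hCM⟩ := morse a
  set K : ℝ := CM + (2 * dh 0 o + 1) with hK
  refine ends_of_near h o _ hθ (C := K) fun T hT => ?_
  -- the points near `pt T θ`
  have hex : ∀ᶠ n : ℕ in (U : Filter ℕ), ∃ τ ∈ Icc 0 (l n), dh (pt T θ) (c n τ) ≤ K := by
    have h1 := excess_ray o hθ hT (rayex_endsAt hθ)
    have h2 : ∀ᶠ n : ℕ in (U : Filter ℕ), dh o (pt T θ) + dh (pt T θ) (pt n θ) - dh o (pt n θ) ≤
        2 * dh 0 o + 1 := by
      apply hUat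
      have h3 := (tendsto_natCast_atTop_atTop (R := ℝ≥0)).eventually h1
      simpa using h3
    filter_upwards [h2] with n hn
    obtain ⟨τ, hτ, hle⟩ := hCM d h o (pt n θ) (pt T θ) (c n) (hc n)
    exact ⟨τ, hτ, by linarith⟩
  set B : ℝ := dh o (pt T θ) + K with hB
  have hex2 : ∃ τ : ℕ → ℝ, ∀ᶠ n in (U : Filter ℕ), τ n ∈ Icc 0 (l n) ∧ τ n ∈ Icc 0 B ∧
      dh (pt T θ) (c n (τ n)) ≤ K := by
    classical
    refine ⟨fun n => if hn : ∃ τ ∈ Icc 0 (l n), dh (pt T θ) (c n τ) ≤ K then hn.choose else 0, ?_⟩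
    filter_upwards [hex] with n hn
    rw [dif_pos hn]
    obtain ⟨h1, h2⟩ := hn.choose_spec
    refine ⟨h1, ⟨h1.1, ?_⟩, h2⟩
    have h3 := (hc n).2.2 0 ⟨le_rfl, h1.1.trans h1.2⟩ _ h1
    rw [(hc n).1, zero_sub, abs_neg, abs_of_nonneg h1.1] at h3
    have h4 := h.upper o (c n hn.choose)
    have h5 := dh_tri o (pt T θ) (c n hn.choose)
    linarith
  obtain ⟨τ, hτ⟩ := hex2
  have hBc : IsCompact (Icc (0 : ℝ) B) := isCompact_Icc
  have hmem : ((U.map τ : Ultrafilter ℝ) : Filter ℝ) ≤ 𝓟 (Icc 0 B) := by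
    rw [le_principal_iff]
    change ∀ᶠ n in (U : Filter ℕ), τ n ∈ Icc 0 B
    filter_upwards [hτ] with n hn
    exact hn.2.1
  obtain ⟨σ, hσ, hσt⟩ := hBc.ultrafilter_le_nhds _ hmem
  have hσt' : Tendsto τ U (𝓝 σ) := hσt
  refine ⟨⟨σ, hσ.1⟩, ?_⟩
  change dh (pt T θ) (γ ⟨σ, hσ.1⟩) ≤ K
  have h1 : Tendsto (fun n => K + a * |τ n - σ| + dh (c n σ) (γ ⟨σ, hσ.1⟩)) U
      (𝓝 (K + a * |σ - σ| + dh (γ ⟨σ, hσ.1⟩) (γ ⟨σ, hσ.1⟩))) := by
    refine Tendsto.add (Tendsto.add tendsto_const_nhds ?_) ?_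
    · exact Tendsto.const_mul _ ((hσt'.sub_const σ).abs)
    · exact rayex_dh (hγ ⟨σ, hσ.1⟩) tendsto_const_nhds
  rw [sub_self, abs_zero, mul_zero, dh_self, add_zero, add_zero] at h1
  refine ge_of_tendsto h1 ?_
  filter_upwards [hτ, hle σ] with n hn hn2
  have h2 := dh_tri (pt T θ) (c n (τ n)) (γ ⟨σ, hσ.1⟩)
  have h3 := dh_tri (c n (τ n)) (c n σ) (γ ⟨σ, hσ.1⟩)
  have h4 := h.lower (c n (τ n)) (c n σ)
  rw [(hc n).2.2 _ hn.1 σ ⟨hσ.1, hn2⟩] at h4
  linarith [hn.2.2]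

end Pool.Agent.Lib.MP_529713_gt
end

section

/-!
# A plane which is far from all tubes
-/

namespace Pool.Agent.Lib.MP_529713_gt

open Filter Topology Set Matrix
open scoped ContDiff NNReal

lemma far_eta_ew (t : ℝ) : eta (ew t) (ew t) = 1 := by
  have h := Real.cosh_sq' t
  simp only [eta, ew, Matrix.cons_val_zero, Matrix.cons_val_one, Matrix.cons_val]
  nlinarith

lemma far_eta_comb (w u v : V4) (α β : ℝ) :
    eta w (α • u + β • v) = α * eta w u + β * eta w v := by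
  simp only [eta, Pi.add_apply, Pi.smul_apply, smul_eq_mul]
  ring

lemma far_eta_comm (u v : V4) : eta u v = eta v u := by
  simp only [eta]
  ring

theorem dist_far {G : RMetric} {V : Set V4} {m : ℝ → ℝ} {δ a t : ℝ} (hm : IsMu m)
    (ha : 3 / 2 ≤ a) (ha' : a ≤ 6) (hδ : 0 < δ) (hδ1 : δ ≤ 1) (hV : Sep V)
    (hfar : ∀ v ∈ V, 2002 ≤ |eta (ew t) v|)
    (hG : G.g = gg (1 / a ^ 2) (qq m δ a) V) {x y : V3} (hx : bb (ew t) x = 0)
    (hy : bb (ew t) y = 0) : rdist G x y ≤ 1 / a * dh x y := by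
  have ha0 : 0 < a := by linarith
  have key : ∀ z : V3, bb (ew t) z = 0 → gg (1 / a ^ 2) (qq m δ a) V z = (1 / a ^ 2) • gh z := by
    intro z hz
    refine gg_far (fun b hb => qq_far hm ha ha' hδ hδ1 hb) fun v hv => ?_
    have h1 := eta_le_bb (far_eta_ew t) (hV.1 v hv) z
    rw [hz] at h1
    have h2 := hfar v hv
    have h3 : |eta (ew t) v| ^ 2 = eta (ew t) v ^ 2 := sq_abs _
    have h4 : |bb v z| ^ 2 = bb v z ^ 2 := sq_abs _
    by_contra hcon
    rw [not_le] at hcon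
    have h5 : 0 ≤ |bb v z| := abs_nonneg _
    nlinarith
  obtain ⟨γ, hγ, h0, h1, hs, hl⟩ := exists_hyp_geod x y
  have hplane : ∀ τ, bb (ew t) (γ τ) = 0 := fun τ => by
    obtain ⟨α, β, h⟩ := hl τ
    have e1' : eta (ew t) (lift x) = 0 := hx
    have e2' : eta (ew t) (lift y) = 0 := hy
    rw [bb, h, far_eta_comb, e1', e2']
    ring
  have h2 := rdist_le_len G hγ
  rw [h0, h1] at h2
  refine h2.trans (le_of_eq ?_)
  have e : ∀ τ, Real.sqrt (G.g (γ τ) (deriv γ τ) (deriv γ τ)) = 1 / a * dh x y := fun τ => by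
    have : G.g (γ τ) (deriv γ τ) (deriv γ τ) = (1 / a) ^ 2 * gh (γ τ) (deriv γ τ) (deriv γ τ) := by
      rw [hG, key _ (hplane τ)]
      have : ((1 / a ^ 2) • gh (γ τ)) (deriv γ τ) (deriv γ τ) =
        (1 / a ^ 2) * gh (γ τ) (deriv γ τ) (deriv γ τ) := rfl
      rw [this]
      ring
    rw [this, Real.sqrt_mul (by positivity), Real.sqrt_sq (by positivity), hs]
  unfold len
  simp only [e]
  simp

/-- the points `pt T θ` with `θ` in the circle at infinity of the plane with normal `ew t` are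
close to the plane -/
theorem far_near (t : ℝ) : ∃ C : ℝ, ∀ θ : V3, ‖θ‖ = 1 → Real.cosh t * θ 0 = Real.sinh t →
    ∀ T : ℝ, 0 ≤ T → ∃ z : V3, bb (ew t) z = 0 ∧ dh (pt T θ) z ≤ C := by
  refine ⟨|t|, fun θ hθ hθt T hT => ?_⟩
  set x := pt T θ with hx
  set b := bb (ew t) x with hb
  have hhx : hh x = Real.cosh T := by
    have h1 := hh_sq x
    have h2 : ‖x‖ ^ 2 = Real.sinh T ^ 2 := by
      rw [hx, pt, norm_smul, hθ, mul_one, Real.norm_eq_abs, sq_abs]
    rw [h2, ← Real.cosh_sq'] at h1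
    exact (sq_eq_sq₀ (lor_hh_pos x).le (Real.cosh_pos T).le).1 h1
  have hbval : b = -(Real.sinh t * (Real.cosh T - Real.sinh T)) := by
    have e : b = -(Real.sinh t * hh x) + Real.cosh t * x 0 := by
      rw [hb, bb]
      simp [eta, ew, lift]
    have e2 : x 0 = Real.sinh T * θ 0 := by
      rw [hx, pt]; simp
    rw [e, hhx, e2]
    linear_combination Real.sinh T * hθt
  have hexp : Real.cosh T - Real.sinh T = Real.exp (-T) := Real.cosh_sub_sinh T
  have hb2 : b ^ 2 ≤ Real.sinh t ^ 2 := by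
    rw [hbval, hexp]
    have h1 : Real.exp (-T) ≤ 1 := by
      rw [← Real.exp_zero]
      exact Real.exp_le_exp.2 (by linarith)
    have h2 : 0 < Real.exp (-T) := Real.exp_pos _
    have h3 : Real.exp (-T) ^ 2 ≤ 1 := by nlinarith
    have h4 : 0 ≤ Real.sinh t ^ 2 := sq_nonneg _
    nlinarith
  set r := Real.sqrt (1 + b ^ 2) with hr
  have hr0 : 0 < r := Real.sqrt_pos.2 (by positivity)
  have hr2 : r ^ 2 = 1 + b ^ 2 := Real.sq_sqrt (by positivity)
  set w : V4 := (1 / r) • lift x + (-(b / r)) • ew t with hw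
  have c1 : eta (lift x) (lift x) = -1 := eta_lift_self x
  have c2 : eta (ew t) (lift x) = b := rfl
  have c3 : eta (lift x) (ew t) = b := by rw [far_eta_comm]; exact c2
  have c4 : eta (ew t) (ew t) = 1 := far_eta_ew t
  have d1 : eta (lift x) w = -r := by
    rw [hw, far_eta_comb, c1, c3]
    field_simp
    linarith
  have d2 : eta (ew t) w = 0 := by
    rw [hw, far_eta_comb, c2, c4]
    ring
  have d3 : eta w w = -1 := by
    have : eta w w = 1 / r * eta w (lift x) + (-(b / r)) * eta w (ew t) := by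
      conv_lhs => rw [hw]
      rw [← far_eta_comb]
    rw [this, far_eta_comm w (lift x), far_eta_comm w (ew t), d1, d2]
    field_simp
    ring
  have hw0 : 0 < w 0 := lor_future c1 d3 (by simpa [lift] using lor_hh_pos x) (by
    rw [d1]; linarith)
  set z : V3 := WithLp.toLp 2 fun i : Fin 3 => w i.succ with hz
  have hlz : lift z = w := lift_of_eta d3 hw0
  refine ⟨z, ?_, ?_⟩
  · rw [bb, hlz, d2]
  · have h1 : PP x z = r := by
      have := eta_lift x z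
      rw [hlz, d1] at this
      linarith
    have h2 : r ≤ Real.cosh t := by
      rw [hr]
      refine Real.sqrt_le_iff.2 ⟨(Real.cosh_pos t).le, ?_⟩
      rw [Real.cosh_sq' t]
      linarith
    rw [← h1, ← cosh_dh, Real.cosh_le_cosh, abs_of_nonneg (dh_nonneg x z)] at h2
    exact h2

end Pool.Agent.Lib.MP_529713_gt
end

section

/-!
# Existence of the lattice
-/

namespace Pool.Agent.Lib.MP_529713_gt

open Filter Topology Set Matrix
open scoped ContDiff NNReal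

theorem exists_lat : ∃ (L : Set (Matrix (Fin 4) (Fin 4) ℝ)) (t : ℝ), IsLat L t := by
  obtain ⟨t, ht⟩ := lev_far
  refine ⟨LL, t, ?_⟩
  constructor
  · rintro B ⟨A, A', h, -, rfl⟩; exact isLor_std h
  · exact ⟨1, 1, IsO.one, Lev.one _, std_one.symm⟩
  · rintro X ⟨A, A', h, hl, rfl⟩ Y ⟨B, B', h', hl', rfl⟩
    refine ⟨A * B, A' * B', h.mul h', ?_, std_mul.symm⟩
    have := Lev.mul (n := 5000) (A := A) (A' := A') (B := B) (B' := B) (by exact_mod_cast hl)
    have := Lev.mul (n := 5000) (by exact_mod_cast hl) (by exact_mod_cast hl')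
    exact_mod_cast this
  · rintro X ⟨A, A', h, hl, rfl⟩
    obtain ⟨B, B', hB, h1, h2, h3, h4⟩ := h.inv
    refine ⟨std B, ⟨B, B', hB, ?_, rfl⟩, ?_, ?_⟩
    · have := Lev.inv (n := 5000) h hB (by exact_mod_cast hl) h1 h3
      exact_mod_cast this
    · rw [← std_mul, h1, std_one]
    · rw [← std_mul, h2, std_one]
  · rintro X ⟨A, A', h, hl, rfl⟩ x hx
    have := lev_free (n := 5000) (by norm_num) h (by exact_mod_cast hl) hx
    rw [this, std_one]
  · intro R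
    refine (isO_finite R).subset ?_
    rintro B ⟨⟨A, A', h, -, rfl⟩, hR⟩
    exact ⟨⟨A, A', h, rfl⟩, hR⟩
  · obtain ⟨R, hR⟩ := lev_cocompact (n := 5000) (by norm_num) isO_cocompact
    refine ⟨R, fun x => ?_⟩
    obtain ⟨A, A', h, hl, hx⟩ := hR x
    exact ⟨std A, ⟨A, A', h, by exact_mod_cast hl, rfl⟩, hx⟩
  · rintro X ⟨A, A', h, hl, rfl⟩; exact lev_sep h hl
  · rintro X ⟨A, A', h, hl, rfl⟩; exact ht A A' h hl

end Pool.Agent.Lib.MP_529713_gt
end

section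

/-!
# Curvature of the tube metrics
-/

namespace Pool.Agent.Lib.MP_529713_gt

open Filter Topology Set Matrix
open scoped ContDiff NNReal

lemma curv_li {L : V3 →L[ℝ] V3} (hL : Function.Injective L) {u v : V3} :
    LinearIndependent ℝ ![L u, L v] ↔ LinearIndependent ℝ ![u, v] := by
  rw [LinearIndependent.pair_iff, LinearIndependent.pair_iff]
  have h : ∀ s t : ℝ, s • L u + t • L v = 0 ↔ s • u + t • v = 0 := by
    intro s t
    rw [← map_smul, ← map_smul, ← map_add]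
    constructor
    · intro h
      exact hL (by rw [h, map_zero])
    · intro h
      rw [h, map_zero]
  simp only [h]

lemma curv_warp_le {G : RMetric} {k : ℝ} (hk : 0 < k) {W : ℝ → ℝ} (hW : ContDiff ℝ ∞ W)
    (hW0 : ∀ r, 0 < W r)
    (h : ∀ y u w : V3, G.g y u w = k * (u 0 * w 0 + W (y 0) ^ 2 * g2 y u w))
    (h1 : ∀ r, k * W r ≤ deriv (deriv W) r) (h2 : ∀ r, k * W r ^ 2 ≤ 1 + deriv W r ^ 2)
    (y u v : V3) (huv : LinearIndependent ℝ ![u, v]) : sec G y u v ≤ -1 := by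
  rw [sec_warp hk hW hW0 h y u v _ _ rfl rfl]
  obtain ⟨f1, f2, f3⟩ := g2_facts y u v (hW0 (y 0)) huv
  set X := (u 0 * u 0 + W (y 0) ^ 2 * g2 y u u) * (v 0 * v 0 + W (y 0) ^ 2 * g2 y v v)
      - (u 0 * v 0 + W (y 0) ^ 2 * g2 y u v) ^ 2 with hX
  set Y := W (y 0) ^ 4 * (g2 y u u * g2 y v v - g2 y u v ^ 2) with hY
  have hw := hW0 (y 0)
  have a1 : k ≤ deriv (deriv W) (y 0) / W (y 0) := by
    rw [le_div_iff₀ hw]; exact h1 _
  have a2 : k ≤ (1 + deriv W (y 0) ^ 2) / W (y 0) ^ 2 := by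
    rw [le_div_iff₀ (by positivity)]; exact h2 _
  have hkX : 0 < k * X := mul_pos hk f3
  rw [div_le_iff₀ hkX]
  have b1 : k * (X - Y) ≤ deriv (deriv W) (y 0) / W (y 0) * (X - Y) :=
    mul_le_mul_of_nonneg_right a1 (by linarith)
  have b2 : k * Y ≤ (1 + deriv W (y 0) ^ 2) / W (y 0) ^ 2 * Y :=
    mul_le_mul_of_nonneg_right a2 f1
  linarith

lemma curv_fermi_le {G G' : RMetric} (hG : ∀ y u v : V3, G.g y u v =
      G'.g (fermi y) (fderiv ℝ fermi y u) (fderiv ℝ fermi y v))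
    (hle : ∀ y u v : V3, LinearIndependent ℝ ![u, v] → sec G y u v ≤ -1)
    (x u v : V3) (huv : LinearIndependent ℝ ![u, v]) : sec G' x u v ≤ -1 := by
  obtain ⟨y, rfl⟩ := fermi_surj x
  obtain ⟨u', rfl⟩ := (fermi_bij y).2 u
  obtain ⟨v', rfl⟩ := (fermi_bij y).2 v
  rw [← sec_pull fermi_smooth (G := G) (Eventually.of_forall fermi_bij)
    (Eventually.of_forall hG)]
  exact hle _ _ _ ((curv_li (fermi_bij y).1).1 huv)

lemma curv_sep_e1 : Sep {e1} := by
  refine ⟨?_, ?_⟩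
  · intro v hv
    rw [Set.mem_singleton_iff] at hv
    subst hv
    simp [eta, e1]
  · intro v hv w hw hne
    rw [Set.mem_singleton_iff] at hv hw
    exact absurd (hv.trans hw.symm) hne

lemma curv_gg_e1 (k : ℝ) (q : ℝ → ℝ) (x : V3) :
    gg k q {e1} x = k • (gh x + tube q e1 x) := by
  unfold gg
  rw [finsum_mem_singleton]

lemma curv_gg_empty (k : ℝ) (q : ℝ → ℝ) (x : V3) :
    gg k q ∅ x = k • gh x := by
  unfold gg
  rw [finsum_mem_empty, add_zero]

lemma curv_tube_act {A : Matrix (Fin 4) (Fin 4) ℝ} (hA : IsLor A) (q : ℝ → ℝ) (v : V4)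
    (x u w : V3) : tube q (A *ᵥ v) (act A x) (fderiv ℝ (act A) x u) (fderiv ℝ (act A) x w) =
      tube q v x u w := by
  unfold tube
  simp only [bb_act hA, _root_.smul_apply, _root_.sub_apply,
    ContinuousLinearMap.smulRight_apply, gh_act hA, fderiv_bb_act hA]

theorem curv {G : RMetric} {V : Set V4} {m : ℝ → ℝ} {δ a : ℝ} (hm : IsMu m) (ha : 3 / 2 ≤ a)
    (ha' : a ≤ 6) (hδ : 0 < δ) (hδ1 : δ ≤ 1) (hδa : 6 / 5 ≤ δ * a) (hV : Sep V) (he : e1 ∈ V)
    (hVA : ∀ v ∈ V, ∃ A B : Matrix (Fin 4) (Fin 4) ℝ, IsLor A ∧ IsLor B ∧ A * B = 1 ∧ B * A = 1 ∧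
      A *ᵥ e1 = v)
    (hG : G.g = gg (1 / a ^ 2) (qq m δ a) V) : CurvNegOne G := by
  have ha0 : 0 < a := by linarith
  set k : ℝ := 1 / a ^ 2 with hkdef
  set q : ℝ → ℝ := qq m δ a with hqdef
  have hk : 0 < k := by positivity
  have hk1 : k ≤ 1 := by
    rw [hkdef, div_le_one (by positivity)]
    nlinarith
  have hq : ∀ b, 2000 ≤ |b| → q b = 0 := fun b hb => qq_far hm ha ha' hδ hδ1 hb
  have hq0 : ∀ b, 0 ≤ q b := qq_nonneg hm
  have hs : ContDiff ℝ ∞ q := qq_smooth hm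
  obtain ⟨Ge, hGe⟩ := exists_rmetric curv_sep_e1 hs hq hq0 hk
  obtain ⟨G0, hG0⟩ := exists_rmetric (V := ∅) (q := q) (k := k)
    ⟨fun v hv => absurd hv (Set.notMem_empty v), fun v hv => absurd hv (Set.notMem_empty v)⟩
    hs hq hq0 hk
  obtain ⟨Gw, hGw⟩ := exists_warp hk (WW_smooth (δ := δ) (a := a) hm) (WW_pos hm)
  obtain ⟨Gc, hGc⟩ := exists_warp hk Real.contDiff_cosh Real.cosh_pos
  have hGe' : ∀ x, Ge.g x = k • (gh x + tube q e1 x) := by
    intro x; rw [hGe, curv_gg_e1]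
  have hG0' : ∀ x, G0.g x = k • gh x := by
    intro x; rw [hG0, curv_gg_empty]
  -- pull backs
  have hpe : ∀ y u v : V3, Gw.g y u v =
      Ge.g (fermi y) (fderiv ℝ fermi y u) (fderiv ℝ fermi y v) := by
    intro y u v
    rw [hGw, hGe']
    simp only [_root_.smul_apply, _root_.add_apply, gh_fermi,
      tube_fermi, WW_sq, smul_eq_mul]
    ring
  have hp0 : ∀ y u v : V3, Gc.g y u v =
      G0.g (fermi y) (fderiv ℝ fermi y u) (fderiv ℝ fermi y v) := by
    intro y u v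
    rw [hGc, hG0']
    simp only [_root_.smul_apply, gh_fermi, smul_eq_mul]
  -- curvature bounds of the models
  have hle_e : ∀ x u v : V3, LinearIndependent ℝ ![u, v] → sec Ge x u v ≤ -1 := by
    refine curv_fermi_le hpe ?_
    refine curv_warp_le hk (WW_smooth hm) (WW_pos hm) hGw ?_ ?_
    · intro r
      have := WW_convex hm ha hδ r
      rw [hkdef]
      calc 1 / a ^ 2 * WW m δ a r = WW m δ a r / a ^ 2 := by ring
        _ ≤ _ := this
    · intro r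
      have := WW_tan hm ha hδ hδ1 hδa r
      rw [hkdef]
      calc 1 / a ^ 2 * WW m δ a r ^ 2 = WW m δ a r ^ 2 / a ^ 2 := by ring
        _ ≤ _ := this
  have hle_0 : ∀ x u v : V3, LinearIndependent ℝ ![u, v] → sec G0 x u v ≤ -1 := by
    refine curv_fermi_le hp0 ?_
    refine curv_warp_le hk Real.contDiff_cosh Real.cosh_pos hGc ?_ ?_
    · intro r
      rw [Real.deriv_cosh, Real.deriv_sinh]
      have := Real.cosh_pos r
      nlinarith
    · intro r
      rw [Real.deriv_cosh]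
      have h1 := Real.cosh_sq r
      have h2 := Real.cosh_pos r
      nlinarith [sq_nonneg (Real.cosh r)]
  refine ⟨?_, ?_⟩
  · intro x u v huv
    rcases gg_local (k := k) hV hq x with ⟨w, hw, hloc⟩ | hloc
    · obtain ⟨A, B, hA, hB, hAB, hBA, rfl⟩ := hVA w hw
      have hx : act A (act B x) = x := by rw [← act_mul hA hB, hAB, act_one]
      have hbij := fderiv_act_bijective hA hB hAB hBA
      have hpull : ∀ᶠ y in 𝓝 (act B x), ∀ u v : V3, Ge.g y u v =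
          G.g (act A y) (fderiv ℝ (act A) y u) (fderiv ℝ (act A) y v) := by
        have hc : Tendsto (act A) (𝓝 (act B x)) (𝓝 x) := by
          have := (act_smooth A).continuous.tendsto (act B x)
          rwa [hx] at this
        filter_upwards [hc.eventually hloc] with y hy u v
        rw [hG, hy, hGe']
        simp only [_root_.smul_apply, _root_.add_apply, gh_act hA,
          curv_tube_act hA]
      obtain ⟨u', hu'⟩ := (hbij (act B x)).2 u
      obtain ⟨v', hv'⟩ := (hbij (act B x)).2 v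
      have hsec := sec_pull (act_smooth A) (Eventually.of_forall hbij) hpull u' v'
      rw [hx, hu', hv'] at hsec
      rw [← hsec]
      apply hle_e
      rw [← curv_li (hbij (act B x)).1, hu', hv']
      exact huv
    · have h1 : G.g =ᶠ[𝓝 x] G0.g := by
        filter_upwards [hloc] with y hy
        rw [hG, hy, hG0']
      rw [sec_congr h1]
      exact hle_0 x u v huv
  · -- equality
    have hf0 : fermi 0 = 0 := by
      ext i
      fin_cases i <;> simp [fermi]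
    have hb0 : bb e1 0 = 0 := by
      rw [← hf0, bb_fermi]
      simp
    have hbc : Continuous (bb e1) := by
      have h1 : Continuous lift := lift_smooth.continuous
      unfold bb eta
      fun_prop
    have h1 : G.g =ᶠ[𝓝 0] Ge.g := by
      have h2 : ∀ᶠ y in 𝓝 (0 : V3), |bb e1 y| < 2001 := by
        have h3 : Tendsto (fun y => |bb e1 y|) (𝓝 0) (𝓝 |bb e1 0|) :=
          (hbc.abs).tendsto 0
        rw [hb0, abs_zero] at h3
        exact h3.eventually (gt_mem_nhds (by norm_num))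
      filter_upwards [h2] with y hy
      rw [hG, hGe']
      unfold gg
      congr 2
      rw [finsum_eq_single _ e1]
      · simp [he]
      · intro v hv
        by_cases hvV : v ∈ V
        · have h4 : 2000 ≤ |bb v y| := by
            by_contra hcon
            rw [not_le] at hcon
            exact hv (tube_unique hV hvV he (by linarith) hy.le)
          have h5 : tube q v y = 0 := by
            unfold tube
            rw [hq _ h4]
            ext e f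
            simp
          simp [hvV, h5]
        · simp [hvV]
    have hbij := fermi_bij 0
    refine ⟨0, fderiv ℝ fermi 0 (EuclideanSpace.single 0 1),
      fderiv ℝ fermi 0 (EuclideanSpace.single 1 1), ?_, ?_⟩
    · rw [curv_li hbij.1, LinearIndependent.pair_iff]
      intro s t hst
      have e0 := congrArg (fun z : V3 => z 0) hst
      have e1 := congrArg (fun z : V3 => z 1) hst
      simp at e0 e1
      exact ⟨e0, e1⟩
    · rw [sec_congr h1]
      have h2 := sec_pull fermi_smooth (G := Gw) (G' := Ge) (x := 0)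
        (Eventually.of_forall fermi_bij) (Eventually.of_forall hpe)
        (EuclideanSpace.single 0 1) (EuclideanSpace.single 1 1)
      rw [hf0] at h2
      rw [← h2, sec_warp hk (WW_smooth hm) (WW_pos hm) hGw _ _ _ _ _ rfl rfl]
      have hz := WW_zero hm ha hδ hδa
      have hW0 : WW m δ a 0 = δ * a := by
        have := hz.self_of_nhds
        simpa using this
      have hd1 : deriv (WW m δ a) =ᶠ[𝓝 0] fun r => δ * Real.sinh (r / a) := by
        have h3 : deriv (WW m δ a) =ᶠ[𝓝 0] deriv fun r => δ * a * Real.cosh (r / a) :=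
          EventuallyEq.deriv hz
        refine h3.trans (Eventually.of_forall fun r => ?_)
        exact (hasDeriv_A ha0 r).deriv
      have hd2 : deriv (deriv (WW m δ a)) 0 = δ / a := by
        rw [hd1.deriv_eq, (hasDeriv_A' ha0 0).deriv]
        simp
        field_simp
      simp only [PiLp.zero_apply, hd2, hW0]
      simp [g2]
      rw [hkdef]
      field_simp

end Pool.Agent.Lib.MP_529713_gt
end

section

namespace Pool.Agent.Lib.MP_529713_gt

open Filter Topology Set Matrix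
open scoped ContDiff NNReal

/-! ## General facts on the Hausdorff dimension of visual boundaries -/

section dimension

variable {a : ℝ} {d d' : V3 → V3 → ℝ} {o : V3}

/-- the end point of a ray -/
noncomputable def ept (h : GeoD a d) (o : V3) (ξ : Ray d o) : V3 := (ray_ends h o ξ).choose

lemma ept_norm (h : GeoD a d) (ξ : Ray d o) : ‖ept h o ξ‖ = 1 := (ray_ends h o ξ).choose_spec.1

lemma ept_ends (h : GeoD a d) (ξ : Ray d o) : EndsAt ξ.1 (ept h o ξ) :=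
  (ray_ends h o ξ).choose_spec.2

lemma ept_eq (h : GeoD a d) (ξ : Ray d o) {θ : V3} (hθ : EndsAt ξ.1 θ) : ept h o ξ = θ :=
  tendsto_nhds_unique (ept_ends h ξ).2 hθ.2

/-- the ray with a given end point -/
noncomputable def rayTo (h : GeoD a d) (o : V3) {θ : V3} (hθ : ‖θ‖ = 1) : Ray d o :=
  (ray_exists h o hθ).choose

lemma rayTo_ends (h : GeoD a d) {θ : V3} (hθ : ‖θ‖ = 1) : EndsAt (rayTo h o hθ).1 θ :=
  (ray_exists h o hθ).choose_spec

/-- Comparison of two distances: if `d ≤ μ d'` then the visual distance of `d'` is bounded by a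
power of the visual distance of `d`. -/
lemma vis_compare (a : ℝ) (o : V3) : ∃ C : ℝ, 0 ≤ C ∧ ∀ d d' : V3 → V3 → ℝ, GeoD a d → GeoD a d' →
    ∀ μ : ℝ, 1 ≤ μ → (∀ x y, d x y ≤ μ * d' x y) → ∀ (ξ η : Ray d o) (ξ' η' : Ray d' o),
    ∀ θ₁ θ₂ : V3, ‖θ₁‖ = 1 → ‖θ₂‖ = 1 → EndsAt ξ.1 θ₁ → EndsAt η.1 θ₂ → EndsAt ξ'.1 θ₁ →
      EndsAt η'.1 θ₂ → vis d' o ξ' η' ≤ C * vis d o ξ η ^ (1 / μ) := by
  obtain ⟨C, hC⟩ := vis_ctr a o
  refine ⟨Real.exp (2 * |C|), (Real.exp_pos _).le, ?_⟩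
  intro d d' h h' μ hμ hd ξ η ξ' η' θ₁ θ₂ h₁ h₂ e₁ e₂ e₁' e₂'
  have hμ0 : 0 < μ := by linarith
  by_cases hne : θ₁ = θ₂
  · subst hne
    rw [vis_same h' o ξ' η' h₁ e₁' e₂']
    exact mul_nonneg (Real.exp_pos _).le (Real.rpow_nonneg (vis_nonneg h o ξ η) _)
  have k1 := (hC d h ξ η θ₁ θ₂ h₁ h₂ hne e₁ e₂).1
  have k2 := (hC d' h' ξ' η' θ₁ θ₂ h₁ h₂ hne e₁' e₂').2
  refine k2.trans ?_
  have k3 : Real.exp (-d o (ctr θ₁ θ₂) - C) ^ (1 / μ) ≤ vis d o ξ η ^ (1 / μ) :=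
    Real.rpow_le_rpow (Real.exp_pos _).le k1 (by positivity)
  refine le_trans ?_ (mul_le_mul_of_nonneg_left k3 (Real.exp_pos _).le)
  rw [← Real.exp_mul, ← Real.exp_add]
  apply Real.exp_le_exp.2
  have k4 := hd o (ctr θ₁ θ₂)
  have k5 : d o (ctr θ₁ θ₂) / μ ≤ d' o (ctr θ₁ θ₂) := by
    rw [div_le_iff₀ hμ0]; linarith
  have k6 : -|C| ≤ -C / μ := by
    rw [le_div_iff₀ hμ0]
    have := le_abs_self C
    have := abs_nonneg C
    nlinarith
  have k7 : (-d o (ctr θ₁ θ₂) - C) * (1 / μ) = -(d o (ctr θ₁ θ₂) / μ) + -C / μ := by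
    field_simp; ring
  rw [k7]
  have := le_abs_self C
  linarith

lemma HNull_compare {μ s : ℝ} (h : GeoD a d) (h' : GeoD a d') (hμ : 1 ≤ μ)
    (hd : ∀ x y, d x y ≤ μ * d' x y) (hs : 0 < s) (hn : HNull (vis d o) s) :
    HNull (vis d' o) (s * μ) := by
  obtain ⟨C, hC0, hC⟩ := vis_compare a o
  have hμ0 : 0 < μ := by linarith
  have := HNull_holder (δ := vis d o) (δ' := vis d' o)
    (fun ξ' => rayTo h o (ept_norm h' ξ')) hC0 (α := 1 / μ) (by positivity) hs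
    (fun x y => vis_nonneg h o x y)
    (fun x y => hC d d' h h' μ hμ hd _ _ x y _ _ (ept_norm h' x) (ept_norm h' y)
      (rayTo_ends h _) (rayTo_ends h _) (ept_ends h' x) (ept_ends h' y)) hn
  have e : s / (1 / μ) = s * μ := by field_simp
  rwa [e] at this

/-- upper bound for the visual distance by the chordal distance -/
lemma vis_upper (a : ℝ) (o : V3) : ∃ C : ℝ, 0 ≤ C ∧ ∀ d : V3 → V3 → ℝ, GeoD a d →
    ∀ (ξ η : Ray d o), ∀ θ₁ θ₂ : V3, ‖θ₁‖ = 1 → ‖θ₂‖ = 1 → EndsAt ξ.1 θ₁ → EndsAt η.1 θ₂ →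
      vis d o ξ η ≤ C * ‖θ₁ - θ₂‖ ^ (1 / a) := by
  obtain ⟨C, hC⟩ := vis_ctr a o
  refine ⟨Real.exp (|C| + dh 0 o), (Real.exp_pos _).le, ?_⟩
  intro d h ξ η θ₁ θ₂ h₁ h₂ e₁ e₂
  have ha : 0 < a := by linarith [h.one_le]
  by_cases hne : θ₁ = θ₂
  · subst hne
    rw [vis_same h o ξ η h₁ e₁ e₂]
    positivity
  refine (hC d h ξ η θ₁ θ₂ h₁ h₂ hne e₁ e₂).2.trans ?_
  have hpos : 0 < ‖θ₁ - θ₂‖ := norm_pos_iff.2 (sub_ne_zero.2 hne)
  set T : ℝ := max 0 (-Real.log ‖θ₁ - θ₂‖) with hT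
  have hT0 : 0 ≤ T := le_max_left _ _
  have hT1 : -Real.log ‖θ₁ - θ₂‖ ≤ T := le_max_right _ _
  have k1 : T / a - dh 0 o ≤ d o (ctr θ₁ θ₂) := by
    have k2 := h.lower 0 (ctr θ₁ θ₂)
    have k3 : dh 0 (ctr θ₁ θ₂) = T := dh_zero_pt h₁ hT0
    have k4 := h.tri 0 o (ctr θ₁ θ₂)
    have k5 := h.upper 0 o
    have k6 : T / a ≤ d 0 (ctr θ₁ θ₂) := by
      rw [div_le_iff₀ ha]; linarith
    linarith
  have k2 : Real.exp (|C| + dh 0 o) * ‖θ₁ - θ₂‖ ^ (1 / a) =
      Real.exp (|C| + dh 0 o + Real.log ‖θ₁ - θ₂‖ * (1 / a)) := by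
    rw [Real.rpow_def_of_pos hpos, ← Real.exp_add]
  rw [k2]
  apply Real.exp_le_exp.2
  have k3 : -T / a ≤ Real.log ‖θ₁ - θ₂‖ * (1 / a) := by
    rw [div_eq_mul_one_div]
    exact mul_le_mul_of_nonneg_right (by linarith) (by positivity)
  have := le_abs_self C
  have k4 : -T / a = -(T / a) := by ring
  linarith

/-- The dimension is at most `2 a`. -/
lemma HNull_of_lt {s : ℝ} (h : GeoD a d) (hs : 2 * a < s) : HNull (vis d o) s := by
  obtain ⟨C, hC0, hC⟩ := vis_upper a o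
  have ha : 0 < a := by linarith [h.one_le]
  have hs' : 2 < s / a := by rw [lt_div_iff₀ ha]; linarith
  have := HNull_holder (δ := fun x y : {x : V3 // ‖x‖ = 1} => ‖x.1 - y.1‖) (δ' := vis d o)
    (fun ξ => ⟨ept h o ξ, ept_norm h ξ⟩) hC0 (α := 1 / a) (by positivity) (s := s / a)
    (by linarith) (fun x y => norm_nonneg _)
    (fun x y => hC d h x y _ _ (ept_norm h x) (ept_norm h y) (ept_ends h x) (ept_ends h y))
    (sphere_null hs')
  have e : s / a / (1 / a) = s := by field_simp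
  rwa [e] at this

/-- lower bound for the visual distance -/
lemma vis_lower (a : ℝ) (o : V3) : ∃ C : ℝ, ∀ d : V3 → V3 → ℝ, GeoD a d →
    ∀ (ξ η : Ray d o), ∀ θ₁ θ₂ : V3, ‖θ₁‖ = 1 → ‖θ₂‖ = 1 → θ₁ ≠ θ₂ → EndsAt ξ.1 θ₁ →
      EndsAt η.1 θ₂ → ∀ l : ℝ, 0 < l → ∀ K : ℝ,
      d o (ctr θ₁ θ₂) ≤ l * max 0 (-Real.log ‖θ₁ - θ₂‖) + K →
        ‖θ₁ - θ₂‖ ≤ 2 * Real.exp ((C + K) / l) * vis d o ξ η ^ (1 / l) := by
  obtain ⟨C, hC⟩ := vis_ctr a o
  refine ⟨C, ?_⟩
  intro d h ξ η θ₁ θ₂ h₁ h₂ hne e₁ e₂ l hl K hK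
  have k1 := (hC d h ξ η θ₁ θ₂ h₁ h₂ hne e₁ e₂).1
  have hpos : 0 < ‖θ₁ - θ₂‖ := norm_pos_iff.2 (sub_ne_zero.2 hne)
  set T : ℝ := max 0 (-Real.log ‖θ₁ - θ₂‖) with hT
  have k2 : Real.exp (-(l * T + K) - C) ≤ vis d o ξ η :=
    (Real.exp_le_exp.2 (by linarith)).trans k1
  have k3 : Real.exp (-(l * T + K) - C) ^ (1 / l) ≤ vis d o ξ η ^ (1 / l) :=
    Real.rpow_le_rpow (Real.exp_pos _).le k2 (by positivity)
  have k4 : ‖θ₁ - θ₂‖ ≤ 2 * Real.exp (-T) := by
    have n2 : ‖θ₁ - θ₂‖ ≤ 2 := (norm_sub_le _ _).trans (by rw [h₁, h₂]; norm_num)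
    rcases le_total 0 (-Real.log ‖θ₁ - θ₂‖) with h0 | h0
    · rw [hT, max_eq_right h0, neg_neg, Real.exp_log hpos]; linarith
    · rw [hT, max_eq_left h0]; simpa using n2
  refine k4.trans ?_
  rw [mul_assoc]
  refine mul_le_mul_of_nonneg_left ?_ (by norm_num)
  refine le_trans (le_of_eq ?_) (mul_le_mul_of_nonneg_left k3 (Real.exp_pos _).le)
  rw [← Real.exp_mul, ← Real.exp_add]
  congr 1
  field_simp
  ring

/-- The dimension is at least `b` when the hyperbolic plane with normal `ew t` carries the metric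
`dh / b`. -/
lemma not_HNull_of_lt {s b t K : ℝ} (h : GeoD a d) (hb : 0 < b)
    (hd : ∀ x y, bb (ew t) x = 0 → bb (ew t) y = 0 → d x y ≤ 1 / b * dh x y + K)
    (hs : 0 < s) (hsb : s ≤ b) : ¬ HNull (vis d o) s := by
  intro hn
  obtain ⟨C, hC⟩ := vis_lower a o
  obtain ⟨C1, hC1⟩ := far_near t
  set c : ℝ := Real.sinh t / Real.cosh t with hc
  have hct : 0 < Real.cosh t := Real.cosh_pos t
  have hc1 : |c| < 1 := by
    rw [hc, abs_div, abs_of_pos hct, div_lt_one hct]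
    have := Real.cosh_sq t
    exact abs_lt_of_sq_lt_sq (by linarith) hct.le
  obtain ⟨z0, hz0, hz0'⟩ : ∃ z0 : V3, bb (ew t) z0 = 0 ∧ True := by
    obtain ⟨z, hz, -⟩ := hC1 (!₂[c, Real.sqrt (1 - c ^ 2), 0]) (by
      rw [EuclideanSpace.norm_eq]
      simp only [Fin.sum_univ_three]
      have : c ^ 2 ≤ 1 := by
        have := abs_lt.1 hc1
        nlinarith
      simp [Real.sq_sqrt (sub_nonneg.2 this)]) (by simp [hc]; field_simp) 0 le_rfl
    exact ⟨z, hz, trivial⟩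
  -- bound for the distance to the branching point
  set K' : ℝ := dh o z0 + (1 / b) * (dh 0 z0 + C1) + K + C1 with hK'
  have key : ∀ θ₁ θ₂ : V3, ‖θ₁‖ = 1 → θ₁ 0 = c →
      d o (ctr θ₁ θ₂) ≤ 1 / b * max 0 (-Real.log ‖θ₁ - θ₂‖) + K' := by
    intro θ₁ θ₂ h₁ h0
    set T : ℝ := max 0 (-Real.log ‖θ₁ - θ₂‖) with hT
    have hT0 : 0 ≤ T := le_max_left _ _
    obtain ⟨z, hz, hz1⟩ := hC1 θ₁ h₁ (by rw [h0, hc]; field_simp) T hT0
    have e1 : ctr θ₁ θ₂ = pt T θ₁ := rfl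
    have e2 : dh 0 (pt T θ₁) = T := dh_zero_pt h₁ hT0
    have k1 := h.tri o z0 (ctr θ₁ θ₂)
    have k2 := h.tri z0 z (ctr θ₁ θ₂)
    have k3 := hd z0 z hz0 hz
    have k4 := h.upper o z0
    have k5 := h.upper z (ctr θ₁ θ₂)
    have k6 : dh z (ctr θ₁ θ₂) ≤ C1 := by rw [dh_comm, e1]; exact hz1
    have k7 : dh z0 z ≤ dh 0 z0 + T + C1 := by
      have j1 := dh_tri z0 0 z
      have j2 := dh_tri 0 (pt T θ₁) z
      rw [dh_comm z0 0] at j1
      linarith
    have k8 : 1 / b * dh z0 z ≤ 1 / b * (dh 0 z0 + T + C1) :=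
      mul_le_mul_of_nonneg_left k7 (by positivity)
    have k9 : 1 / b * (dh 0 z0 + T + C1) = 1 / b * T + 1 / b * (dh 0 z0 + C1) := by ring
    rw [hK']
    linarith
  have := HNull_holder (δ := vis d o)
    (δ' := fun x y : {x : V3 // ‖x‖ = 1 ∧ x 0 = c} => ‖x.1 - y.1‖)
    (fun θ => rayTo h o θ.2.1) (C := 2 * Real.exp ((C + K') / (1 / b))) (by positivity)
    (α := b) hb hs (fun x y => vis_nonneg h o x y) (fun x y => by
      by_cases hne : x.1 = y.1
      · have e : ‖x.1 - y.1‖ = 0 := by rw [hne, sub_self, norm_zero]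
        rw [e]
        exact mul_nonneg (by positivity) (Real.rpow_nonneg (vis_nonneg h o _ _) _)
      have := hC d h _ _ x.1 y.1 x.2.1 y.2.1 hne (rayTo_ends h x.2.1) (rayTo_ends h y.2.1) (1 / b)
        (by positivity) K' (key x.1 y.1 x.2.1 x.2.2)
      rwa [one_div_one_div] at this) hn
  exact circle_not_null hc1 (s := s / b) (by positivity) (by rw [div_le_one hb]; exact hsb) this

/-- independence of the base point -/
lemma vis_base (h : GeoD a d) (o o' : V3) : ∃ C : ℝ, 0 ≤ C ∧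
    ∀ (ξ η : Ray d o) (ξ' η' : Ray d o'),
    ∀ θ₁ θ₂ : V3, ‖θ₁‖ = 1 → ‖θ₂‖ = 1 → EndsAt ξ.1 θ₁ → EndsAt η.1 θ₂ → EndsAt ξ'.1 θ₁ →
      EndsAt η'.1 θ₂ → vis d o' ξ' η' ≤ C * vis d o ξ η := by
  obtain ⟨C, hC⟩ := vis_ctr a o
  obtain ⟨C', hC'⟩ := vis_ctr a o'
  refine ⟨Real.exp (C + C' + d o o'), (Real.exp_pos _).le, ?_⟩
  intro ξ η ξ' η' θ₁ θ₂ h₁ h₂ e₁ e₂ e₁' e₂'
  by_cases hne : θ₁ = θ₂
  · subst hne
    rw [vis_same h o' ξ' η' h₁ e₁' e₂']
    exact mul_nonneg (Real.exp_pos _).le (vis_nonneg h o ξ η)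
  have k1 := (hC d h ξ η θ₁ θ₂ h₁ h₂ hne e₁ e₂).1
  have k2 := (hC' d h ξ' η' θ₁ θ₂ h₁ h₂ hne e₁' e₂').2
  refine k2.trans (le_trans ?_ (mul_le_mul_of_nonneg_left k1 (Real.exp_pos _).le))
  rw [← Real.exp_add]
  apply Real.exp_le_exp.2
  have := h.tri o o' (ctr θ₁ θ₂)
  linarith

lemma HNull_base {s : ℝ} (h : GeoD a d) {o o' : V3} (hs : 0 < s) (hn : HNull (vis d o) s) :
    HNull (vis d o') s := by
  obtain ⟨C, hC0, hC⟩ := vis_base h o o'
  have := HNull_holder (δ := vis d o) (δ' := vis d o')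
    (fun ξ' => rayTo h o (ept_norm h ξ')) hC0 (α := 1) one_pos hs
    (fun x y => vis_nonneg h o x y)
    (fun x y => by
      rw [Real.rpow_one]
      exact hC _ _ x y _ _ (ept_norm h x) (ept_norm h y)
        (rayTo_ends h _) (rayTo_ends h _) (ept_ends h x) (ept_ends h y)) hn
  rwa [div_one] at this

lemma hdim_base (h : GeoD a d) (o o' : V3) : hdim (vis d o) = hdim (vis d o') := by
  unfold hdim
  congr 1
  ext s
  constructor
  · rintro ⟨hs, hn⟩; exact ⟨hs, HNull_base h hs hn⟩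
  · rintro ⟨hs, hn⟩; exact ⟨hs, HNull_base h hs hn⟩

/-- bounds of the dimension -/
lemma hdim_bounds {b t K : ℝ} (h : GeoD a d) (o : V3) (hb : 0 < b)
    (hd : ∀ x y, bb (ew t) x = 0 → bb (ew t) y = 0 → d x y ≤ 1 / b * dh x y + K) :
    b ≤ hdim (vis d o) ∧ hdim (vis d o) ≤ 2 * a := by
  have ha : 1 ≤ a := h.one_le
  constructor
  · refine le_csInf ⟨2 * a + 1, by linarith, HNull_of_lt h (by linarith)⟩ ?_
    rintro s ⟨hs, hn⟩
    by_contra hlt
    push Not at hlt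
    exact not_HNull_of_lt h hb hd hs hlt.le hn
  · refine le_of_forall_gt_imp_ge_of_dense fun s hs => ?_
    exact csInf_le ⟨0, fun s hs => hs.1.le⟩ ⟨by linarith, HNull_of_lt h hs⟩

/-- comparison of the dimensions -/
lemma hdim_compare {μ b t K : ℝ} (h : GeoD a d) (h' : GeoD a d') (o : V3) (hμ : 1 ≤ μ)
    (hd : ∀ x y, d x y ≤ μ * d' x y) (hb : 0 < b)
    (hp : ∀ x y, bb (ew t) x = 0 → bb (ew t) y = 0 → d' x y ≤ 1 / b * dh x y + K) :
    hdim (vis d' o) ≤ hdim (vis d o) * μ := by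
  have ha : 1 ≤ a := h.one_le
  have hμ0 : 0 < μ := by linarith
  rw [← div_le_iff₀ hμ0]
  refine le_csInf ⟨2 * a + 1, by linarith, HNull_of_lt h (by linarith)⟩ ?_
  rintro s ⟨hs, hn⟩
  rw [div_le_iff₀ hμ0]
  exact csInf_le ⟨0, fun s hs => hs.1.le⟩ ⟨by positivity, HNull_compare h h' hμ hd hs hn⟩

end dimension

lemma GeoD.nonneg {a : ℝ} {d : V3 → V3 → ℝ} (h : GeoD a d) (x y : V3) : 0 ≤ d x y := by
  have := h.tri x y x
  rw [h.self, h.symm y x] at this
  linarith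

lemma GeoD.mono {a a' : ℝ} {d : V3 → V3 → ℝ} (h : GeoD a d) (haa : a ≤ a') : GeoD a' d where
  one_le := h.one_le.trans haa
  self := h.self
  symm := h.symm
  tri := h.tri
  lower := fun x y => (h.lower x y).trans (mul_le_mul_of_nonneg_right haa (h.nonneg x y))
  upper := h.upper
  geod := h.geod

section main

/-- the planes of the lattice -/
def VV (L : Set (Matrix (Fin 4) (Fin 4) ℝ)) : Set V4 := {v | ∃ A ∈ L, A *ᵥ e1 = v}

variable {L : Set (Matrix (Fin 4) (Fin 4) ℝ)} {t : ℝ}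

lemma e1_mem (hL : IsLat L t) : e1 ∈ VV L := ⟨1, hL.one, by simp⟩

lemma eta_e1 : eta e1 e1 = 1 := by simp [eta, e1]

lemma VV_sep (hL : IsLat L t) : Sep (VV L) := by
  constructor
  · rintro v ⟨A, hA, rfl⟩
    rw [(hL.lor A hA).1, eta_e1]
  · rintro v ⟨A, hA, rfl⟩ w ⟨B, hB, rfl⟩ hne
    obtain ⟨A', hA', h1, h2⟩ := hL.inv A hA
    have e : eta (A *ᵥ e1) (B *ᵥ e1) = eta e1 ((A' * B) *ᵥ e1) := by
      rw [← (hL.lor A hA).1 e1 ((A' * B) *ᵥ e1), Matrix.mulVec_mulVec, ← Matrix.mul_assoc, h1,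
        Matrix.one_mul]
    rw [e]
    rcases hL.sep _ (hL.mul A' hA' B hB) with h3 | h3
    · exfalso
      apply hne
      have := congrArg (fun v => A *ᵥ v) h3
      simp only [Matrix.mulVec_mulVec, ← Matrix.mul_assoc, h1, Matrix.one_mul] at this
      exact this.symm
    · exact h3

lemma VV_act (hL : IsLat L t) : ∀ A ∈ L, ∀ v ∈ VV L, A *ᵥ v ∈ VV L := by
  rintro A hA v ⟨B, hB, rfl⟩
  exact ⟨A * B, hL.mul A hA B hB, by rw [Matrix.mulVec_mulVec]⟩

lemma VV_act' (hL : IsLat L t) : ∀ A ∈ L, ∀ v ∈ VV L, ∃ w ∈ VV L, A *ᵥ w = v := by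
  intro A hA v hv
  obtain ⟨B, hB, h1, h2⟩ := hL.inv A hA
  exact ⟨B *ᵥ v, VV_act hL B hB v hv, by rw [Matrix.mulVec_mulVec, h1, Matrix.one_mulVec]⟩

lemma VV_trans (hL : IsLat L t) : ∀ v ∈ VV L, ∃ A B : Matrix (Fin 4) (Fin 4) ℝ, IsLor A ∧
    IsLor B ∧ A * B = 1 ∧ B * A = 1 ∧ A *ᵥ e1 = v := by
  rintro v ⟨A, hA, rfl⟩
  obtain ⟨B, hB, h1, h2⟩ := hL.inv A hA
  exact ⟨A, B, hL.lor A hA, hL.lor B hB, h1, h2, rfl⟩

lemma VV_far (hL : IsLat L t) : ∀ v ∈ VV L, 2002 ≤ |eta (ew t) v| := by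
  rintro v ⟨A, hA, rfl⟩
  exact hL.far A hA

/-- parameters -/
structure Par (δ a : ℝ) : Prop where
  ha : 3 / 2 ≤ a
  ha' : a ≤ 6
  hδ : 0 < δ
  hδ1 : δ ≤ 1
  hδa : 6 / 5 ≤ δ * a

variable {m : ℝ → ℝ} {δ a : ℝ}

/-- the metric -/
lemma exists_G (hL : IsLat L t) (hm : IsMu m) (hp : Par δ a) :
    ∃ G : RMetric, G.g = gg (1 / a ^ 2) (qq m δ a) (VV L) := by
  have := hp.ha
  exact exists_rmetric (VV_sep hL) (qq_smooth hm) (fun b hb => qq_far hm hp.ha hp.ha' hp.hδ hp.hδ1 hb)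
    (qq_nonneg hm) (by positivity)

lemma G_le (hL : IsLat L t) (hm : IsMu m) (hp : Par δ a) {G : RMetric}
    (hG : G.g = gg (1 / a ^ 2) (qq m δ a) (VV L)) (x u : V3) : G.g x u u ≤ δ ^ 2 * gh x u u := by
  have h1 := hp.ha
  have ha : 0 < a := by linarith
  rw [hG]
  have := gg_upper (k := 1 / a ^ 2) (VV_sep hL)
    (fun b hb => qq_far hm hp.ha hp.ha' hp.hδ hp.hδ1 hb) (by positivity)
    (M := (δ * a) ^ 2) (by nlinarith [hp.hδa]) (qq_le hm hp.ha hp.hδ hp.hδa) x u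
  refine this.trans (le_of_eq ?_)
  field_simp

lemma G_ge (hL : IsLat L t) (hm : IsMu m) (hp : Par δ a) {G : RMetric}
    (hG : G.g = gg (1 / a ^ 2) (qq m δ a) (VV L)) (x u : V3) :
    gh x u u ≤ a ^ 2 * G.g x u u := by
  have h1 := hp.ha
  have ha : 0 < a := by linarith
  rw [hG]
  have := gg_lower (k := 1 / a ^ 2) (q := qq m δ a) (VV_sep hL)
    (fun b hb => qq_far hm hp.ha hp.ha' hp.hδ hp.hδ1 hb) (qq_nonneg hm) (by positivity) x u
  have h2 := mul_le_mul_of_nonneg_left this (by positivity : 0 ≤ a ^ 2)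
  have h3 : a ^ 2 * (1 / a ^ 2 * gh x u u) = gh x u u := by field_simp
  rwa [h3] at h2

lemma gh_nonneg (x u : V3) : 0 ≤ gh x u u := by
  by_cases hu : u = 0
  · subst hu; simp
  · exact (gh_pos x u hu).le

lemma geoD_G (hL : IsLat L t) (hm : IsMu m) (hp : Par δ a) {G : RMetric}
    (hG : G.g = gg (1 / a ^ 2) (qq m δ a) (VV L)) : GeoD 6 (rdist G) := by
  have h1 := hp.ha
  refine (geoD_rdist G (a := a) (by linarith) (G_ge hL hm hp hG) fun x u => ?_).mono hp.ha'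
  refine (G_le hL hm hp hG x u).trans ?_
  have h3 : δ ^ 2 ≤ 1 := by nlinarith [hp.hδ, hp.hδ1]
  nlinarith [gh_nonneg x u]

lemma geoD_G' (hL : IsLat L t) (hm : IsMu m) (hp : Par δ a) {G : RMetric}
    (hG : G.g = gg (1 / a ^ 2) (qq m δ a) (VV L)) : GeoD a (rdist G) := by
  have h1 := hp.ha
  refine geoD_rdist G (a := a) (by linarith) (G_ge hL hm hp hG) fun x u => ?_
  refine (G_le hL hm hp hG x u).trans ?_
  have h3 : δ ^ 2 ≤ 1 := by nlinarith [hp.hδ, hp.hδ1]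
  nlinarith [gh_nonneg x u]

lemma plane_G (hL : IsLat L t) (hm : IsMu m) (hp : Par δ a) {G : RMetric}
    (hG : G.g = gg (1 / a ^ 2) (qq m δ a) (VV L)) : ∀ x y, bb (ew t) x = 0 → bb (ew t) y = 0 →
      rdist G x y ≤ 1 / a * dh x y + 0 := by
  intro x y hx hy
  rw [add_zero]
  exact dist_far hm hp.ha hp.ha' hp.hδ hp.hδ1 (VV_sep hL) (VV_far hL) hG hx hy

/-- bounds for the dimension -/
lemma hdim_G (hL : IsLat L t) (hm : IsMu m) (hp : Par δ a) {G : RMetric}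
    (hG : G.g = gg (1 / a ^ 2) (qq m δ a) (VV L)) (o : V3) :
    a ≤ hdim (vis (rdist G) o) ∧ hdim (vis (rdist G) o) ≤ 2 * a := by
  have := hp.ha
  exact hdim_bounds (geoD_G' hL hm hp hG) o (by linarith) (plane_G hL hm hp hG)

/-- Comparison of two metrics with nearby parameters. -/
lemma G_compare (hL : IsLat L t) (hm : IsMu m) {a' : ℝ} (hp : Par δ a) (hp' : Par δ a')
    {G G' : RMetric} (hG : G.g = gg (1 / a ^ 2) (qq m δ a) (VV L))
    (hG' : G'.g = gg (1 / a' ^ 2) (qq m δ a') (VV L)) {μ : ℝ} (hμ : 1 ≤ μ)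
    (h : ∀ b, 1 + qq m δ a b ≤ μ * (1 + qq m δ a' b)) (h' : a' ^ 2 ≤ μ * a ^ 2) (x y : V3) :
    rdist G x y ≤ μ * rdist G' x y := by
  have h1 := hp.ha
  have h2 := hp'.ha
  have ha : 0 < a := by linarith
  have ha' : 0 < a' := by linarith
  refine rdist_mono G G' (by linarith) (fun x u => ?_) x y
  have e : gg (1 / a ^ 2) (qq m δ a) (VV L) x u u =
      (a' ^ 2 / a ^ 2) * gg (1 / a' ^ 2) (qq m δ a) (VV L) x u u := by
    unfold gg
    simp only [_root_.smul_apply, smul_eq_mul]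
    field_simp
  have k1 := gg_compare (k := 1 / a' ^ 2) (VV_sep hL)
    (fun b hb => qq_far hm hp.ha hp.ha' hp.hδ hp.hδ1 hb)
    (fun b hb => qq_far hm hp'.ha hp'.ha' hp.hδ hp.hδ1 hb) (qq_nonneg hm) (by positivity) hμ h x u
  have k2 : 0 ≤ gg (1 / a' ^ 2) (qq m δ a) (VV L) x u u :=
    le_trans (mul_nonneg (by positivity) (gh_nonneg x u)) (gg_lower (VV_sep hL)
      (fun b hb => qq_far hm hp.ha hp.ha' hp.hδ hp.hδ1 hb) (qq_nonneg hm) (by positivity) x u)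
  rw [hG, hG', e]
  have k3 : a' ^ 2 / a ^ 2 ≤ μ := by rw [div_le_iff₀ (by positivity)]; exact h'
  calc (a' ^ 2 / a ^ 2) * gg (1 / a' ^ 2) (qq m δ a) (VV L) x u u
      ≤ μ * gg (1 / a' ^ 2) (qq m δ a) (VV L) x u u := mul_le_mul_of_nonneg_right k3 k2
    _ ≤ μ * (μ * gg (1 / a' ^ 2) (qq m δ a') (VV L) x u u) :=
        mul_le_mul_of_nonneg_left k1 (by linarith)
    _ = _ := by ring

/-- the dimension as a function of the parameter is continuous -/
lemma hdim_cont (hL : IsLat L t) (hm : IsMu m) {δ : ℝ} (hδ : 4 / 5 ≤ δ) (hδ1 : δ ≤ 1) (o : V3)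
    {D : ℝ → ℝ} (hD : ∀ a ∈ Icc (3 / 2 : ℝ) 6, ∀ G : RMetric,
      G.g = gg (1 / a ^ 2) (qq m δ a) (VV L) → D a = hdim (vis (rdist G) o)) :
    ContinuousOn D (Icc (3 / 2) 6) := by
  have par : ∀ a ∈ Icc (3 / 2 : ℝ) 6, Par δ a := fun a ha =>
    ⟨ha.1, ha.2, by linarith, hδ1, by nlinarith [ha.1]⟩
  -- one-sided comparison
  have cmp : ∀ a ∈ Icc (3 / 2 : ℝ) 6, ∀ a' ∈ Icc (3 / 2 : ℝ) 6, ∀ μ : ℝ, 1 ≤ μ →
      (∀ b, 1 + qq m δ a b ≤ μ * (1 + qq m δ a' b)) → a' ^ 2 ≤ μ * a ^ 2 → D a' ≤ D a * μ := by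
    intro a ha a' ha' μ hμ h h'
    obtain ⟨G, hG⟩ := exists_G hL hm (par a ha)
    obtain ⟨G', hG'⟩ := exists_G hL hm (par a' ha')
    rw [hD a ha G hG, hD a' ha' G' hG']
    exact hdim_compare (geoD_G hL hm (par a ha) hG) (geoD_G hL hm (par a' ha') hG') o hμ
      (fun x y => G_compare hL hm (par a ha) (par a' ha') hG hG' hμ h h' x y)
      (by linarith [ha'.1] : 0 < a') (plane_G hL hm (par a' ha') hG')
  have bd : ∀ a ∈ Icc (3 / 2 : ℝ) 6, 0 ≤ D a ∧ D a ≤ 12 := by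
    intro a ha
    obtain ⟨G, hG⟩ := exists_G hL hm (par a ha)
    rw [hD a ha G hG]
    have := hdim_G hL hm (par a ha) hG o
    exact ⟨by linarith [ha.1], by linarith [ha.2]⟩
  rw [Metric.continuousOn_iff]
  intro a ha ε hε
  set μ : ℝ := 1 + ε / 24 with hμ
  have hμ1 : 1 < μ := by rw [hμ]; linarith
  obtain ⟨η, hη, hq⟩ := qq_cont (m := m) (δ := δ) (a := a) hm (by linarith) hδ1 hμ1 ha.1 ha.2
  -- closeness of the squares
  have hsq : ∃ η' > 0, ∀ a' ∈ Icc (3 / 2 : ℝ) 6, |a' - a| < η' →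
      a' ^ 2 ≤ μ * a ^ 2 ∧ a ^ 2 ≤ μ * a' ^ 2 := by
    refine ⟨(μ - 1) / 12, by linarith, fun a' ha' h => ?_⟩
    obtain ⟨h1, h2⟩ := abs_lt.1 h
    have b1 := ha.1
    have b2 := ha.2
    have b3 := ha'.1
    have b4 := ha'.2
    have c1 : (a' - a) * (a' + a) ≤ (μ - 1) / 12 * 12 :=
      mul_le_mul h2.le (by linarith) (by linarith) (by linarith)
    have c2 : (a - a') * (a' + a) ≤ (μ - 1) / 12 * 12 :=
      mul_le_mul (by linarith) (by linarith) (by linarith) (by linarith)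
    have c3 : (μ - 1) * 1 ≤ (μ - 1) * a ^ 2 :=
      mul_le_mul_of_nonneg_left (by nlinarith) (by linarith)
    have c4 : (μ - 1) * 1 ≤ (μ - 1) * a' ^ 2 :=
      mul_le_mul_of_nonneg_left (by nlinarith) (by linarith)
    constructor
    · nlinarith
    · nlinarith
  obtain ⟨η', hη', hsq⟩ := hsq
  refine ⟨min η η', lt_min hη hη', fun a' ha' h => ?_⟩
  rw [Real.dist_eq] at h ⊢
  have h1 := lt_of_lt_of_le h (min_le_left _ _)
  have h2 := lt_of_lt_of_le h (min_le_right _ _)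
  have c1 := cmp a ha a' ha' μ hμ1.le (fun b => (hq a' ha'.1 ha'.2 h1 b).2) (hsq a' ha' h2).1
  have c2 := cmp a' ha' a ha μ hμ1.le (fun b => (hq a' ha'.1 ha'.2 h1 b).1) (hsq a' ha' h2).2
  have b1 := bd a ha
  have b2 := bd a' ha'
  rw [abs_lt]
  constructor
  · nlinarith
  · nlinarith

/-- the circle of directions in the standard plane -/
noncomputable def th (u : ℝ) : V3 := !₂[0, Real.cos u, Real.sin u]

lemma th_norm (u : ℝ) : ‖th u‖ = 1 := by
  rw [EuclideanSpace.norm_eq]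
  simp [th, Fin.sum_univ_three]

lemma th_lip (u v : ℝ) : ‖th u - th v‖ ≤ 2 * |u - v| := by
  rw [EuclideanSpace.norm_eq]
  have h1 : |Real.cos u - Real.cos v| ≤ |u - v| := by
    have := Real.abs_cos_sub_cos_le u v
    exact this
  have h2 : |Real.sin u - Real.sin v| ≤ |u - v| := by
    have := Real.abs_sin_sub_sin_le u v
    exact this
  rw [Real.sqrt_le_left (by positivity)]
  simp only [th, Fin.sum_univ_three]
  have h3 : (Real.cos u - Real.cos v) ^ 2 ≤ |u - v| ^ 2 := by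
    rw [← sq_abs (Real.cos u - Real.cos v)]; exact pow_le_pow_left₀ (abs_nonneg _) h1 2
  have h4 : (Real.sin u - Real.sin v) ^ 2 ≤ |u - v| ^ 2 := by
    rw [← sq_abs (Real.sin u - Real.sin v)]; exact pow_le_pow_left₀ (abs_nonneg _) h2 2
  simp
  nlinarith [sq_nonneg |u - v|, sq_abs (u - v)]

lemma th_ne : th 0 ≠ th 1 := by
  intro h
  have := congrArg (fun x : V3 => x 2) h
  simp [th] at this
  have h1 : 0 < Real.sin 1 := Real.sin_pos_of_pos_of_lt_pi one_pos (by linarith [Real.pi_gt_three])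
  linarith

lemma ctr_exp {θ₁ θ₂ : V3} (hne : θ₁ ≠ θ₂) :
    Real.exp (-max 0 (-Real.log ‖θ₁ - θ₂‖)) ≤ ‖θ₁ - θ₂‖ := by
  have hpos : 0 < ‖θ₁ - θ₂‖ := norm_pos_iff.2 (sub_ne_zero.2 hne)
  have : -max 0 (-Real.log ‖θ₁ - θ₂‖) ≤ Real.log ‖θ₁ - θ₂‖ := by
    have := le_max_right 0 (-Real.log ‖θ₁ - θ₂‖)
    linarith
  exact (Real.exp_le_exp.2 this).trans (le_of_eq (Real.exp_log hpos))

/-- The boundary of the first manifold contains a Lipschitz curve. -/
lemma vis0_upper (hL : IsLat L t) (hm : IsMu m) (hp : Par 1 a) {G : RMetric}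
    (hG : G.g = gg (1 / a ^ 2) (qq m 1 a) (VV L)) (o : V3) : ∃ C : ℝ, 0 ≤ C ∧
      ∀ (u v : ℝ) (ξ η : Ray (rdist G) o), EndsAt ξ.1 (th u) → EndsAt η.1 (th v) →
        vis (rdist G) o ξ η ≤ C * |u - v| := by
  have h := geoD_G hL hm hp hG
  obtain ⟨C, hC⟩ := vis_ctr 6 o
  refine ⟨2 * Real.exp (C + dh 0 o), by positivity, ?_⟩
  intro u v ξ η e₁ e₂
  by_cases hne : th u = th v
  · rw [← hne] at e₂
    rw [vis_same h o ξ η (th_norm u) e₁ e₂]
    positivity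
  refine (hC _ h ξ η _ _ (th_norm u) (th_norm v) hne e₁ e₂).2.trans ?_
  set T : ℝ := max 0 (-Real.log ‖th u - th v‖) with hT
  have hT0 : 0 ≤ T := le_max_left _ _
  have k1 : T ≤ rdist G 0 (ctr (th u) (th v)) := by
    have := dist_plane hm hp.ha hp.ha' (VV_sep hL) (e1_mem hL) hG 0 (ctr (th u) (th v))
    rw [proj_of_mem (x := 0) (by simp), proj_of_mem (x := ctr (th u) (th v))
      (by simp [ctr, pt, th])] at this
    have e : dh 0 (ctr (th u) (th v)) = T := dh_zero_pt (th_norm u) hT0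
    rwa [e] at this
  have k2 := h.tri 0 o (ctr (th u) (th v))
  have k3 := h.upper 0 o
  have k4 : Real.exp (-rdist G o (ctr (th u) (th v)) + C) ≤
      Real.exp (C + dh 0 o) * Real.exp (-T) := by
    rw [← Real.exp_add]
    apply Real.exp_le_exp.2
    linarith
  refine k4.trans ?_
  have k5 := (ctr_exp hne).trans (th_lip u v)
  have k6 := mul_le_mul_of_nonneg_left k5 (Real.exp_pos (C + dh 0 o)).le
  refine k6.trans (le_of_eq ?_)
  ring

lemma rdist_le_dh {G : RMetric} {δ : ℝ} (hδ : 0 ≤ δ) (h : ∀ x u, G.g x u u ≤ δ ^ 2 * gh x u u)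
    (x y : V3) : rdist G x y ≤ δ * dh x y := by
  obtain ⟨γ, hγ, h0, h1, hs, -⟩ := exists_hyp_geod x y
  have k1 := rdist_le_len G hγ
  rw [h0, h1] at k1
  refine k1.trans ?_
  unfold len
  have hc : Continuous fun t => Real.sqrt (G.g (γ t) (deriv γ t) (deriv γ t)) := by
    have c1 : Continuous γ := hγ.continuous
    have c2 : Continuous (deriv γ) := hγ.continuous_deriv le_rfl
    have c3 : Continuous fun t => G.g (γ t) := G.smooth.continuous.comp c1
    exact ((c3.clm_apply c2).clm_apply c2).sqrt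
  have k2 : ∫ t in (0 : ℝ)..1, Real.sqrt (G.g (γ t) (deriv γ t) (deriv γ t)) ≤
      ∫ _t in (0 : ℝ)..1, δ * dh x y := by
    refine intervalIntegral.integral_mono_on zero_le_one (hc.intervalIntegrable _ _)
      intervalIntegrable_const fun t _ => ?_
    rw [← hs t]
    refine (Real.sqrt_le_sqrt (h (γ t) (deriv γ t))).trans ?_
    rw [Real.sqrt_mul (sq_nonneg δ), Real.sqrt_sq hδ]
  simpa using k2

/-- A lower bound for the visual distance of the second manifold. -/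
lemma vis1_lower (hL : IsLat L t) (hm : IsMu m) (hp : Par δ a) {G : RMetric}
    (hG : G.g = gg (1 / a ^ 2) (qq m δ a) (VV L)) (o : V3) : ∃ C : ℝ, 0 ≤ C ∧
      ∀ (ξ η : Ray (rdist G) o), ∀ θ₁ θ₂ : V3, ‖θ₁‖ = 1 → ‖θ₂‖ = 1 → EndsAt ξ.1 θ₁ →
        EndsAt η.1 θ₂ → ‖θ₁ - θ₂‖ ≤ C * vis (rdist G) o ξ η ^ (1 / δ) := by
  have h := geoD_G hL hm hp hG
  have hδ := hp.hδ
  obtain ⟨C, hC⟩ := vis_lower 6 o
  refine ⟨2 * Real.exp ((C + δ * dh 0 o) / δ), by positivity, ?_⟩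
  intro ξ η θ₁ θ₂ h₁ h₂ e₁ e₂
  by_cases hne : θ₁ = θ₂
  · rw [hne, sub_self, norm_zero]
    exact mul_nonneg (by positivity) (Real.rpow_nonneg (vis_nonneg h o ξ η) _)
  refine hC _ h ξ η θ₁ θ₂ h₁ h₂ hne e₁ e₂ δ hδ (δ * dh 0 o) ?_
  have k1 := rdist_le_dh hδ.le (G_le hL hm hp hG) o (ctr θ₁ θ₂)
  have k2 := dh_tri o 0 (ctr θ₁ θ₂)
  have k3 : dh 0 (ctr θ₁ θ₂) = max 0 (-Real.log ‖θ₁ - θ₂‖) := dh_zero_pt h₁ (le_max_left _ _)
  rw [dh_comm o 0, k3] at k2
  refine k1.trans ((mul_le_mul_of_nonneg_left k2 hδ.le).trans (le_of_eq (by ring)))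

/-- Hölder functions with exponent larger than one are constant. -/
lemma const_of_holder {f : ℝ → V3} {K α : ℝ} (hα : 1 < α)
    (h : ∀ u v, ‖f u - f v‖ ≤ K * |u - v| ^ α) (u v : ℝ) : f u = f v := by
  have hd : ∀ x, HasDerivAt f 0 x := by
    intro x
    rw [hasDerivAt_iff_isLittleO]
    have h1 : (fun y : ℝ => f y - f x - (y - x) • (0 : V3)) =O[𝓝 x] fun y => |y - x| ^ α := by
      refine Asymptotics.IsBigO.of_bound K (Eventually.of_forall fun y => ?_)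
      rw [smul_zero, sub_zero, Real.norm_eq_abs, abs_of_nonneg (by positivity)]
      exact h y x
    refine h1.trans_isLittleO ?_
    rw [Asymptotics.isLittleO_iff_tendsto' (by
      filter_upwards with y hy
      have : y - x = 0 := hy
      rw [this]; simp [Real.zero_rpow (by linarith : α ≠ 0)])]
    have h2 : Tendsto (fun y : ℝ => |y - x| ^ (α - 1)) (𝓝 x) (𝓝 0) := by
      have : Tendsto (fun y : ℝ => |y - x|) (𝓝 x) (𝓝 0) := by
        have h3 : Continuous fun y : ℝ => |y - x| := by fun_prop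
        have := h3.tendsto x
        simpa using this
      have h4 := this.rpow_const (p := α - 1) (Or.inr (by linarith))
      rwa [Real.zero_rpow (by linarith)] at h4
    refine squeeze_zero_norm (fun y => ?_) h2
    rw [norm_div, Real.norm_eq_abs, Real.norm_eq_abs, abs_of_nonneg (by positivity : 0 ≤ |y - x| ^ α)]
    by_cases hy : y - x = 0
    · rw [hy]; simp [Real.zero_rpow (by linarith : α ≠ 0)]
      positivity
    · have hy' : 0 < |y - x| := abs_pos.2 hy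
      rw [Real.rpow_sub_one hy'.ne']
  exact is_const_of_deriv_eq_zero (fun x => (hd x).differentiableAt) (fun x => (hd x).deriv) u v

/-- The two boundaries are not bilipschitz equivalent. -/
lemma not_bilip (hL : IsLat L t) (hm : IsMu m) {a₀ a₁ : ℝ} (hp : Par 1 a₀) (hp' : Par δ a₁)
    (hδ : δ < 1) {G₀ G₁ : RMetric} (hG₀ : G₀.g = gg (1 / a₀ ^ 2) (qq m 1 a₀) (VV L))
    (hG₁ : G₁.g = gg (1 / a₁ ^ 2) (qq m δ a₁) (VV L)) (o₀ o₁ : V3) :
    ¬ Bilip (vis (rdist G₀) o₀) (vis (rdist G₁) o₁) := by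
  rintro ⟨F, K, hK, hF⟩
  have h := geoD_G hL hm hp hG₀
  have h' := geoD_G hL hm hp' hG₁
  obtain ⟨C0, hC0, hC0'⟩ := vis0_upper hL hm hp hG₀ o₀
  obtain ⟨C1, hC1, hC1'⟩ := vis1_lower hL hm hp' hG₁ o₁
  set c : ℝ → Ray (rdist G₀) o₀ := fun u => rayTo h o₀ (th_norm u) with hc
  have hce : ∀ u, EndsAt (c u).1 (th u) := fun u => rayTo_ends h (th_norm u)
  set f : ℝ → V3 := fun u => ept h' o₁ (F (c u)) with hf
  have hδ0 := hp'.hδ
  have hhol : ∀ u v, ‖f u - f v‖ ≤ (C1 * (K * C0) ^ (1 / δ)) * |u - v| ^ (1 / δ) := by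
    intro u v
    have k1 := hC1' (F (c u)) (F (c v)) _ _ (ept_norm h' _) (ept_norm h' _) (ept_ends h' _)
      (ept_ends h' _)
    have k2 := (hF (c u) (c v)).2
    have k3 := hC0' u v (c u) (c v) (hce u) (hce v)
    have k4 : vis (rdist G₁) o₁ (F (c u)) (F (c v)) ≤ K * C0 * |u - v| := by
      refine k2.trans ?_
      rw [mul_assoc]
      exact mul_le_mul_of_nonneg_left k3 hK.le
    have k5 := Real.rpow_le_rpow (vis_nonneg h' o₁ _ _) k4 (by positivity : 0 ≤ 1 / δ)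
    rw [Real.mul_rpow (by positivity) (abs_nonneg _)] at k5
    rw [mul_assoc]
    exact k1.trans (mul_le_mul_of_nonneg_left k5 hC1)
  have hconst := const_of_holder (by rw [lt_div_iff₀ hδ0]; linarith) hhol 0 1
  have e2 : EndsAt (F (c 1)).1 (f 0) := by
    rw [hconst]; exact ept_ends h' _
  have z1 := vis_same h' o₁ (F (c 0)) (F (c 1)) (ept_norm h' _) (ept_ends h' _) e2
  have z2 := (hF (c 0) (c 1)).1
  rw [z1] at z2
  obtain ⟨C, hC⟩ := vis_ctr 6 o₀
  have z3 := (hC _ h (c 0) (c 1) _ _ (th_norm 0) (th_norm 1) th_ne (hce 0) (hce 1)).1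
  have z4 : vis (rdist G₀) o₀ (c 0) (c 1) ≤ 0 := by
    rw [div_le_iff₀ hK, zero_mul] at z2
    exact z2
  linarith [Real.exp_pos (-rdist G₀ o₀ (ctr (th 0) (th 1)) - C)]

end main

/-- **Main theorem.** -/
theorem main : ∃ (G₀ G₁ : RMetric) (Γ₀ Γ₁ : Subgroup (Equiv.Perm V3)),
    IsDeck G₀ Γ₀ ∧ IsDeck G₁ Γ₁ ∧ CurvNegOne G₀ ∧ CurvNegOne G₁ ∧
    ∃ D : ℝ, 3 ≤ D ∧ D ≤ 6 ∧ ∀ o₀ o₁ : V3,
      hdim (vis (rdist G₀) o₀) = D ∧ hdim (vis (rdist G₁) o₁) = D ∧
        ¬ Bilip (vis (rdist G₀) o₀) (vis (rdist G₁) o₁) := by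
  obtain ⟨L, t, hL⟩ := exists_lat
  obtain ⟨m, hm⟩ := exists_mu
  obtain ⟨Γ, hΓ⟩ := exists_deck hL
  have hp0 : Par 1 3 := ⟨by norm_num, by norm_num, by norm_num, le_rfl, by norm_num⟩
  obtain ⟨G₀, hG₀⟩ := exists_G hL hm hp0
  have par : ∀ a ∈ Icc (3 / 2 : ℝ) 6, Par (4 / 5) a := fun a ha =>
    ⟨ha.1, ha.2, by norm_num, by norm_num, by linarith [ha.1]⟩
  classical
  set D : ℝ → ℝ := fun a => if h : a ∈ Icc (3 / 2 : ℝ) 6 then
    hdim (vis (rdist (exists_G hL hm (par a h)).choose) 0) else 0 with hDdef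
  have hD : ∀ a ∈ Icc (3 / 2 : ℝ) 6, ∀ G : RMetric,
      G.g = gg (1 / a ^ 2) (qq m (4 / 5) a) (VV L) → D a = hdim (vis (rdist G) 0) := by
    intro a ha G hG
    have h1 := (exists_G hL hm (par a ha)).choose_spec
    have h2 : (exists_G hL hm (par a ha)).choose = G := by
      cases hc : (exists_G hL hm (par a ha)).choose
      cases G
      rw [hc] at h1
      simp only at h1 hG
      subst h1
      subst hG
      rfl
    rw [hDdef]
    simp only [dif_pos ha]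
    rw [h2]
  have hcont := hdim_cont hL hm (δ := 4 / 5) le_rfl (by norm_num) 0 hD
  have b0 := hdim_G hL hm hp0 hG₀ 0
  have m1 : (3 / 2 : ℝ) ∈ Icc (3 / 2 : ℝ) 6 := ⟨le_rfl, by norm_num⟩
  have m2 : (6 : ℝ) ∈ Icc (3 / 2 : ℝ) 6 := ⟨by norm_num, le_rfl⟩
  have b1 : D (3 / 2) ≤ 3 := by
    obtain ⟨G, hG⟩ := exists_G hL hm (par _ m1)
    rw [hD _ m1 G hG]
    have := (hdim_G hL hm (par _ m1) hG 0).2
    linarith
  have b2 : 6 ≤ D 6 := by
    obtain ⟨G, hG⟩ := exists_G hL hm (par _ m2)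
    rw [hD _ m2 G hG]
    exact (hdim_G hL hm (par _ m2) hG 0).1
  obtain ⟨a, ha, hDa⟩ : ∃ a ∈ Icc (3 / 2 : ℝ) 6, D a = hdim (vis (rdist G₀) 0) := by
    have := intermediate_value_Icc (by norm_num : (3 / 2 : ℝ) ≤ 6) hcont
    have h3 : hdim (vis (rdist G₀) 0) ∈ Icc (D (3 / 2)) (D 6) :=
      ⟨b1.trans (by linarith [b0.1]), by linarith [b0.2]⟩
    obtain ⟨a, ha, hDa⟩ := this h3
    exact ⟨a, ha, hDa⟩
  obtain ⟨G₁, hG₁⟩ := exists_G hL hm (par a ha)
  rw [hD a ha G₁ hG₁] at hDa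
  have act0 : ∀ {δ a : ℝ} (hp : Par δ a) {G : RMetric},
      G.g = gg (1 / a ^ 2) (qq m δ a) (VV L) → IsDeck G Γ := by
    intro δ a hp G hG
    refine hΓ G fun A hA x u v => ?_
    rw [hG]
    exact gg_act (hL.lor A hA) (VV_act hL A hA) (VV_act' hL A hA) (VV_sep hL)
      (fun b hb => qq_far hm hp.ha hp.ha' hp.hδ hp.hδ1 hb) x u v
  refine ⟨G₀, G₁, Γ, Γ, act0 hp0 hG₀, act0 (par a ha) hG₁,
    curv hm hp0.ha hp0.ha' hp0.hδ hp0.hδ1 hp0.hδa (VV_sep hL) (e1_mem hL) (VV_trans hL) hG₀,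
    curv hm (par a ha).ha (par a ha).ha' (par a ha).hδ (par a ha).hδ1 (par a ha).hδa (VV_sep hL)
      (e1_mem hL) (VV_trans hL) hG₁,
    hdim (vis (rdist G₀) 0), b0.1, by linarith [b0.2], fun o₀ o₁ => ⟨?_, ?_, ?_⟩⟩
  · exact hdim_base (geoD_G hL hm hp0 hG₀) o₀ 0
  · rw [hdim_base (geoD_G hL hm (par a ha) hG₁) o₁ 0, hDa]
  · exact not_bilip hL hm hp0 (par a ha) (by norm_num) hG₀ hG₁ o₀ o₁

end Pool.Agent.Lib.MP_529713_gt
end

section

/-!
# Translation of the main theorem to plainer definitions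
-/

namespace Pool.Agent.Lib.MP_529713_gt

set_option maxSynthPendingDepth 3

open Filter Topology Set
open scoped ContDiff NNReal

/-- the metric as a plain function -/
noncomputable def toM (G : RMetric) : Stmt.Metric where
  g := fun x u v => G.g x u v
  smooth := fun u v => (G.smooth.clm_apply contDiff_const).clm_apply contDiff_const
  add := fun x u v w => by rw [map_add]; rfl
  smul := fun c x u w => by rw [map_smul]; rfl
  symm := G.symm
  pos := G.pos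

lemma toM_g (G : RMetric) (x u v : V3) : (toM G).g x u v = G.g x u v := rfl

lemma toM_fderiv (G : RMetric) (x u v w : V3) :
    Stmt.dd (fun y => (toM G).g y v w) x u = fderiv ℝ G.g x u v w := by
  have hd : HasFDerivAt G.g (fderiv ℝ G.g x) x :=
    (G.smooth.differentiable (by simp) x).hasFDerivAt
  have h1 := (hd.clm_apply (hasFDerivAt_const v x)).clm_apply (hasFDerivAt_const w x)
  have h2 : Stmt.dd (fun y => (toM G).g y v w) x = fderiv ℝ (fun y => G.g y v w) x := rfl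
  rw [h2, h1.fderiv]
  simp

lemma toM_chr (G : RMetric) (x u v : V3) : Stmt.chr (toM G) x u v = chr G x u v := by
  have hex : ∃ c : V3, ∀ w, 2 * (toM G).g x c w =
      Stmt.dd (fun y => (toM G).g y v w) x u + Stmt.dd (fun y => (toM G).g y u w) x v
        - Stmt.dd (fun y => (toM G).g y u v) x w := by
    refine ⟨chr G x u v, fun w => ?_⟩
    rw [toM_fderiv, toM_fderiv, toM_fderiv, toM_g]
    exact koszul G x u v w
  have h := Classical.epsilon_spec hex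
  refine (chr_eq_of_koszul G fun w => ?_).symm
  have h1 := h w
  rw [toM_fderiv, toM_fderiv, toM_fderiv, toM_g] at h1
  exact h1

lemma toM_riem (G : RMetric) (x u v w : V3) : Stmt.riem (toM G) x u v w = riem G x u v w := by
  unfold Stmt.riem riem Stmt.dd
  simp only [toM_chr]

lemma toM_sec (G : RMetric) (x u v : V3) : Stmt.sec (toM G) x u v = sec G x u v := by
  unfold Stmt.sec sec
  simp only [toM_riem, toM_g]

lemma toM_curv {G : RMetric} (h : CurvNegOne G) : Stmt.CurvNegOne (toM G) := by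
  refine ⟨fun x u v huv => ?_, ?_⟩
  · rw [toM_sec]
    exact h.1 x u v huv
  · obtain ⟨x, u, v, huv, hs⟩ := h.2
    exact ⟨x, u, v, huv, by rw [toM_sec]; exact hs⟩

lemma toM_deck {G : RMetric} {Γ : Subgroup (Equiv.Perm V3)} (h : IsDeck G Γ) :
    Stmt.IsDeck (toM G) Γ where
  smooth := h.smooth
  isom := h.isom
  free := h.free
  proper := h.proper
  cocompact := h.cocompact

lemma toM_rdist (G : RMetric) : Stmt.rdist (toM G) = rdist G := rfl

lemma toM_hnull {Z : Type} (δ : Z → Z → ℝ) (s : ℝ) : Stmt.HNull δ s ↔ HNull δ s := Iff.rfl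

/-- **Main theorem**, in terms of the plain definitions. -/
theorem main_stmt : ∃ (G₀ G₁ : Stmt.Metric) (Γ₀ Γ₁ : Subgroup (Equiv.Perm V3)),
    Stmt.IsDeck G₀ Γ₀ ∧ Stmt.IsDeck G₁ Γ₁ ∧ Stmt.CurvNegOne G₀ ∧ Stmt.CurvNegOne G₁ ∧
    ∃ s : ℝ, 3 ≤ s ∧ s ≤ 6 ∧ ∀ o₀ o₁ : V3,
      Stmt.hdim (Stmt.vis (Stmt.rdist G₀) o₀) = s ∧ Stmt.hdim (Stmt.vis (Stmt.rdist G₁) o₁) = s ∧
        ¬ Stmt.Bilip (Stmt.vis (Stmt.rdist G₀) o₀) (Stmt.vis (Stmt.rdist G₁) o₁) := by
  obtain ⟨G₀, G₁, Γ₀, Γ₁, d₀, d₁, c₀, c₁, s, h3, h6, h⟩ := main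
  exact ⟨toM G₀, toM G₁, Γ₀, Γ₁, toM_deck d₀, toM_deck d₁, toM_curv c₀, toM_curv c₁, s, h3, h6, h⟩

end Pool.Agent.Lib.MP_529713_gt
end
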