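import Pool.Agent.Lib.MP_529713_gt.Defs

section

/-!
# Basic objects for the construction: hyperbolic space in hyperboloid coordinates
-/

namespace Pool.Agent.Lib.MP_529713_gt

open Filter Topology Set Matrix
open scoped ContDiff NNReal

/-! ## The hyperboloid model; `x : V3` corresponds to `(hh x, x)` in Minkowski space -/

/-- the time coordinate of the point of the hyperboloid with spatial part `x` -/
noncomputable def hh (x : V3) : ℝ := Real.sqrt (1 + ‖x‖ ^ 2)

/-- `cosh` of the hyperbolic distance -/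
noncomputable def PP (x y : V3) : ℝ := hh x * hh y - inner ℝ x y

/-- the hyperbolic distance -/
noncomputable def dh (x y : V3) : ℝ := Real.arcosh (PP x y)

/-- the Euclidean inner product as a bilinear map -/
noncomputable def ip : V3 →L[ℝ] V3 →L[ℝ] ℝ := innerSL ℝ

lemma ip_apply (u v : V3) : ip u v = inner ℝ u v := rfl

/-- the hyperbolic metric `|dx|² - (x · dx)² / (1 + |x|²)` -/
noncomputable def gh (x : V3) : V3 →L[ℝ] V3 →L[ℝ] ℝ :=
  ip - (1 + ‖x‖ ^ 2)⁻¹ • (ip x).smulRight (ip x)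

/-- Minkowski space -/
abbrev V4 := Fin 4 → ℝ

/-- the Minkowski form -/
def eta (u v : V4) : ℝ := -(u 0 * v 0) + u 1 * v 1 + u 2 * v 2 + u 3 * v 3

/-- the point of the hyperboloid over `x` -/
noncomputable def lift (x : V3) : V4 := ![hh x, x 0, x 1, x 2]

/-- Lorentz transformations which preserve the upper sheet -/
def IsLor (A : Matrix (Fin 4) (Fin 4) ℝ) : Prop :=
  (∀ u v, eta (A *ᵥ u) (A *ᵥ v) = eta u v) ∧ 0 < A 0 0

/-- the action of Lorentz transformations on `ℝ³` -/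
noncomputable def act (A : Matrix (Fin 4) (Fin 4) ℝ) (x : V3) : V3 :=
  WithLp.toLp 2 fun i : Fin 3 => (A *ᵥ lift x) i.succ

/-- the point with coordinate `s` on the geodesic through the origin in direction `e₁` -/
noncomputable def ax (s : ℝ) : V3 := EuclideanSpace.single 0 (Real.sinh s)

/-- `sinh` of the signed distance to the plane with unit normal `v` -/
noncomputable def bb (v : V4) (x : V3) : ℝ := eta v (lift x)

/-- the normal vector of the standard plane -/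
def e1 : V4 := ![0, 1, 0, 0]

/-- The correction term of the metric in the tube around the plane with unit normal `v`. -/
noncomputable def tube (q : ℝ → ℝ) (v : V4) (x : V3) : V3 →L[ℝ] V3 →L[ℝ] ℝ :=
  q (bb v x) • (gh x - (1 + bb v x ^ 2)⁻¹ • (fderiv ℝ (bb v) x).smulRight (fderiv ℝ (bb v) x))

/-- The metric with tubes around the planes with unit normals in `V`. -/
noncomputable def gg (k : ℝ) (q : ℝ → ℝ) (V : Set V4) (x : V3) : V3 →L[ℝ] V3 →L[ℝ] ℝ :=
  k • (gh x + ∑ᶠ v ∈ V, tube q v x)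

/-- A separated family of planes. -/
def Sep (V : Set V4) : Prop :=
  (∀ v ∈ V, eta v v = 1) ∧ ∀ v ∈ V, ∀ w ∈ V, v ≠ w → 10 ^ 7 ≤ |eta v w|

/-! ## Geodesic distance functions comparable to the hyperbolic distance -/

/-- `c` restricted to `[0, d x y]` is a geodesic from `x` to `y` for the distance `d`. -/
def IsSeg (d : V3 → V3 → ℝ) (x y : V3) (c : ℝ → V3) : Prop :=
  c 0 = x ∧ c (d x y) = y ∧
    ∀ s ∈ Icc 0 (d x y), ∀ t ∈ Icc 0 (d x y), d (c s) (c t) = |s - t|

/-- `d` is a geodesic distance with `dh / a ≤ d ≤ dh`. -/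
structure GeoD (a : ℝ) (d : V3 → V3 → ℝ) : Prop where
  one_le : 1 ≤ a
  self : ∀ x, d x x = 0
  symm : ∀ x y, d x y = d y x
  tri : ∀ x y z, d x z ≤ d x y + d y z
  lower : ∀ x y, dh x y ≤ a * d x y
  upper : ∀ x y, d x y ≤ dh x y
  geod : ∀ x y, ∃ c : ℝ → V3, IsSeg d x y c

/-- The ray `c` converges to the point at infinity with direction `θ`. -/
def EndsAt (c : ℝ≥0 → V3) (θ : V3) : Prop :=
  Tendsto (fun t => ‖c t‖) atTop atTop ∧ Tendsto (fun t => ‖c t‖⁻¹ • c t) atTop (𝓝 θ)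

/-- The point at distance `T` from the origin in direction `θ`. -/
noncomputable def pt (T : ℝ) (θ : V3) : V3 := Real.sinh T • θ

/-- A point where the rays from the origin in the directions `θ₁` and `θ₂` branch. -/
noncomputable def ctr (θ₁ θ₂ : V3) : V3 := pt (max 0 (-Real.log ‖θ₁ - θ₂‖)) θ₁

/-! ## The radial profile -/

/-- A smoothing of `x ↦ max 1 x`. -/
structure IsMu (m : ℝ → ℝ) : Prop where
  smooth : ContDiff ℝ ∞ m
  mono : Monotone m
  deriv_mono : Monotone (deriv m)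
  deriv_le : ∀ x, deriv m x ≤ 1
  left : ∀ x ≤ (9 / 10 : ℝ), m x = 1
  right : ∀ x, (11 / 10 : ℝ) ≤ x → m x = x

/-- The warping function. -/
noncomputable def WW (m : ℝ → ℝ) (δ a r : ℝ) : ℝ :=
  Real.cosh r * m (δ * a * Real.cosh (r / a) / Real.cosh r)

/-- The tube function. -/
noncomputable def qq (m : ℝ → ℝ) (δ a b : ℝ) : ℝ :=
  m (δ * a * Real.cosh (Real.arsinh b / a) / Real.sqrt (1 + b ^ 2)) ^ 2 - 1

/-- the metric of the hyperbolic plane in hyperboloid coordinates `(y 1, y 2)` -/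
noncomputable def g2 (y u w : V3) : ℝ :=
  u 1 * w 1 + u 2 * w 2 - (y 1 * u 1 + y 2 * u 2) * (y 1 * w 1 + y 2 * w 2) /
    (1 + y 1 ^ 2 + y 2 ^ 2)

/-- Fermi coordinates around the standard plane. -/
noncomputable def fermi (y : V3) : V3 :=
  !₂[Real.sinh (y 0), Real.cosh (y 0) * y 1, Real.cosh (y 0) * y 2]

/-- the projection onto the standard plane -/
noncomputable def proj (x : V3) : V3 :=
  !₂[0, x 1 / Real.sqrt (1 + x 0 ^ 2), x 2 / Real.sqrt (1 + x 0 ^ 2)]

/-! ## The lattice -/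

/-- the unit normal of the plane at signed distance `t` from the standard plane -/
noncomputable def ew (t : ℝ) : V4 := ![Real.sinh t, Real.cosh t, 0, 0]

/-- A cocompact torsion free lattice of Lorentz transformations such that the translates of the
standard plane are far from each other and from the plane with normal `ew t`. -/
structure IsLat (L : Set (Matrix (Fin 4) (Fin 4) ℝ)) (t : ℝ) : Prop where
  lor : ∀ A ∈ L, IsLor A
  one : (1 : Matrix (Fin 4) (Fin 4) ℝ) ∈ L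
  mul : ∀ A ∈ L, ∀ B ∈ L, A * B ∈ L
  inv : ∀ A ∈ L, ∃ B ∈ L, A * B = 1 ∧ B * A = 1
  free : ∀ A ∈ L, ∀ x : V3, act A x = x → A = 1
  finite : ∀ R : ℝ, {A | A ∈ L ∧ A 0 0 ≤ R}.Finite
  cocompact : ∃ R : ℝ, ∀ x : V3, ∃ A ∈ L, ‖act A x‖ ≤ R
  sep : ∀ A ∈ L, A *ᵥ e1 = e1 ∨ 10 ^ 7 ≤ |eta e1 (A *ᵥ e1)|
  far : ∀ A ∈ L, 2002 ≤ |eta (ew t) (A *ᵥ e1)|

end Pool.Agent.Lib.MP_529713_gt
end

section

/-!
# Hyperbolic distance
-/

namespace Pool.Agent.Lib.MP_529713_gt

open Filter Topology Set Matrix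
open scoped ContDiff NNReal

lemma hh_sq (x : V3) : hh x ^ 2 = 1 + ‖x‖ ^ 2 := by
  unfold hh
  exact Real.sq_sqrt (by positivity)

lemma one_le_hh (x : V3) : 1 ≤ hh x := by
  unfold hh
  rw [Real.one_le_sqrt]
  have := sq_nonneg ‖x‖
  linarith

lemma hh_smooth : ContDiff ℝ ∞ hh := by
  unfold hh
  apply ContDiff.sqrt
  · exact contDiff_const.add (contDiff_norm_sq ℝ)
  · intro x
    have := sq_nonneg ‖x‖
    linarith

lemma PP_comm (x y : V3) : PP x y = PP y x := by
  unfold PP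
  rw [real_inner_comm x y]
  ring

lemma hyp_inner_sq_le (x y : V3) : inner ℝ x y ^ 2 ≤ ‖x‖ ^ 2 * ‖y‖ ^ 2 := by
  have h := abs_real_inner_le_norm x y
  have h2 := pow_le_pow_left₀ (abs_nonneg _) h 2
  rw [sq_abs, mul_pow] at h2
  exact h2

lemma hyp_inner_le (x y : V3) : 2 * inner ℝ x y ≤ ‖x‖ ^ 2 + ‖y‖ ^ 2 := by
  have h := norm_sub_sq_real x y
  have h2 := sq_nonneg ‖x - y‖
  linarith

lemma one_le_PP (x y : V3) : 1 ≤ PP x y := by
  have hx := one_le_hh x
  have hy := one_le_hh y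
  unfold PP
  have h0 : 0 ≤ hh x * hh y := by positivity
  have h1 : (hh x * hh y) ^ 2 = (1 + ‖x‖ ^ 2) * (1 + ‖y‖ ^ 2) := by
    rw [mul_pow, hh_sq, hh_sq]
  have h2 : (1 + inner ℝ x y) ^ 2 ≤ (hh x * hh y) ^ 2 := by
    rw [h1]
    have h3 := hyp_inner_sq_le x y
    have h4 := hyp_inner_le x y
    nlinarith
  have h5 := abs_le.1 (abs_le_of_sq_le_sq h2 h0)
  linarith [h5.2]

lemma cosh_dh (x y : V3) : Real.cosh (dh x y) = PP x y := Real.cosh_arcosh (one_le_PP x y)

lemma dh_nonneg (x y : V3) : 0 ≤ dh x y := Real.arcosh_nonneg (one_le_PP x y)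

lemma hyp_PP_self (x : V3) : PP x x = 1 := by
  unfold PP
  rw [real_inner_self_eq_norm_sq, ← sq, hh_sq]
  ring

lemma dh_self (x : V3) : dh x x = 0 := by
  unfold dh
  rw [hyp_PP_self]
  exact Real.arcosh_zero

lemma dh_comm (x y : V3) : dh x y = dh y x := by
  unfold dh
  rw [PP_comm]

lemma dh_eq_zero {x y : V3} (h : dh x y = 0) : x = y := by
  unfold dh at h
  rw [Real.arcosh_eq_zero_iff (one_le_PP x y)] at h
  unfold PP at h
  have h1 : (hh x * hh y) ^ 2 = (1 + ‖x‖ ^ 2) * (1 + ‖y‖ ^ 2) := by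
    rw [mul_pow, hh_sq, hh_sq]
  have h2 : hh x * hh y = 1 + inner ℝ x y := by linarith
  rw [h2] at h1
  have h3 := hyp_inner_sq_le x y
  have h4 := norm_sub_sq_real x y
  have h5 : ‖x - y‖ ^ 2 ≤ 0 := by nlinarith
  have h6 : ‖x - y‖ = 0 := by
    have := sq_nonneg ‖x - y‖
    have h7 : ‖x - y‖ ^ 2 = 0 := le_antisymm h5 this
    exact pow_eq_zero_iff (two_ne_zero) |>.1 h7
  exact sub_eq_zero.1 (norm_eq_zero.1 h6)

/-- the Minkowski form is positive semidefinite on the orthogonal complement of a point of the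
hyperboloid -/
lemma hyp_psd (y u : V3) (u0 : ℝ) (h : u0 * hh y = inner ℝ u y) : 0 ≤ ‖u‖ ^ 2 - u0 ^ 2 := by
  have h1 := hyp_inner_sq_le u y
  rw [← h, mul_pow, hh_sq] at h1
  have h2 := sq_nonneg ‖u‖
  have h3 := sq_nonneg ‖y‖
  by_contra hcon
  push Not at hcon
  nlinarith

lemma hyp_PP_le (x y z : V3) :
    PP x z ≤ PP x y * PP y z + Real.sqrt (PP x y ^ 2 - 1) * Real.sqrt (PP y z ^ 2 - 1) := by
  set p := PP x y with hp
  set q := PP y z with hq
  set r := PP x z with hr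
  have hp1 : 1 ≤ p := one_le_PP x y
  have hq1 : 1 ≤ q := one_le_PP y z
  have hA : 0 ≤ p ^ 2 - 1 := by nlinarith
  have hC : 0 ≤ q ^ 2 - 1 := by nlinarith
  have hx := hh_sq x
  have hy := hh_sq y
  have hz := hh_sq z
  rw [← real_inner_self_eq_norm_sq] at hx hy hz
  have hp' : p = hh x * hh y - inner ℝ x y := hp
  have hq' : q = hh y * hh z - inner ℝ y z := hq
  have hr' : r = hh x * hh z - inner ℝ x z := hr
  have key : ∀ t : ℝ, 0 ≤ (q ^ 2 - 1) * (t * t) + 2 * (p * q - r) * t + (p ^ 2 - 1) := by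
    intro t
    have h1 := hyp_psd y ((x - p • y) + t • (z - q • y))
      ((hh x - p * hh y) + t * (hh z - q * hh y)) (by
        simp only [inner_add_left, inner_sub_left, real_inner_smul_left]
        rw [real_inner_comm y z]
        have e1 : inner ℝ x y = hh x * hh y - p := by linarith
        have e2 : inner ℝ y z = hh y * hh z - q := by linarith
        have e3 : inner ℝ y y = hh y ^ 2 - 1 := by linarith
        rw [e1, e2, e3]
        ring)
    rw [← real_inner_self_eq_norm_sq] at h1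
    simp only [inner_add_left, inner_sub_left, real_inner_smul_left, inner_add_right,
      inner_sub_right, real_inner_smul_right] at h1
    rw [real_inner_comm x y, real_inner_comm x z, real_inner_comm y z] at h1
    have e1 : inner ℝ x y = hh x * hh y - p := by linarith
    have e2 : inner ℝ y z = hh y * hh z - q := by linarith
    have e3 : inner ℝ y y = hh y ^ 2 - 1 := by linarith
    have e4 : inner ℝ x z = hh x * hh z - r := by linarith
    have e5 : inner ℝ x x = hh x ^ 2 - 1 := by linarith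
    have e6 : inner ℝ z z = hh z ^ 2 - 1 := by linarith
    rw [e1, e2, e3, e4, e5, e6] at h1
    refine h1.trans (le_of_eq ?_)
    ring
  have h2 := discrim_le_zero key
  unfold discrim at h2
  have h3 : (p * q - r) ^ 2 ≤ (Real.sqrt (p ^ 2 - 1) * Real.sqrt (q ^ 2 - 1)) ^ 2 := by
    rw [mul_pow, Real.sq_sqrt hA, Real.sq_sqrt hC]
    nlinarith
  have h4 := abs_le.1 (abs_le_of_sq_le_sq h3 (by positivity))
  linarith [h4.1]

lemma dh_tri (x y z : V3) : dh x z ≤ dh x y + dh y z := by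
  have h1 : PP x z ≤ Real.cosh (dh x y + dh y z) := by
    rw [Real.cosh_add, cosh_dh, cosh_dh]
    unfold dh
    rw [Real.sinh_arcosh (one_le_PP x y), Real.sinh_arcosh (one_le_PP y z)]
    exact hyp_PP_le x y z
  have h2 : 0 ≤ dh x y + dh y z := add_nonneg (dh_nonneg _ _) (dh_nonneg _ _)
  rw [← Real.arcosh_cosh h2]
  unfold dh at h1 ⊢
  rw [Real.arcosh_le_arcosh (by linarith [one_le_PP x z]) (Real.cosh_pos _)]
  exact h1

lemma dh_zero (x : V3) : dh 0 x = Real.arsinh ‖x‖ := by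
  have h1 : 0 ≤ Real.arsinh ‖x‖ := Real.arsinh_nonneg_iff.2 (norm_nonneg _)
  rw [← Real.arcosh_cosh h1, Real.cosh_arsinh]
  unfold dh PP hh
  simp

lemma dh_cont : Continuous fun p : V3 × V3 => dh p.1 p.2 := by
  have h1 : Continuous fun p : V3 × V3 => PP p.1 p.2 := by
    unfold PP
    have h2 : Continuous hh := hh_smooth.continuous
    have h3 : Continuous fun p : V3 × V3 => inner ℝ p.1 p.2 := continuous_inner
    exact ((h2.comp continuous_fst).mul (h2.comp continuous_snd)).sub h3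
  exact Real.continuousOn_arcosh.comp_continuous h1 fun p => one_le_PP _ _

lemma isCompact_dh_ball (o : V3) (R : ℝ) : IsCompact {x | dh o x ≤ R} := by
  apply Metric.isCompact_of_isClosed_isBounded
  · have h1 : Continuous fun x : V3 => dh o x :=
      dh_cont.comp (f := fun x : V3 => (o, x)) (by fun_prop)
    exact isClosed_le h1 continuous_const
  · apply (Metric.isBounded_closedBall (x := (0 : V3))
      (r := Real.sinh (dh 0 o + R))).subset
    intro x hx
    rw [mem_ofPred_eq] at hx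
    rw [mem_closedBall_zero_iff]
    have h1 := dh_tri 0 o x
    rw [dh_zero x] at h1
    have h2 : Real.arsinh ‖x‖ ≤ dh 0 o + R := by linarith
    calc ‖x‖ = Real.sinh (Real.arsinh ‖x‖) := (Real.sinh_arsinh _).symm
      _ ≤ _ := Real.sinh_le_sinh.2 h2

lemma gh_apply (x u v : V3) :
    gh x u v = inner ℝ u v - inner ℝ x u * inner ℝ x v / (1 + ‖x‖ ^ 2) := by
  have h : gh x u v = inner ℝ u v - (1 + ‖x‖ ^ 2)⁻¹ * (inner ℝ x u * inner ℝ x v) := rfl
  rw [h]
  ring

lemma gh_symm (x u v : V3) : gh x u v = gh x v u := by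
  rw [gh_apply, gh_apply, real_inner_comm u v]
  ring

lemma gh_pos (x u : V3) (hu : u ≠ 0) : 0 < gh x u u := by
  rw [gh_apply, real_inner_self_eq_norm_sq, sub_pos]
  have h0 : 0 < 1 + ‖x‖ ^ 2 := by positivity
  rw [div_lt_iff₀ h0]
  have h1 := hyp_inner_sq_le x u
  have h2 : 0 < ‖u‖ ^ 2 := by
    have := norm_pos_iff.2 hu
    positivity
  nlinarith

lemma gh_smooth : ContDiff ℝ ∞ gh := by
  have h1 : ContDiff ℝ ∞ fun x : V3 => (1 + ‖x‖ ^ 2)⁻¹ := by
    apply ContDiff.inv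
    · exact contDiff_const.add (contDiff_norm_sq ℝ)
    · intro x
      positivity
  have h4 : ContDiff ℝ ∞ fun x : V3 => (1 + ‖x‖ ^ 2)⁻¹ • x := h1.smul contDiff_id
  have h5 : ContDiff ℝ ∞ fun x : V3 => ip ((1 + ‖x‖ ^ 2)⁻¹ • x) := ip.contDiff.comp h4
  have h2 : ContDiff ℝ ∞ fun x : V3 => (ip ((1 + ‖x‖ ^ 2)⁻¹ • x)).smulRight (ip x) :=
    h5.smulRight ip.contDiff
  have h3 : gh = fun x => ip - (ip ((1 + ‖x‖ ^ 2)⁻¹ • x)).smulRight (ip x) := by
    funext x
    unfold gh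
    rw [map_smul]
    congr 1
    ext u v
    simp
    ring
  rw [h3]
  exact contDiff_const.sub h2

end Pool.Agent.Lib.MP_529713_gt
end

section

/-!
# Lorentz transformations
-/

namespace Pool.Agent.Lib.MP_529713_gt

open Filter Topology Set Matrix
open scoped ContDiff NNReal

variable {A B : Matrix (Fin 4) (Fin 4) ℝ}

lemma lor_inner (x y : V3) : inner ℝ x y = x 0 * y 0 + x 1 * y 1 + x 2 * y 2 := by
  simp [PiLp.inner_apply, Fin.sum_univ_three]
  ring

lemma lor_norm_sq (x : V3) : ‖x‖ ^ 2 = x 0 ^ 2 + x 1 ^ 2 + x 2 ^ 2 := by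
  rw [← real_inner_self_eq_norm_sq, lor_inner]
  ring

lemma lor_hh_pos (x : V3) : 0 < hh x := lt_of_lt_of_le one_pos (one_le_hh x)

lemma lift_smooth : ContDiff ℝ ∞ lift := by
  rw [contDiff_pi]
  intro i
  fin_cases i
  · simpa [lift] using hh_smooth
  · simp [lift]; fun_prop
  · simp [lift]; fun_prop
  · simp [lift]; fun_prop

lemma eta_lift (x y : V3) : eta (lift x) (lift y) = -PP x y := by
  simp [eta, lift, PP, lor_inner]
  ring

lemma lift_inj {x y : V3} (h : lift x = lift y) : x = y := by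
  have h1 := congrFun h 1
  have h2 := congrFun h 2
  have h3 := congrFun h 3
  simp [lift] at h1 h2 h3
  ext i
  fin_cases i <;> assumption

/-- a vector on the upper sheet is a lift -/
lemma lift_of_eta {u : V4} (h : eta u u = -1) (h0 : 0 < u 0) :
    lift (WithLp.toLp 2 fun i : Fin 3 => u i.succ) = u := by
  have e : hh (WithLp.toLp 2 fun i : Fin 3 => u i.succ) = u 0 := by
    have h1 := hh_sq (WithLp.toLp 2 fun i : Fin 3 => u i.succ)
    rw [lor_norm_sq] at h1
    simp only [Fin.succ_zero_eq_one, Fin.succ_one_eq_two] at h1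
    have h2 := lor_hh_pos (WithLp.toLp 2 fun i : Fin 3 => u i.succ)
    have e3 : (Fin.succ 2 : Fin 4) = 3 := rfl
    rw [e3] at h1
    simp only [eta] at h
    nlinarith
  ext i
  fin_cases i
  · simpa [lift] using e
  · simp [lift]
  · simp [lift]
  · simp [lift]

lemma lor_pp_self (x : V3) : PP x x = 1 := by
  have h := hh_sq x
  have h2 : PP x x = hh x ^ 2 - ‖x‖ ^ 2 := by
    rw [PP, real_inner_self_eq_norm_sq]; ring
  rw [h2, h]; ring

lemma eta_lift_self (x : V3) : eta (lift x) (lift x) = -1 := by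
  rw [eta_lift, lor_pp_self]

/-- reverse Cauchy-Schwarz -/
lemma lor_future {u w : V4} (hu : eta u u = -1) (hw : eta w w = -1) (u0 : 0 < u 0)
    (h : eta u w < 0) : 0 < w 0 := by
  simp only [eta] at hu hw h
  by_contra hc
  push Not at hc
  have cs : (u 1 * w 1 + u 2 * w 2 + u 3 * w 3) ^ 2 ≤
      (u 1 ^ 2 + u 2 ^ 2 + u 3 ^ 2) * (w 1 ^ 2 + w 2 ^ 2 + w 3 ^ 2) := by
    nlinarith [sq_nonneg (u 1 * w 2 - u 2 * w 1), sq_nonneg (u 1 * w 3 - u 3 * w 1),
      sq_nonneg (u 2 * w 3 - u 3 * w 2)]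
  have e1 : u 1 ^ 2 + u 2 ^ 2 + u 3 ^ 2 = u 0 ^ 2 - 1 := by nlinarith
  have e2 : w 1 ^ 2 + w 2 ^ 2 + w 3 ^ 2 = w 0 ^ 2 - 1 := by nlinarith
  rw [e1, e2] at cs
  set s := u 1 * w 1 + u 2 * w 2 + u 3 * w 3 with hs
  have h1 : 0 ≤ u 0 * (-(w 0)) := mul_nonneg u0.le (by linarith)
  have hs2 : s < -(u 0 * (-(w 0))) := by linarith
  have h3 : (u 0 * (-(w 0))) ^ 2 < s ^ 2 := by
    nlinarith
  have p1 : 1 ≤ u 0 ^ 2 := by nlinarith [sq_nonneg (u 1), sq_nonneg (u 2), sq_nonneg (u 3)]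
  have p2 : 1 ≤ w 0 ^ 2 := by nlinarith [sq_nonneg (w 1), sq_nonneg (w 2), sq_nonneg (w 3)]
  nlinarith

lemma lor_e0 (A : Matrix (Fin 4) (Fin 4) ℝ) (i : Fin 4) : (A *ᵥ ![1, 0, 0, 0]) i = A i 0 := by
  simp [Matrix.mulVec, dotProduct, Fin.sum_univ_four]

lemma lor_mulVec_pos (hA : IsLor A) {w : V4} (hw : eta w w = -1) (w0 : 0 < w 0) :
    0 < (A *ᵥ w) 0 := by
  have h1 : eta (A *ᵥ ![1, 0, 0, 0]) (A *ᵥ ![1, 0, 0, 0]) = -1 := by
    rw [hA.1]; simp [eta]
  have h2 : eta (A *ᵥ w) (A *ᵥ w) = -1 := by rw [hA.1, hw]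
  have h3 : 0 < (A *ᵥ ![1, 0, 0, 0]) 0 := by rw [lor_e0]; exact hA.2
  refine lor_future h1 h2 h3 ?_
  rw [hA.1]
  simp [eta, w0]

lemma isLor_one : IsLor 1 := by
  refine ⟨fun u v => by simp, by simp⟩

lemma isLor_mul (hA : IsLor A) (hB : IsLor B) : IsLor (A * B) := by
  refine ⟨fun u v => ?_, ?_⟩
  · rw [← Matrix.mulVec_mulVec, ← Matrix.mulVec_mulVec, hA.1, hB.1]
  · have h1 : eta (B *ᵥ ![1, 0, 0, 0]) (B *ᵥ ![1, 0, 0, 0]) = -1 := by
      rw [hB.1]; simp [eta]
    have h3 : 0 < (B *ᵥ ![1, 0, 0, 0]) 0 := by rw [lor_e0]; exact hB.2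
    have := lor_mulVec_pos hA h1 h3
    rwa [Matrix.mulVec_mulVec, lor_e0] at this

lemma lift_act (hA : IsLor A) (x : V3) : lift (act A x) = A *ᵥ lift x := by
  refine lift_of_eta ?_ ?_
  · rw [hA.1, eta_lift_self]
  · exact lor_mulVec_pos hA (eta_lift_self x) (by simpa [lift] using lor_hh_pos x)

lemma act_mul (hA : IsLor A) (hB : IsLor B) (x : V3) : act (A * B) x = act A (act B x) := by
  apply lift_inj
  rw [lift_act (isLor_mul hA hB), lift_act hA, lift_act hB, Matrix.mulVec_mulVec]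

lemma act_one (x : V3) : act 1 x = x := by
  apply lift_inj
  rw [lift_act isLor_one, Matrix.one_mulVec]

lemma PP_act (hA : IsLor A) (x y : V3) : PP (act A x) (act A y) = PP x y := by
  have h := eta_lift (act A x) (act A y)
  rw [lift_act hA, lift_act hA, hA.1, eta_lift] at h
  linarith

lemma dh_act (hA : IsLor A) (x y : V3) : dh (act A x) (act A y) = dh x y := by
  rw [dh, dh, PP_act hA]

lemma lor_lift_comp_smooth (i : Fin 4) : ContDiff ℝ ∞ fun x => lift x i :=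
  contDiff_pi.1 lift_smooth i

lemma act_smooth (A : Matrix (Fin 4) (Fin 4) ℝ) : ContDiff ℝ ∞ (act A) := by
  rw [contDiff_euclidean]
  intro i
  simp only [act, Matrix.mulVec, dotProduct]
  exact ContDiff.sum fun j _ => contDiff_const.mul (lor_lift_comp_smooth j)

lemma lor_diff_lift (x : V3) : DifferentiableAt ℝ lift x :=
  (lift_smooth.differentiable (by simp)) x

lemma lor_diff_act (x : V3) : DifferentiableAt ℝ (act A) x :=
  ((act_smooth A).differentiable (by simp)) x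

lemma lor_fderiv_hh (x u : V3) : hh x * fderiv ℝ hh x u = inner ℝ x u := by
  have hd : DifferentiableAt ℝ hh x := (hh_smooth.differentiable (by simp)) x
  have h1 : HasFDerivAt (fun y => hh y ^ 2) ((2 * hh x) • fderiv ℝ hh x) x := by
    simpa using hd.hasFDerivAt.pow 2
  have h2 : HasFDerivAt (fun y : V3 => hh y ^ 2) (2 • (innerSL ℝ x)) x := by
    have : (fun y : V3 => hh y ^ 2) = fun y => 1 + ‖y‖ ^ 2 := funext hh_sq
    rw [this]
    exact (hasStrictFDerivAt_norm_sq x).hasFDerivAt.const_add 1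
  have h3 := DFunLike.congr_fun (h1.unique h2) u
  simp at h3
  linarith

lemma lor_fderiv_lift_apply (x u : V3) (i : Fin 4) :
    fderiv ℝ lift x u i = fderiv ℝ (fun y => lift y i) x u := by
  have h := (hasFDerivAt_pi'.1 (lor_diff_lift x).hasFDerivAt i).fderiv
  rw [h]
  rfl

lemma lor_fderiv_coord (x u : V3) (i : Fin 3) : fderiv ℝ (fun y : V3 => y i) x u = u i := by
  have : (fun y : V3 => y i) = (EuclideanSpace.proj i : V3 →L[ℝ] ℝ) := rfl
  rw [this, ContinuousLinearMap.fderiv]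
  rfl

lemma fderiv_lift_eq (x u : V3) : fderiv ℝ lift x u = ![inner ℝ x u / hh x, u 0, u 1, u 2] := by
  ext i
  rw [lor_fderiv_lift_apply]
  fin_cases i
  · have h : (fun y => lift y 0) = hh := by ext y; simp [lift]
    change fderiv ℝ (fun y => lift y 0) x u = _
    rw [h]
    have := lor_fderiv_hh x u
    have h0 := lor_hh_pos x
    simp
    field_simp
    linarith
  · have h : (fun y => lift y 1) = fun y : V3 => y 0 := by ext y; simp [lift]
    change fderiv ℝ (fun y => lift y 1) x u = _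
    rw [h, lor_fderiv_coord]; simp
  · have h : (fun y => lift y 2) = fun y : V3 => y 1 := by ext y; simp [lift]
    change fderiv ℝ (fun y => lift y 2) x u = _
    rw [h, lor_fderiv_coord]; simp
  · have h : (fun y => lift y 3) = fun y : V3 => y 2 := by ext y; simp [lift]
    change fderiv ℝ (fun y => lift y 3) x u = _
    rw [h, lor_fderiv_coord]; simp

lemma gh_eq_eta (x u v : V3) : gh x u v = eta (fderiv ℝ lift x u) (fderiv ℝ lift x v) := by
  rw [gh_apply, fderiv_lift_eq, fderiv_lift_eq]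
  have h := hh_sq x
  have h0 := lor_hh_pos x
  rw [← h, lor_inner u v]
  simp [eta]
  field_simp
  ring

lemma fderiv_lift_act (hA : IsLor A) (x u : V3) :
    fderiv ℝ lift (act A x) (fderiv ℝ (act A) x u) = A *ᵥ fderiv ℝ lift x u := by
  have h1 : HasFDerivAt (fun y => lift (act A y))
      ((fderiv ℝ lift (act A x)).comp (fderiv ℝ (act A) x)) x :=
    (lor_diff_lift (act A x)).hasFDerivAt.comp x (lor_diff_act x).hasFDerivAt
  have h2 : HasFDerivAt (fun y => lift (act A y))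
      ((Matrix.mulVecLin A).toContinuousLinearMap.comp (fderiv ℝ lift x)) x := by
    have : (fun y => lift (act A y)) = fun y => (Matrix.mulVecLin A).toContinuousLinearMap (lift y) := by
      ext1 y
      rw [lift_act hA]
      rfl
    rw [this]
    exact ((Matrix.mulVecLin A).toContinuousLinearMap.hasFDerivAt).comp x
      (lor_diff_lift x).hasFDerivAt
  have h3 := DFunLike.congr_fun (h1.unique h2) u
  simpa using h3

lemma gh_act (hA : IsLor A) (x u v : V3) :
    gh (act A x) (fderiv ℝ (act A) x u) (fderiv ℝ (act A) x v) = gh x u v := by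
  rw [gh_eq_eta, fderiv_lift_act hA, fderiv_lift_act hA, hA.1, gh_eq_eta]

lemma bb_act (hA : IsLor A) (v : V4) (x : V3) : bb (A *ᵥ v) (act A x) = bb v x := by
  rw [bb, bb, lift_act hA, hA.1]

/-- the Minkowski form as a linear map in the second variable -/
noncomputable def etaL (v : V4) : V4 →L[ℝ] ℝ :=
  LinearMap.toContinuousLinearMap
    { toFun := fun w => eta v w
      map_add' := fun a b => by simp [eta]; ring
      map_smul' := fun a b => by simp [eta]; ring }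

lemma etaL_apply (v w : V4) : etaL v w = eta v w := rfl

lemma fderiv_bb (v : V4) (x u : V3) : fderiv ℝ (bb v) x u = eta v (fderiv ℝ lift x u) := by
  have h : HasFDerivAt (bb v) ((etaL v).comp (fderiv ℝ lift x)) x :=
    (etaL v).hasFDerivAt.comp x (lor_diff_lift x).hasFDerivAt
  rw [h.fderiv]
  rfl

lemma fderiv_bb_act (hA : IsLor A) (v : V4) (x u : V3) :
    fderiv ℝ (bb (A *ᵥ v)) (act A x) (fderiv ℝ (act A) x u) = fderiv ℝ (bb v) x u := by
  rw [fderiv_bb, fderiv_bb, fderiv_lift_act hA, hA.1]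

/-- for `A * B = 1 = B * A` the derivative of `act A` is bijective -/
lemma fderiv_act_bijective (hA : IsLor A) (hB : IsLor B) (h : A * B = 1) (h' : B * A = 1)
    (x : V3) : Function.Bijective (fderiv ℝ (act A) x) := by
  have key : ∀ {C D : Matrix (Fin 4) (Fin 4) ℝ} (hC : IsLor C) (hD : IsLor D) (hCD : C * D = 1)
      (y u : V3), fderiv ℝ (act C) (act D y) (fderiv ℝ (act D) y u) = u := by
    intro C D hC hD hCD y u
    have h1 : HasFDerivAt (fun z => act C (act D z))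
        ((fderiv ℝ (act C) (act D y)).comp (fderiv ℝ (act D) y)) y :=
      (lor_diff_act (act D y)).hasFDerivAt.comp y (lor_diff_act y).hasFDerivAt
    have h2 : HasFDerivAt (fun z => act C (act D z)) (ContinuousLinearMap.id ℝ V3) y := by
      have : (fun z => act C (act D z)) = fun z => z := by
        ext1 z
        rw [← act_mul hC hD, hCD, act_one]
      rw [this]
      exact hasFDerivAt_id y
    have h3 := DFunLike.congr_fun (h1.unique h2) u
    simpa using h3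
  refine ⟨fun u v huv => ?_, fun w => ?_⟩
  · rw [← key hB hA h' x u, ← key hB hA h' x v, huv]
  · refine ⟨fderiv ℝ (act B) (act A x) w, ?_⟩
    have hx : act B (act A x) = x := by rw [← act_mul hB hA, h', act_one]
    have := key hA hB h (act A x) w
    rwa [hx] at this

end Pool.Agent.Lib.MP_529713_gt
end

section

section

/-!
# The arithmetic lattice: definitions

`φ` is the golden ratio, `ψ` its conjugate.  The lattice is a congruence subgroup of the group of
integral automorphisms of the form `-φ x₀² + x₁² + x₂² + x₃²` over `ℤ[φ]`.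
-/

namespace Pool.Agent.Lib.MP_529713_gt

open Filter Topology Set Matrix
open scoped ContDiff NNReal

/-- golden ratio -/
noncomputable abbrev gr : ℝ := Real.goldenRatio

/-- conjugate of the golden ratio -/
noncomputable abbrev gc : ℝ := Real.goldenConj

/-- `(x, y)` is the pair of the two real embeddings of an element of `ℤ[φ]`. -/
def IsInt2 (x y : ℝ) : Prop := ∃ p q : ℤ, x = p + q * gr ∧ y = p + q * gc

/-- The Gram matrix of the form `-c x₀² + x₁² + x₂² + x₃²`. -/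
def JJ (c : ℝ) : Matrix (Fin 4) (Fin 4) ℝ := Matrix.diagonal ![-c, 1, 1, 1]

/-- `A` is an integral automorphism of the form (with `c = φ`) which preserves the upper sheet, and
`A'` is its conjugate. -/
structure IsO (A A' : Matrix (Fin 4) (Fin 4) ℝ) : Prop where
  int : ∀ i j, IsInt2 (A i j) (A' i j)
  pres : Aᵀ * JJ gr * A = JJ gr
  pres' : A'ᵀ * JJ gc * A' = JJ gc
  pos : 0 < A 0 0

/-- congruence to the identity modulo `n` -/
def Lev (n : ℝ) (A A' : Matrix (Fin 4) (Fin 4) ℝ) : Prop :=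
  ∀ i j, ∃ x y : ℝ, IsInt2 x y ∧ A i j = (1 : Matrix (Fin 4) (Fin 4) ℝ) i j + n * x ∧
    A' i j = (1 : Matrix (Fin 4) (Fin 4) ℝ) i j + n * y

/-- change of coordinates to the standard Minkowski form -/
noncomputable def std (A : Matrix (Fin 4) (Fin 4) ℝ) : Matrix (Fin 4) (Fin 4) ℝ :=
  Matrix.diagonal ![Real.sqrt gr, 1, 1, 1] * A * Matrix.diagonal ![(Real.sqrt gr)⁻¹, 1, 1, 1]

/-- the lattice -/
def LL : Set (Matrix (Fin 4) (Fin 4) ℝ) := {B | ∃ A A', IsO A A' ∧ Lev 5000 A A' ∧ B = std A}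

end Pool.Agent.Lib.MP_529713_gt
end

section

/-!
# The arithmetic lattice: basic facts
-/

namespace Pool.Agent.Lib.MP_529713_gt

open Filter Topology Set Matrix
open scoped ContDiff NNReal

variable {A A' B B' : Matrix (Fin 4) (Fin 4) ℝ}

lemma lb_gr_sq : gr * gr = gr + 1 := by
  have := Real.goldenRatio_sq
  nlinarith

lemma lb_gc_sq : gc * gc = gc + 1 := by
  have := Real.goldenConj_sq
  nlinarith

lemma lb_mul : gr * gc = -1 := Real.goldenRatio_mul_goldenConj

lemma lb_add : gr + gc = 1 := Real.goldenRatio_add_goldenConj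

lemma isInt2_int (p : ℤ) : IsInt2 p p := ⟨p, 0, by simp, by simp⟩

lemma isInt2_gr : IsInt2 gr gc := ⟨0, 1, by simp, by simp⟩

lemma IsInt2.add {x y x' y' : ℝ} (h : IsInt2 x y) (h' : IsInt2 x' y') :
    IsInt2 (x + x') (y + y') := by
  obtain ⟨p, q, rfl, rfl⟩ := h
  obtain ⟨p', q', rfl, rfl⟩ := h'
  exact ⟨p + p', q + q', by push_cast; ring, by push_cast; ring⟩

lemma IsInt2.mul {x y x' y' : ℝ} (h : IsInt2 x y) (h' : IsInt2 x' y') :
    IsInt2 (x * x') (y * y') := by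
  obtain ⟨p, q, rfl, rfl⟩ := h
  obtain ⟨p', q', rfl, rfl⟩ := h'
  refine ⟨p * p' + q * q', p * q' + p' * q + q * q', ?_, ?_⟩
  · push_cast
    linear_combination (q * q' : ℝ) * lb_gr_sq
  · push_cast
    linear_combination (q * q' : ℝ) * lb_gc_sq

lemma IsInt2.neg {x y : ℝ} (h : IsInt2 x y) : IsInt2 (-x) (-y) := by
  obtain ⟨p, q, rfl, rfl⟩ := h
  exact ⟨-p, -q, by push_cast; ring, by push_cast; ring⟩

lemma isInt2_zero : IsInt2 0 0 := ⟨0, 0, by simp, by simp⟩

lemma isInt2_one : IsInt2 1 1 := ⟨1, 0, by simp, by simp⟩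

lemma IsInt2.sum {ι : Type*} (s : Finset ι) {f g : ι → ℝ} (h : ∀ i ∈ s, IsInt2 (f i) (g i)) :
    IsInt2 (∑ i ∈ s, f i) (∑ i ∈ s, g i) := by
  classical
  induction s using Finset.induction_on with
  | empty => simpa using isInt2_zero
  | insert a s ha ih =>
    rw [Finset.sum_insert ha, Finset.sum_insert ha]
    exact (h a (Finset.mem_insert_self a s)).add
      (ih fun i hi => h i (Finset.mem_insert_of_mem hi))

lemma lb_irr {p q : ℤ} {g : ℝ} (hg : Irrational g) (h : (p : ℝ) + q * g = 0) : p = 0 ∧ q = 0 := by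
  by_cases hq : q = 0
  · subst hq
    constructor
    · have : (p : ℝ) = 0 := by simpa using h
      exact_mod_cast this
    · rfl
  · exfalso
    apply hg
    refine ⟨-(p : ℚ) / q, ?_⟩
    have hq' : (q : ℝ) ≠ 0 := by exact_mod_cast hq
    push_cast
    field_simp
    linarith

/-- the norm of a nonzero element is at least one -/
lemma IsInt2.norm {x y : ℝ} (h : IsInt2 x y) : (x = 0 ∧ y = 0) ∨ 1 ≤ |x| * |y| := by
  obtain ⟨p, q, hx, hy⟩ := h
  have hxy : x * y = ((p * p + p * q - q * q : ℤ) : ℝ) := by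
    subst hx; subst hy
    push_cast
    linear_combination (q * q : ℝ) * lb_mul + (p * q : ℝ) * lb_add
  by_cases h0 : p * p + p * q - q * q = 0
  · left
    rw [h0] at hxy
    simp only [Int.cast_zero, mul_eq_zero] at hxy
    rcases hxy with hxy | hxy
    · rw [hx] at hxy
      obtain ⟨rfl, rfl⟩ := lb_irr Real.goldenRatio_irrational hxy
      subst hx; subst hy
      simp
    · rw [hy] at hxy
      obtain ⟨rfl, rfl⟩ := lb_irr Real.goldenConj_irrational hxy
      subst hx; subst hy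
      simp
  · right
    rw [← abs_mul, hxy]
    have : (1 : ℤ) ≤ |p * p + p * q - q * q| := Int.one_le_abs h0
    exact_mod_cast this

lemma IsInt2.finite (R S : ℝ) : {x : ℝ | ∃ y, IsInt2 x y ∧ |x| ≤ R ∧ |y| ≤ S}.Finite := by
  obtain ⟨N, hN⟩ := exists_nat_ge (R + 2 * (R + S))
  obtain ⟨M, hM⟩ := exists_nat_ge (R + S)
  refine Set.Finite.subset (((Finset.Icc (-(N : ℤ)) N) ×ˢ (Finset.Icc (-(M : ℤ)) M)).image
    (fun t : ℤ × ℤ => (t.1 : ℝ) + t.2 * gr)).finite_toSet ?_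
  rintro x ⟨y, ⟨p, q, hx, hy⟩, hxR, hyS⟩
  rw [Finset.coe_image]
  refine ⟨(p, q), ?_, hx.symm⟩
  have h5 : gr - gc = Real.sqrt 5 := Real.goldenRatio_sub_goldenConj
  have h51 : (1 : ℝ) ≤ Real.sqrt 5 := by
    rw [Real.one_le_sqrt]; norm_num
  have hq : x - y = q * Real.sqrt 5 := by
    rw [hx, hy, ← h5]; ring
  have hqa : |(q : ℝ)| ≤ R + S := by
    have h1 : |(q : ℝ)| * Real.sqrt 5 = |x - y| := by
      rw [hq, abs_mul, abs_of_nonneg (Real.sqrt_nonneg 5)]
    have h2 : |x - y| ≤ |x| + |y| := abs_sub _ _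
    nlinarith [abs_nonneg (q : ℝ)]
  have hpa : |(p : ℝ)| ≤ R + 2 * (R + S) := by
    have h1 : (p : ℝ) = x - q * gr := by rw [hx]; ring
    have h2 : |(p : ℝ)| ≤ |x| + |(q : ℝ) * gr| := by rw [h1]; exact abs_sub _ _
    have hg : |gr| ≤ 2 := by
      rw [abs_of_pos Real.goldenRatio_pos]
      exact Real.goldenRatio_lt_two.le
    rw [abs_mul] at h2
    nlinarith [abs_nonneg (q : ℝ), abs_nonneg gr]
  have hpN : |(p : ℝ)| ≤ N := hpa.trans hN
  have hqM : |(q : ℝ)| ≤ M := hqa.trans hM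
  rw [abs_le] at hpN hqM
  simp only [Finset.coe_product, Set.mem_prod, Finset.mem_coe, Finset.mem_Icc]
  refine ⟨⟨?_, ?_⟩, ⟨?_, ?_⟩⟩
  · exact_mod_cast hpN.1
  · exact_mod_cast hpN.2
  · exact_mod_cast hqM.1
  · exact_mod_cast hqM.2

/-- entrywise integrality -/
def LbInt (A A' : Matrix (Fin 4) (Fin 4) ℝ) : Prop := ∀ i j, IsInt2 (A i j) (A' i j)

lemma LbInt.mul (h : LbInt A A') (h' : LbInt B B') : LbInt (A * B) (A' * B') := by
  intro i j
  rw [Matrix.mul_apply, Matrix.mul_apply]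
  exact IsInt2.sum _ fun k _ => (h i k).mul (h' k j)

lemma LbInt.add (h : LbInt A A') (h' : LbInt B B') : LbInt (A + B) (A' + B') := by
  intro i j
  exact (h i j).add (h' i j)

lemma LbInt.neg (h : LbInt A A') : LbInt (-A) (-A') := by
  intro i j
  exact (h i j).neg

lemma LbInt.smul (n : ℕ) (h : LbInt A A') : LbInt ((n : ℝ) • A) ((n : ℝ) • A') := by
  intro i j
  have : IsInt2 (n : ℝ) (n : ℝ) := by exact_mod_cast isInt2_int (n : ℤ)
  exact this.mul (h i j)

lemma LbInt.transpose (h : LbInt A A') : LbInt Aᵀ A'ᵀ := fun i j => h j i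

lemma lbInt_one : LbInt 1 1 := by
  intro i j
  by_cases h : i = j
  · subst h; simpa using isInt2_one
  · simpa [Matrix.one_apply_ne h] using isInt2_zero

lemma lbInt_diag {a b : ℝ} (h : IsInt2 a b) : LbInt (JJ (-a)) (JJ (-b)) := by
  intro i j
  by_cases hij : i = j
  · subst hij
    unfold JJ
    rw [Matrix.diagonal_apply_eq, Matrix.diagonal_apply_eq]
    fin_cases i
    · simpa using h
    · simpa using isInt2_one
    · simpa using isInt2_one
    · simpa using isInt2_one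
  · unfold JJ
    rw [Matrix.diagonal_apply_ne _ hij, Matrix.diagonal_apply_ne _ hij]
    exact isInt2_zero

lemma lbJJ_mul (a b : ℝ) (h : a * b = 1) : JJ a * JJ b = 1 := by
  unfold JJ
  rw [Matrix.diagonal_mul_diagonal, ← Matrix.diagonal_one]
  congr 1
  funext i
  fin_cases i <;> simp [h]

lemma lbJJ_tr (a : ℝ) : (JJ a)ᵀ = JJ a := by
  unfold JJ
  rw [Matrix.diagonal_transpose]

lemma lb_pres_mul {c : ℝ} (hA : Aᵀ * JJ c * A = JJ c) (hB : Bᵀ * JJ c * B = JJ c) :
    (A * B)ᵀ * JJ c * (A * B) = JJ c := by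
  rw [Matrix.transpose_mul]
  calc Bᵀ * Aᵀ * JJ c * (A * B) = Bᵀ * (Aᵀ * JJ c * A) * B := by
        simp only [Matrix.mul_assoc]
    _ = JJ c := by rw [hA, hB]

lemma lb_inv_mul {c d : ℝ} (hcd : c * d = 1) (hA : Aᵀ * JJ c * A = JJ c) :
    JJ d * Aᵀ * JJ c * A = 1 := by
  calc JJ d * Aᵀ * JJ c * A = JJ d * (Aᵀ * JJ c * A) := by simp only [Matrix.mul_assoc]
    _ = 1 := by rw [hA, lbJJ_mul d c (by rw [mul_comm]; exact hcd)]

lemma lb_mul_inv {c d : ℝ} (hcd : c * d = 1) (hA : Aᵀ * JJ c * A = JJ c) :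
    A * (JJ d * Aᵀ * JJ c) = 1 :=
  mul_eq_one_comm.1 (lb_inv_mul hcd hA)

lemma lb_inv_pres {c d : ℝ} (hcd : c * d = 1) (hA : Aᵀ * JJ c * A = JJ c) :
    (JJ d * Aᵀ * JJ c)ᵀ * JJ c * (JJ d * Aᵀ * JJ c) = JJ c := by
  have h1 := lb_mul_inv hcd hA
  generalize JJ d * Aᵀ * JJ c = C at h1 ⊢
  calc Cᵀ * JJ c * C = Cᵀ * (Aᵀ * JJ c * A) * C := by rw [hA]
    _ = (A * C)ᵀ * JJ c * (A * C) := by
      rw [Matrix.transpose_mul A C]; simp only [Matrix.mul_assoc]
    _ = JJ c := by rw [h1]; simp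

lemma lb_col {c : ℝ} (hA : Aᵀ * JJ c * A = JJ c) (j : Fin 4) :
    -c * A 0 j ^ 2 + A 1 j ^ 2 + A 2 j ^ 2 + A 3 j ^ 2 = JJ c j j := by
  have := congrFun (congrFun hA j) j
  rw [← this, Matrix.mul_apply]
  unfold JJ
  simp only [Matrix.mul_diagonal, Matrix.transpose_apply, Fin.sum_univ_four]
  simp
  ring

lemma lb_row {c d : ℝ} (hcd : c * d = 1) (hA : Aᵀ * JJ c * A = JJ c) :
    -d * A 0 0 ^ 2 + A 0 1 ^ 2 + A 0 2 ^ 2 + A 0 3 ^ 2 = -d := by
  have h1 : A * JJ d * Aᵀ = JJ d := by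
    have h2 : A * JJ d * Aᵀ * JJ c = 1 := by
      rw [← lb_mul_inv hcd hA]; simp only [Matrix.mul_assoc]
    calc A * JJ d * Aᵀ = A * JJ d * Aᵀ * (JJ c * JJ d) := by rw [lbJJ_mul c d hcd]; simp
      _ = A * JJ d * Aᵀ * JJ c * JJ d := by simp only [Matrix.mul_assoc]
      _ = JJ d := by rw [h2]; simp
  have h3 := congrFun (congrFun h1 0) 0
  rw [Matrix.mul_apply] at h3
  unfold JJ at h3
  simp only [Matrix.mul_diagonal, Matrix.transpose_apply, Fin.sum_univ_four] at h3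
  simp at h3
  linarith

lemma lb_pos_mul {c d : ℝ} (hc : 0 < c) (hcd : c * d = 1) (hA : Aᵀ * JJ c * A = JJ c)
    (hB : Bᵀ * JJ c * B = JJ c) (hA0 : 0 < A 0 0) (hB0 : 0 < B 0 0) : 0 < (A * B) 0 0 := by
  have hr := lb_row hcd hA
  have hb := lb_col hB 0
  have hJ : JJ c 0 0 = -c := by simp [JJ]
  rw [hJ] at hb
  have hd : 0 < d := by
    by_contra hd
    push Not at hd
    nlinarith [mul_nonneg hc.le (neg_nonneg.2 hd)]
  have hAr : A 0 1 ^ 2 + A 0 2 ^ 2 + A 0 3 ^ 2 = d * (A 0 0 ^ 2 - 1) := by linarith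
  have hBc : B 1 0 ^ 2 + B 2 0 ^ 2 + B 3 0 ^ 2 = c * (B 0 0 ^ 2 - 1) := by linarith
  have hprod : (A 0 1 * B 1 0 + A 0 2 * B 2 0 + A 0 3 * B 3 0) ^ 2 ≤
      (A 0 0 ^ 2 - 1) * (B 0 0 ^ 2 - 1) := by
    have h1 : (A 0 1 * B 1 0 + A 0 2 * B 2 0 + A 0 3 * B 3 0) ^ 2 ≤
        (A 0 1 ^ 2 + A 0 2 ^ 2 + A 0 3 ^ 2) * (B 1 0 ^ 2 + B 2 0 ^ 2 + B 3 0 ^ 2) := by
      nlinarith [sq_nonneg (A 0 1 * B 2 0 - A 0 2 * B 1 0),
        sq_nonneg (A 0 1 * B 3 0 - A 0 3 * B 1 0), sq_nonneg (A 0 2 * B 3 0 - A 0 3 * B 2 0)]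
    rw [hAr, hBc] at h1
    have h2 : d * (A 0 0 ^ 2 - 1) * (c * (B 0 0 ^ 2 - 1)) =
        (c * d) * ((A 0 0 ^ 2 - 1) * (B 0 0 ^ 2 - 1)) := by ring
    rw [h2, hcd, one_mul] at h1
    exact h1
  have hA1 : 0 ≤ A 0 0 ^ 2 - 1 := by
    by_contra h
    push Not at h
    nlinarith [sq_nonneg (A 0 1), sq_nonneg (A 0 2), sq_nonneg (A 0 3), mul_pos hd (neg_pos.2 h)]
  have hB1 : 0 ≤ B 0 0 ^ 2 - 1 := by
    by_contra h
    push Not at h
    nlinarith [sq_nonneg (B 1 0), sq_nonneg (B 2 0), sq_nonneg (B 3 0), mul_pos hc (neg_pos.2 h)]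
  rw [Matrix.mul_apply, Fin.sum_univ_four]
  have hlt : (A 0 1 * B 1 0 + A 0 2 * B 2 0 + A 0 3 * B 3 0) ^ 2 < (A 0 0 * B 0 0) ^ 2 := by
    nlinarith
  have h4 := abs_lt_of_sq_lt_sq hlt (mul_pos hA0 hB0).le
  rw [abs_lt] at h4
  linarith [h4.1]

lemma lb_gr_gc : gr * (-gc) = 1 := by
  have := lb_mul
  linarith

lemma IsO.one : IsO 1 1 := by
  refine ⟨lbInt_one, ?_, ?_, ?_⟩ <;> simp

lemma IsO.mul (h : IsO A A') (h' : IsO B B') : IsO (A * B) (A' * B') := by
  refine ⟨LbInt.mul h.int h'.int, lb_pres_mul h.pres h'.pres, lb_pres_mul h.pres' h'.pres', ?_⟩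
  exact lb_pos_mul Real.goldenRatio_pos lb_gr_gc h.pres h'.pres h.pos h'.pos

lemma IsO.inv (h : IsO A A') : ∃ B B', IsO B B' ∧ A * B = 1 ∧ B * A = 1 ∧ A' * B' = 1 ∧
    B' * A' = 1 := by
  have h1 : gr * (-gc) = 1 := lb_gr_gc
  have h2 : gc * (-gr) = 1 := by rw [← h1]; ring
  refine ⟨JJ (-gc) * Aᵀ * JJ gr, JJ (-gr) * A'ᵀ * JJ gc, ⟨?_, ?_, ?_, ?_⟩,
    lb_mul_inv h1 h.pres, lb_inv_mul h1 h.pres, lb_mul_inv h2 h.pres', lb_inv_mul h2 h.pres'⟩
  · have e1 : IsInt2 gc gr := ⟨1, -1, by push_cast; linarith [lb_add],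
      by push_cast; linarith [lb_add]⟩
    have e2 : IsInt2 (-gr) (-gc) := isInt2_gr.neg
    have e3 := lbInt_diag e2
    rw [neg_neg, neg_neg] at e3
    exact ((lbInt_diag e1).mul (LbInt.transpose h.int)).mul e3
  · exact lb_inv_pres h1 h.pres
  · exact lb_inv_pres h2 h.pres'
  · have : (JJ (-gc) * Aᵀ * JJ gr) 0 0 = A 0 0 := by
      unfold JJ
      rw [Matrix.mul_diagonal, Matrix.diagonal_mul]
      simp
      linear_combination (-A 0 0) * lb_mul
    rw [this]
    exact h.pos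

lemma lev_iff {n : ℝ} : Lev n A A' ↔ ∃ X X', LbInt X X' ∧ A = 1 + n • X ∧ A' = 1 + n • X' := by
  constructor
  · intro h
    choose X X' hX h1 h2 using h
    refine ⟨Matrix.of X, Matrix.of X', fun i j => hX i j, ?_, ?_⟩
    · ext i j
      rw [h1 i j]
      simp
    · ext i j
      rw [h2 i j]
      simp
  · rintro ⟨X, X', hX, rfl, rfl⟩ i j
    exact ⟨X i j, X' i j, hX i j, by simp, by simp⟩

lemma Lev.one (n : ℝ) : Lev n 1 1 := by
  intro i j
  exact ⟨0, 0, isInt2_zero, by simp, by simp⟩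

lemma Lev.mul {n : ℕ} (h : Lev n A A') (h' : Lev n B B') : Lev n (A * B) (A' * B') := by
  rw [lev_iff] at h h' ⊢
  obtain ⟨X, X', hX, rfl, rfl⟩ := h
  obtain ⟨Y, Y', hY, rfl, rfl⟩ := h'
  refine ⟨X + Y + (n : ℝ) • (X * Y), X' + Y' + (n : ℝ) • (X' * Y'),
    (hX.add hY).add ((hX.mul hY).smul n), ?_, ?_⟩
  · simp only [add_mul, mul_add, one_mul, mul_one, smul_add, Matrix.smul_mul, Matrix.mul_smul]
    abel
  · simp only [add_mul, mul_add, one_mul, mul_one, smul_add, Matrix.smul_mul, Matrix.mul_smul]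
    abel

lemma Lev.inv {n : ℕ} (hA : IsO A A') (hB : IsO B B') (h : Lev n A A') (h1 : A * B = 1)
    (h2 : A' * B' = 1) : Lev n B B' := by
  rw [lev_iff] at h ⊢
  obtain ⟨X, X', hX, hX1, hX2⟩ := h
  refine ⟨-(X * B), -(X' * B'), (hX.mul hB.int).neg, ?_, ?_⟩
  · rw [← h1, hX1]
    simp only [add_mul, one_mul, smul_neg, Matrix.smul_mul]
    abel
  · rw [← h2, hX2]
    simp only [add_mul, one_mul, smul_neg, Matrix.smul_mul]
    abel

lemma lb_gc_neg : gc < 0 := Real.goldenConj_neg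

lemma lb_gc_gt : -1 < gc := Real.neg_one_lt_goldenConj

/-- the conjugate matrix preserves a definite form -/
lemma IsO.diag_le (h : IsO A A') (i : Fin 4) : |A' i i| ≤ 1 := by
  have h1 := lb_col h.pres' i
  have hg := lb_gc_neg
  rw [abs_le_one_iff_mul_self_le_one]
  fin_cases i
  · simp [JJ] at h1 ⊢
    nlinarith [sq_nonneg (A' 1 0), sq_nonneg (A' 2 0), sq_nonneg (A' 3 0), sq_nonneg (A' 0 0)]
  · simp [JJ] at h1 ⊢
    nlinarith [sq_nonneg (A' 1 1), sq_nonneg (A' 2 1), sq_nonneg (A' 3 1), sq_nonneg (A' 0 1),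
      mul_nonneg (neg_pos.2 hg).le (sq_nonneg (A' 0 1))]
  · simp [JJ] at h1 ⊢
    nlinarith [sq_nonneg (A' 1 2), sq_nonneg (A' 2 2), sq_nonneg (A' 3 2), sq_nonneg (A' 0 2),
      mul_nonneg (neg_pos.2 hg).le (sq_nonneg (A' 0 2))]
  · simp [JJ] at h1 ⊢
    nlinarith [sq_nonneg (A' 1 3), sq_nonneg (A' 2 3), sq_nonneg (A' 3 3), sq_nonneg (A' 0 3),
      mul_nonneg (neg_pos.2 hg).le (sq_nonneg (A' 0 3))]

lemma IsO.entry_le (h : IsO A A') (i j : Fin 4) : |A' i j| ≤ 2 := by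
  have h1 := lb_col h.pres' j
  have hg := lb_gc_neg
  have hg1 := lb_gc_gt
  have hJ : JJ gc j j ≤ 1 := by
    fin_cases j <;> simp [JJ]
    linarith
  have hg2 : (1 : ℝ) / 4 ≤ -gc := by
    have h2 : gr < 2 := Real.goldenRatio_lt_two
    have h3 := lb_gr_gc
    nlinarith
  have hm := mul_nonneg (neg_pos.2 hg).le (sq_nonneg (A' 0 j))
  apply abs_le_of_sq_le_sq _ (by norm_num)
  have hm2 := mul_le_mul_of_nonneg_right hg2 (sq_nonneg (A' 0 j))
  fin_cases i <;> simp only [Fin.zero_eta, Fin.mk_one, Fin.reduceFinMk] <;>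
    nlinarith [sq_nonneg (A' 1 j), sq_nonneg (A' 2 j), sq_nonneg (A' 3 j), sq_nonneg (A' 0 j)]

lemma IsO.col (h : IsO A A') (h1 : A' 1 1 = 1) (i : Fin 4) (hi : i ≠ 1) : A i 1 = 0 := by
  have h2 := lb_col h.pres' 1
  have hg := lb_gc_neg
  rw [h1] at h2
  have hJ : JJ gc 1 1 = 1 := by simp [JJ]
  rw [hJ] at h2
  have hz : A' i 1 = 0 := by
    have hm := mul_nonneg (neg_pos.2 hg).le (sq_nonneg (A' 0 1))
    have s2 := sq_nonneg (A' 2 1)
    have s3 := sq_nonneg (A' 3 1)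
    have e2 : A' 2 1 ^ 2 = 0 := by linarith
    have e3 : A' 3 1 ^ 2 = 0 := by linarith
    have e0 : -gc * A' 0 1 ^ 2 = 0 := by linarith
    have e0' : A' 0 1 ^ 2 = 0 := by
      rcases mul_eq_zero.1 e0 with h | h
      · linarith
      · exact h
    fin_cases i
    · simpa using e0'
    · exact absurd rfl hi
    · simpa using e2
    · simpa using e3
  rcases (h.int i 1).norm with h3 | h3
  · exact h3.1
  · rw [hz] at h3
    simp at h3
    linarith

lemma lb_sqrt_pos : 0 < Real.sqrt gr := Real.sqrt_pos.2 Real.goldenRatio_pos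

lemma lb_DD : (Matrix.diagonal ![(Real.sqrt gr)⁻¹, 1, 1, 1] : Matrix (Fin 4) (Fin 4) ℝ) *
    Matrix.diagonal ![Real.sqrt gr, 1, 1, 1] = 1 := by
  rw [Matrix.diagonal_mul_diagonal, ← Matrix.diagonal_one]
  congr 1
  have := lb_sqrt_pos.ne'
  generalize Real.sqrt gr = s at this
  funext i
  fin_cases i <;> simp [this]

lemma lb_DD' : (Matrix.diagonal ![Real.sqrt gr, 1, 1, 1] : Matrix (Fin 4) (Fin 4) ℝ) *
    Matrix.diagonal ![(Real.sqrt gr)⁻¹, 1, 1, 1] = 1 := mul_eq_one_comm.1 lb_DD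

lemma std_one : std 1 = 1 := by
  unfold std
  rw [Matrix.mul_one, lb_DD']

lemma std_mul : std (A * B) = std A * std B := by
  unfold std
  calc _ = Matrix.diagonal ![Real.sqrt gr, 1, 1, 1] * A * 1 * B *
        Matrix.diagonal ![(Real.sqrt gr)⁻¹, 1, 1, 1] := by
          simp only [Matrix.mul_assoc, Matrix.one_mul]
    _ = _ := by
          rw [← lb_DD]
          simp only [Matrix.mul_assoc]

lemma std_apply (i j : Fin 4) : std A i j =
    (![Real.sqrt gr, 1, 1, 1] : Fin 4 → ℝ) i * A i j * (![(Real.sqrt gr)⁻¹, 1, 1, 1] : Fin 4 → ℝ) j := by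
  unfold std
  rw [Matrix.mul_diagonal, Matrix.diagonal_mul]

lemma std_zero_zero : std A 0 0 = A 0 0 := by
  rw [std_apply]
  have := lb_sqrt_pos.ne'
  simp
  field_simp

lemma lb_eta (u v : V4) : eta u v = u ⬝ᵥ (JJ 1 *ᵥ v) := by
  unfold eta JJ
  simp only [dotProduct, Matrix.mulVec_diagonal, Fin.sum_univ_four]
  simp

lemma isLor_std (h : IsO A A') : IsLor (std A) := by
  refine ⟨fun u v => ?_, ?_⟩
  · rw [lb_eta, lb_eta, Matrix.mulVec_mulVec, ← Matrix.vecMul_transpose, ← Matrix.dotProduct_mulVec,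
      Matrix.mulVec_mulVec]
    congr 1
    congr 1
    have hJ : JJ 1 = Matrix.diagonal ![(Real.sqrt gr)⁻¹, 1, 1, 1] * JJ gr *
        Matrix.diagonal ![(Real.sqrt gr)⁻¹, 1, 1, 1] := by
      unfold JJ
      rw [Matrix.diagonal_mul_diagonal, Matrix.diagonal_mul_diagonal]
      congr 1
      have h1 := lb_sqrt_pos.ne'
      have h2 : Real.sqrt gr * Real.sqrt gr = gr := Real.mul_self_sqrt Real.goldenRatio_pos.le
      generalize Real.sqrt gr = s at h1 h2
      generalize gr = t at h2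
      funext i
      fin_cases i <;> simp
      field_simp
      nlinarith
    have hJ' : JJ gr = Matrix.diagonal ![Real.sqrt gr, 1, 1, 1] * JJ 1 *
        Matrix.diagonal ![Real.sqrt gr, 1, 1, 1] := by
      rw [hJ]
      calc JJ gr = 1 * JJ gr * 1 := by simp
        _ = _ := by
          rw [← lb_DD]
          nth_rw 1 [lb_DD, ← lb_DD']
          simp only [Matrix.mul_assoc]
    have ht1 : (Matrix.diagonal ![(Real.sqrt gr)⁻¹, 1, 1, 1] : Matrix (Fin 4) (Fin 4) ℝ)ᵀ =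
      Matrix.diagonal ![(Real.sqrt gr)⁻¹, 1, 1, 1] := Matrix.diagonal_transpose _
    have ht2 : (Matrix.diagonal ![Real.sqrt gr, 1, 1, 1] : Matrix (Fin 4) (Fin 4) ℝ)ᵀ =
      Matrix.diagonal ![Real.sqrt gr, 1, 1, 1] := Matrix.diagonal_transpose _
    unfold std
    rw [Matrix.transpose_mul, Matrix.transpose_mul, ht1, ht2]
    calc _ = Matrix.diagonal ![(Real.sqrt gr)⁻¹, 1, 1, 1] * (Aᵀ *
          (Matrix.diagonal ![Real.sqrt gr, 1, 1, 1] * JJ 1 *
            Matrix.diagonal ![Real.sqrt gr, 1, 1, 1]) * A) *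
          Matrix.diagonal ![(Real.sqrt gr)⁻¹, 1, 1, 1] := by simp only [Matrix.mul_assoc]
      _ = JJ 1 := by rw [← hJ', h.pres, ← hJ]
  · rw [std_zero_zero]
    exact h.pos

lemma std_inj (h : std A = std B) : A = B := by
  unfold std at h
  have h1 := congrArg (fun M => Matrix.diagonal ![(Real.sqrt gr)⁻¹, 1, 1, 1] * M *
    Matrix.diagonal ![Real.sqrt gr, 1, 1, 1]) h
  have key : ∀ M : Matrix (Fin 4) (Fin 4) ℝ, Matrix.diagonal ![(Real.sqrt gr)⁻¹, 1, 1, 1] *
      (Matrix.diagonal ![Real.sqrt gr, 1, 1, 1] * M *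
        Matrix.diagonal ![(Real.sqrt gr)⁻¹, 1, 1, 1]) *
      Matrix.diagonal ![Real.sqrt gr, 1, 1, 1] = M := by
    intro M
    calc _ = (Matrix.diagonal ![(Real.sqrt gr)⁻¹, 1, 1, 1] *
      Matrix.diagonal ![Real.sqrt gr, 1, 1, 1]) * M *
        (Matrix.diagonal ![(Real.sqrt gr)⁻¹, 1, 1, 1] *
      Matrix.diagonal ![Real.sqrt gr, 1, 1, 1]) := by simp only [Matrix.mul_assoc]
      _ = M := by rw [lb_DD]; simp
  rw [key, key] at h1
  exact h1

end Pool.Agent.Lib.MP_529713_gt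
end
end
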